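import Pool.Agent.H467.PU.Spec

/-!
# The complete law: tightness, statements

Project PU (helper467).
-/

set_option autoImplicit false
set_option linter.all false

open Finset Filter
open scoped Classical

namespace Pool.Agent.H467.PU

/-- Finitely many families with the limiting distributions `alq`: for almost all elements `s` is
bounded. -/
def S_TGT : Prop := ∀ (α : Type) (A : ℕ → Set α) (U : Finset ℤ) (T : ℤ → Set α) (E : ℕ → Set α),
  (∀ X, (A X).Finite) → (∀ X, ∀ x ∈ A X, ∃ u ∈ U, x ∈ T u) →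
  (∀ u ∈ U, (∀ X, A X ∩ T u = ∅) ∨ ((∀ᶠ X in atTop, (A X ∩ T u).Nonempty) ∧
    ∀ r s : ℕ, (s : ℤ) = r + u →
      Tendsto (fun X => ((A X ∩ T u ∩ E s).ncard : ℝ) / ((A X ∩ T u).ncard : ℝ)) atTop
        (nhds (alq s r)))) →
  (∀ s s', s ≠ s' → Disjoint (E s) (E s')) →
  ∀ ε : ℝ, 0 < ε → ∃ R : ℕ, ∀ᶠ X in atTop,
    (1 - ε) * ((A X).ncard : ℝ) ≤ ((A X ∩ ⋃ s ∈ Finset.range (R + 1), E s).ncard : ℝ)

end Pool.Agent.H467.PU
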