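import Pool.Agent.H467.PU.Spec2
import Pool.Agent.H467.PU.Spec3
import Pool.Agent.H467.PG.Asm

/-!
# The complete law: assembly

Project PU (helper467).
-/

set_option autoImplicit false
set_option linter.all false

open Finset Filter WithZero
open Pool.Agent.TH115.GD
open Pool.Agent.H467.PT
open Pool.Agent.H467.GK
open Pool.Agent.H467.CT (AS Bas IsTau Std Ev LV LF cc)
open Pool.Agent.H467.PG
open Pool.Agent.H467.PG.Asm
open scoped Classical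

namespace Pool.Agent.H467.PU.Asmw

section dm

variable {K : Type} [Field K] [CharP K 2]

/-- The dimension of the local image. -/
noncomputable def dmn (b : K) (j : PV K) (χ : Qc K) : ℕ := sInf {n : ℕ | LW j (Wl b j χ) n}

theorem dmn_spec (hLWX : S_LWX) (j : PV K)
    (hf : Finite (IsLocalRing.ResidueField j.1.valuationSubring)) {b : K} (hb : b ≠ 0)
    (χ : Qc K) : LW j (Wl b j χ) (dmn b j χ) :=
  Nat.sInf_mem ((hLWX K j hf b hb).1 χ)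

theorem dmn_eq (hLWX : S_LWX) (j : PV K)
    (hf : Finite (IsLocalRing.ResidueField j.1.valuationSubring)) {b : K} (hb : b ≠ 0)
    {χ χ' : Qc K} (h : Spl j (χ + χ')) : dmn b j χ = dmn b j χ' := by
  unfold dmn
  rw [(hLWX K j hf b hb).2.1 χ χ' h]

theorem dmn_uniq (hLWX : S_LWX) (j : PV K)
    (hf : Finite (IsLocalRing.ResidueField j.1.valuationSubring)) {b : K} (hb : b ≠ 0)
    {χ : Qc K} {n : ℕ} (h : LW j (Wl b j χ) n) : dmn b j χ = n :=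
  (hLWX K j hf b hb).2.2.2.2.2 _ _ _ (dmn_spec hLWX j hf hb χ) h

theorem dmn_bal (hLWX : S_LWX) (j : PV K)
    (hf : Finite (IsLocalRing.ResidueField j.1.valuationSubring)) {a b : K} (hb : b ≠ 0)
    (h : Bal j.1 a b) : dmn b j (mkq a) = 1 :=
  dmn_uniq hLWX j hf hb ((hLWX K j hf b hb).2.2.2.1 a h).1

/-- The excess of the local images is `u`. -/
def Ex (S : Finset (PV K)) (b : K) (χ : Qc K) (u : ℤ) : Prop :=
  (∑ j ∈ S, (dmn b j χ : ℤ)) = S.card + u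

/-- The Selmer group. -/
def Sl (S : Finset (PV K)) (b : K) (χ : Qc K) : Set (Qc K) := SVL S (fun j => Wl b j χ) χ

end dm

theorem add4 {K : Type} [Field K] [CharP K 2] (χ χ' : Qc K) (a : K) :
    χ + mkq a + (χ' + mkq a) = χ + χ' := by
  have : χ + mkq a + (χ' + mkq a) = χ + χ' + (mkq a + mkq a) := by abel
  rw [this, mkq_self, add_zero]

theorem total (hDSTC : S_DSTC) (hDSTW : S_DSTW) (hLWX : S_LWX) (k K : Type) [Field k] [Finite k]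
    [CharP k 2] [Field K] [CharP K 2] [Algebra k K] (hK : IsFF k K) (F : GF k K) (a₀ b : K)
    (hb : b ≠ 0) (S : Finset (PV K)) (hS1 : F.B₁ ⊆ S) (hS2 : ∀ j : PV K, j ∉ S → j.1 a₀ ≤ 1)
    (P : Qc K → Prop) (hP : ∀ χ χ', (∀ j ∈ S, Spl j (χ + χ')) → P χ → P χ') (u : ℤ)
    (hne : ∃ χ, P χ ∧ Ex S b (χ + mkq a₀) u) :
    (∃ C : ℝ, 0 < C ∧ ∀ m : ℕ, {χ : Qc K | DegLE F.R χ m}.Finite ∧
      ({χ : Qc K | DegLE F.R χ m}.ncard : ℝ) ≤ C * (Nat.card k : ℝ) ^ (2 * m)) ∧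
    (∃ c' : ℝ, 0 < c' ∧ ∃ m₀ : ℕ, ∀ m, m₀ ≤ m → c' * (Nat.card k : ℝ) ^ (2 * m) ≤
      ({χ : Qc K | (P χ ∧ Ex S b (χ + mkq a₀) u) ∧ DegLE F.R χ m}.ncard : ℝ)) ∧
    ∀ r s : ℕ, (s : ℤ) = r + u → Tendsto (fun m : ℕ =>
      ({χ : Qc K | ((P χ ∧ Ex S b (χ + mkq a₀) u) ∧ DegLE F.R χ m) ∧
        (Sl S b (χ + mkq a₀)).ncard = 2 ^ (s + 1)}.ncard : ℝ) /
      ({χ : Qc K | (P χ ∧ Ex S b (χ + mkq a₀) u) ∧ DegLE F.R χ m}.ncard : ℝ)) atTop
      (nhds (alq s r)) := by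
  have hf : ∀ j : PV K, Finite (IsLocalRing.ResidueField j.1.valuationSubring) := fin_res F.R
  let P' : Qc K → Prop := fun χ => P (χ + mkq a₀) ∧ Ex S b χ u
  have hP' : ∀ χ χ', (∀ j ∈ S, Spl j (χ + χ')) → P' χ → P' χ' := by
    rintro χ χ' h ⟨h1, h2⟩
    refine ⟨hP _ _ (fun j hj => ?_) h1, ?_⟩
    · rw [add4]
      exact h j hj
    · unfold Ex at h2 ⊢
      rw [← h2]
      exact Finset.sum_congr rfl fun j hj => by rw [dmn_eq hLWX j (hf j) hb (h j hj)]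
  have hne' : ∃ χ, P' χ := by
    obtain ⟨χ, h1, h2⟩ := hne
    exact ⟨χ + mkq a₀, by rw [add_add_self]; exact h1, h2⟩
  obtain ⟨⟨C, hC, h1⟩, ⟨c', hc', m₀, h2⟩⟩ := hDSTC k K hK F a₀ S hS1 hS2 P' hP' hne'
  have e1 : ∀ m, {χ : Qc K | DegLE F.R χ m} =
      {χ : Qc K | (fun χ' => DegLE F.R (χ' + mkq a₀) m) (χ + mkq a₀)} := by
    intro m
    ext χ
    simp only [Set.mem_setOf_eq, add_add_self]
  have e2 : ∀ m, {χ : Qc K | (P χ ∧ Ex S b (χ + mkq a₀) u) ∧ DegLE F.R χ m} =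
      {χ : Qc K | (fun χ' => P' χ' ∧ DegLE F.R (χ' + mkq a₀) m) (χ + mkq a₀)} := by
    intro m
    ext χ
    simp only [Set.mem_setOf_eq, add_add_self, P']
  have e3 : ∀ m s, {χ : Qc K | ((P χ ∧ Ex S b (χ + mkq a₀) u) ∧ DegLE F.R χ m) ∧
        (Sl S b (χ + mkq a₀)).ncard = 2 ^ (s + 1)} =
      {χ : Qc K | (fun χ' => (P' χ' ∧ DegLE F.R (χ' + mkq a₀) m) ∧
        (Sl S b χ').ncard = 2 ^ (s + 1)) (χ + mkq a₀)} := by
    intro m s
    ext χ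
    simp only [Set.mem_setOf_eq, add_add_self, P']
  refine ⟨⟨C, hC, fun m => ?_⟩, ⟨c', hc', m₀, fun m hm => ?_⟩, fun r s hrs => ?_⟩
  · rw [e1 m, ncard_shift a₀ (fun χ' => DegLE F.R (χ' + mkq a₀) m)]
    exact ⟨finite_shift a₀ _ (h1 m).1, (h1 m).2⟩
  · rw [e2 m, ncard_shift a₀ (fun χ' => P' χ' ∧ DegLE F.R (χ' + mkq a₀) m)]
    exact h2 m hm
  · have h3 := hDSTW k K hK F a₀ S hS1 hS2 P' hP' hne' (fun j χ => Wl b j χ) (fun j χ => dmn b j χ)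
      (fun j _ χ => dmn_spec hLWX j (hf j) hb χ) (fun j _ χ χ' h => (hLWX K j (hf j) b hb).2.1 χ χ' h)
      (fun j _ χ => (hLWX K j (hf j) b hb).2.2.1 χ) r s (by
        rintro χ ⟨-, h4⟩
        unfold Ex at h4
        have h5 : ((∑ j ∈ S, dmn b j χ : ℕ) : ℤ) = S.card + u := by
          push_cast
          exact h4
        omega)
    refine h3.congr fun m => ?_
    rw [e2 m, e3 m s, ncard_shift a₀ (fun χ' => P' χ' ∧ DegLE F.R (χ' + mkq a₀) m),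
      ncard_shift a₀ (fun χ' => (P' χ' ∧ DegLE F.R (χ' + mkq a₀) m) ∧
        (Sl S b χ').ncard = 2 ^ (s + 1))]
    rfl

section conv

variable {k K : Type} [Field k] [Finite k] [Field K] [CharP K 2] [Algebra k K]

theorem e0 (hPOQ : S_POQ) (hHSD : S_HSD) (F : GF k K) {X : ℕ} (hX : 1 ≤ X) (χ : Qc K) :
    (∃ a, mkq a = χ ∧ cN a ≤ X) ↔ DegLE F.R χ (Nat.log (Nat.card k ^ 2) X) := by
  constructor
  · rintro ⟨a, rfl, h⟩
    exact (cN_le_iff hPOQ hHSD F.R a hX).1 h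
  · intro h
    obtain ⟨a, rfl⟩ := mkq_surj χ
    exact ⟨a, rfl, (cN_le_iff hPOQ hHSD F.R a hX).2 h⟩

variable (k) in
theorem tlog : Tendsto (fun X : ℕ => Nat.log (Nat.card k ^ 2) X) atTop atTop := by
  have hq : 1 < Nat.card k := Nat.one_lt_iff_ne_zero_and_ne_one.2 ⟨Nat.card_pos.ne', by
    intro h
    have := Finite.one_lt_card (α := k)
    omega⟩
  have hq2 : 1 < Nat.card k ^ 2 := by nlinarith
  refine tendsto_atTop.2 fun m => ?_
  filter_upwards [eventually_ge_atTop ((Nat.card k ^ 2) ^ m)] with X hX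
  exact (Nat.le_log_iff_pow_le hq2 (by
    have : 0 < (Nat.card k ^ 2) ^ m := by positivity
    omega)).2 hX

variable (k) in
theorem qle (X : ℕ) (hX : 1 ≤ X) :
    (Nat.card k : ℝ) ^ (2 * Nat.log (Nat.card k ^ 2) X) ≤ X := by
  have h4 := Nat.pow_log_le_self (Nat.card k ^ 2) (x := X) (by omega)
  rw [← pow_mul] at h4
  exact_mod_cast h4

variable (k) in
theorem qge (X : ℕ) : (X : ℝ) ≤
    (Nat.card k : ℝ) ^ 2 * (Nat.card k : ℝ) ^ (2 * Nat.log (Nat.card k ^ 2) X) := by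
  have hq : 1 < Nat.card k := Finite.one_lt_card
  have hq2 : 1 < Nat.card k ^ 2 := by nlinarith
  have h4 := Nat.lt_pow_succ_log_self hq2 X
  have h5 : (Nat.card k ^ 2) ^ (Nat.log (Nat.card k ^ 2) X).succ =
      Nat.card k ^ 2 * Nat.card k ^ (2 * Nat.log (Nat.card k ^ 2) X) := by
    rw [← pow_mul, ← pow_add]
    congr 1
    simp only [Nat.succ_eq_add_one]
    ring
  rw [h5] at h4
  exact_mod_cast h4.le

theorem conv1 (hPOQ : S_POQ) (hHSD : S_HSD) (F : GF k K)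
    (h : ∃ C : ℝ, 0 < C ∧ ∀ m : ℕ, {χ : Qc K | DegLE F.R χ m}.Finite ∧
      ({χ : Qc K | DegLE F.R χ m}.ncard : ℝ) ≤ C * (Nat.card k : ℝ) ^ (2 * m)) :
    ∃ C : ℝ, ∀ X : ℕ, {χ : Qc K | ∃ a, mkq a = χ ∧ cN a ≤ X}.Finite ∧
      ({χ : Qc K | ∃ a, mkq a = χ ∧ cN a ≤ X}.ncard : ℝ) ≤ C * X := by
  obtain ⟨C, hC, h1⟩ := h
  refine ⟨C, fun X => ?_⟩
  rcases Nat.eq_zero_or_pos X with rfl | hX
  · have h5 : {χ : Qc K | ∃ a, mkq a = χ ∧ cN a ≤ 0} = ∅ := by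
      ext χ
      constructor
      · rintro ⟨a, rfl, h⟩
        exfalso
        obtain ⟨D, hD⟩ := hasD_ex hHSD F.R (mkq a)
        rw [cN_eq hPOQ F.R a D hD] at h
        have : 0 < Nat.card k ^ (2 * D.sum fun j n => n * F.R.deg j) := pow_pos Nat.card_pos _
        omega
      · intro h
        exact absurd h (Set.notMem_empty χ)
    rw [h5]
    simp
  · have h5 : {χ : Qc K | ∃ a, mkq a = χ ∧ cN a ≤ X} =
        {χ : Qc K | DegLE F.R χ (Nat.log (Nat.card k ^ 2) X)} := by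
      ext χ
      exact e0 hPOQ hHSD F hX χ
    rw [h5]
    exact ⟨(h1 _).1, (h1 _).2.trans (mul_le_mul_of_nonneg_left (qle k X hX) hC.le)⟩

theorem conv2 (hPOQ : S_POQ) (hHSD : S_HSD) (F : GF k K) (Q : Qc K → Prop)
    (h : ∃ c' : ℝ, 0 < c' ∧ ∃ m₀ : ℕ, ∀ m, m₀ ≤ m → c' * (Nat.card k : ℝ) ^ (2 * m) ≤
      ({χ : Qc K | Q χ ∧ DegLE F.R χ m}.ncard : ℝ)) :
    ∃ c' : ℝ, 0 < c' ∧ ∀ᶠ X : ℕ in atTop, c' * (X : ℝ) ≤
      ({χ : Qc K | (∃ a, mkq a = χ ∧ cN a ≤ X) ∧ Q χ}.ncard : ℝ) := by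
  obtain ⟨c', hc', m₀, h2⟩ := h
  have hq : 1 < Nat.card k := Finite.one_lt_card
  have hqR : (1 : ℝ) < (Nat.card k : ℝ) := by exact_mod_cast hq
  have hq0 : (0 : ℝ) < (Nat.card k : ℝ) ^ 2 := pow_pos (by linarith) 2
  refine ⟨c' / (Nat.card k : ℝ) ^ 2, div_pos hc' hq0, ?_⟩
  filter_upwards [(tlog k).eventually (eventually_ge_atTop m₀), eventually_ge_atTop 1] with X hX hX1
  have h5 : {χ : Qc K | (∃ a, mkq a = χ ∧ cN a ≤ X) ∧ Q χ} =
      {χ : Qc K | Q χ ∧ DegLE F.R χ (Nat.log (Nat.card k ^ 2) X)} := by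
    ext χ
    simp only [Set.mem_setOf_eq, e0 hPOQ hHSD F hX1 χ]
    exact and_comm
  rw [h5]
  refine le_trans ?_ (h2 _ hX)
  rw [div_mul_eq_mul_div, div_le_iff₀ hq0]
  calc c' * (X : ℝ) ≤ c' * ((Nat.card k : ℝ) ^ 2 *
        (Nat.card k : ℝ) ^ (2 * Nat.log (Nat.card k ^ 2) X)) :=
        mul_le_mul_of_nonneg_left (qge k X) hc'.le
    _ = _ := by ring

theorem conv3 (hPOQ : S_POQ) (hHSD : S_HSD) (F : GF k K) (Q Q' : Qc K → Prop) (l : ℝ)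
    (h : Tendsto (fun m : ℕ => ({χ : Qc K | (Q χ ∧ DegLE F.R χ m) ∧ Q' χ}.ncard : ℝ) /
      ({χ : Qc K | Q χ ∧ DegLE F.R χ m}.ncard : ℝ)) atTop (nhds l)) :
    Tendsto (fun X : ℕ =>
      ({χ : Qc K | ((∃ a, mkq a = χ ∧ cN a ≤ X) ∧ Q χ) ∧ Q' χ}.ncard : ℝ) /
      ({χ : Qc K | (∃ a, mkq a = χ ∧ cN a ≤ X) ∧ Q χ}.ncard : ℝ)) atTop (nhds l) := by
  refine (h.comp (tlog k)).congr' ?_
  filter_upwards [eventually_ge_atTop 1] with X hX1
  have h5 : {χ : Qc K | (∃ a, mkq a = χ ∧ cN a ≤ X) ∧ Q χ} =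
      {χ : Qc K | Q χ ∧ DegLE F.R χ (Nat.log (Nat.card k ^ 2) X)} := by
    ext χ
    simp only [Set.mem_setOf_eq, e0 hPOQ hHSD F hX1 χ]
    exact and_comm
  have h6 : {χ : Qc K | ((∃ a, mkq a = χ ∧ cN a ≤ X) ∧ Q χ) ∧ Q' χ} =
      {χ : Qc K | (Q χ ∧ DegLE F.R χ (Nat.log (Nat.card k ^ 2) X)) ∧ Q' χ} := by
    ext χ
    simp only [Set.mem_setOf_eq, e0 hPOQ hHSD F hX1 χ]
    tauto
  rw [h5, h6]
  rfl

end conv

/-- The supports. -/
theorem sup_ex {k K : Type} [Field k] [Field K] [CharP K 2] [Algebra k K] (F : GF k K) (x : K) :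
    ∃ s : Finset (PV K), ∀ j : PV K, j ∉ s → j.1 x ≤ 1 ∧ (x ≠ 0 → j.1 x = 1) := by
  by_cases hx : x = 0
  · exact ⟨∅, fun j _ => ⟨by rw [hx, map_zero]; exact zero_le_one, fun h => absurd hx h⟩⟩
  · obtain ⟨D, hD, -⟩ := F.R.dvd x hx
    refine ⟨D.support, fun j hj => ?_⟩
    have h1 : j.1 x = 1 := by
      rw [hD j, Finsupp.notMem_support_iff.1 hj]
      exact exp_zero
    exact ⟨h1.le, fun _ => h1⟩

/-- The set of places. -/
theorem S_ex {k K : Type} [Field k] [Field K] [CharP K 2] [Algebra k K] (F : GF k K) (a₀ b : K)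
    (hb : b ≠ 0) (S₀ : Finset (PV K)) : ∃ S : Finset (PV K), F.B₁ ⊆ S ∧ S₀ ⊆ S ∧
      (∀ j : PV K, j ∉ S → j.1 a₀ ≤ 1) ∧ ∀ j : PV K, j ∉ S → j.1 b = 1 := by
  obtain ⟨s, hs⟩ := sup_ex F a₀
  obtain ⟨s', hs'⟩ := sup_ex F b
  refine ⟨F.B₁ ∪ s ∪ s' ∪ S₀, fun x hx => by simp [hx], fun x hx => by simp [hx],
    fun j hj => (hs j fun h => hj (by simp [h])).1, fun j hj => (hs' j fun h => hj (by
      simp [h])).2 hb⟩

/-- The excess does not depend on the set of places. -/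
theorem Ex_mono (hLWX : S_LWX) {k K : Type} [Field k] [Finite k] [Field K] [CharP K 2]
    [Algebra k K] (F : GF k K) {b : K} (hb : b ≠ 0) {S S' : Finset (PV K)} (h : S ⊆ S')
    (hS : ∀ j : PV K, j ∉ S → j.1 b = 1) (χ : Qc K) (u : ℤ) :
    Ex S b χ u ↔ Ex S' b χ u := by
  have hf : ∀ j : PV K, Finite (IsLocalRing.ResidueField j.1.valuationSubring) := fin_res F.R
  obtain ⟨a, rfl⟩ := mkq_surj χ
  have h1 : ∑ j ∈ S' \ S, (dmn b j (mkq a) : ℤ) = ((S' \ S).card : ℤ) := by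
    rw [Finset.card_eq_sum_ones, Nat.cast_sum]
    refine Finset.sum_congr rfl fun j hj => ?_
    rw [dmn_bal hLWX j (hf j) hb (Or.inl (hS j (Finset.mem_sdiff.1 hj).2))]
  unfold Ex
  have h2 := Finset.sum_sdiff h (f := fun j => (dmn b j (mkq a) : ℤ))
  have h3 := Finset.card_sdiff_add_card_eq_card h
  have h4 : ((S' \ S).card : ℤ) + S.card = S'.card := by exact_mod_cast h3
  constructor
  · intro h5
    rw [← h2, h1, h5]
    linarith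
  · intro h5
    rw [← h2, h1] at h5
    linarith

end Pool.Agent.H467.PU.Asmw
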