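import Pool.Agent.H467.PU.Lwx

/-!
# The number of elements of the local image

Project PU (helper467).
-/

set_option autoImplicit false
set_option linter.all false

open Finset WithZero
open Pool.Agent.H467.GK
open Pool.Agent.H467.CT
open Pool.Agent.H467.PG
open scoped Classical

namespace Pool.Agent.H467.PU.Crd

open Pool.Agent.H467.PG.Poq (mkq_iff mkq_add mkq_surj two poq_zero un_iff sp_iff le_exp spl_add
  spl_poq poq_eq_of)
open Pool.Agent.H467.PU.Lwx (LV_a LV_x hSp mem_Wl sp_of_mkq spl_self sum_sd)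

variable {K : Type} [Field K] [CharP K 2]

instance (j : PV K) : CharP (Cm j.1) 2 :=
  charP_of_injective_algebraMap (algebraMap K (Cm j.1)).injective 2

/-- The local image. -/
def LI (j : PV K) (a b : K) : Set (Qc (Cm j.1)) :=
  {β | ∀ α : Cm j.1, mkq α = β → LV (algebraMap K (Cm j.1) a) (algebraMap K (Cm j.1) b) α}

theorem mkq_AS {L : Type} [Field L] [CharP L 2] (x y : L) : mkq x = mkq y ↔ AS (x + y) := by
  have c2 : (2 : L) = 0 := CharTwo.two_eq_zero
  rw [mkq_iff]

theorem mkq_sum {n : ℕ} (x : Fin n → K) (T : Finset (Fin n)) :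
    (mkq (∑ i ∈ T, x i) : Qc K) = ∑ i ∈ T, mkq (x i) := by
  induction T using Finset.induction_on with
  | empty => rfl
  | insert i T hi ih =>
    rw [Finset.sum_insert hi, Finset.sum_insert hi, mkq_add, ih]

theorem card_LI (j : PV K) (a b : K) {n : ℕ} (h : LW j (Wl b j (mkq a)) n) :
    (LI j (a ^ 2) (b ^ 2)).ncard = 2 ^ n := by
  obtain ⟨e1, e2, e3⟩ := Hen.hen K j.1 j.2
  obtain ⟨w, hi, hw⟩ := h
  choose x hx using fun i => mkq_surj (w i)
  let y : Finset (Fin n) → K := fun T => ∑ i ∈ T, x i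
  have hy : ∀ T, mkq (y T) = ∑ i ∈ T, w i := by
    intro T
    rw [mkq_sum]
    exact Finset.sum_congr rfl fun i _ => hx i
  let f : Finset (Fin n) → Qc (Cm j.1) := fun T => mkq (algebraMap K (Cm j.1) (y T))
  have hinj : Function.Injective f := by
    intro T T' hTT
    have h1 : AS (algebraMap K (Cm j.1) (y T) + algebraMap K (Cm j.1) (y T')) :=
      (mkq_AS _ _).1 hTT
    rw [← map_add, ← hSp, sp_iff, mkq_add, hy, hy, sum_sd] at h1
    exact symmDiff_eq_bot.1 (hi _ h1)
  have hran : LI j (a ^ 2) (b ^ 2) = Set.range f := by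
    ext β
    constructor
    · intro hβ
      obtain ⟨α, rfl⟩ := mkq_surj β
      obtain ⟨c, hc⟩ := e3 α 1 one_ne_zero
      rw [map_one, map_one] at hc
      have h1 : AS (α + algebraMap K (Cm j.1) c) := by
        have := e2 _ hc
        rwa [sub_eq_add_neg, CharTwo.neg_eq] at this
      have h2 := LV_x h1 (hβ α rfl)
      have h3 : mkq c ∈ Wl b j (mkq a) := (mem_Wl b j a c).2 h2
      obtain ⟨T, hT⟩ := (hw _).1 h3
      refine ⟨T, ?_⟩
      rw [← hy, ← mkq_add, ← sp_iff, hSp, map_add] at hT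
      have h4 := AS_add h1 hT
      symm
      refine (mkq_AS _ _).2 ?_
      have c2 : (2 : Cm j.1) = 0 := CharTwo.two_eq_zero
      have e : α + algebraMap K (Cm j.1) c + (algebraMap K (Cm j.1) c +
          algebraMap K (Cm j.1) (y T)) = α + algebraMap K (Cm j.1) (y T) := by
        linear_combination (algebraMap K (Cm j.1) c) * c2
      rwa [e] at h4
    · rintro ⟨T, rfl⟩ α hα
      have h1 : AS (algebraMap K (Cm j.1) (y T) + α) := (mkq_AS _ _).1 hα.symm
      refine LV_x h1 ?_
      have h2 : mkq (y T) ∈ Wl b j (mkq a) := by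
        rw [hw]
        refine ⟨T, ?_⟩
        rw [hy]
        exact spl_self j _
      exact (mem_Wl b j a (y T)).1 h2
  rw [hran, ← Set.image_univ, Set.ncard_image_of_injective _ hinj, Set.ncard_univ,
    Nat.card_eq_fintype_card, Fintype.card_finset, Fintype.card_fin]

end Pool.Agent.H467.PU.Crd
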