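import Pool.Agent.H467.PU.Finw0
import Pool.Agent.H467.PU.Crd

/-!
# The complete law: assembly, second part

Project PU (helper467).
-/

set_option autoImplicit false
set_option linter.all false

open Finset Filter WithZero
open Pool.Agent.TH115.GD
open Pool.Agent.H467.PT
open Pool.Agent.H467.GK
open Pool.Agent.H467.CT (AS Bas IsTau Std Ev LV LF cc)
open Pool.Agent.H467.PG
open Pool.Agent.H467.PG.Asm
open scoped Classical

namespace Pool.Agent.H467.PU.Asmw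

open Pool.Agent.H467.PU.Finw (hLWX hDSTC hSVMW hFULC hONEW)
open Pool.Agent.H467.PG.Fin (hPOQ hSYM hHSD hGF)
open Pool.Agent.H467.PU.Crd (LI card_LI)

/-- The excess. -/
noncomputable def exc {K : Type} [Field K] [CharP K 2] (a b : K) : ℤ :=
  ∑ᶠ j : PV K, ((Nat.log 2 (LI j (a ^ 2) (b ^ 2)).ncard : ℤ) - 1)

section ex

variable {k K : Type} [Field k] [Finite k] [Field K] [CharP K 2] [Algebra k K]

theorem ncard_LI (F : GF k K) (a b : K) (hb : b ≠ 0) (j : PV K) :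
    (LI j (a ^ 2) (b ^ 2)).ncard = 2 ^ dmn b j (mkq a) :=
  card_LI j a b (dmn_spec hLWX j (fin_res F.R j) hb (mkq a))

theorem log_LI (F : GF k K) (a b : K) (hb : b ≠ 0) (j : PV K) :
    ((Nat.log 2 (LI j (a ^ 2) (b ^ 2)).ncard : ℤ) - 1) = (dmn b j (mkq a) : ℤ) - 1 := by
  rw [ncard_LI F a b hb j, Nat.log_pow one_lt_two]

theorem exc_eq (F : GF k K) (a b : K) (hb : b ≠ 0) (S : Finset (PV K))
    (hS : ∀ j : PV K, j ∉ S → j.1 b = 1) :
    exc a b = ∑ j ∈ S, ((dmn b j (mkq a) : ℤ) - 1) := by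
  unfold exc
  rw [finsum_congr (log_LI F a b hb)]
  refine finsum_eq_sum_of_support_subset _ fun j hj => ?_
  by_contra h
  apply hj
  change (dmn b j (mkq a) : ℤ) - 1 = 0
  rw [dmn_bal hLWX j (fin_res F.R j) hb (Or.inl (hS j h))]
  rfl

theorem Ex_iff (F : GF k K) (a b : K) (hb : b ≠ 0) (S : Finset (PV K))
    (hS : ∀ j : PV K, j ∉ S → j.1 b = 1) (u : ℤ) :
    Ex S b (mkq a) u ↔ exc a b = u := by
  rw [exc_eq F a b hb S hS, Finset.sum_sub_distrib, Finset.sum_const, nsmul_eq_mul, mul_one]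
  unfold Ex
  constructor
  · intro h
    rw [h]
    ring
  · intro h
    rw [← h]
    ring

theorem Fam_iff (F : GF k K) (a₀ b : K) (hb : b ≠ 0) (S : Finset (PV K))
    (hS : ∀ j : PV K, j ∉ S → j.1 b = 1) (u : ℤ) (χ : Qc K) :
    Ex S b (χ + mkq a₀) u ↔ ∀ a : K, mkq a = χ → exc (a₀ + a) b = u := by
  constructor
  · rintro h a rfl
    rw [← Ex_iff F (a₀ + a) b hb S hS u, mkq_add, add_comm]
    exact h
  · intro h
    obtain ⟨a, rfl⟩ := mkq_surj χ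
    rw [add_comm, ← mkq_add, Ex_iff F (a₀ + a) b hb S hS u]
    exact h a rfl

end ex

/-- The Selmer group. -/
def Sg {K : Type} [Field K] [CharP K 2] (a b : K) : Set (Qc K) :=
  {χ | ∀ α : K, mkq α = χ → AllVA a b α}

theorem Sg_eq {k K : Type} [Field k] [Finite k] [CharP k 2] [Field K] [CharP K 2] [Algebra k K]
    (hK : IsFF k K) (F : GF k K) (a b : K) (hb : b ≠ 0) (S : Finset (PV K)) (hS1 : F.B₁ ⊆ S)
    (hS : ∀ j : PV K, j ∉ S → j.1 b = 1) : Sg (a ^ 2) (b ^ 2) = Sl S b (mkq a) := by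
  have h := (hONEW k K hK F a b hb S hS1 hS).1
  ext χ
  constructor
  · intro h1
    obtain ⟨α, rfl⟩ := mkq_surj χ
    exact (h α).1 (h1 α rfl)
  · rintro h1 α rfl
    exact (h α).2 h1

/-- The family. -/
def Fam {K : Type} [Field K] [CharP K 2] (a₀ b : K) (P : Qc K → Prop) (u : ℤ) (X : ℕ) :
    Set (Qc K) :=
  {χ | (∃ a, mkq a = χ ∧ cN a ≤ X) ∧ P χ ∧ ∀ a : K, mkq a = χ → exc (a₀ + a) b = u}

section law

variable {k K : Type} [Field k] [Finite k] [CharP k 2] [Field K] [CharP K 2] [Algebra k K]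

theorem lawU (hJINW : S_JINW) (hK : IsFF k K) (a₀ b : K) (hb : b ≠ 0) (P : Qc K → Prop)
    (S₀ : Finset (PV K)) (hP : ∀ a a' : K, (∀ v ∈ S₀, AS (algebraMap K (Cm v.1) (a + a'))) →
      P (mkq a) → P (mkq a')) (u : ℤ)
    (hne : ∃ χ, P χ ∧ ∀ a : K, mkq a = χ → exc (a₀ + a) b = u) :
    (∃ c' : ℝ, 0 < c' ∧ ∀ᶠ X : ℕ in atTop, c' * (X : ℝ) ≤ ((Fam a₀ b P u X).ncard : ℝ)) ∧
    ∀ r s : ℕ, (s : ℤ) = r + u → Tendsto (fun X : ℕ =>
      ({χ ∈ Fam a₀ b P u X | ∀ a : K, mkq a = χ →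
        (Sg ((a₀ + a) ^ 2) (b ^ 2)).ncard = 2 ^ (s + 1)}.ncard : ℝ) /
      ((Fam a₀ b P u X).ncard : ℝ)) atTop (nhds (alq s r)) := by
  obtain ⟨F⟩ := hGF k K hK
  obtain ⟨S, hS1, hS0, hS2, hS3⟩ := S_ex F a₀ b hb S₀
  have hP' : ∀ χ χ', (∀ j ∈ S, Spl j (χ + χ')) → P χ → P χ' := by
    intro χ χ' h1 h2
    obtain ⟨a, rfl⟩ := mkq_surj χ
    obtain ⟨a', rfl⟩ := mkq_surj χ'
    refine hP a a' (fun v hv => ?_) h2
    rw [← Pool.Agent.H467.PU.Lwx.hSp]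
    exact Pool.Agent.H467.PU.Lwx.sp_of_mkq (h1 v (hS0 hv))
  have hne' : ∃ χ, P χ ∧ Ex S b (χ + mkq a₀) u := by
    obtain ⟨χ, h1, h2⟩ := hne
    exact ⟨χ, h1, (Fam_iff F a₀ b hb S hS3 u χ).2 h2⟩
  obtain ⟨-, h2, h3⟩ := total hDSTC (Pool.Agent.H467.PU.Finw.hDSTW hJINW) hLWX k K hK F a₀ b hb S
    hS1 hS2 P hP' u hne'
  have e1 : ∀ X, Fam a₀ b P u X = {χ : Qc K | (∃ a, mkq a = χ ∧ cN a ≤ X) ∧
      (P χ ∧ Ex S b (χ + mkq a₀) u)} := by
    intro X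
    ext χ
    unfold Fam
    simp only [Set.mem_setOf_eq, Fam_iff F a₀ b hb S hS3 u χ]
  have e2 : ∀ X s, {χ ∈ Fam a₀ b P u X | ∀ a : K, mkq a = χ →
        (Sg ((a₀ + a) ^ 2) (b ^ 2)).ncard = 2 ^ (s + 1)} =
      {χ : Qc K | ((∃ a, mkq a = χ ∧ cN a ≤ X) ∧ (P χ ∧ Ex S b (χ + mkq a₀) u)) ∧
        (Sl S b (χ + mkq a₀)).ncard = 2 ^ (s + 1)} := by
    intro X s
    rw [e1 X]
    ext χ
    simp only [Set.mem_setOf_eq]
    refine and_congr Iff.rfl ?_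
    constructor
    · intro h
      obtain ⟨a, rfl⟩ := mkq_surj χ
      have h4 := h a rfl
      rw [Sg_eq hK F (a₀ + a) b hb S hS1 hS3, mkq_add] at h4
      rw [add_comm]
      exact h4
    · rintro h a rfl
      rw [Sg_eq hK F (a₀ + a) b hb S hS1 hS3, mkq_add, add_comm]
      exact h
  refine ⟨?_, fun r s hrs => ?_⟩
  · obtain ⟨c', hc', h4⟩ := conv2 hPOQ hHSD F _ h2
    refine ⟨c', hc', ?_⟩
    filter_upwards [h4] with X hX
    rw [e1 X]
    exact hX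
  · refine (conv3 hPOQ hHSD F _ _ _ (h3 r s hrs)).congr fun X => ?_
    rw [e2 X s, e1 X]

/-- The number of all classes. -/
theorem allU (hK : IsFF k K) :
    ∃ C : ℝ, ∀ X : ℕ, {χ : Qc K | ∃ a, mkq a = χ ∧ cN a ≤ X}.Finite ∧
      ({χ : Qc K | ∃ a, mkq a = χ ∧ cN a ≤ X}.ncard : ℝ) ≤ C * X :=
  (Pool.Agent.H467.PG.Asm.law hGF Pool.Agent.H467.PG.Fin.dst Pool.Agent.H467.PG.Bex.bex
    hPOQ hHSD k K hK 0 PEmpty (fun i => i.elim) (fun i => i.elim)).1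

/-- Balanced classes exist. -/
theorem bal_ex (hK : IsFF k K) (a₀ b : K) (hb : b ≠ 0) :
    ∃ χ : Qc K, ∀ a : K, mkq a = χ → ∀ j : PV K, Bal j.1 (a₀ + a) b := by
  obtain ⟨-, ⟨c, hc, h1⟩, -⟩ := Pool.Agent.H467.PG.Asm.law hGF Pool.Agent.H467.PG.Fin.dst
    Pool.Agent.H467.PG.Bex.bex hPOQ hHSD k K hK a₀ Unit (fun _ => b) (fun _ => hb)
  obtain ⟨X, h2, h3⟩ := (h1.and (eventually_gt_atTop 0)).exists
  have h4 : {χ : Qc K | (∃ a, mkq a = χ ∧ cN a ≤ X) ∧ BalA a₀ (fun _ : Unit => b) χ}.Nonempty := by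
    rw [Set.nonempty_iff_ne_empty]
    intro h
    rw [h, Set.ncard_empty, Nat.cast_zero] at h2
    have : (0 : ℝ) < X := by exact_mod_cast h3
    have := mul_pos hc this
    linarith
  obtain ⟨χ, -, h5⟩ := h4
  exact ⟨χ, fun a ha j => h5 a ha () j⟩

theorem exc_bal (F : GF k K) (a b : K) (hb : b ≠ 0) (h : ∀ j : PV K, Bal j.1 a b) :
    exc a b = 0 := by
  obtain ⟨S, -, -, -, hS3⟩ := S_ex F a b hb ∅
  rw [exc_eq F a b hb S hS3]
  refine Finset.sum_eq_zero fun j _ => ?_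
  rw [dmn_bal hLWX j (fin_res F.R j) hb (h j)]
  rfl

/-- The Selmer group has at least as many elements as the local conditions give. -/
theorem s_ge (F : GF k K) (a b : K) (hb : b ≠ 0) (S : Finset (PV K)) (hS1 : F.B₁ ⊆ S) (s : ℕ)
    (h : (Sl S b (mkq a)).ncard = 2 ^ (s + 1)) : ∑ j ∈ S, dmn b j (mkq a) ≤ s + S.card := by
  have hres : ∀ j : PV K, Finite (IsLocalRing.ResidueField j.1.valuationSubring) := fin_res F.R
  choose w hw using fun j : PV K => dmn_spec hLWX j (hres j) hb (mkq a)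
  have hWD : WD S (fun j => dmn b j (mkq a)) w
      (fun j => Finset.univ.sup (fun i => poq j (w j i))) :=
    ⟨fun j _ => (hw j).1, fun j _ i =>
      Finset.le_sup (f := fun i => poq j (w j i)) (Finset.mem_univ i)⟩
  have hSV : SVW S (fun j => dmn b j (mkq a)) w (mkq a) = Sl S b (mkq a) := by
    ext α
    constructor
    · rintro ⟨h1, h2⟩
      exact ⟨fun j hj => ((hw j).2 α).2 (h1 j hj), h2⟩
    · rintro ⟨h1, h2⟩
      exact ⟨fun j hj => ((hw j).2 α).1 (h1 j hj), h2⟩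
  obtain ⟨bd⟩ := Bde.bde k K F S hS1
  obtain ⟨D, hD⟩ := hHSD k K F.R S (mkq a)
  have hUj : ∀ j : Ob S, j ∉ D.support → poq j.1 (mkq a) = 0 := by
    intro j hj
    have h1 : D j = 0 := Finsupp.notMem_support_iff.1 hj
    have h2 := hD j
    rw [h1] at h2
    omega
  obtain ⟨-, h3⟩ := hSVMW k K F S bd D.support _ w _ (mkq a) hWD hUj
  rw [hSV, h] at h3
  have h4 : 0 < (LKW bd D.support (fun j => dmn b j (mkq a)) w (mkq a)).ncard := by
    rw [Set.ncard_pos (Set.toFinite _)]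
    refine ⟨0, ?_, ?_⟩
    · intro j _ l
      simp
    · intro j _
      simp
  have h5 : 2 ^ (1 + ∑ j ∈ S, dmn b j (mkq a)) ≤ 2 ^ (s + 1 + S.card) := by
    rw [pow_add 2 (s + 1), h3, pow_add, pow_one]
    exact Nat.mul_le_mul_right _ (Nat.le_mul_of_pos_right _ h4)
  have h6 := (Nat.pow_le_pow_iff_right (by norm_num : 1 < 2)).1 h5
  omega

/-- The rank of one curve. -/
theorem rank_one (hHTT : S_HTT) (hRKF : S_RKF) (hK : IsFF k K) (a b : K) (hb : b ≠ 0) (r s : ℕ)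
    (hrs : (s : ℤ) = r + exc a b) (h : (Sg (a ^ 2) (b ^ 2)).ncard = 2 ^ (s + 1)) :
    AddGroup.FG (Pt (cc a b) K) ∧ Module.finrank ℤ (Pt (cc a b) K) ≤ s + r := by
  obtain ⟨F⟩ := hGF k K hK
  obtain ⟨S, hS1, -, -, hS3⟩ := S_ex F a b hb ∅
  rw [Sg_eq hK F a b hb S hS1 hS3] at h
  have h1 := (Ex_iff F a b hb S hS3 (exc a b)).2 rfl
  refine Pool.Agent.H467.PU.Finw.hRONE hHTT hRKF k K hK F a b hb S hS1 hS3
    (fun j => dmn b j (mkq a)) (fun j _ => dmn_spec hLWX j (fin_res F.R j) hb (mkq a)) r s ?_ h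
  unfold Ex at h1
  have h2 : ((∑ j ∈ S, dmn b j (mkq a) : ℕ) : ℤ) = S.card + exc a b := by
    push_cast
    exact h1
  omega

/-- The curves with the smallest Selmer groups. -/
theorem one_zero (hK : IsFF k K) (a b : K) (hb : b ≠ 0) (ha : ¬ AS a) (hx : exc a b = 0)
    (h : (Sg (a ^ 2) (b ^ 2)).ncard = 2) : Finite (Pt (cc a b) K) ∧ Sha2A (cc a b) := by
  obtain ⟨F⟩ := hGF k K hK
  obtain ⟨S, hS1, -, -, hS3⟩ := S_ex F a b hb ∅
  rw [Sg_eq hK F a b hb S hS1 hS3] at h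
  have h1 := (Ex_iff F a b hb S hS3 0).2 hx
  refine (hONEW k K hK F a b hb S hS1 hS3).2 (fun j => dmn b j (mkq a))
    (fun j _ => dmn_spec hLWX j (fin_res F.R j) hb (mkq a)) ?_ h ha
  unfold Ex at h1
  have h2 : ((∑ j ∈ S, dmn b j (mkq a) : ℕ) : ℤ) = S.card + 0 := by
    push_cast
    exact h1
  omega

/-- The excess is bounded. -/
theorem exc_bdd (F : GF k K) (b : K) (hb : b ≠ 0) :
    ∃ N : ℕ, ∀ a : K, -(N : ℤ) ≤ exc a b ∧ exc a b ≤ N := by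
  obtain ⟨S, -, -, -, hS3⟩ := S_ex F 0 b hb ∅
  choose N hN using fun j : PV K => (hLWX K j (fin_res F.R j) b hb).2.2.2.2.1
  refine ⟨S.card + ∑ j ∈ S, N j, fun a => ?_⟩
  rw [exc_eq F a b hb S hS3, Finset.sum_sub_distrib, Finset.sum_const, nsmul_eq_mul, mul_one]
  have h1 : ∑ j ∈ S, (dmn b j (mkq a) : ℤ) ≤ ((∑ j ∈ S, N j : ℕ) : ℤ) := by
    push_cast
    exact Finset.sum_le_sum fun j _ => by
      exact_mod_cast hN j (mkq a) _ (dmn_spec hLWX j (fin_res F.R j) hb (mkq a))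
  have h2 : (0 : ℤ) ≤ ∑ j ∈ S, (dmn b j (mkq a) : ℤ) := Finset.sum_nonneg fun j _ => by positivity
  have h3 : (0 : ℤ) ≤ ((∑ j ∈ S, N j : ℕ) : ℤ) := by positivity
  push_cast at h1 h3 ⊢
  constructor <;> linarith

/-- The excess depends only on the local classes at the places at which `b` is not a unit. -/
theorem exc_loc (F : GF k K) (a a' b : K) (hb : b ≠ 0)
    (h : ∀ v : PV K, v.1 b ≠ 1 → AS (algebraMap K (Cm v.1) (a + a'))) :
    exc a b = exc a' b := by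
  obtain ⟨S, -, -, -, hS3⟩ := S_ex F 0 b hb ∅
  rw [exc_eq F a b hb S hS3, exc_eq F a' b hb S hS3]
  refine Finset.sum_congr rfl fun j _ => ?_
  by_cases hj : j.1 b = 1
  · rw [dmn_bal hLWX j (fin_res F.R j) hb (Or.inl hj), dmn_bal hLWX j (fin_res F.R j) hb (Or.inl hj)]
  · have h1 : Spl j (mkq a + mkq a') := by
      rw [← mkq_add, ← Pool.Agent.H467.PG.Poq.sp_iff, Pool.Agent.H467.PU.Lwx.hSp]
      exact h j hj
    rw [dmn_eq hLWX j (fin_res F.R j) hb h1]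

/-- Almost all ranks are bounded. -/
theorem tight (hJINW : S_JINW) (hHTT : S_HTT) (hRKF : S_RKF) (hTGT : S_TGT) (hK : IsFF k K)
    (a₀ b : K) (hb : b ≠ 0) (ε : ℝ) (hε : 0 < ε) : ∃ n : ℕ, ∀ᶠ X : ℕ in atTop,
      (1 - ε) * ({χ : Qc K | ∃ a, mkq a = χ ∧ cN a ≤ X}.ncard : ℝ) ≤
        ({χ : Qc K | (∃ a, mkq a = χ ∧ cN a ≤ X) ∧ ∀ a : K, mkq a = χ →
          AddGroup.FG (Pt (cc (a₀ + a) b) K) ∧
          Module.finrank ℤ (Pt (cc (a₀ + a) b) K) ≤ n}.ncard : ℝ) := by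
  obtain ⟨F⟩ := hGF k K hK
  obtain ⟨C, hC⟩ := allU (k := k) (K := K) hK
  obtain ⟨N, hN⟩ := exc_bdd F b hb
  obtain ⟨S, hS1, -, -, hS3⟩ := S_ex F a₀ b hb ∅
  obtain ⟨R, hR⟩ := hTGT (Qc K) (fun X => {χ : Qc K | ∃ a, mkq a = χ ∧ cN a ≤ X})
    (Finset.Icc (-(N : ℤ)) N) (fun u => {χ | ∀ a : K, mkq a = χ → exc (a₀ + a) b = u})
    (fun s => {χ | ∀ a : K, mkq a = χ → (Sg ((a₀ + a) ^ 2) (b ^ 2)).ncard = 2 ^ (s + 1)})
    (fun X => (hC X).1) (fun X χ _ => by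
      obtain ⟨a, ha⟩ := mkq_surj χ
      refine ⟨exc (a₀ + a) b, Finset.mem_Icc.2 (hN (a₀ + a)), ?_⟩
      have h1 := (Fam_iff F a₀ b hb S hS3 (exc (a₀ + a) b) χ).1 (by
        rw [← ha, add_comm, ← mkq_add]
        exact (Ex_iff F (a₀ + a) b hb S hS3 _).2 rfl)
      exact h1) (fun u _ => by
      by_cases hne : ∃ χ : Qc K, True ∧ ∀ a : K, mkq a = χ → exc (a₀ + a) b = u
      · right
        obtain ⟨⟨c', hc', h1⟩, h2⟩ := lawU (k := k) hJINW hK a₀ b hb (fun _ => True) ∅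
          (fun _ _ _ _ => trivial) u hne
        have e1 : ∀ X, Fam a₀ b (fun _ => True) u X =
            {χ : Qc K | ∃ a, mkq a = χ ∧ cN a ≤ X} ∩
              {χ | ∀ a : K, mkq a = χ → exc (a₀ + a) b = u} := by
          intro X
          ext χ
          unfold Fam
          simp only [Set.mem_setOf_eq, true_and, Set.mem_inter_iff]
        refine ⟨?_, fun r s hrs => ?_⟩
        · filter_upwards [h1, eventually_gt_atTop 0] with X h3 h4
          rw [← e1 X, Set.nonempty_iff_ne_empty]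
          intro h
          rw [h, Set.ncard_empty, Nat.cast_zero] at h3
          have : (0 : ℝ) < X := by exact_mod_cast h4
          have := mul_pos hc' this
          linarith
        · refine (h2 r s hrs).congr fun X => ?_
          rw [← e1 X]
          rfl
      · left
        intro X
        rw [Set.eq_empty_iff_forall_notMem]
        rintro χ ⟨-, h⟩
        exact hne ⟨χ, trivial, h⟩) (fun s s' hs => by
      rw [Set.disjoint_left]
      intro χ h1 h2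
      obtain ⟨a, ha⟩ := mkq_surj χ
      have h3 := (h1 a ha).symm.trans (h2 a ha)
      have h4 := Nat.pow_right_injective (le_refl 2) h3
      omega) ε hε
  refine ⟨2 * R + N, ?_⟩
  filter_upwards [hR] with X hX
  refine hX.trans ?_
  have h1 := Set.ncard_le_ncard (s := {χ : Qc K | ∃ a, mkq a = χ ∧ cN a ≤ X} ∩
      ⋃ s ∈ Finset.range (R + 1), {χ | ∀ a : K, mkq a = χ →
        (Sg ((a₀ + a) ^ 2) (b ^ 2)).ncard = 2 ^ (s + 1)})
    (t := {χ : Qc K | (∃ a, mkq a = χ ∧ cN a ≤ X) ∧ ∀ a : K, mkq a = χ →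
      AddGroup.FG (Pt (cc (a₀ + a) b) K) ∧
      Module.finrank ℤ (Pt (cc (a₀ + a) b) K) ≤ 2 * R + N}) ?_
    ((hC X).1.subset fun χ h => h.1)
  · exact_mod_cast h1
  · rintro χ ⟨h2, h3⟩
    refine ⟨h2, fun a ha => ?_⟩
    simp only [Set.mem_iUnion, Finset.mem_range, Set.mem_setOf_eq, exists_prop] at h3
    obtain ⟨s, hs, h4⟩ := h3
    have h5 := h4 a ha
    have h6 : (Sl S b (mkq (a₀ + a))).ncard = 2 ^ (s + 1) := by
      rw [← Sg_eq hK F (a₀ + a) b hb S hS1 hS3]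
      exact h5
    have h7 := s_ge F (a₀ + a) b hb S hS1 s h6
    have h8 : exc (a₀ + a) b ≤ s := by
      rw [exc_eq F (a₀ + a) b hb S hS3, Finset.sum_sub_distrib, Finset.sum_const, nsmul_eq_mul,
        mul_one]
      have : ((∑ j ∈ S, dmn b j (mkq (a₀ + a)) : ℕ) : ℤ) ≤ ((s + S.card : ℕ) : ℤ) := by
        exact_mod_cast h7
      push_cast at this
      linarith
    obtain ⟨r, hr⟩ := Int.eq_ofNat_of_zero_le (sub_nonneg.2 h8)
    have h9 := rank_one hHTT hRKF hK (a₀ + a) b hb r s (by rw [← hr]; ring) h5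
    refine ⟨h9.1, h9.2.trans ?_⟩
    have h10 := (hN (a₀ + a)).1
    omega

end law

end Pool.Agent.H467.PU.Asmw
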