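import Pool.Agent.H467.PU.Spec4
import Pool.Agent.H467.PG.Sqma
import Pool.Agent.H467.PG.Asm
import Pool.Graph.R_seed8.TH115.GD.Cls

/-!
# The number of the classes of the flat 2-Selmer group

Project PU (helper467).
-/

set_option autoImplicit false
set_option linter.all false

open Polynomial IsDedekindDomain WeierstrassCurve WeierstrassCurve.Affine WithZero
open Pool.Agent.TH115.GD
open Pool.Agent.H467.CT Pool.Agent.H467.GK
open Pool.Agent.H467.PG (Qc mkq)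
open scoped Classical

namespace Pool.Agent.H467.PU.Fsl

section glob

variable {K : Type} [Field K] [CharP K 2] {a b : K}

omit [CharP K 2] in
theorem lta_sub {W : WeierstrassCurve K} {f f' : (Sep K ≃ₐ[K] Sep K) → Pt W (Sep K)}
    (hf' : IsCoc W f') (h : LTA W f) (h' : LTA W f') : LTA W (fun σ => f σ - f' σ) := by
  intro u hu
  have h1 := LocTriv.add W (IsCoc.smul W hf' (-1)) (h u hu) (LocTriv.smul W (h' u hu) (-1))
  have e : (fun σ => f σ + (-1 : ℤ) • f' σ) = fun σ => f σ - f' σ := by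
    funext σ
    rw [neg_one_zsmul, sub_eq_add_neg]
  rwa [e] at h1

theorem dat_sub (hb0 : b ≠ 0) {c c' : (Sep K ≃ₐ[K] Sep K) → Pt (cc a b) (Sep K)}
    {R R' : Pt (cc a b) (Sep K)} {S S' : Pt (cc (a ^ 2) (b ^ 2)) (Sep K)} {ζ ζ' : Sep K}
    {α α' : K} (h : Dat a b c R S ζ α) (h' : Dat a b c' R' S' ζ' α') :
    Dat a b (fun σ => c σ - c' σ) (R - R') (S - S') (ζ + ζ') (α + α') := by
  have c2 : (2 : Sep K) = 0 := CharTwo.two_eq_zero
  have hTT : TT a b (Sep K) + TT a b (Sep K) = 0 := tt_two (std_bc2 hb0)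
  have hTn : TT a b (Sep K) = - TT a b (Sep K) := by
    rw [eq_neg_iff_add_eq_zero]; exact hTT
  refine ⟨?_, ?_, fun σ => ?_⟩
  · rw [Fr_sub hb0, ← h.dbl, ← h'.dbl]
    abel
  · rw [map_add]
    linear_combination h.as + h'.as + ζ * ζ' * c2
  · rcases h.alt σ with ⟨h1, h2⟩ | ⟨h1, h2⟩ <;> rcases h'.alt σ with ⟨h3, h4⟩ | ⟨h3, h4⟩
    · left
      refine ⟨?_, by rw [map_add, h2, h4]⟩
      rw [Fr_sub hb0, h1, h3, map_sub]; abel
    · right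
      refine ⟨?_, by rw [map_add, h2, h4]; ring⟩
      rw [Fr_sub hb0, h1, h3, map_sub]
      have e : act (cc (a ^ 2) (b ^ 2)) (rs K σ) S - S -
          (act (cc (a ^ 2) (b ^ 2)) (rs K σ) S' - S' + TT a b (Sep K)) =
          act (cc (a ^ 2) (b ^ 2)) (rs K σ) S - act (cc (a ^ 2) (b ^ 2)) (rs K σ) S' - (S - S') +
            - TT a b (Sep K) := by abel
      rw [e, ← hTn]
    · right
      refine ⟨?_, by rw [map_add, h2, h4]; ring⟩
      rw [Fr_sub hb0, h1, h3, map_sub]; abel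
    · left
      refine ⟨?_, by rw [map_add, h2, h4]; linear_combination c2⟩
      rw [Fr_sub hb0, h1, h3, map_sub]; abel

/-- The second invariant. -/
def D2 (a b : K) (q : ((Sep K ≃ₐ[K] Sep K) → Pt (cc a b) (Sep K)) × Pt (cc a b) (Sep K)) (f : K)
    (p : ((Sep K ≃ₐ[K] Sep K) → Pt (cc a b) (Sep K)) × Pt (cc a b) (Sep K)) : Prop :=
  ∃ (S : Pt (cc (a ^ 2) (b ^ 2)) (Sep K)) (w : Sep K), S + S = Fr a b (Sep K) (p.2 - q.2) ∧
    (∀ σ : Sep K ≃ₐ[K] Sep K, Fr a b (Sep K) (p.1 σ - q.1 σ) =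
      act (cc (a ^ 2) (b ^ 2)) (rs K σ) S - S) ∧
    XX a b S = w ^ 2 * algebraMap K (Sep K) f

theorem D2.eqp (hb : b ≠ 0)
    {q : ((Sep K ≃ₐ[K] Sep K) → Pt (cc a b) (Sep K)) × Pt (cc a b) (Sep K)} {f : K}
    {p p' : ((Sep K ≃ₐ[K] Sep K) → Pt (cc a b) (Sep K)) × Pt (cc a b) (Sep K)}
    (h : D2 a b q f p) (h' : D2 a b q f p') : Eqp (cc a b) p p' := by
  obtain ⟨S, w, h1, h2, h3⟩ := h
  obtain ⟨S', w', h1', h2', h3'⟩ := h'
  obtain ⟨r, hr⟩ := xx_sub (std_bc2 (a := a) (Ω := Sep K) hb) S S'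
  change XX a b (S - S') * XX a b S * XX a b S' = r * r at hr
  have h0 : XX a b S ≠ 0 := xx_ne (std_bc2 (a := a) (Ω := Sep K) hb) S
  have h0' : XX a b S' ≠ 0 := xx_ne (std_bc2 (a := a) (Ω := Sep K) hb) S'
  have h0'' : XX a b (S - S') ≠ 0 := xx_ne (std_bc2 (a := a) (Ω := Sep K) hb) (S - S')
  rw [h3] at h0 hr
  rw [h3'] at h0' hr
  have hw0 : w ≠ 0 := by rintro rfl; exact h0 (by ring)
  have hw0' : w' ≠ 0 := by rintro rfl; exact h0' (by ring)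
  have he : algebraMap K (Sep K) f ≠ 0 := by
    intro e
    rw [e, mul_zero] at h0
    exact h0 rfl
  have hd : XX a b (S - S') = (r / (w * w' * algebraMap K (Sep K) f)) ^ 2 *
      algebraMap K (Sep K) 1 := by
    rw [map_one]
    field_simp
    linear_combination hr
  have hw : r / (w * w' * algebraMap K (Sep K) f) ≠ 0 := by
    intro e
    rw [e] at hd
    exact h0'' (by rw [hd]; ring)
  obtain ⟨Q, hQ1, hQ2⟩ := finish hb (c := fun σ => p.1 σ - p'.1 σ) (R := p.2 - p'.2)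
    (S := S - S') (by
      have e : p.2 - p'.2 = (p.2 - q.2) - (p'.2 - q.2) := by abel
      rw [e, Fr_sub hb, ← h1, ← h1']
      abel) (fun σ => by
      have e : p.1 σ - p'.1 σ = (p.1 σ - q.1 σ) - (p'.1 σ - q.1 σ) := by abel
      rw [e, Fr_sub hb, h2, h2', map_sub]
      abel) hw hd (Or.inl ⟨1, by ring⟩)
  exact ⟨Q, hQ1, hQ2⟩

end glob

theorem fsl : S_FSL := by
  intro K _ _ A b t hb ht s T hs hT
  have hb2 : b ^ 2 ≠ 0 := pow_ne_zero 2 hb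
  -- the first invariant
  have k1 : ∀ x : Qc K, ∃ (q : ((Sep K ≃ₐ[K] Sep K) → Pt (cc A (b ^ 2)) (Sep K)) ×
      Pt (cc A (b ^ 2)) (Sep K)) (S : Pt (cc (A ^ 2) ((b ^ 2) ^ 2)) (Sep K)) (ζ : Sep K) (α : K),
      (∃ (p : ((Sep K ≃ₐ[K] Sep K) → Pt (cc A (b ^ 2)) (Sep K)) × Pt (cc A (b ^ 2)) (Sep K))
        (S : Pt (cc (A ^ 2) ((b ^ 2) ^ 2)) (Sep K)) (ζ : Sep K) (α : K),
        Slp (cc A (b ^ 2)) p ∧ Dat A (b ^ 2) p.1 p.2 S ζ α ∧ mkq α = x) →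
      Slp (cc A (b ^ 2)) q ∧ Dat A (b ^ 2) q.1 q.2 S ζ α ∧ mkq α = x := by
    intro x
    by_cases h : ∃ (p : ((Sep K ≃ₐ[K] Sep K) → Pt (cc A (b ^ 2)) (Sep K)) ×
        Pt (cc A (b ^ 2)) (Sep K)) (S : Pt (cc (A ^ 2) ((b ^ 2) ^ 2)) (Sep K)) (ζ : Sep K) (α : K),
        Slp (cc A (b ^ 2)) p ∧ Dat A (b ^ 2) p.1 p.2 S ζ α ∧ mkq α = x
    · obtain ⟨p, S, ζ, α, h1⟩ := h
      exact ⟨p, S, ζ, α, fun _ => h1⟩
    · exact ⟨(0, 0), 0, 0, 0, fun h2 => absurd h2 h⟩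
  choose q S₀ ζ₀ α₀ hq using k1
  -- the second invariant
  have k2 : ∀ p, Slp (cc A (b ^ 2)) p → ∃ x ∈ s, ∃ f ∈ T, D2 A (b ^ 2) (q x) f p := by
    rintro p ⟨hc, hloc, h2⟩
    obtain ⟨S, ζ, α, h⟩ := Pool.Agent.H467.PG.Sqma.exists_dat2 Pool.Agent.H467.CT.Asc.asc (β := b)
      rfl hb2 hc h2
    have hx : mkq α ∈ s := hs α (fun u hu => h.V hb2 (hloc u hu))
    obtain ⟨⟨hc', hloc', h2'⟩, h', hα⟩ := hq (mkq α) ⟨p, S, ζ, α, ⟨hc, hloc, h2⟩, h, rfl⟩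
    have h3 := dat_sub hb2 h h'
    have hAS : AS (α + α₀ (mkq α)) := by
      have e : (mkq α : Qc K) = mkq (α₀ (mkq α)) := hα.symm
      rw [Pool.Agent.H467.PG.Asm.mkq_eq] at e
      obtain ⟨z, hz⟩ := e
      refine ⟨z, ?_⟩
      have c2 : (2 : K) = 0 := CharTwo.two_eq_zero
      linear_combination hz + α₀ (mkq α) * c2
    have hS := h3.kill hAS
    obtain ⟨d, w, hd0, hw, hd⟩ := exists_dd hb2 ht hS
    have hlta := lta_sub hc' hloc hloc'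
    obtain ⟨f, hf, y, hy, e⟩ := hT d hd0 (fun u hu => F_loc hb2 hS hw hd (hlta u hu))
    refine ⟨mkq α, hx, f, hf, S - S₀ (mkq α), w * algebraMap K (Sep K) y, h3.dbl, hS, ?_⟩
    rw [hd, e, map_mul, map_pow]
    ring
  let F : Finset (((Sep K ≃ₐ[K] Sep K) → Pt (cc A (b ^ 2)) (Sep K)) × Pt (cc A (b ^ 2)) (Sep K)) :=
    (s ×ˢ T).image (fun y => if h : ∃ p, D2 A (b ^ 2) (q y.1) y.2 p then h.choose else (0, 0))
  refine ⟨F, ?_, fun p hp => ?_⟩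
  · refine Finset.card_image_le.trans ?_
    rw [Finset.card_product]
  · obtain ⟨x, hx, f, hf, h⟩ := k2 p hp
    have hex : ∃ p, D2 A (b ^ 2) (q x) f p := ⟨p, h⟩
    refine ⟨hex.choose, Finset.mem_image.2 ⟨(x, f), Finset.mem_product.2 ⟨hx, hf⟩, ?_⟩,
      h.eqp hb2 hex.choose_spec⟩
    exact dif_pos hex

end Pool.Agent.H467.PU.Fsl
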