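import Pool.Agent.H467.PU.Spec
import Pool.Agent.H467.PG.Pnr

/-!
# Coranks of random rectangular matrices over the field with two elements (helper725, for helper467)

Adapted from `Pool.Agent.H467.PG.Pnr` (helper376).
-/

set_option autoImplicit false

open Finset Filter Topology
open Pool.Agent.H467.PG
open Pool.Agent.H467.PG.Pnr
open scoped Classical

namespace Pool.Agent.H467.PU.Pnu

open Pool.Agent.H467.PU

theorem pcu_eq_w (n m r : ℕ) : pcu n m r = w n m r := by
  unfold pcu w
  rw [Finset.sum_boole]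
  congr 2
  rw [← Set.ncard_coe_finset]
  congr 1
  ext T
  simp only [Finset.coe_filter, Finset.mem_univ, true_and, Set.mem_ofPred_eq]
  exact ncard_kr T r

theorem pcu_eq (n m r : ℕ) : pcu n m r = cf n m r := by
  rw [pcu_eq_w, w_eq]

theorem pcu_shift (n r s : ℕ) : pcu (n + r) (n + s) r =
    (1 / 2) ^ (r * s) * (A (n + r) * A (n + s)) / (A r * A s * A n) := by
  rw [pcu_eq, cf_pos (N := n + r) (k := n + s) (r := r) (m := n) (l := s) (by omega) rfl]

theorem AI_pos : 0 < AI := by
  have := AI_lower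
  linarith

theorem alq_eq (s r : ℕ) : alq s r = (1 / 2) ^ (r * s) * (AI * AI) / (A r * A s * AI) := by
  have h2 := AI_pos.ne'
  have h3 := (A_pos r).ne'
  have h4 := (A_pos s).ne'
  change (1 / 2) ^ (s * r) * AI / (A s * A r) = _
  rw [mul_comm s r]
  field_simp

theorem tendsto_pcu (s r : ℕ) : Tendsto (fun n => pcu (n + r) (n + s) r) atTop (𝓝 (alq s r)) := by
  rw [alq_eq]
  have h2 := AI_pos.ne'
  have h3 := (A_pos r).ne'
  have h4 := (A_pos s).ne'
  have a1 : Tendsto (fun n => A (n + r)) atTop (𝓝 AI) := tendsto_A.comp (tendsto_add_atTop_nat r)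
  have a2 : Tendsto (fun n => A (n + s)) atTop (𝓝 AI) := tendsto_A.comp (tendsto_add_atTop_nat s)
  have h5 : Tendsto (fun n => (1 / 2 : ℝ) ^ (r * s) * (A (n + r) * A (n + s)) /
      (A r * A s * A n)) atTop (𝓝 ((1 / 2) ^ (r * s) * (AI * AI) / (A r * A s * AI))) := by
    refine Tendsto.div ?_ (tendsto_A.const_mul _) (by positivity)
    exact (a1.mul a2).const_mul _
  exact h5.congr fun n => (pcu_shift n r s).symm

theorem alq_symm (s r : ℕ) : alq s r = alq r s := by
  rw [alq_eq, alq_eq, mul_comm r s, mul_comm (A r) (A s)]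

theorem alq_pos (s r : ℕ) : 0 < alq s r := by
  rw [alq_eq]
  have h2 := AI_pos
  have h3 := A_pos r
  have h4 := A_pos s
  positivity

theorem pcu_nonneg (n m r : ℕ) : 0 ≤ pcu n m r := by
  rw [pcu_eq_w]
  exact w_nonneg n m r

theorem pcu_zero (n u r : ℕ) (h : n < r) : pcu n (n + u) r = 0 := by
  rw [pcu_eq, cf_neg (by omega)]

theorem pcu_le (n u r : ℕ) : pcu n (n + u) r ≤ 50 * (1 / 2) ^ r := by
  by_cases h : r ≤ n
  · obtain ⟨m, rfl⟩ := Nat.exists_eq_add_of_le' h
    have e : m + r + u = m + (r + u) := by omega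
    rw [e, pcu_shift m r (r + u)]
    have h1 := A_ge r
    have h2 := A_ge m
    have h2' := A_ge (r + u)
    have h3 := A_le_one (m + r)
    have h3' := A_le_one (m + (r + u))
    have h4 := (A_pos (m + r)).le
    have h4' := (A_pos (m + (r + u))).le
    have h5 : (1 / 2 : ℝ) ^ (r * (r + u)) ≤ (1 / 2) ^ r := by
      refine pow_le_pow_of_le_one (by norm_num) (by norm_num) ?_
      rcases Nat.eq_zero_or_pos r with h0 | h0
      · rw [h0]
        exact Nat.zero_le _
      · exact Nat.le_mul_of_pos_right r (by omega)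
    have h6 : (288 / 1000 : ℝ) * (288 / 1000) * (288 / 1000) ≤ A r * A (r + u) * A m := by
      have h60 : (288 / 1000 : ℝ) * (288 / 1000) ≤ A r * A (r + u) := by nlinarith
      nlinarith
    have h7 : (0 : ℝ) < (1 / 2) ^ r := by positivity
    have h8 : A (m + r) * A (m + (r + u)) ≤ 1 := by nlinarith
    have h9 : 0 ≤ A (m + r) * A (m + (r + u)) := mul_nonneg h4 h4'
    rw [div_le_iff₀ (by linarith)]
    calc (1 / 2 : ℝ) ^ (r * (r + u)) * (A (m + r) * A (m + (r + u))) ≤ (1 / 2) ^ r * 1 := by gcongr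
      _ ≤ 50 * (1 / 2) ^ r * (A r * A (r + u) * A m) := by nlinarith
  · rw [pcu_zero n u r (by omega)]
    positivity

theorem tsum_pcu (u n : ℕ) : ∑' r, pcu n (n + u) r = 1 := by
  rw [tsum_eq_sum (s := Finset.range (n + 1)), ← sum_w n (n + u)]
  · exact Finset.sum_congr rfl fun r _ => pcu_eq_w n (n + u) r
  · intro r hr
    rw [Finset.mem_range, not_lt] at hr
    exact pcu_zero n u r (by omega)

theorem tendsto_diag (u r : ℕ) : Tendsto (fun n => pcu n (n + u) r) atTop (𝓝 (alq (r + u) r)) := by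
  rw [← tendsto_add_atTop_iff_nat r]
  refine (tendsto_pcu (r + u) r).congr fun n => ?_
  have e : n + r + u = n + (r + u) := by omega
  rw [e]

theorem hasSum_alq (u : ℕ) : HasSum (fun r => alq (r + u) r) 1 := by
  have hb : Summable (fun r : ℕ => 50 * (1 / 2 : ℝ) ^ r) :=
    (summable_geometric_of_lt_one (by norm_num) (by norm_num)).mul_left _
  have h1 : Tendsto (fun n : ℕ => ∑' r, pcu n (n + u) r) atTop (𝓝 (∑' r, alq (r + u) r)) := by
    refine tendsto_tsum_of_dominated_convergence hb (tendsto_diag u) ?_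
    refine Eventually.of_forall fun n r => ?_
    rw [Real.norm_eq_abs, abs_of_nonneg (pcu_nonneg n (n + u) r)]
    exact pcu_le n u r
  have h2 : ∑' r, alq (r + u) r = 1 := by
    refine tendsto_nhds_unique h1 ?_
    have : (fun n : ℕ => ∑' r, pcu n (n + u) r) = fun _ => 1 := funext (tsum_pcu u)
    rw [this]
    exact tendsto_const_nhds
  have h3 : Summable (fun r => alq (r + u) r) := by
    refine Summable.of_nonneg_of_le (fun r => (alq_pos _ _).le) (fun r => ?_) hb
    exact le_of_tendsto (tendsto_diag u r) (Eventually.of_forall fun n => pcu_le n u r)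
  rw [← h2]
  exact h3.hasSum

/-- The distribution of the coranks of random rectangular matrices. -/
theorem pnu : S_PNU := ⟨tendsto_pcu, alq_symm, alq_pos, hasSum_alq⟩

end Pool.Agent.H467.PU.Pnu
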