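import Pool.Agent.H467.PU.Spec3

/-!
# The complete law: tightness

Project PU (helper467).
-/

set_option autoImplicit false

open Finset Filter
open scoped Classical

namespace Pool.Agent.H467.PU.Tgt

/-- one family: counting -/
theorem count_one {α : Type} {S : Set α} (hS : S.Finite) {E : ℕ → Set α}
    (hE : ∀ s s', s ≠ s' → Disjoint (E s) (E s')) {q : ℕ → ℕ} (hq : Function.Injective q)
    (N R : ℕ) (hR : ∀ i < N, q i ≤ R) :
    (S \ ⋃ s ∈ Finset.range (R + 1), E s).ncard + ∑ i ∈ Finset.range N, (S ∩ E (q i)).ncard ≤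
      S.ncard := by
  have hfU : ∀ n : ℕ, (⋃ i ∈ (↑(Finset.range n) : Set ℕ), (S ∩ E (q i))).Finite := fun n =>
    hS.subset (Set.iUnion₂_subset fun i _ => Set.inter_subset_left)
  have h1 : ∀ n : ℕ, (⋃ i ∈ (↑(Finset.range n) : Set ℕ), (S ∩ E (q i))).ncard =
      ∑ i ∈ Finset.range n, (S ∩ E (q i)).ncard := by
    intro n
    induction n with
    | zero => simp
    | succ n ih =>
      have hd : Disjoint (⋃ i ∈ (↑(Finset.range n) : Set ℕ), (S ∩ E (q i))) (S ∩ E (q n)) := by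
        rw [Set.disjoint_iUnion₂_left]
        intro i hi
        have hin : i ≠ n := by
          have := Finset.mem_range.1 (Finset.mem_coe.1 hi)
          omega
        exact (hE _ _ (fun h => hin (hq h))).mono Set.inter_subset_right Set.inter_subset_right
      rw [Finset.sum_range_succ, ← ih, Finset.range_add_one, Finset.coe_insert,
        Set.biUnion_insert, Set.union_comm,
        Set.ncard_union_eq hd (hfU n) (hS.subset Set.inter_subset_left)]
  have hd2 : Disjoint (S \ ⋃ s ∈ Finset.range (R + 1), E s)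
      (⋃ i ∈ (↑(Finset.range N) : Set ℕ), (S ∩ E (q i))) := by
    rw [Set.disjoint_iUnion₂_right]
    intro i hi
    rw [Set.disjoint_left]
    intro x hx hx2
    apply hx.2
    have hi2 : i < N := Finset.mem_range.1 (Finset.mem_coe.1 hi)
    refine Set.mem_biUnion (x := q i) ?_ hx2.2
    have := hR i hi2
    simp only [Finset.coe_range, Set.mem_Iio]
    omega
  rw [← h1 N, ← Set.ncard_union_eq hd2 (hS.subset Set.sdiff_subset) (hfU N)]
  apply Set.ncard_le_ncard _ hS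
  apply Set.union_subset Set.sdiff_subset
  exact Set.iUnion₂_subset fun i _ => Set.inter_subset_left

/-- one family -/
theorem one {α : Type} {A : ℕ → Set α} {T : Set α} {E : ℕ → Set α}
    (hA : ∀ X, (A X).Finite) (hne : ∀ᶠ X in atTop, (A X ∩ T).Nonempty)
    (hE : ∀ s s', s ≠ s' → Disjoint (E s) (E s')) {q : ℕ → ℕ} (hq : Function.Injective q)
    {f : ℕ → ℝ} (hf : HasSum f 1)
    (hlim : ∀ i, Tendsto (fun X => ((A X ∩ T ∩ E (q i)).ncard : ℝ) / ((A X ∩ T).ncard : ℝ)) atTop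
        (nhds (f i))) {δ : ℝ} (hδ : 0 < δ) :
    ∃ R : ℕ, ∀ᶠ X in atTop,
      (((A X ∩ T) \ ⋃ s ∈ Finset.range (R + 1), E s).ncard : ℝ) ≤ δ * ((A X).ncard : ℝ) := by
  have h1 := hf.tendsto_sum_nat
  have h2 : ∀ᶠ N in atTop, 1 - δ < ∑ i ∈ Finset.range N, f i :=
    h1.eventually (lt_mem_nhds (by linarith))
  obtain ⟨N, hN⟩ := h2.exists
  obtain ⟨R, hR⟩ : ∃ R : ℕ, ∀ i < N, q i ≤ R := by
    refine ⟨(Finset.range N).sup q, fun i hi => ?_⟩
    exact Finset.le_sup (f := q) (Finset.mem_range.2 hi)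
  refine ⟨R, ?_⟩
  have h3 : Tendsto (fun X => ∑ i ∈ Finset.range N,
      ((A X ∩ T ∩ E (q i)).ncard : ℝ) / ((A X ∩ T).ncard : ℝ)) atTop
        (nhds (∑ i ∈ Finset.range N, f i)) := tendsto_finsetSum _ fun i _ => hlim i
  filter_upwards [h3.eventually (lt_mem_nhds hN), hne] with X hX hX2
  have hfin : (A X ∩ T).Finite := (hA X).subset Set.inter_subset_left
  have h4 := count_one hfin hE hq N R hR
  have hpos : (0 : ℝ) < ((A X ∩ T).ncard : ℝ) := by
    exact_mod_cast (Set.ncard_pos hfin).2 hX2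
  rw [← Finset.sum_div, lt_div_iff₀ hpos] at hX
  have h5 : (((A X ∩ T) \ ⋃ s ∈ Finset.range (R + 1), E s).ncard : ℝ) +
      ∑ i ∈ Finset.range N, ((A X ∩ T ∩ E (q i)).ncard : ℝ) ≤ ((A X ∩ T).ncard : ℝ) := by
    exact_mod_cast h4
  have h6 : ((A X ∩ T).ncard : ℝ) ≤ ((A X).ncard : ℝ) := by
    exact_mod_cast Set.ncard_le_ncard Set.inter_subset_left (hA X)
  nlinarith

theorem tgt_aux (alq : ℕ → ℕ → ℝ) (hsym : ∀ s r : ℕ, alq s r = alq r s)
    (hsum : ∀ u : ℕ, HasSum (fun r => alq (r + u) r) 1) :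
  ∀ (α : Type) (A : ℕ → Set α) (U : Finset ℤ) (T : ℤ → Set α) (E : ℕ → Set α),
  (∀ X, (A X).Finite) → (∀ X, ∀ x ∈ A X, ∃ u ∈ U, x ∈ T u) →
  (∀ u ∈ U, (∀ X, A X ∩ T u = ∅) ∨ ((∀ᶠ X in atTop, (A X ∩ T u).Nonempty) ∧
    ∀ r s : ℕ, (s : ℤ) = r + u →
      Tendsto (fun X => ((A X ∩ T u ∩ E s).ncard : ℝ) / ((A X ∩ T u).ncard : ℝ)) atTop
        (nhds (alq s r)))) →
  (∀ s s', s ≠ s' → Disjoint (E s) (E s')) →
  ∀ ε : ℝ, 0 < ε → ∃ R : ℕ, ∀ᶠ X in atTop,
    (1 - ε) * ((A X).ncard : ℝ) ≤ ((A X ∩ ⋃ s ∈ Finset.range (R + 1), E s).ncard : ℝ) := by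
  intro α A U T E hA hcov hfam hE ε hε
  have hU : (0 : ℝ) < (U.card : ℝ) + 1 := by positivity
  have hδ : 0 < ε / ((U.card : ℝ) + 1) := div_pos hε hU
  have key : ∀ u ∈ U, ∃ R : ℕ, ∀ᶠ X in atTop,
      (((A X ∩ T u) \ ⋃ s ∈ Finset.range (R + 1), E s).ncard : ℝ) ≤
        ε / ((U.card : ℝ) + 1) * ((A X).ncard : ℝ) := by
    intro u hu
    rcases hfam u hu with h | ⟨hne, hlim⟩
    · refine ⟨0, Eventually.of_forall fun X => ?_⟩
      rw [h X, Set.empty_sdiff, Set.ncard_empty]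
      push_cast
      positivity
    · rcases Int.eq_nat_or_neg u with ⟨n, hn | hn⟩
      · refine one hA hne hE (q := fun i => i + n) (fun i j hij => ?_) (hsum n) (fun i => ?_) hδ
        · simpa using hij
        · exact hlim i (i + n) (by rw [hn]; push_cast; ring)
      · refine one hA hne hE (q := fun i => i) (fun i j hij => hij) (hsum n) (fun i => ?_) hδ
        have := hlim (i + n) i (by rw [hn]; push_cast; ring)
        rw [hsym] at this
        exact this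
  choose! R hR using key
  refine ⟨U.sup R, ?_⟩
  have hall : ∀ᶠ X in atTop, ∀ u ∈ U,
      (((A X ∩ T u) \ ⋃ s ∈ Finset.range (R u + 1), E s).ncard : ℝ) ≤
        ε / ((U.card : ℝ) + 1) * ((A X).ncard : ℝ) := by
    rw [Filter.eventually_all_finset]
    exact hR
  filter_upwards [hall] with X hX
  set V : Set α := ⋃ s ∈ Finset.range (U.sup R + 1), E s with hV
  have hsub : A X \ V ⊆ ⋃ u ∈ U, ((A X ∩ T u) \ ⋃ s ∈ Finset.range (R u + 1), E s) := by
    intro x hx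
    obtain ⟨u, hu, hxu⟩ := hcov X x hx.1
    refine Set.mem_biUnion (x := u) hu ⟨⟨hx.1, hxu⟩, fun hc => hx.2 ?_⟩
    rw [Set.mem_iUnion₂] at hc
    obtain ⟨s, hs, hxs⟩ := hc
    rw [hV, Set.mem_iUnion₂]
    refine ⟨s, ?_, hxs⟩
    have h1 : R u ≤ U.sup R := Finset.le_sup (f := R) hu
    rw [Finset.mem_range] at hs ⊢
    omega
  have hfin2 : (⋃ u ∈ U, ((A X ∩ T u) \ ⋃ s ∈ Finset.range (R u + 1), E s)).Finite :=
    (hA X).subset (Set.iUnion₂_subset fun u _ => Set.sdiff_subset.trans Set.inter_subset_left)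
  have h1 : ((A X \ V).ncard : ℝ) ≤ ε * ((A X).ncard : ℝ) := by
    have h2 : (A X \ V).ncard ≤
        ∑ u ∈ U, ((A X ∩ T u) \ ⋃ s ∈ Finset.range (R u + 1), E s).ncard :=
      (Set.ncard_le_ncard hsub hfin2).trans (Finset.set_ncard_biUnion_le U _)
    calc ((A X \ V).ncard : ℝ)
        ≤ ∑ u ∈ U, (((A X ∩ T u) \ ⋃ s ∈ Finset.range (R u + 1), E s).ncard : ℝ) := by
          exact_mod_cast h2
      _ ≤ ∑ _u ∈ U, ε / ((U.card : ℝ) + 1) * ((A X).ncard : ℝ) := Finset.sum_le_sum hX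
      _ = (U.card : ℝ) / ((U.card : ℝ) + 1) * (ε * ((A X).ncard : ℝ)) := by
          rw [Finset.sum_const, nsmul_eq_mul]
          field_simp
      _ ≤ 1 * (ε * ((A X).ncard : ℝ)) := by
          apply mul_le_mul_of_nonneg_right _ (by positivity)
          rw [div_le_one hU]
          linarith
      _ = ε * ((A X).ncard : ℝ) := one_mul _
  have h3 : ((A X ∩ V).ncard : ℝ) + ((A X \ V).ncard : ℝ) = ((A X).ncard : ℝ) := by
    exact_mod_cast Set.ncard_inter_add_ncard_sdiff_eq_ncard (A X) V (hA X)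
  linarith

/-- **Tightness.** -/
theorem tgt : S_PNU → S_TGT := by
  intro h
  exact tgt_aux alq h.2.1 h.2.2.2

end Pool.Agent.H467.PU.Tgt
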