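import Pool.Agent.H467.PU.Spec4
import Pool.Agent.H467.PU.Tgt
import Pool.Agent.H467.PU.Pnu

/-!
# The complete law: the tail

Project PU (helper467).
-/

set_option autoImplicit false
set_option linter.all false

open Finset Filter
open scoped Classical

namespace Pool.Agent.H467.PU.Tgtt

open Pool.Agent.H467.PU.Tgt (count_one)
open Pool.Agent.H467.PG.Pnr (A A_pos A_ge A_le_one AI AI_lower tendsto_A A_anti)

theorem alq_le (s r : ℕ) : alq s r ≤ 4 * (1 / 2) ^ (s * r) := by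
  have h1 : AI ≤ A s := A_anti.le_of_tendsto tendsto_A s
  have h2 : AI ≤ A r := A_anti.le_of_tendsto tendsto_A r
  have h3 := AI_lower
  have h4 := A_pos s
  have h5 := A_pos r
  have h0 : 0 < AI := by linarith
  have e : alq s r = (1 / 2) ^ (s * r) * AI / (A s * A r) := rfl
  rw [e, div_le_iff₀ (mul_pos h4 h5)]
  have h6 : (0 : ℝ) < (1 / 2) ^ (s * r) := by positivity
  have h7 : AI ≤ 4 * (A s * A r) := by
    have h8 : AI * AI ≤ A s * A r := mul_le_mul h1 h2 h0.le h4.le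
    nlinarith
  nlinarith

/-- the tail of the sum -/
theorem tail {f : ℕ → ℝ} (w : ℕ) (hf : HasSum f 1) (hle : ∀ t, f t ≤ 4 * (1 / 2) ^ (t * (t + w)))
    (N : ℕ) : 1 - 8 * (1 / 2 : ℝ) ^ (N * (N + w)) ≤ ∑ i ∈ Finset.range N, f i := by
  have h1 : HasSum (fun i => f (i + N)) (1 - ∑ i ∈ Finset.range N, f i) :=
    (hasSum_nat_add_iff' N).2 hf
  have h2 : HasSum (fun i : ℕ => 4 * (1 / 2 : ℝ) ^ (N * (N + w)) * (1 / 2) ^ i)
      (4 * (1 / 2) ^ (N * (N + w)) * 2) := by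
    exact HasSum.mul_left _ hasSum_geometric_two
  have h3 := hasSum_le (fun i => ?_) h1 h2
  · linarith
  · refine (hle (i + N)).trans ?_
    rw [mul_assoc, ← pow_add]
    refine mul_le_mul_of_nonneg_left ?_ (by norm_num)
    refine pow_le_pow_of_le_one (by norm_num) (by norm_num) ?_
    nlinarith [Nat.zero_le (i * N), Nat.zero_le (i * w), Nat.le_mul_self i]

theorem expo (n w : ℕ) : (1 / 2 : ℝ) ^ (((n + 2 - w) / 2) * ((n + 2 - w) / 2 + w)) ≤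
    2 ^ (w ^ 2) * (1 / 2) ^ (n ^ 2 / 4) := by
  obtain ⟨N, hN⟩ : ∃ N, N = (n + 2 - w) / 2 := ⟨_, rfl⟩
  rw [← hN]
  have h1 : n + 1 ≤ 2 * N + w := by omega
  have h2 : n ^ 2 / 4 ≤ N * (N + w) + w ^ 2 := by
    have h3 : n ^ 2 ≤ 4 * (N * (N + w) + w ^ 2) := by
      have h4 : (n + 1) ^ 2 ≤ (2 * N + w) ^ 2 := Nat.pow_le_pow_left h1 2
      nlinarith
    omega
  have h3 : (1 / 2 : ℝ) ^ (N * (N + w) + w ^ 2) ≤ (1 / 2) ^ (n ^ 2 / 4) :=
    pow_le_pow_of_le_one (by norm_num) (by norm_num) h2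
  rw [pow_add] at h3
  have h4 : (2 : ℝ) ^ (w ^ 2) * (1 / 2) ^ (w ^ 2) = 1 := by
    rw [← mul_pow]
    norm_num
  calc (1 / 2 : ℝ) ^ (N * (N + w)) = 2 ^ (w ^ 2) * ((1 / 2) ^ (N * (N + w)) * (1 / 2) ^ (w ^ 2)) := by
        linear_combination (-(1 / 2 : ℝ) ^ (N * (N + w))) * h4
    _ ≤ _ := mul_le_mul_of_nonneg_left h3 (by positivity)

/-- one family -/
theorem one {α : Type} {A : ℕ → Set α} {T : Set α} {E : ℕ → Set α}
    (hA : ∀ X, (A X).Finite) (hne : ∀ᶠ X in atTop, (A X ∩ T).Nonempty)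
    (hE : ∀ s s', s ≠ s' → Disjoint (E s) (E s')) {q : ℕ → ℕ} (hq : Function.Injective q)
    {f : ℕ → ℝ} {w : ℕ} (hf : HasSum f 1) (hle : ∀ t, f t ≤ 4 * (1 / 2) ^ (t * (t + w)))
    (hlim : ∀ i, Tendsto (fun X => ((A X ∩ T ∩ E (q i)).ncard : ℝ) / ((A X ∩ T).ncard : ℝ)) atTop
        (nhds (f i))) (n : ℕ) :
    ∀ᶠ X in atTop,
      (((A X ∩ T) \ {x | ∃ t < (n + 2 - w) / 2, x ∈ E (q t)}).ncard : ℝ) ≤
        (8 * 2 ^ (w ^ 2) + 1) * (1 / 2) ^ (n ^ 2 / 4) * ((A X).ncard : ℝ) := by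
  obtain ⟨N, hN⟩ : ∃ N, N = (n + 2 - w) / 2 := ⟨_, rfl⟩
  obtain ⟨δ, hδ⟩ : ∃ δ : ℝ, δ = (8 * 2 ^ (w ^ 2) + 1) * (1 / 2) ^ (n ^ 2 / 4) := ⟨_, rfl⟩
  rw [← hN, ← hδ]
  have hδ0 : 0 < δ := by rw [hδ]; positivity
  have h1 : 1 - δ < ∑ i ∈ Finset.range N, f i := by
    have h2 := tail w hf hle N
    have h3 := expo n w
    rw [← hN] at h3
    have h4 : (0 : ℝ) < (1 / 2) ^ (n ^ 2 / 4) := by positivity
    rw [hδ]
    nlinarith
  have h3 : Tendsto (fun X => ∑ i ∈ Finset.range N,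
      ((A X ∩ T ∩ E (q i)).ncard : ℝ) / ((A X ∩ T).ncard : ℝ)) atTop
        (nhds (∑ i ∈ Finset.range N, f i)) := tendsto_finsetSum _ fun i _ => hlim i
  filter_upwards [h3.eventually (lt_mem_nhds h1), hne] with X hX hX2
  have hfin : (A X ∩ T).Finite := (hA X).subset Set.inter_subset_left
  have hpos : (0 : ℝ) < ((A X ∩ T).ncard : ℝ) := by
    exact_mod_cast (Set.ncard_pos hfin).2 hX2
  rw [← Finset.sum_div, lt_div_iff₀ hpos] at hX
  -- counting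
  have hfU : ∀ n : ℕ, {x | x ∈ A X ∩ T ∧ ∃ t < n, x ∈ E (q t)}.Finite := fun n =>
    hfin.subset fun x hx => hx.1
  have h5 : ∀ n : ℕ, {x | x ∈ A X ∩ T ∧ ∃ t < n, x ∈ E (q t)}.ncard =
      ∑ i ∈ Finset.range n, (A X ∩ T ∩ E (q i)).ncard := by
    intro n
    induction n with
    | zero =>
      rw [Finset.sum_range_zero]
      have : {x | x ∈ A X ∩ T ∧ ∃ t < 0, x ∈ E (q t)} = ∅ := by
        ext x
        simp
      rw [this, Set.ncard_empty]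
    | succ n ih =>
      rw [Finset.sum_range_succ, ← ih, ← Set.ncard_union_eq ?_ (hfU n) (hfin.subset
        Set.inter_subset_left)]
      · congr 1
        ext x
        constructor
        · rintro ⟨h6, t, ht, h7⟩
          rcases Nat.lt_succ_iff_lt_or_eq.1 ht with h | rfl
          · exact Or.inl ⟨h6, t, h, h7⟩
          · exact Or.inr ⟨h6, h7⟩
        · rintro (⟨h6, t, ht, h7⟩ | ⟨h6, h7⟩)
          · exact ⟨h6, t, by omega, h7⟩
          · exact ⟨h6, n, by omega, h7⟩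
      · rw [Set.disjoint_left]
        rintro x ⟨h6, t, ht, h7⟩ ⟨h8, h9⟩
        have h10 : q t ≠ q n := fun h => by
          have := hq h
          omega
        exact Set.disjoint_left.1 (hE _ _ h10) h7 h9
  have h6 : ((A X ∩ T) \ {x | ∃ t < N, x ∈ E (q t)}).ncard +
      {x | x ∈ A X ∩ T ∧ ∃ t < N, x ∈ E (q t)}.ncard = (A X ∩ T).ncard := by
    rw [← Set.ncard_union_eq ?_ (hfin.subset Set.sdiff_subset) (hfU N)]
    · congr 1
      ext x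
      constructor
      · rintro (h | h)
        · exact h.1
        · exact h.1
      · intro h
        by_cases h7 : ∃ t < N, x ∈ E (q t)
        · exact Or.inr ⟨h, h7⟩
        · exact Or.inl ⟨h, h7⟩
    · rw [Set.disjoint_left]
      rintro x ⟨-, h7⟩ ⟨-, h8⟩
      exact h7 h8
  have h7 : (((A X ∩ T) \ {x | ∃ t < N, x ∈ E (q t)}).ncard : ℝ) +
      ∑ i ∈ Finset.range N, ((A X ∩ T ∩ E (q i)).ncard : ℝ) = ((A X ∩ T).ncard : ℝ) := by
    rw [h5 N] at h6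
    exact_mod_cast h6
  have h8 : ((A X ∩ T).ncard : ℝ) ≤ ((A X).ncard : ℝ) := by
    exact_mod_cast Set.ncard_le_ncard Set.inter_subset_left (hA X)
  nlinarith

theorem tgtt : S_PNU → S_TGTT := by
  rintro ⟨-, hsym, -, hsum⟩ α A N₀ T E hA hcov hfam hE -
  obtain ⟨C, hC⟩ : ∃ C : ℝ, C = ((Finset.Icc (-(N₀ : ℤ)) N₀).card : ℝ) * (8 * 2 ^ (N₀ ^ 2) + 1) :=
    ⟨_, rfl⟩
  refine ⟨C, fun n => ?_⟩
  have key : ∀ u ∈ Finset.Icc (-(N₀ : ℤ)) N₀, ∀ᶠ X in atTop,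
      (((A X ∩ T u) \ {x | ∃ r s : ℕ, (s : ℤ) = r + u ∧ s + r ≤ n ∧ x ∈ E s}).ncard : ℝ) ≤
        (8 * 2 ^ (N₀ ^ 2) + 1) * (1 / 2) ^ (n ^ 2 / 4) * ((A X).ncard : ℝ) := by
    intro u hu
    rcases hfam u hu with h | ⟨hne, hlim⟩
    · refine Eventually.of_forall fun X => ?_
      rw [h X, Set.empty_sdiff, Set.ncard_empty]
      push_cast
      positivity
    · have hmono : ∀ w : ℕ, w ≤ N₀ → ∀ X, (8 * 2 ^ (w ^ 2) + 1 : ℝ) * (1 / 2) ^ (n ^ 2 / 4) *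
          ((A X).ncard : ℝ) ≤ (8 * 2 ^ (N₀ ^ 2) + 1) * (1 / 2) ^ (n ^ 2 / 4) *
            ((A X).ncard : ℝ) := by
        intro w hw X
        refine mul_le_mul_of_nonneg_right (mul_le_mul_of_nonneg_right ?_ (by positivity))
          (by positivity)
        have : (2 : ℝ) ^ (w ^ 2) ≤ 2 ^ (N₀ ^ 2) :=
          pow_le_pow_right₀ (by norm_num) (Nat.pow_le_pow_left hw 2)
        linarith
      rw [Finset.mem_Icc] at hu
      rcases Int.eq_nat_or_neg u with ⟨w, hw | hw⟩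
      · have hw0 : w ≤ N₀ := by omega
        filter_upwards [one hA hne hE (q := fun i => i + w) (fun i j hij => by simpa using hij)
          (hsum w) (fun t => by
            rw [hsym]
            exact alq_le t (t + w)) (fun i => hlim i (i + w) (by rw [hw]; push_cast; ring)) n]
          with X hX
        refine le_trans ?_ (hX.trans (hmono w hw0 X))
        have h1 := Set.ncard_le_ncard (s := (A X ∩ T u) \ {x | ∃ r s : ℕ, (s : ℤ) = r + u ∧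
          s + r ≤ n ∧ x ∈ E s}) (t := (A X ∩ T u) \ {x | ∃ t < (n + 2 - w) / 2, x ∈ E (t + w)})
          (fun x hx => ⟨hx.1, fun ⟨t, ht, hxt⟩ => hx.2 ⟨t, t + w, by rw [hw]; push_cast; ring,
            by omega, hxt⟩⟩) ((hA X).subset fun x hx => hx.1.1)
        exact_mod_cast h1
      · have hw0 : w ≤ N₀ := by omega
        filter_upwards [one hA hne hE (q := fun i => i) (fun i j hij => hij)
          (hsum w) (fun t => by
            rw [hsym]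
            exact alq_le t (t + w)) (fun i => by
              have := hlim (i + w) i (by rw [hw]; push_cast; ring)
              rw [hsym] at this
              exact this) n] with X hX
        refine le_trans ?_ (hX.trans (hmono w hw0 X))
        have h1 := Set.ncard_le_ncard (s := (A X ∩ T u) \ {x | ∃ r s : ℕ, (s : ℤ) = r + u ∧
          s + r ≤ n ∧ x ∈ E s}) (t := (A X ∩ T u) \ {x | ∃ t < (n + 2 - w) / 2, x ∈ E t})
          (fun x hx => ⟨hx.1, fun ⟨t, ht, hxt⟩ => hx.2 ⟨t + w, t, by rw [hw]; push_cast; ring,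
            by omega, hxt⟩⟩) ((hA X).subset fun x hx => hx.1.1)
        exact_mod_cast h1
  have hall : ∀ᶠ X in atTop, ∀ u ∈ Finset.Icc (-(N₀ : ℤ)) N₀,
      (((A X ∩ T u) \ {x | ∃ r s : ℕ, (s : ℤ) = r + u ∧ s + r ≤ n ∧ x ∈ E s}).ncard : ℝ) ≤
        (8 * 2 ^ (N₀ ^ 2) + 1) * (1 / 2) ^ (n ^ 2 / 4) * ((A X).ncard : ℝ) := by
    rw [Filter.eventually_all_finset]
    exact key
  filter_upwards [hall] with X hX
  have hsub : A X \ {x ∈ A X | ∃ u : ℤ, x ∈ T u ∧ ∃ r s : ℕ, (s : ℤ) = r + u ∧ s + r ≤ n ∧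
      x ∈ E s} ⊆ ⋃ u ∈ Finset.Icc (-(N₀ : ℤ)) N₀, ((A X ∩ T u) \
        {x | ∃ r s : ℕ, (s : ℤ) = r + u ∧ s + r ≤ n ∧ x ∈ E s}) := by
    intro x hx
    obtain ⟨u, hu, hxu⟩ := hcov X x hx.1
    exact Set.mem_biUnion (x := u) hu ⟨⟨hx.1, hxu⟩, fun hc => hx.2 ⟨hx.1, u, hxu, hc⟩⟩
  have hfin2 : (⋃ u ∈ Finset.Icc (-(N₀ : ℤ)) N₀, ((A X ∩ T u) \
        {x | ∃ r s : ℕ, (s : ℤ) = r + u ∧ s + r ≤ n ∧ x ∈ E s})).Finite :=
    (hA X).subset (Set.iUnion₂_subset fun u _ => Set.sdiff_subset.trans Set.inter_subset_left)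
  have h2 : (A X \ {x ∈ A X | ∃ u : ℤ, x ∈ T u ∧ ∃ r s : ℕ, (s : ℤ) = r + u ∧ s + r ≤ n ∧
      x ∈ E s}).ncard ≤ ∑ u ∈ Finset.Icc (-(N₀ : ℤ)) N₀, ((A X ∩ T u) \
        {x | ∃ r s : ℕ, (s : ℤ) = r + u ∧ s + r ≤ n ∧ x ∈ E s}).ncard :=
    (Set.ncard_le_ncard hsub hfin2).trans (Finset.set_ncard_biUnion_le _ _)
  have h3 : ((A X \ {x ∈ A X | ∃ u : ℤ, x ∈ T u ∧ ∃ r s : ℕ, (s : ℤ) = r + u ∧ s + r ≤ n ∧
      x ∈ E s}).ncard : ℝ) ≤ C * (1 / 2) ^ (n ^ 2 / 4) * ((A X).ncard : ℝ) := by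
    calc _ ≤ ((∑ u ∈ Finset.Icc (-(N₀ : ℤ)) N₀, ((A X ∩ T u) \
        {x | ∃ r s : ℕ, (s : ℤ) = r + u ∧ s + r ≤ n ∧ x ∈ E s}).ncard : ℕ) : ℝ) := by
          exact_mod_cast h2
      _ ≤ ∑ _u ∈ Finset.Icc (-(N₀ : ℤ)) N₀, (8 * 2 ^ (N₀ ^ 2) + 1) * (1 / 2) ^ (n ^ 2 / 4) *
          ((A X).ncard : ℝ) := by
          push_cast
          exact Finset.sum_le_sum hX
      _ = _ := by
          rw [Finset.sum_const, nsmul_eq_mul, hC]
          ring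
  have h4 := Set.ncard_sdiff_add_ncard_of_subset (s := {x ∈ A X | ∃ u : ℤ, x ∈ T u ∧
    ∃ r s : ℕ, (s : ℤ) = r + u ∧ s + r ≤ n ∧ x ∈ E s}) (t := A X) (fun x hx => hx.1) (hA X)
  have h5 : ((A X \ {x ∈ A X | ∃ u : ℤ, x ∈ T u ∧ ∃ r s : ℕ, (s : ℤ) = r + u ∧ s + r ≤ n ∧
      x ∈ E s}).ncard : ℝ) + ({x ∈ A X | ∃ u : ℤ, x ∈ T u ∧ ∃ r s : ℕ, (s : ℤ) = r + u ∧
        s + r ≤ n ∧ x ∈ E s}.ncard : ℝ) = ((A X).ncard : ℝ) := by exact_mod_cast h4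
  linarith

end Pool.Agent.H467.PU.Tgtt
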