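import Pool.Agent.H467.PU.Finw
import Pool.Agent.H467.PU.Tgtt
import Pool.Agent.H467.PU.Fsl

/-!
# The complete law: assembly, third part

Project PU (helper467).
-/

set_option autoImplicit false
set_option linter.all false

open Finset Filter WithZero
open Pool.Agent.TH115.GD
open Pool.Agent.H467.PT
open Pool.Agent.H467.GK
open Pool.Agent.H467.CT (AS Bas IsTau Std Ev LV LF cc)
open Pool.Agent.H467.PG
open Pool.Agent.H467.PG.Asm
open scoped Classical

namespace Pool.Agent.H467.PU.Asmw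

open Pool.Agent.H467.PU.Finw (hLWX hDSTC hSVMW hFULC hONEW hJINW hHTT hRKF)
open Pool.Agent.H467.PG.Fin (hPOQ hSYM hHSD hGF)

section inv

variable {K : Type} [Field K] [CharP K 2]

theorem as_bal (a : K) : AS (a + a ^ 2) := ⟨a, by ring⟩

theorem as_map {L : Type} [Field L] [Algebra K L] {x : K} (h : AS x) : AS (algebraMap K L x) := by
  obtain ⟨z, rfl⟩ := h
  exact ⟨algebraMap K L z, by rw [map_add, map_pow]⟩

/-- The local conditions for `a` and for `a ^ 2` are the same. -/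
theorem allVA_sq (a b α : K) : AllVA a b α ↔ AllVA (a ^ 2) b α := by
  have c2 : (2 : K) = 0 := CharTwo.two_eq_zero
  unfold AllVA
  refine forall_congr' fun u => forall_congr' fun hu => ?_
  haveI : CharP (Cm u) 2 := inferInstance
  constructor
  · intro h
    have h1 := Pool.Agent.H467.PU.Onew.lv_inv (w := algebraMap K (Cm u) a) (z := 0) h
    have e : algebraMap K (Cm u) a + ((algebraMap K (Cm u) a) ^ 2 + algebraMap K (Cm u) a) =
        algebraMap K (Cm u) (a ^ 2) := by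
      rw [← map_pow, ← map_add, ← map_add]
      congr 1
      linear_combination a * c2
    rw [e] at h1
    simpa using h1
  · intro h
    have h1 := Pool.Agent.H467.PU.Onew.lv_inv (w := algebraMap K (Cm u) a) (z := 0) h
    have e : algebraMap K (Cm u) (a ^ 2) + ((algebraMap K (Cm u) a) ^ 2 + algebraMap K (Cm u) a) =
        algebraMap K (Cm u) a := by
      rw [← map_pow, ← map_add, ← map_add]
      congr 1
      linear_combination a ^ 2 * c2
    rw [e] at h1
    simpa using h1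

theorem allFA_sq (a b d : K) (h : AllFA a b d) : AllFA (a ^ 2) b d := by
  intro u hu
  haveI : CharP (Cm u) 2 := inferInstance
  refine Pool.Agent.H467.PG.Locf.LF_congr ?_ (h u hu)
  rw [← map_add]
  exact as_map (as_bal a)

end inv

section law

variable {k K : Type} [Field k] [Finite k] [CharP k 2] [Field K] [CharP K 2] [Algebra k K]

/-- The number of the classes of the flat Selmer group of one curve. -/
theorem flat_one (hK : IsFF k K) (a b : K) (hb : b ≠ 0) (r s : ℕ)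
    (hrs : (s : ℤ) = r + exc a b) (h : (Sg (a ^ 2) (b ^ 2)).ncard = 2 ^ (s + 1)) :
    ∃ G : Finset (((Sep K ≃ₐ[K] Sep K) → Pt (cc a (b ^ 2)) (Sep K)) × Pt (cc a (b ^ 2)) (Sep K)),
      G.card ≤ 2 ^ (s + 1 + r) ∧
        ∀ p, Slp (cc a (b ^ 2)) p → ∃ q ∈ G, Eqp (cc a (b ^ 2)) p q := by
  obtain ⟨F⟩ := hGF k K hK
  obtain ⟨S, hS1, -, -, hS3⟩ := S_ex F a b hb ∅
  have h0 := h
  rw [Sg_eq hK F a b hb S hS1 hS3] at h
  have h1 := (Ex_iff F a b hb S hS3 (exc a b)).2 rfl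
  unfold Ex at h1
  have h2 : ((∑ j ∈ S, dmn b j (mkq a) : ℕ) : ℤ) = S.card + exc a b := by
    push_cast
    exact h1
  obtain ⟨T, hT1, hT2⟩ := hFULC k K hK F a b hb S hS1 hS3 (fun j => dmn b j (mkq a))
    (fun j _ => dmn_spec hLWX j (fin_res F.R j) hb (mkq a)) r s (by omega) h
  have hfin : (Sg (a ^ 2) (b ^ 2)).Finite := by
    apply Set.finite_of_ncard_ne_zero
    rw [h0]
    positivity
  obtain ⟨G, hG1, hG2⟩ := Pool.Agent.H467.PU.Fsl.fsl K a b F.G.t hb F.G.bas hfin.toFinset T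
    (fun α hα => by
      rw [Set.Finite.mem_toFinset]
      intro α' hα'
      have h3 := (allVA_sq a (b ^ 2) α).1 hα
      exact ((hONEW k K hK F a b hb S hS1 hS3).1 α').2 (by
        rw [hα']
        exact ((hONEW k K hK F a b hb S hS1 hS3).1 α).1 h3))
    (fun x hx hF => hT2 x hx (allFA_sq a (b ^ 2) x hF))
  refine ⟨G, hG1.trans ?_, hG2⟩
  rw [← Set.ncard_eq_toFinset_card _ hfin, h0, pow_add 2 (s + 1) r]
  exact Nat.mul_le_mul_left _ hT1

/-- The tail of the law for all classes. -/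
theorem tailU (hK : IsFF k K) (a₀ b : K) (hb : b ≠ 0) : ∃ C : ℝ, ∀ n : ℕ, ∀ᶠ X : ℕ in atTop,
      (1 - C * (1 / 2) ^ (n ^ 2 / 4)) * ({χ : Qc K | ∃ a, mkq a = χ ∧ cN a ≤ X}.ncard : ℝ) ≤
        ({χ : Qc K | (∃ a, mkq a = χ ∧ cN a ≤ X) ∧ ∀ a : K, mkq a = χ →
          ∃ r s : ℕ, (s : ℤ) = r + exc (a₀ + a) b ∧ s + r ≤ n ∧
            (Sg ((a₀ + a) ^ 2) (b ^ 2)).ncard = 2 ^ (s + 1)}.ncard : ℝ) := by
  obtain ⟨F⟩ := hGF k K hK
  obtain ⟨C, hC⟩ := allU (k := k) (K := K) hK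
  obtain ⟨N, hN⟩ := exc_bdd F b hb
  obtain ⟨S, hS1, -, -, hS3⟩ := S_ex F a₀ b hb ∅
  obtain ⟨C', hC'⟩ := Pool.Agent.H467.PU.Tgtt.tgtt Pnu.pnu (Qc K)
    (fun X => {χ : Qc K | ∃ a, mkq a = χ ∧ cN a ≤ X}) N
    (fun u => {χ | ∀ a : K, mkq a = χ → exc (a₀ + a) b = u})
    (fun s => {χ | ∀ a : K, mkq a = χ → (Sg ((a₀ + a) ^ 2) (b ^ 2)).ncard = 2 ^ (s + 1)})
    (fun X => (hC X).1) (fun X χ _ => by
      obtain ⟨a, ha⟩ := mkq_surj χ
      refine ⟨exc (a₀ + a) b, Finset.mem_Icc.2 (hN (a₀ + a)), ?_⟩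
      have h1 := (Fam_iff F a₀ b hb S hS3 (exc (a₀ + a) b) χ).1 (by
        rw [← ha, add_comm, ← mkq_add]
        exact (Ex_iff F (a₀ + a) b hb S hS3 _).2 rfl)
      exact h1) (fun u _ => by
      by_cases hne : ∃ χ : Qc K, True ∧ ∀ a : K, mkq a = χ → exc (a₀ + a) b = u
      · right
        obtain ⟨⟨c', hc', h1⟩, h2⟩ := lawU (k := k) hJINW hK a₀ b hb (fun _ => True) ∅
          (fun _ _ _ _ => trivial) u hne
        have e1 : ∀ X, Fam a₀ b (fun _ => True) u X =
            {χ : Qc K | ∃ a, mkq a = χ ∧ cN a ≤ X} ∩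
              {χ | ∀ a : K, mkq a = χ → exc (a₀ + a) b = u} := by
          intro X
          ext χ
          unfold Fam
          simp only [Set.mem_setOf_eq, true_and, Set.mem_inter_iff]
        refine ⟨?_, fun r s hrs => ?_⟩
        · filter_upwards [h1, eventually_gt_atTop 0] with X h3 h4
          rw [← e1 X, Set.nonempty_iff_ne_empty]
          intro h
          rw [h, Set.ncard_empty, Nat.cast_zero] at h3
          have : (0 : ℝ) < X := by exact_mod_cast h4
          have := mul_pos hc' this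
          linarith
        · refine (h2 r s hrs).congr fun X => ?_
          rw [← e1 X]
          rfl
      · left
        intro X
        rw [Set.eq_empty_iff_forall_notMem]
        rintro χ ⟨-, h⟩
        exact hne ⟨χ, trivial, h⟩) (fun s s' hs => by
      rw [Set.disjoint_left]
      intro χ h1 h2
      obtain ⟨a, ha⟩ := mkq_surj χ
      have h3 := (h1 a ha).symm.trans (h2 a ha)
      have h4 := Nat.pow_right_injective (le_refl 2) h3
      omega) (fun u u' hu => by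
      rw [Set.disjoint_left]
      intro χ h1 h2
      obtain ⟨a, ha⟩ := mkq_surj χ
      exact hu ((h1 a ha).symm.trans (h2 a ha)))
  refine ⟨C', fun n => ?_⟩
  filter_upwards [hC' n] with X hX
  refine hX.trans ?_
  have h1 := Set.ncard_le_ncard (s := {χ ∈ {χ : Qc K | ∃ a, mkq a = χ ∧ cN a ≤ X} |
      ∃ u : ℤ, χ ∈ {χ | ∀ a : K, mkq a = χ → exc (a₀ + a) b = u} ∧ ∃ r s : ℕ,
        (s : ℤ) = r + u ∧ s + r ≤ n ∧ χ ∈ {χ | ∀ a : K, mkq a = χ →
          (Sg ((a₀ + a) ^ 2) (b ^ 2)).ncard = 2 ^ (s + 1)}})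
    (t := {χ : Qc K | (∃ a, mkq a = χ ∧ cN a ≤ X) ∧ ∀ a : K, mkq a = χ →
          ∃ r s : ℕ, (s : ℤ) = r + exc (a₀ + a) b ∧ s + r ≤ n ∧
            (Sg ((a₀ + a) ^ 2) (b ^ 2)).ncard = 2 ^ (s + 1)}) ?_
    ((hC X).1.subset fun χ h => h.1)
  · exact_mod_cast h1
  · rintro χ ⟨h2, u, h3, r, s, h4, h5, h6⟩
    refine ⟨h2, fun a ha => ⟨r, s, ?_, h5, h6 a ha⟩⟩
    rw [h3 a ha]
    exact h4

end law

end Pool.Agent.H467.PU.Asmw
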