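import Pool.Agent.H467.PU.Spec

/-!
# The complete law: densities, statements

Project DN (helper467).
-/

set_option autoImplicit false
set_option linter.all false

open Finset Filter WithZero
open Pool.Agent.H467.PT
open Pool.Agent.H467.GK
open Pool.Agent.H467.CT (AS Bas)
open Pool.Agent.H467.PG
open scoped Classical

namespace Pool.Agent.H467.PU

/-! ### The number of the classes with bounded poles -/

section fcd

variable {k K : Type} [Field k] [Field K] [CharP K 2] [Algebra k K]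

/-- The classes with the local classes `c` at `S`, and with poles of order at most `2 D` outside `S`. -/
def XC (S : Finset (PV K)) (c : PV K → K) (D : Ob S →₀ ℕ) : Set (Qc K) :=
  {χ : Qc K | (∀ j ∈ S, Spl j (χ + mkq (c j))) ∧ ∀ j : Ob S, Ple j.1 (exp (2 * (D j : ℤ))) χ}

/-- The elements with zeros at `S`, and with poles of order at most `2 D` outside `S`. -/
def LD (S : Finset (PV K)) (D : Ob S →₀ ℕ) : Set K :=
  {x : K | (∀ j ∈ S, j.1 x < 1) ∧ ∀ j : Ob S, j.1.1 x ≤ exp (2 * (D j : ℤ))}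

/-- The elements congruent to `0` or `1` at the places in `S`, and with poles of order at most `D`
outside `S`. -/
def ZD (S : Finset (PV K)) (D : Ob S →₀ ℕ) : Set K :=
  {z : K | (∀ j ∈ S, j.1 z < 1 ∨ j.1 (z + 1) < 1) ∧ ∀ j : Ob S, j.1.1 z ≤ exp (D j : ℤ)}

end fcd

def S_FC1 : Prop := ∀ (k K : Type) [Field k] [Finite k] [Field K] [CharP K 2] [Algebra k K]
  (R : GFR k K) (S : Finset (PV K)), ∃ d₁ : ℕ, ∀ (c : PV K → K) (D : Ob S →₀ ℕ),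
    d₁ ≤ dgf (sysB R S) D → (XC S c D).ncard = (mkq '' LD S D).ncard

def S_FC2 : Prop := ∀ (k K : Type) [Field k] [Finite k] [Field K] [CharP K 2] [Algebra k K]
  (R : GFR k K) (S : Finset (PV K)) (D : Ob S →₀ ℕ),
    (LD S D).Finite ∧ (ZD S D).Finite ∧ 2 * (LD S D).ncard = (mkq '' LD S D).ncard * (ZD S D).ncard

def S_FC3 : Prop := ∀ (k K : Type) [Field k] [Finite k] [Field K] [CharP K 2] [Algebra k K]
  (R : GFR k K) (S : Finset (PV K)), ∃ d₁ : ℕ, ∀ D : Ob S →₀ ℕ,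
    d₁ ≤ dgf (sysB R S) D →
      (LD S D).ncard * 2 ^ S.card = Nat.card k ^ dgf (sysB R S) D * (ZD S D).ncard

def S_FCD : Prop := ∀ (k K : Type) [Field k] [Finite k] [Field K] [CharP K 2] [Algebra k K]
  (R : GFR k K) (S : Finset (PV K)), ∃ d₁ : ℕ, ∀ (c : PV K → K) (D : Ob S →₀ ℕ),
    d₁ ≤ dgf (sysB R S) D →
      (XC S c D).ncard * 2 ^ S.card = 2 * Nat.card k ^ dgf (sysB R S) D

/-! ### The number of the divisors -/

/-- The effective divisors in the class of `D`. -/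
def S_ZB : Prop := ∀ (k K : Type) [Field k] [Finite k] [Field K] [CharP K 2] [Algebra k K]
  (R : GFR k K), ∃ q₀ : ℕ, 2 ≤ q₀ ∧ ∀ D : PV K →₀ ℤ,
    {E : PV K →₀ ℕ | ∃ x : K, x ≠ 0 ∧ ∀ j, j.1 x = exp (D j - (E j : ℤ))}.Finite ∧
    {E : PV K →₀ ℕ | ∃ x : K, x ≠ 0 ∧ ∀ j, j.1 x = exp (D j - (E j : ℤ))}.ncard * (q₀ - 1) + 1 =
      (LLs D).ncard

/-- The number of the effective divisors. -/
def S_ZA1 : Prop := ∀ (k K : Type) [Field k] [Finite k] [Field K] [CharP K 2] [Algebra k K]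
  (R : GFR k K), Nonempty (PV K) → ∃ δ : ℕ, 0 < δ ∧ (∀ j, δ ∣ R.deg j) ∧ ∃ ζ : ℝ, 0 < ζ ∧
    Tendsto (fun n : ℕ => ({D : PV K →₀ ℕ | (D.sum fun j n => n * R.deg j) = δ * n}.ncard : ℝ) /
      (Nat.card k : ℝ) ^ (δ * n)) atTop (nhds ζ)

/-- The number of the effective divisors outside `S`. -/
def S_ZAS : Prop := ∀ (k K : Type) [Field k] [Finite k] [Field K] [CharP K 2] [Algebra k K]
  (R : GFR k K), Nonempty (PV K) → ∃ δ : ℕ, 0 < δ ∧ (∀ j, δ ∣ R.deg j) ∧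
    ∀ S : Finset (PV K), ∃ ζ : ℝ, 0 < ζ ∧
    Tendsto (fun n : ℕ => ({D : Ob S →₀ ℕ | dgf (sysB R S) D = δ * n}.ncard : ℝ) /
      (Nat.card k : ℝ) ^ (δ * n)) atTop (nhds ζ)

/-! ### Moebius inversion -/

/-- The product of the primes in `T`. -/
noncomputable def ind1 {ι : Type} (T : Finset ι) : ι →₀ ℕ := Finsupp.indicator T (fun _ _ => 1)

def S_MB1 : Prop := ∀ (ι : Type) (f g : (ι →₀ ℕ) → ℝ), (∀ D, f D = ∑ E ∈ Finset.Iic D, g E) →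
  ∀ D, g D = ∑ T ∈ D.support.powerset, (-1 : ℝ) ^ T.card * f (D - ind1 T)

/-- The sum of the signs. -/
noncomputable def MM {ι : Type} (S : PSys ι) (i : ℕ) : ℝ :=
  ∑ᶠ T ∈ {T : Finset ι | ∑ p ∈ T, S.deg p = i}, (-1 : ℝ) ^ T.card

/-- The sum over the divisors of degree `n`. -/
noncomputable def SG {ι : Type} (S : PSys ι) (f : (ι →₀ ℕ) → ℝ) (n : ℕ) : ℝ :=
  ∑ᶠ D ∈ {D : ι →₀ ℕ | dgf S D = n}, f D

def S_MB2 : Prop := ∀ (ι : Type) (S : PSys ι), (∀ n, {D : ι →₀ ℕ | dgf S D = n}.Finite) →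
  (∀ i, |MM S i| ≤ ({D : ι →₀ ℕ | dgf S D = i}.ncard : ℝ)) ∧
  ∀ (f g : (ι →₀ ℕ) → ℝ),
    (∀ D, g D = ∑ T ∈ D.support.powerset, (-1 : ℝ) ^ T.card * f (D - ind1 T)) →
    ∀ n, SG S g n = ∑ p ∈ Finset.HasAntidiagonal.antidiagonal n, MM S p.1 * SG S f p.2

def S_MB3 : Prop := ∀ (q δ : ℕ) (C φ : ℝ) (M f : ℕ → ℝ), 2 ≤ q → 0 < δ →
  (∀ i, |M i| ≤ C * (q : ℝ) ^ i) → (∀ i, ¬ δ ∣ i → M i = 0) → (∀ i, ¬ δ ∣ i → f i = 0) →
  Tendsto (fun n : ℕ => f (δ * n) / (q : ℝ) ^ (2 * (δ * n))) atTop (nhds φ) →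
  Tendsto (fun m : ℕ => (∑ n ∈ Finset.range (δ * m + 1), ∑ p ∈ Finset.HasAntidiagonal.antidiagonal n,
    M p.1 * f p.2) / (q : ℝ) ^ (2 * (δ * m))) atTop
      (nhds ((∑' i : ℕ, M i / (q : ℝ) ^ (2 * i)) * φ / (1 - 1 / (q : ℝ) ^ (2 * δ))))

def S_MOB : Prop := ∀ (ι : Type) (S : PSys ι) (q : ℕ) (C : ℝ), 2 ≤ q →
  (∀ n, {D : ι →₀ ℕ | dgf S D = n}.Finite) →
  (∀ n, ({D : ι →₀ ℕ | dgf S D = n}.ncard : ℝ) ≤ C * (q : ℝ) ^ n) →
  ∀ (δ : ℕ) (ζ : ℝ), 0 < δ → (∀ p, δ ∣ S.deg p) →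
  Tendsto (fun n : ℕ => ({D : ι →₀ ℕ | dgf S D = δ * n}.ncard : ℝ) / (q : ℝ) ^ (δ * n)) atTop
    (nhds ζ) →
  ∀ κ : ℝ, ∃ Λ : ℝ, ∀ (f g : (ι →₀ ℕ) → ℝ) (d₁ : ℕ), (∀ D, f D = ∑ E ∈ Finset.Iic D, g E) →
    (∀ D, d₁ ≤ dgf S D → f D = κ * (q : ℝ) ^ dgf S D) →
    Tendsto (fun m : ℕ => (∑ n ∈ Finset.range (δ * m + 1), SG S g n) / (q : ℝ) ^ (2 * (δ * m)))
      atTop (nhds Λ)

/-! ### Asymptotics for given local classes, and for all -/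

def S_OMA : Prop := ∀ (k K : Type) [Field k] [Finite k] [CharP k 2] [Field K] [CharP K 2]
  [Algebra k K], IsFF k K → ∀ (F : GF k K), ∃ δ : ℕ, 0 < δ ∧ (∀ j, δ ∣ F.R.deg j) ∧
    ∀ S : Finset (PV K), F.B₁ ⊆ S → ∃ Λ : ℝ, 0 < Λ ∧ ∀ c : PV K → K,
      Tendsto (fun m : ℕ => ((Om F.R S c (δ * m)).ncard : ℝ) /
        (Nat.card k : ℝ) ^ (2 * (δ * m))) atTop (nhds Λ)

/-- The density of the classes which satisfy a local condition `P` at `S`. -/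
def S_DSD : Prop := ∀ (k K : Type) [Field k] [Finite k] [CharP k 2] [Field K] [CharP K 2]
  [Algebra k K], IsFF k K → ∀ (F : GF k K) (S : Finset (PV K)), F.B₁ ⊆ S →
  ∀ P : Qc K → Prop, (∀ χ χ', (∀ j ∈ S, Spl j (χ + χ')) → P χ → P χ') →
  ∃ ρ : ℝ, Tendsto (fun m : ℕ =>
    ({χ : Qc K | P χ ∧ DegLE F.R χ m}.ncard : ℝ) / ({χ : Qc K | DegLE F.R χ m}.ncard : ℝ))
      atTop (nhds ρ)

end Pool.Agent.H467.PU
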