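import Pool.Agent.H467.PU.Asmw3
import Pool.Agent.H467.PU.Spec5

/-!
# The complete law: assembly, fourth part (densities)

Project DN (helper467).
-/

set_option autoImplicit false
set_option linter.all false

open Finset Filter WithZero
open Pool.Agent.TH115.GD
open Pool.Agent.H467.PT
open Pool.Agent.H467.GK
open Pool.Agent.H467.CT (AS Bas IsTau Std Ev LV LF cc)
open Pool.Agent.H467.PG
open Pool.Agent.H467.PG.Asm
open scoped Classical

namespace Pool.Agent.H467.PU.Asmw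

open Pool.Agent.H467.PU.Finw (hLWX hDSTC hSVMW hFULC hONEW hJINW hHTT hRKF)
open Pool.Agent.H467.PG.Fin (hPOQ hSYM hHSD hGF)

/-- All classes. -/
def All (K : Type) [Field K] [CharP K 2] (X : ℕ) : Set (Qc K) := {χ | ∃ a, mkq a = χ ∧ cN a ≤ X}

/-- A finite set is the disjoint union of the fibres of a function. -/
theorem ncard_split {α : Type} (I : Finset ℤ) (B : Set α) (hB : B.Finite) (f : α → ℤ)
    (hf : ∀ x ∈ B, f x ∈ I) : B.ncard = ∑ u ∈ I, {x ∈ B | f x = u}.ncard := by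
  have h1 := Finset.card_eq_sum_card_fiberwise (s := hB.toFinset) (t := I) (f := f)
    (fun x hx => hf x (by simpa using hx))
  rw [← Set.ncard_eq_toFinset_card _ hB] at h1
  rw [h1]
  refine Finset.sum_congr rfl fun u _ => ?_
  rw [← Set.ncard_coe_finset]
  congr 1
  ext x
  simp

section dens

variable {k K : Type} [Field k] [Finite k] [CharP k 2] [Field K] [CharP K 2] [Algebra k K]

/-- The excess of a class. -/
noncomputable def excq (a₀ b : K) (χ : Qc K) : ℤ := exc (a₀ + χ.out) b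

theorem excq_iff (F : GF k K) (a₀ b : K) (hb : b ≠ 0) (χ : Qc K) (u : ℤ) :
    (∀ a : K, mkq a = χ → exc (a₀ + a) b = u) ↔ excq a₀ b χ = u := by
  obtain ⟨S, hS1, -, -, hS3⟩ := S_ex F a₀ b hb ∅
  have hout : mkq χ.out = χ := QuotientAddGroup.out_eq' χ
  constructor
  · intro h
    exact h χ.out hout
  · intro h
    refine (Fam_iff F a₀ b hb S hS3 u χ).1 ?_
    rw [← h]
    unfold excq
    have h1 := (Ex_iff F (a₀ + χ.out) b hb S hS3 _).2 rfl
    rw [mkq_add, hout, add_comm] at h1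
    exact h1

theorem fam_sep (F : GF k K) (a₀ b : K) (hb : b ≠ 0) (P : Qc K → Prop) (u : ℤ) (X : ℕ) :
    Fam a₀ b P u X = {χ ∈ All K X | P χ ∧ excq a₀ b χ = u} := by
  ext χ
  unfold Fam All
  simp only [Set.mem_setOf_eq, excq_iff F a₀ b hb χ u]

/-- The densities of the families. -/
theorem densU (hDSD : S_DSD) (hK : IsFF k K) (a₀ b : K) (hb : b ≠ 0) (P : Qc K → Prop)
    (S₀ : Finset (PV K)) (hP : ∀ a a' : K, (∀ v ∈ S₀, AS (algebraMap K (Cm v.1) (a + a'))) →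
      P (mkq a) → P (mkq a')) (u : ℤ) :
    ∃ ρ : ℝ, Tendsto (fun X : ℕ => ((Fam a₀ b P u X).ncard : ℝ) / ((All K X).ncard : ℝ)) atTop
      (nhds ρ) ∧ 0 ≤ ρ ∧ ((∃ χ, P χ ∧ excq a₀ b χ = u) → 0 < ρ) ∧
        ((¬ ∃ χ, P χ ∧ excq a₀ b χ = u) → ρ = 0) := by
  obtain ⟨F⟩ := hGF k K hK
  obtain ⟨C, hC⟩ := allU (k := k) (K := K) hK
  obtain ⟨S, hS1, hS0, hS2, hS3⟩ := S_ex F a₀ b hb S₀
  have hf : ∀ j : PV K, Finite (IsLocalRing.ResidueField j.1.valuationSubring) := fin_res F.R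
  have hP' : ∀ χ χ', (∀ j ∈ S, Spl j (χ + χ')) → P χ → P χ' := by
    intro χ χ' h1 h2
    obtain ⟨a, rfl⟩ := mkq_surj χ
    obtain ⟨a', rfl⟩ := mkq_surj χ'
    refine hP a a' (fun v hv => ?_) h2
    rw [← Pool.Agent.H467.PU.Lwx.hSp]
    exact Pool.Agent.H467.PU.Lwx.sp_of_mkq (h1 v (hS0 hv))
  have hQ : ∀ χ, (∀ a : K, mkq a = χ → exc (a₀ + a) b = u) ↔ Ex S b (χ + mkq a₀) u := fun χ =>
    (Fam_iff F a₀ b hb S hS3 u χ).symm
  have hloc : ∀ χ χ', (∀ j ∈ S, Spl j (χ + χ')) → (P χ ∧ Ex S b (χ + mkq a₀) u) →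
      (P χ' ∧ Ex S b (χ' + mkq a₀) u) := by
    rintro χ χ' h ⟨h1, h2⟩
    refine ⟨hP' χ χ' h h1, ?_⟩
    unfold Ex at h2 ⊢
    rw [← h2]
    refine Finset.sum_congr rfl fun j hj => ?_
    have h3 : Spl j (χ + mkq a₀ + (χ' + mkq a₀)) := by
      have e : χ + mkq a₀ + (χ' + mkq a₀) = χ + χ' := add4 χ χ' a₀
      rw [e]
      exact h j hj
    rw [dmn_eq hLWX j (hf j) hb h3]
  obtain ⟨ρ, hρ⟩ := hDSD k K hK F S hS1 (fun χ => P χ ∧ Ex S b (χ + mkq a₀) u) hloc
  have h1 : Tendsto (fun X : ℕ => ((Fam a₀ b P u X).ncard : ℝ) / ((All K X).ncard : ℝ)) atTop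
      (nhds ρ) := by
    have h2 := conv3 hPOQ hHSD F (fun _ => True) (fun χ => P χ ∧ Ex S b (χ + mkq a₀) u) ρ (by
      refine hρ.congr fun m => ?_
      congr 3
      · congr 1
        ext χ
        simp only [Set.mem_setOf_eq, true_and]
        exact and_comm
      · congr 1
        ext χ
        simp only [Set.mem_setOf_eq, true_and])
    refine h2.congr fun X => ?_
    congr 3
    · congr 1
      ext χ
      simp only [Set.mem_setOf_eq, and_true, hQ]
    · congr 1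
      ext χ
      simp only [Set.mem_setOf_eq, and_true]
  refine ⟨ρ, h1, ?_, ?_, ?_⟩
  · exact ge_of_tendsto' h1 fun X => by positivity
  · rintro ⟨χ, h2, h3⟩
    obtain ⟨⟨c', hc', h4⟩, -⟩ := lawU (k := k) hJINW hK a₀ b hb P S₀ hP u
      ⟨χ, h2, (excq_iff F a₀ b hb χ u).2 h3⟩
    have h5 : ∀ᶠ X : ℕ in atTop, c' / max C 1 ≤
        ((Fam a₀ b P u X).ncard : ℝ) / ((All K X).ncard : ℝ) := by
      filter_upwards [h4, eventually_gt_atTop 0] with X h6 h7
      have h8 : ((Fam a₀ b P u X).ncard : ℝ) ≤ ((All K X).ncard : ℝ) := by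
        have h0 := Set.ncard_le_ncard (s := Fam a₀ b P u X) (t := All K X) (fun χ h => h.1) (hC X).1
        exact_mod_cast h0
      have h9 : (0 : ℝ) < X := by exact_mod_cast h7
      have h10 : 0 < ((All K X).ncard : ℝ) := lt_of_lt_of_le (mul_pos hc' h9) (h6.trans h8)
      have h11 : ((All K X).ncard : ℝ) ≤ max C 1 * X :=
        (hC X).2.trans (mul_le_mul_of_nonneg_right (le_max_left _ _) h9.le)
      have h12 : 0 < max C 1 := lt_of_lt_of_le one_pos (le_max_right _ _)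
      rw [div_le_div_iff₀ h12 h10]
      calc c' * ((All K X).ncard : ℝ) ≤ c' * (max C 1 * X) := mul_le_mul_of_nonneg_left h11 hc'.le
        _ = (c' * X) * max C 1 := by ring
        _ ≤ _ := mul_le_mul_of_nonneg_right h6 h12.le
    exact lt_of_lt_of_le (by positivity) (ge_of_tendsto h1 h5)
  · intro h2
    refine tendsto_nhds_unique h1 (tendsto_const_nhds.congr fun X => ?_)
    have h3 : Fam a₀ b P u X = ∅ := by
      rw [Set.eq_empty_iff_forall_notMem]
      rintro χ ⟨-, h4, h5⟩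
      exact h2 ⟨χ, h4, (excq_iff F a₀ b hb χ u).1 h5⟩
    rw [h3, Set.ncard_empty, Nat.cast_zero, zero_div]

/-- The excess is at most `s`. -/
theorem exc_le (F : GF k K) (a b : K) (hb : b ≠ 0) (hK : IsFF k K) (s : ℕ)
    (h : (Sg (a ^ 2) (b ^ 2)).ncard = 2 ^ (s + 1)) : exc a b ≤ s := by
  obtain ⟨S, hS1, -, -, hS3⟩ := S_ex F a b hb ∅
  rw [Sg_eq hK F a b hb S hS1 hS3] at h
  have h7 := s_ge F a b hb S hS1 s h
  rw [exc_eq F a b hb S hS3, Finset.sum_sub_distrib, Finset.sum_const, nsmul_eq_mul, mul_one]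
  have : ((∑ j ∈ S, dmn b j (mkq a) : ℕ) : ℤ) ≤ ((s + S.card : ℕ) : ℤ) := by
    exact_mod_cast h7
  push_cast at this
  linarith

/-- The law for all classes. -/
theorem mixU (hDSD : S_DSD) (hK : IsFF k K) (a₀ b : K) (hb : b ≠ 0) : ∃ N : ℕ,
    (∀ a : K, exc a b ∈ Finset.Icc (-(N : ℤ)) N) ∧
    ∀ (P : Qc K → Prop) (S₀ : Finset (PV K)), (∀ a a' : K, (∀ v ∈ S₀,
      AS (algebraMap K (Cm v.1) (a + a'))) → P (mkq a) → P (mkq a')) →
    ∃ δ : ℤ → ℝ, (∀ u, 0 ≤ δ u) ∧ (∀ u, 0 < δ u ↔ ∃ χ, P χ ∧ excq a₀ b χ = u) ∧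
      (∀ u, Tendsto (fun X : ℕ => ((Fam a₀ b P u X).ncard : ℝ) / ((All K X).ncard : ℝ)) atTop
        (nhds (δ u))) ∧
      (Tendsto (fun X : ℕ => ({χ ∈ All K X | P χ}.ncard : ℝ) / ((All K X).ncard : ℝ)) atTop
        (nhds (∑ u ∈ Finset.Icc (-(N : ℤ)) N, δ u))) ∧
      ∀ s : ℕ, Tendsto (fun X : ℕ => ({χ ∈ All K X | P χ ∧ ∀ a : K, mkq a = χ →
        (Sg ((a₀ + a) ^ 2) (b ^ 2)).ncard = 2 ^ (s + 1)}.ncard : ℝ) / ((All K X).ncard : ℝ)) atTop
          (nhds (∑ u ∈ Finset.Icc (-(N : ℤ)) N, if u ≤ s then δ u * alq s (s - u).toNat else 0)) := by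
  obtain ⟨F⟩ := hGF k K hK
  obtain ⟨C, hC⟩ := allU (k := k) (K := K) hK
  obtain ⟨N, hN⟩ := exc_bdd F b hb
  refine ⟨N, fun a => Finset.mem_Icc.2 (hN a), fun P S₀ hP => ?_⟩
  choose δ hδ using fun u => densU hDSD hK a₀ b hb P S₀ hP u
  have hfinA : ∀ X, (All K X).Finite := fun X => (hC X).1
  have hI : ∀ χ : Qc K, excq a₀ b χ ∈ Finset.Icc (-(N : ℤ)) N := fun χ =>
    Finset.mem_Icc.2 (hN (a₀ + χ.out))
  refine ⟨δ, fun u => (hδ u).2.1, fun u => ⟨fun h => ?_, (hδ u).2.2.1⟩, fun u => (hδ u).1, ?_, ?_⟩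
  · by_contra h1
    rw [(hδ u).2.2.2 h1] at h
    exact lt_irrefl _ h
  · refine (tendsto_finsetSum _ fun u _ => (hδ u).1).congr fun X => ?_
    rw [← Finset.sum_div, ncard_split (Finset.Icc (-(N : ℤ)) N) {χ ∈ All K X | P χ}
      ((hfinA X).subset fun χ h => h.1) (excq a₀ b) (fun χ _ => hI χ)]
    push_cast
    congr 1
    refine Finset.sum_congr rfl fun u _ => ?_
    rw [fam_sep F a₀ b hb P u X]
    congr 2
    ext χ
    simp only [Set.mem_setOf_eq]
    tauto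
  · intro s
    have key : ∀ u ∈ Finset.Icc (-(N : ℤ)) N, Tendsto (fun X : ℕ =>
        ({χ ∈ Fam a₀ b P u X | ∀ a : K, mkq a = χ →
          (Sg ((a₀ + a) ^ 2) (b ^ 2)).ncard = 2 ^ (s + 1)}.ncard : ℝ) /
            ((All K X).ncard : ℝ)) atTop
        (nhds (if u ≤ s then δ u * alq s (s - u).toNat else 0)) := by
      intro u _
      by_cases hex : ∃ χ, P χ ∧ excq a₀ b χ = u
      · by_cases hus : u ≤ s
        · rw [if_pos hus]
          obtain ⟨χ, h2, h3⟩ := hex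
          obtain ⟨⟨c', hc', h4⟩, h5⟩ := lawU (k := k) hJINW hK a₀ b hb P S₀ hP u
            ⟨χ, h2, (excq_iff F a₀ b hb χ u).2 h3⟩
          have h6 := h5 (s - u).toNat s (by
            rw [Int.toNat_of_nonneg (by linarith)]
            ring)
          have h7 := (hδ u).1.mul h6
          refine h7.congr' ?_
          filter_upwards [h4, eventually_gt_atTop 0] with X h8 h9
          have h10 : (0 : ℝ) < X := by exact_mod_cast h9
          have h11 : 0 < ((Fam a₀ b P u X).ncard : ℝ) := lt_of_lt_of_le (mul_pos hc' h10) h8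
          field_simp
        · rw [if_neg hus]
          refine tendsto_const_nhds.congr fun X => ?_
          have h3 : {χ ∈ Fam a₀ b P u X | ∀ a : K, mkq a = χ →
              (Sg ((a₀ + a) ^ 2) (b ^ 2)).ncard = 2 ^ (s + 1)} = ∅ := by
            rw [Set.eq_empty_iff_forall_notMem]
            rintro χ ⟨h4, h5⟩
            obtain ⟨a, ha⟩ := mkq_surj χ
            have h6 := exc_le F (a₀ + a) b hb hK s (h5 a ha)
            rw [h4.2.2 a ha] at h6
            exact hus h6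
          rw [h3, Set.ncard_empty, Nat.cast_zero, zero_div]
      · have h1 : δ u = 0 := (hδ u).2.2.2 hex
        rw [h1, zero_mul, ite_self]
        refine tendsto_const_nhds.congr fun X => ?_
        have h3 : {χ ∈ Fam a₀ b P u X | ∀ a : K, mkq a = χ →
            (Sg ((a₀ + a) ^ 2) (b ^ 2)).ncard = 2 ^ (s + 1)} = ∅ := by
          rw [Set.eq_empty_iff_forall_notMem]
          rintro χ ⟨h4, -⟩
          exact hex ⟨χ, h4.2.1, (excq_iff F a₀ b hb χ u).1 h4.2.2⟩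
        rw [h3, Set.ncard_empty, Nat.cast_zero, zero_div]
    refine (tendsto_finsetSum _ key).congr fun X => ?_
    rw [← Finset.sum_div, ncard_split (Finset.Icc (-(N : ℤ)) N) {χ ∈ All K X | P χ ∧
      ∀ a : K, mkq a = χ → (Sg ((a₀ + a) ^ 2) (b ^ 2)).ncard = 2 ^ (s + 1)}
      ((hfinA X).subset fun χ h => h.1) (excq a₀ b) (fun χ _ => hI χ)]
    push_cast
    congr 1
    refine Finset.sum_congr rfl fun u _ => ?_
    rw [fam_sep F a₀ b hb P u X]
    congr 2
    ext χ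
    simp only [Set.mem_setOf_eq]
    tauto

end dens

end Pool.Agent.H467.PU.Asmw
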