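import Pool.Agent.H467.PU.Spec
import Pool.Agent.H467.PG.Core

/-!
# The distribution for fixed local classes

Project PU (helper467), task COREW (helper75), after PG/Core.lean (helper236).
-/

set_option autoImplicit false

open Finset Filter WithZero
open Pool.Agent.H467.PT
open Pool.Agent.H467.GK
open Pool.Agent.H467.CT (AS Bas IsTau Std Ev LV LF cc)
open Pool.Agent.H467.PG
open Pool.Agent.H467.PG.Core
open scoped Classical

namespace Pool.Agent.H467.PU.Corew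

theorem corew : S_OML → S_NICW → S_OMDW → S_OMU → S_BDE → S_DIV → S_PKG → S_PNU → S_COREW := by
  intro hOML hNIC hOMD hOMU hBDE hDIV hPKG hPNR k K _ _ _ _ _ _ hFF F B hB c d w m₀ hWD hInW r s hrs
  obtain ⟨C₁, c₁, W, n₀, hP⟩ := hPKG k K hFF F.R B
  obtain ⟨hfinD, -, -, -⟩ := hDIV (Ob B) (sysB F.R B) (Nat.card k) C₁ c₁ W n₀ hP
  obtain ⟨C, hC, hU⟩ := hOMU k K F.R B c
  obtain ⟨c', hc', m₁, hlow⟩ := hOML k K hFF F B hB c
  obtain ⟨bd⟩ := hBDE k K F B hB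
  have hq : (2 : ℝ) ≤ (Nat.card k : ℝ) := by
    have h : 1 < Nat.card k := Finite.one_lt_card
    exact_mod_cast h
  set S := sysB F.R B with hS
  set T : ℕ → Finset (Ob B →₀ ℕ) := fun i => (hfinD i).toFinset with hT
  have hTm : ∀ i D, D ∈ T i ↔ dgf S D = i := by
    intro i D
    rw [hT]
    simp
  have hdisjT : ∀ m : ℕ, (↑(range (m + 1)) : Set ℕ).PairwiseDisjoint T := by
    intro m i _ j _ hij
    rw [Function.onFun, Finset.disjoint_left]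
    intro D hD hD'
    rw [hTm] at hD hD'
    exact hij (hD.symm.trans hD')
  have hdisj : ∀ (P : Qc K → Prop) (D D' : Ob B →₀ ℕ) (x : Qc K), x ∈ {χ ∈ OmD B c D | P χ} →
      x ∈ {χ ∈ OmD B c D' | P χ} → D = D' := by
    intro P D D' x hx hx'
    have h1 : HasD x D := hx.1.2
    have h2 : HasD x D' := hx'.1.2
    ext j
    rw [← h1 j, ← h2 j]
  have hmem : ∀ (P : Qc K → Prop) (m : ℕ) (x : Qc K), x ∈ {χ ∈ Om F.R B c m | P χ} ↔
      ∃ D ∈ (range (m + 1)).biUnion T, x ∈ {χ ∈ OmD B c D | P χ} := by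
    intro P m x
    constructor
    · rintro ⟨⟨h1, D, h2, h3⟩, h4⟩
      refine ⟨D, ?_, ⟨h1, h2⟩, h4⟩
      rw [Finset.mem_biUnion]
      exact ⟨dgf S D, Finset.mem_range.2 (Nat.lt_succ_of_le h3), (hTm _ _).2 rfl⟩
    · rintro ⟨D, hD, ⟨h1, h2⟩, h4⟩
      rw [Finset.mem_biUnion] at hD
      obtain ⟨i, hi, hD⟩ := hD
      rw [hTm] at hD
      refine ⟨⟨h1, D, h2, ?_⟩, h4⟩
      rw [Finset.mem_range] at hi
      change dgf S D ≤ m
      omega
  have hfin : ∀ (P : Qc K → Prop) (D : Ob B →₀ ℕ), {χ ∈ OmD B c D | P χ}.Finite := fun P D =>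
    (hU D).1.subset (fun x hx => hx.1)
  have hsplit : ∀ (P : Qc K → Prop) (m : ℕ), {χ ∈ Om F.R B c m | P χ}.Finite ∧
      ({χ ∈ Om F.R B c m | P χ}.ncard : ℝ) =
        ∑ i ∈ range (m + 1), ∑ D ∈ T i, ({χ ∈ OmD B c D | P χ}.ncard : ℝ) := by
    intro P m
    obtain ⟨h1, h2⟩ := ncard_split _ (fun D => {χ ∈ OmD B c D | P χ}) _ (hmem P m) (hdisj P)
      (hfin P)
    refine ⟨h1, ?_⟩
    rw [h2, Finset.sum_biUnion (hdisjT m)]
    push_cast
    rfl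
  have hT1 : ∀ m, {χ ∈ Om F.R B c m | True} = Om F.R B c m := fun m => by
    ext x; simp
  have hT2 : ∀ D, {χ ∈ OmD B c D | True} = OmD B c D := fun D => by
    ext x; simp
  have hsplit1 : ∀ m : ℕ, (Om F.R B c m).Finite ∧ ((Om F.R B c m).ncard : ℝ) =
        ∑ i ∈ range (m + 1), ∑ D ∈ T i, ((OmD B c D).ncard : ℝ) := by
    intro m
    have h := hsplit (fun _ => True) m
    rw [hT1] at h
    simp only [hT2] at h
    exact h
  have e : (fun m : ℕ => ({χ ∈ Om F.R B c m | (SVW B d w χ).ncard = 2 ^ (s + 1)}.ncard : ℝ) /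
        ((Om F.R B c m).ncard : ℝ)) = fun m : ℕ =>
      (∑ i ∈ range (m + 1), ∑ D ∈ T i,
        ({χ ∈ OmD B c D | (SVW B d w χ).ncard = 2 ^ (s + 1)}.ncard : ℝ)) /
      (∑ i ∈ range (m + 1), ∑ D ∈ T i, ((OmD B c D).ncard : ℝ)) := by
    funext m
    rw [(hsplit (fun χ => (SVW B d w χ).ncard = 2 ^ (s + 1)) m).2, (hsplit1 m).2]
  rw [e]
  refine absr T (fun D => dgf S D) hTm (fun D => ((OmD B c D).ncard : ℝ))
    (fun D => ({χ ∈ OmD B c D | (SVW B d w χ).ncard = 2 ^ (s + 1)}.ncard : ℝ)) (Nat.card k : ℝ) hq C c'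
    (alq s r) hC hc' (fun D => (hU D).2) (fun D => Nat.cast_nonneg _) (fun D => ?_) m₁ ?_ ?_
  · have h : {χ ∈ OmD B c D | (SVW B d w χ).ncard = 2 ^ (s + 1)} ⊆ OmD B c D := fun x hx => hx.1
    exact_mod_cast Set.ncard_le_ncard h (hU D).1
  · intro m hm
    rw [← (hsplit1 m).2]
    exact hlow m hm
  · intro δ ε hδ hε
    -- choice of C₀
    have hE : (0 : ℝ) < 2 ^ (∑ j ∈ B, d j) := by positivity
    have t1 : ∀ᶠ n in atTop, |pcu (n + r) (n + s) r - alq s r| < δ / 3 := by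
      have := (Metric.tendsto_atTop.1 (hPNR.1 s r)) (δ / 3) (by positivity)
      obtain ⟨N, hN⟩ := this
      exact eventually_atTop.2 ⟨N, fun n hn => by simpa [Real.dist_eq] using hN n hn⟩
    have t2 : ∀ᶠ n : ℕ in atTop, 2 * 2 ^ (∑ j ∈ B, d j) * (1 / 2 : ℝ) ^ n < δ / 3 := by
      have h : Tendsto (fun n : ℕ => 2 * 2 ^ (∑ j ∈ B, d j) * (1 / 2 : ℝ) ^ n) atTop
          (nhds (2 * 2 ^ (∑ j ∈ B, d j) * 0)) :=
        (tendsto_pow_atTop_nhds_zero_of_lt_one (by norm_num) (by norm_num)).const_mul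
          (2 * 2 ^ (∑ j ∈ B, d j))
      rw [mul_zero] at h
      exact h.eventually (gt_mem_nhds (by positivity))
    obtain ⟨n, ⟨h1, h2⟩, h3'⟩ := ((t1.and t2).and (eventually_ge_atTop 1)).exists
    obtain ⟨C₀, hC₀⟩ : ∃ C₀, C₀ = n + s := ⟨_, rfl⟩
    obtain ⟨D₁, hD₁⟩ : ∃ D₁, D₁ = n + r := ⟨_, rfl⟩
    rw [← hC₀, ← hD₁] at h1
    have h3 : 1 ≤ C₀ := by omega
    have h2' : 2 * (1 / 2 : ℝ) ^ C₀ * 2 ^ (∑ j ∈ B, d j) ≤ δ / 3 := by
      have h4 : (1 / 2 : ℝ) ^ C₀ ≤ (1 / 2) ^ n :=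
        pow_le_pow_of_le_one (by norm_num) (by norm_num) (by omega)
      have h5 := mul_le_mul_of_nonneg_left h4 (by positivity : (0 : ℝ) ≤ 2 * 2 ^ (∑ j ∈ B, d j))
      have h6 : 2 * (1 / 2 : ℝ) ^ C₀ * 2 ^ (∑ j ∈ B, d j) =
        2 * 2 ^ (∑ j ∈ B, d j) * (1 / 2 : ℝ) ^ C₀ := by ring
      rw [h6]
      exact h5.trans h2.le
    have hpw : (0 : ℝ) < (1 / 2) ^ (C₀ + 2) := by positivity
    obtain ⟨θ, hθ0, hθ1, hθ2⟩ : ∃ θ : ℝ, 0 < θ ∧ θ < (1 / 2) ^ (C₀ + 2) ∧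
        6 * θ * 2 ^ (∑ j ∈ B, d j) ≤ δ / 3 := by
      refine ⟨min ((1 / 2) ^ (C₀ + 2) / 2) (δ / (18 * 2 ^ (∑ j ∈ B, d j))),
        lt_min (by positivity) (by positivity), ?_, ?_⟩
      · exact lt_of_le_of_lt (min_le_left _ _) (by linarith)
      · have h4 := min_le_right ((1 / 2 : ℝ) ^ (C₀ + 2) / 2) (δ / (18 * 2 ^ (∑ j ∈ B, d j)))
        have h5 := mul_le_mul_of_nonneg_left h4
          (by positivity : (0 : ℝ) ≤ 6 * 2 ^ (∑ j ∈ B, d j))
        have h6 : 6 * 2 ^ (∑ j ∈ B, d j) * (δ / (18 * 2 ^ (∑ j ∈ B, d j))) = δ / 3 := by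
          field_simp
          norm_num
        rw [h6] at h5
        linarith
    obtain ⟨L, hL, M, m₂, hm₂⟩ := hNIC k K hFF F B bd m₀ C₀ θ ε hθ0 hε
    refine ⟨fun D => NiceW bd m₀ L M C₀ θ D, m₂, ?_, ?_⟩
    · intro D hD
      have h4 := hOMD k K F B bd c d w m₀ L M C₀ D₁ θ D hWD hInW (by omega) hL h3 hθ0 hθ1 hD r s
        (by omega)
      have h5 : (0 : ℝ) ≤ ((OmD B c D).ncard : ℝ) := Nat.cast_nonneg _
      have h6 : |pcu D₁ C₀ r - alq s r| * ((OmD B c D).ncard : ℝ) ≤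
          δ / 3 * ((OmD B c D).ncard : ℝ) := mul_le_mul_of_nonneg_right h1.le h5
      have h7 : ((6 * θ + 2 * (1 / 2) ^ C₀) * 2 ^ (∑ j ∈ B, d j)) * ((OmD B c D).ncard : ℝ) ≤
          (δ / 3 + δ / 3) * ((OmD B c D).ncard : ℝ) :=
        mul_le_mul_of_nonneg_right (by linarith) h5
      have h8 : ({χ ∈ OmD B c D | (SVW B d w χ).ncard = 2 ^ (s + 1)}.ncard : ℝ) -
          alq s r * ((OmD B c D).ncard : ℝ) =
          (({χ ∈ OmD B c D | (SVW B d w χ).ncard = 2 ^ (s + 1)}.ncard : ℝ) -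
            pcu D₁ C₀ r * ((OmD B c D).ncard : ℝ)) +
          (pcu D₁ C₀ r - alq s r) * ((OmD B c D).ncard : ℝ) := by ring
      rw [h8]
      refine (abs_add_le _ _).trans ?_
      rw [abs_mul, abs_of_nonneg h5]
      linarith
    · intro m hm
      have h4 := hm₂ m hm
      have h5 : (T m).filter (fun D => ¬ NiceW bd m₀ L M C₀ θ D) =
          ((hfinD m).subset (fun D (hD : D ∈ {D : Ob B →₀ ℕ | dgf S D = m ∧
            ¬ NiceW bd m₀ L M C₀ θ D}) => hD.1)).toFinset := by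
        ext D
        rw [Finset.mem_filter, hTm, Set.Finite.mem_toFinset]
        rfl
      rw [h5, ← Set.ncard_eq_toFinset_card _ _]
      exact h4

end Pool.Agent.H467.PU.Corew
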