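import Pool.Agent.H467.PU.Spec5
import Pool.Agent.H467.PG.Dst

/-!
# The density of a local condition (helper703, for helper467)
-/

set_option autoImplicit false
set_option linter.all false

open Finset Filter WithZero
open Pool.Agent.H467.PT
open Pool.Agent.H467.GK
open Pool.Agent.H467.CT (AS Bas IsTau Std Ev LV LF cc)
open Pool.Agent.H467.PG
open Pool.Agent.H467.PG.Dst
open scoped Classical

namespace Pool.Agent.H467.PU.Dsd

/-- A sequence which is uniformly close to convergent sequences converges. -/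
theorem conv_of_approx {f : ℕ → ℝ} (h : ∀ η : ℝ, 0 < η → ∃ g : ℕ → ℝ,
    (∃ l, Tendsto g atTop (nhds l)) ∧ ∀ m, |f m - g m| ≤ η) :
    ∃ l, Tendsto f atTop (nhds l) := by
  apply cauchySeq_tendsto_of_complete
  rw [Metric.cauchySeq_iff']
  intro ε hε
  obtain ⟨g, ⟨l, hl⟩, hg⟩ := h (ε / 8) (by positivity)
  rw [Metric.tendsto_atTop] at hl
  obtain ⟨N, hN⟩ := hl (ε / 8) (by positivity)
  refine ⟨N, fun m hm => ?_⟩
  have h1 := hN m hm
  have h2 := hN N le_rfl
  have h3 := hg m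
  have h4 := hg N
  rw [Real.dist_eq] at h1 h2 ⊢
  have e : f m - f N = (f m - g m) + (g m - l) - (g N - l) - (f N - g N) := by ring
  rw [e]
  have h5 := abs_sub ((f m - g m) + (g m - l) - (g N - l)) (f N - g N)
  have h6 := abs_sub ((f m - g m) + (g m - l)) (g N - l)
  have h7 := abs_add_le (f m - g m) (g m - l)
  linarith

theorem tends_div {δ : ℕ} (hδ : 0 < δ) (z : ℕ) : Tendsto (fun m : ℕ => m / δ - z) atTop atTop := by
  refine tendsto_atTop.2 fun b => ?_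
  filter_upwards [eventually_ge_atTop (δ * (b + z))] with m hm
  have h1 := Nat.div_le_div_right (c := δ) hm
  rw [Nat.mul_div_cancel_left _ hδ] at h1
  omega

theorem dgf_dvd {ι : Type} (S : PSys ι) {δ : ℕ} (h : ∀ p, δ ∣ S.deg p) (D : ι →₀ ℕ) :
    δ ∣ dgf S D := by
  unfold dgf Finsupp.sum
  exact Finset.dvd_sum fun p _ => Dvd.dvd.mul_left (h p) _

theorem om_div {k K : Type} [Field k] [Finite k] [Field K] [CharP K 2] [Algebra k K]
    (R : GFR k K) (S : Finset (PV K)) {δ : ℕ} (hδ : 0 < δ) (hdeg : ∀ j, δ ∣ R.deg j)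
    (c : PV K → K) (m : ℕ) : Om R S c m = Om R S c (δ * (m / δ)) := by
  unfold Om
  ext χ
  refine and_congr_right fun _ => exists_congr fun D => and_congr_right fun _ => ?_
  obtain ⟨e, he⟩ := dgf_dvd (sysB R S) (fun p => hdeg p.1) D
  rw [he]
  constructor
  · intro h
    refine Nat.mul_le_mul_left δ ?_
    rw [Nat.le_div_iff_mul_le hδ, mul_comm]
    exact h
  · intro h
    exact h.trans (Nat.mul_div_le m δ)

theorem lim_aux (hOMA : S_OMA) (hUBG : S_UBG) (hPKG : S_PKG) (hDIV : S_DIV) (hPOQ : S_POQ)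
    (hHSD : S_HSD) (k K : Type) [Field k] [Finite k] [CharP k 2] [Field K] [CharP K 2]
    [Algebra k K] (hFF : IsFF k K) (F : GF k K) : ∃ δ : ℕ, 0 < δ ∧
    ∀ (S : Finset (PV K)), F.B₁ ⊆ S → ∀ P : Qc K → Prop,
      (∀ χ χ', (∀ j ∈ S, Spl j (χ + χ')) → P χ → P χ') → ∃ L : ℝ,
      Tendsto (fun m : ℕ => ({χ : Qc K | P χ ∧ DegLE F.R χ m}.ncard : ℝ) /
        (Nat.card k : ℝ) ^ (2 * (δ * (m / δ)))) atTop (nhds L) := by
  obtain ⟨δ, hδ, hδdeg, hOM⟩ := hOMA k K hFF F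
  refine ⟨δ, hδ, fun S hS P hP => ?_⟩
  obtain ⟨Λ, hΛ0, hΛt⟩ := hOM S hS
  obtain ⟨a₀, ha₀⟩ : ∃ a : K, a = 0 := ⟨0, rfl⟩
  have hmk : mkq a₀ = 0 := by rw [ha₀]; rfl
  have ha : ∀ j : PV K, j ∉ S → j.1 a₀ ≤ 1 := by
    intro j _
    rw [ha₀, map_zero]
    exact zero_le_one
  have hadd : ∀ χ : Qc K, χ + mkq a₀ = χ := fun χ => by rw [hmk, add_zero]
  have hq : (2 : ℝ) ≤ Nat.card k := by exact_mod_cast (Finite.one_lt_card : 1 < Nat.card k)
  obtain ⟨q, hqdef⟩ : ∃ q : ℝ, (Nat.card k : ℝ) = q := ⟨_, rfl⟩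
  rw [hqdef] at hq hΛt ⊢
  have hq0 : 0 < q := by linarith
  obtain ⟨C, hC, hcount⟩ := cls_count hUBG hPOQ hHSD F.R
  obtain ⟨_, _, _, _, hPH⟩ := hPKG k K hFF F.R ∅
  obtain ⟨_, _, _, _, hPHS⟩ := hPKG k K hFF F.R S
  obtain ⟨w, hw⟩ := exists_out hPHS
  obtain ⟨hfin, ⟨C', hC', hup⟩, -, htail⟩ := hDIV _ (sysB F.R ∅) (Nat.card k) _ _ _ _ hPH
  rw [hqdef] at hup hcount htail
  have hdeg : ∀ (χ : Qc K) (m : ℕ), DegLE F.R χ m ↔
      dg F.R (dvs (χ + mkq a₀)) ≤ m := fun χ m => by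
    rw [hadd]
    exact degLE_iff hHSD F.R _ m
  -- the upper bound
  have hA : ∀ m : ℕ, {χ : Qc K | dg F.R (dvs (χ + mkq a₀)) ≤ m}.Finite ∧
      ({χ : Qc K | dg F.R (dvs (χ + mkq a₀)) ≤ m}.ncard : ℝ) ≤ C * C' * q ^ (2 * m) := by
    intro m
    have h1 := hcount (fun _ => True) C' hC'.le (fun i => by
      have h2 := count_le F.R (fun _ => True) i (C' * q ^ i) (hfin i) (by
        have h3 := hup i
        simpa using h3)
      exact h2) m
    have h4 := translate F.R a₀ (fun _ => True) m h1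
    simpa using h4
  -- the tail
  have hT : ∀ ε : ℝ, 0 < ε → ∃ M : ℕ, ∀ m : ℕ,
      ({χ : Qc K | dg F.R (dvs (χ + mkq a₀)) ≤ m ∧
        M < ∑ j ∈ S, dvs (χ + mkq a₀) j * F.R.deg j}.ncard : ℝ) ≤ C * ε * q ^ (2 * m) := by
    intro ε hε
    obtain ⟨M, hM⟩ := htail (S.sup F.R.deg) ε hε
    refine ⟨M, fun m => ?_⟩
    have hL : ∀ j ∈ S, F.R.deg j ≤ S.sup F.R.deg := fun j hj => Finset.le_sup (f := F.R.deg) hj
    have h1 := hcount (fun D => M < ∑ j ∈ S, D j * F.R.deg j) ε hε.le (fun i => by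
      have h2 := count_le F.R (fun D => M < ∑ p ∈ D.support.filter
        (fun p => (sysB F.R ∅).deg p ≤ S.sup F.R.deg), D p * (sysB F.R ∅).deg p) i (ε * q ^ i)
        (hfin i) (hM i)
      have h3 : {D : PV K →₀ ℕ | dg F.R D = i ∧ M < ∑ j ∈ S, D j * F.R.deg j} ⊆
          {D : PV K →₀ ℕ | dg F.R D = i ∧ M < ∑ p ∈ (out ∅ D).support.filter
            (fun p => (sysB F.R ∅).deg p ≤ S.sup F.R.deg),
              out ∅ D p * (sysB F.R ∅).deg p} := by
        rintro D ⟨h4, h5⟩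
        exact ⟨h4, lt_of_lt_of_le h5 (small_le F.R S _ hL D)⟩
      refine ⟨h2.1.subset h3, le_trans ?_ h2.2⟩
      exact_mod_cast Set.ncard_le_ncard h3 h2.1) m
    exact (translate F.R a₀ (fun D => M < ∑ j ∈ S, D j * F.R.deg j) m h1).2
  -- finite sets
  obtain ⟨U, hU⟩ : ∃ U : ℕ → Finset (Qc K), ∀ m χ, χ ∈ U m ↔ dg F.R (dvs (χ + mkq a₀)) ≤ m :=
    ⟨fun m => (hA m).1.toFinset, fun m χ => Set.Finite.mem_toFinset _⟩
  have hE : ∀ m, {χ : Qc K | P χ ∧ DegLE F.R χ m}.ncard =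
      ((U m).filter P).card := by
    intro m
    rw [← Set.ncard_coe_finset]
    congr 1
    ext χ
    rw [Finset.mem_coe, Finset.mem_filter, hU, Set.mem_ofPred_eq, hdeg, and_comm]
  obtain ⟨Z, hZdef⟩ : ∃ Z : Qc K → ℕ, ∀ χ, Z χ = ∑ j ∈ S, dvs (χ + mkq a₀) j * F.R.deg j :=
    ⟨_, fun χ => rfl⟩
  have hZdvd : ∀ χ, δ ∣ Z χ := by
    intro χ
    rw [hZdef]
    exact Finset.dvd_sum fun j _ => Dvd.dvd.mul_left (hδdeg j) _
  have hZinv : ∀ χ χ' : Qc K, (∀ j ∈ S, Spl j (χ + χ')) → Z χ = Z χ' := by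
    intro χ χ' h
    rw [hZdef, hZdef]
    refine Finset.sum_congr rfl fun j hj => ?_
    have h1 : Spl j ((χ + mkq a₀) + (χ' + mkq a₀)) := by
      rw [hadd, hadd]
      exact h j hj
    rw [dvs_apply hHSD F.R, dvs_apply hHSD F.R, (hPOQ K j).2.2.2.2.2.2.2.2.1 _ _ h1]
  refine conv_of_approx fun η hη => ?_
  obtain ⟨M, hM⟩ := hT (η / (C * q ^ (2 * δ))) (by positivity)
  refine ⟨fun m => (((((U m).filter P).filter (fun χ => Z χ ≤ M)).card : ℕ) : ℝ) /
    q ^ (2 * (δ * (m / δ))), ?_, fun m => ?_⟩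
  · -- convergence for the classes with bounded poles at `S`
    have hYfin := fin_cls hPOQ hHSD F.R S a₀ w hw M
    obtain ⟨Y, hY⟩ : ∃ Y : Finset (Qc K ⧸ NS hPOQ S), ∀ y, y ∈ Y ↔
        ∃ χ : Qc K, QuotientAddGroup.mk χ = y ∧ Z χ ≤ M := by
      refine ⟨hYfin.toFinset, fun y => ?_⟩
      rw [Set.Finite.mem_toFinset]
      constructor
      · rintro ⟨χ, h1, h2⟩
        exact ⟨χ, h1, by rw [hZdef]; exact h2⟩
      · rintro ⟨χ, h1, h2⟩
        exact ⟨χ, h1, by rw [← hZdef]; exact h2⟩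
    have hone : ∀ y ∈ Y, ∃ l : ℝ, Tendsto (fun m : ℕ =>
        ((((((U m).filter P).filter (fun χ => Z χ ≤ M)).filter
          (fun χ => (QuotientAddGroup.mk χ : Qc K ⧸ NS hPOQ S) = y)).card : ℕ) : ℝ) /
          q ^ (2 * (δ * (m / δ)))) atTop (nhds l) := by
      intro y hy
      by_cases hex : ∃ χ₁ : Qc K, P χ₁ ∧ Z χ₁ ≤ M ∧
          (QuotientAddGroup.mk χ₁ : Qc K ⧸ NS hPOQ S) = y
      · obtain ⟨χ₁, h1, h2, h3⟩ := hex
        have hZ1 : ∑ j ∈ S, ((poq j (mkq χ₁.out + mkq a₀) + 1) / 2) * F.R.deg j = Z χ₁ := by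
          rw [hZdef, mkq_out]
          refine Finset.sum_congr rfl fun j _ => ?_
          rw [dvs_apply hHSD F.R]
        have hom : ∀ m, Z χ₁ ≤ m → {χ : Qc K | (∀ j ∈ S, Spl j (χ + χ₁)) ∧
            dg F.R (dvs (χ + mkq a₀)) ≤ m} = Om F.R S (fun _ => χ₁.out) (m - Z χ₁) := by
          intro m hm
          have h4 := om_eq hPOQ hHSD F.R S a₀ ha (fun _ => χ₁.out) m (by
            show ∑ j ∈ S, ((poq j (mkq χ₁.out + mkq a₀) + 1) / 2) * F.R.deg j ≤ m
            rw [hZ1]; exact hm)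
          have h4' : m - ∑ j ∈ S, ((poq j (mkq ((fun _ : PV K => χ₁.out) j) + mkq a₀) + 1) / 2) *
              F.R.deg j = m - Z χ₁ := by rw [← hZ1]
          rw [h4'] at h4
          rw [← h4]
          ext χ
          rw [Set.mem_ofPred_eq, Set.mem_ofPred_eq]
          refine and_congr ⟨fun h j hj => ?_, fun h j hj => ?_⟩ Iff.rfl
          · show Spl j (χ + mkq χ₁.out)
            rw [mkq_out]
            exact h j hj
          · have h8 : Spl j (χ + mkq χ₁.out) := h j hj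
            rwa [mkq_out] at h8
        have hset : ∀ m, Z χ₁ ≤ m → (((((U m).filter P).filter (fun χ => Z χ ≤ M)).filter
            (fun χ => (QuotientAddGroup.mk χ : Qc K ⧸ NS hPOQ S) = y) : Finset (Qc K)) :
              Set (Qc K)) = Om F.R S (fun _ => χ₁.out) (m - Z χ₁) := by
          intro m hm
          rw [← hom m hm]
          ext χ
          rw [Finset.mem_coe, Finset.mem_filter, Finset.mem_filter, Finset.mem_filter, hU,
            Set.mem_ofPred_eq, ← h3, ns_eq]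
          constructor
          · rintro ⟨⟨⟨h5, -⟩, -⟩, h6⟩
            exact ⟨h6, h5⟩
          · rintro ⟨h7, h6⟩
            refine ⟨⟨⟨h6, ?_⟩, ?_⟩, h7⟩
            · exact hP χ₁ χ (fun j hj => by rw [add_comm]; exact h7 j hj) h1
            · rw [hZinv χ χ₁ h7]
              exact h2
        obtain ⟨z, hz⟩ := hZdvd χ₁
        have h5 := (hΛt (fun _ => χ₁.out)).comp (tends_div hδ z)
        refine ⟨Λ * (1 / q ^ (2 * (δ * z))), ?_⟩
        refine (h5.mul_const (1 / q ^ (2 * (δ * z)))).congr' ?_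
        filter_upwards [eventually_ge_atTop (Z χ₁)] with m hm
        have h6 : (m - Z χ₁) / δ = m / δ - z := by
          rw [hz]
          exact Nat.sub_mul_div m δ z
        have h7 : z ≤ m / δ := by
          rw [Nat.le_div_iff_mul_le hδ, mul_comm, ← hz]
          exact hm
        have h8 : (((((U m).filter P).filter (fun χ => Z χ ≤ M)).filter
            (fun χ => (QuotientAddGroup.mk χ : Qc K ⧸ NS hPOQ S) = y)).card : ℕ) =
            (Om F.R S (fun _ => χ₁.out) (δ * (m / δ - z))).ncard := by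
          rw [← h6, ← om_div F.R S hδ hδdeg, ← hset m hm, Set.ncard_coe_finset]
        rw [h8]
        show ((Om F.R S (fun _ => χ₁.out) (δ * (m / δ - z))).ncard : ℝ) /
          q ^ (2 * (δ * (m / δ - z))) * (1 / q ^ (2 * (δ * z))) = _
        rw [div_mul_div_comm, mul_one, ← pow_add]
        congr 2
        rw [← mul_add, ← mul_add, Nat.sub_add_cancel h7]
      · refine ⟨0, ?_⟩
        have h1 : ∀ m, ((((U m).filter P).filter (fun χ => Z χ ≤ M)).filter
            (fun χ => (QuotientAddGroup.mk χ : Qc K ⧸ NS hPOQ S) = y)) = ∅ := by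
          intro m
          rw [Finset.eq_empty_iff_forall_notMem]
          intro χ hχ
          rw [Finset.mem_filter, Finset.mem_filter, Finset.mem_filter] at hχ
          exact hex ⟨χ, hχ.1.1.2, hχ.1.2, hχ.2⟩
        refine tendsto_const_nhds.congr fun m => ?_
        rw [h1 m, Finset.card_empty, Nat.cast_zero, zero_div]
    choose! l hl using hone
    refine ⟨∑ y ∈ Y, l y, (tendsto_finset_sum Y hl).congr fun m => ?_⟩
    have hmaps : ∀ χ ∈ ((U m).filter P).filter (fun χ => Z χ ≤ M),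
        (QuotientAddGroup.mk χ : Qc K ⧸ NS hPOQ S) ∈ Y := by
      intro χ hχ
      rw [hY]
      exact ⟨χ, rfl, (Finset.mem_filter.1 hχ).2⟩
    rw [Finset.card_eq_sum_card_fiberwise hmaps, Nat.cast_sum, Finset.sum_div]
  · -- the tail
    rw [hE]
    have hQ : 0 < q ^ (2 * (δ * (m / δ))) := by positivity
    have h1 : (((U m).filter P).card : ℝ) =
        ((((U m).filter P).filter (fun χ => Z χ ≤ M)).card : ℝ) +
        ((((U m).filter P).filter (fun χ => ¬ Z χ ≤ M)).card : ℝ) := by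
      rw [← Finset.card_filter_add_card_filter_not (s := (U m).filter P) (fun χ => Z χ ≤ M)]
      push_cast
      rfl
    have h6 : ((((U m).filter P).filter (fun χ => ¬ Z χ ≤ M)).card : ℝ) ≤
        C * (η / (C * q ^ (2 * δ))) * q ^ (2 * m) := by
      refine le_trans ?_ (hM m)
      rw [← Set.ncard_coe_finset]
      have h7 : {χ : Qc K | dg F.R (dvs (χ + mkq a₀)) ≤ m ∧
        M < ∑ j ∈ S, dvs (χ + mkq a₀) j * F.R.deg j}.Finite :=
        (hA m).1.subset fun χ hχ => hχ.1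
      have h8 : ((((U m).filter P).filter (fun χ => ¬ Z χ ≤ M) : Finset (Qc K)) :
          Set (Qc K)) ⊆ {χ : Qc K | dg F.R (dvs (χ + mkq a₀)) ≤ m ∧
        M < ∑ j ∈ S, dvs (χ + mkq a₀) j * F.R.deg j} := by
        intro χ hχ
        rw [Finset.mem_coe, Finset.mem_filter, Finset.mem_filter, hU, hZdef, not_le] at hχ
        exact ⟨hχ.1.1, hχ.2⟩
      exact_mod_cast Set.ncard_le_ncard h8 h7
    have h9 : q ^ (2 * m) ≤ q ^ (2 * δ) * q ^ (2 * (δ * (m / δ))) := by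
      rw [← pow_add]
      refine pow_le_pow_right₀ (by linarith) ?_
      have := Nat.lt_mul_div_succ m hδ
      have h10 : δ * (m / δ + 1) = δ * (m / δ) + δ := by ring
      omega
    rw [h1, ← sub_div, add_sub_cancel_left, abs_div, abs_of_pos hQ, abs_of_nonneg (Nat.cast_nonneg _),
      div_le_iff₀ hQ]
    calc ((((U m).filter P).filter (fun χ => ¬ Z χ ≤ M)).card : ℝ)
        ≤ C * (η / (C * q ^ (2 * δ))) * q ^ (2 * m) := h6
      _ ≤ C * (η / (C * q ^ (2 * δ))) * (q ^ (2 * δ) * q ^ (2 * (δ * (m / δ)))) := by gcongr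
      _ = η * q ^ (2 * (δ * (m / δ))) := by field_simp

theorem dsd : S_OMA → S_DSTC → S_UBG → S_PKG → S_DIV → S_POQ → S_HSD → S_DSD := by
  intro hOMA hDSTC hUBG hPKG hDIV hPOQ hHSD k K _ _ _ _ _ _ hFF F S hS P hP
  obtain ⟨δ, hδ, hlim⟩ := lim_aux hOMA hUBG hPKG hDIV hPOQ hHSD k K hFF F
  obtain ⟨L, hL⟩ := hlim S hS P hP
  obtain ⟨L₁, hL₁⟩ := hlim S hS (fun _ => True) (fun _ _ _ _ => trivial)
  obtain ⟨-, c', hc', m₀, hlow⟩ := hDSTC k K hFF F 0 S hS (fun j _ => by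
    rw [map_zero]
    exact zero_le_one) (fun _ => True) (fun _ _ _ _ => trivial) ⟨0, trivial⟩
  have hq : (2 : ℝ) ≤ Nat.card k := by exact_mod_cast (Finite.one_lt_card : 1 < Nat.card k)
  obtain ⟨q, hqdef⟩ : ∃ q : ℝ, (Nat.card k : ℝ) = q := ⟨_, rfl⟩
  rw [hqdef] at hq hL hL₁ hlow
  have hQ : ∀ m : ℕ, 0 < q ^ (2 * (δ * (m / δ))) := fun m => by
    have : 0 < q := by linarith
    positivity
  have hmk : ∀ χ : Qc K, χ + mkq (0 : K) = χ := fun χ => by
    have : mkq (0 : K) = 0 := rfl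
    rw [this, add_zero]
  have hpos : c' ≤ L₁ := by
    refine ge_of_tendsto hL₁ ?_
    filter_upwards [eventually_ge_atTop m₀] with m hm
    rw [le_div_iff₀ (hQ m)]
    have h1 := hlow m hm
    simp only [hmk] at h1
    refine le_trans ?_ h1
    refine mul_le_mul_of_nonneg_left (pow_le_pow_right₀ (by linarith) ?_) hc'.le
    have := Nat.mul_div_le m δ
    omega
  have hL₁0 : L₁ ≠ 0 := (lt_of_lt_of_le hc' hpos).ne'
  refine ⟨L / L₁, (hL.div hL₁ hL₁0).congr fun m => ?_⟩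
  have h1 : {χ : Qc K | DegLE F.R χ m} = {χ : Qc K | True ∧ DegLE F.R χ m} := by
    ext χ
    simp
  rw [h1]
  exact div_div_div_cancel_right₀ (hQ m).ne' _ _

end Pool.Agent.H467.PU.Dsd
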