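import Pool.Agent.H467.PU.Spec
import Pool.Agent.H467.PG.Dst

/-!
# The number of the classes with a local condition (helper400, for helper467)
-/

set_option autoImplicit false
set_option linter.all false

open Finset Filter WithZero
open Pool.Agent.TH115.GD
open Pool.Agent.H467.PT
open Pool.Agent.H467.GK
open Pool.Agent.H467.CT (AS Bas IsTau Std Ev LV LF cc)
open Pool.Agent.H467.PG
open Pool.Agent.H467.PG.Dst
open scoped Classical

namespace Pool.Agent.H467.PU.Dstc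

theorem dstc : S_OML → S_UBG → S_PKG → S_DIV → S_POQ → S_HSD → S_DSTC := by
  intro hOML hUBG hPKG hDIV hPOQ hHSD k K _ _ _ _ _ _ hFF F a₀ S hS ha P hP hc
  obtain ⟨χ₀, hχ₀⟩ := hc
  have hq : (2 : ℝ) ≤ Nat.card k := by exact_mod_cast (Finite.one_lt_card : 1 < Nat.card k)
  obtain ⟨q, hqdef⟩ : ∃ q : ℝ, (Nat.card k : ℝ) = q := ⟨_, rfl⟩
  rw [hqdef] at hq
  have hq0 : 0 < q := by linarith
  obtain ⟨C, hC, hcount⟩ := cls_count hUBG hPOQ hHSD F.R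
  obtain ⟨_, _, _, _, hPH⟩ := hPKG k K hFF F.R ∅
  obtain ⟨hfin, ⟨C', hC', hup⟩, -, -⟩ := hDIV _ (sysB F.R ∅) (Nat.card k) _ _ _ _ hPH
  rw [hqdef] at hup hcount ⊢
  -- the degree of the divisor of `χ + a₀`
  have hdeg : ∀ (χ : Qc K) (m : ℕ), DegLE F.R (χ + mkq a₀) m ↔
      dg F.R (dvs (χ + mkq a₀)) ≤ m := fun χ m => degLE_iff hHSD F.R _ m
  -- the upper bound
  have hA : ∀ m : ℕ, {χ : Qc K | dg F.R (dvs (χ + mkq a₀)) ≤ m}.Finite ∧
      ({χ : Qc K | dg F.R (dvs (χ + mkq a₀)) ≤ m}.ncard : ℝ) ≤ C * C' * q ^ (2 * m) := by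
    intro m
    have h1 := hcount (fun _ => True) C' hC'.le (fun i => by
      have h2 := count_le F.R (fun _ => True) i (C' * q ^ i) (hfin i) (by
        have h3 := hup i
        simpa using h3)
      exact h2) m
    have h4 := translate F.R a₀ (fun _ => True) m h1
    simpa using h4
  have hEfin : ∀ m : ℕ, {χ : Qc K | P χ ∧ DegLE F.R (χ + mkq a₀) m}.Finite := by
    intro m
    refine (hA m).1.subset ?_
    rintro χ ⟨-, h2⟩
    exact (hdeg χ m).1 h2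
  refine ⟨⟨C * C', by positivity, fun m => ?_⟩, ?_⟩
  · have h1 : {χ : Qc K | DegLE F.R (χ + mkq a₀) m} =
        {χ : Qc K | dg F.R (dvs (χ + mkq a₀)) ≤ m} := by
      ext χ
      exact hdeg χ m
    rw [h1]
    exact hA m
  -- the lower bound
  obtain ⟨c₀, hc₀⟩ : ∃ c₀ : PV K → K, ∀ j, mkq (c₀ j) = χ₀ :=
    ⟨fun _ => χ₀.out, fun _ => mkq_out χ₀⟩
  obtain ⟨c', hc', m₀, hm₀⟩ := hOML k K hFF F S hS c₀
  rw [hqdef] at hm₀
  obtain ⟨e, he⟩ : ∃ e : ℕ,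
    ∑ j ∈ S, ((poq j (mkq (c₀ j) + mkq a₀) + 1) / 2) * F.R.deg j = e := ⟨_, rfl⟩
  refine ⟨c' / q ^ (2 * e), by positivity, m₀ + e, fun m hm => ?_⟩
  have h1 := om_eq hPOQ hHSD F.R S a₀ ha c₀ m (by rw [he]; omega)
  rw [he] at h1
  have h2 := hm₀ (m - e) (by omega)
  rw [← h1] at h2
  have h3 : {χ : Qc K | (∀ j ∈ S, Spl j (χ + mkq (c₀ j))) ∧
      dg F.R (dvs (χ + mkq a₀)) ≤ m} ⊆
      {χ : Qc K | P χ ∧ DegLE F.R (χ + mkq a₀) m} := by
    rintro χ ⟨h4, h5⟩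
    refine ⟨hP χ₀ χ (fun j hj => ?_) hχ₀, (hdeg χ m).2 h5⟩
    have h6 := h4 j hj
    rw [hc₀] at h6
    rw [add_comm]
    exact h6
  have h4 : (c' / q ^ (2 * e)) * q ^ (2 * m) = c' * q ^ (2 * (m - e)) := by
    have h5 : q ^ (2 * m) = q ^ (2 * e) * q ^ (2 * (m - e)) := by
      rw [← pow_add]
      congr 1
      omega
    rw [h5]
    field_simp
  rw [h4]
  refine h2.trans ?_
  exact_mod_cast Set.ncard_le_ncard h3 (hEfin m)

end Pool.Agent.H467.PU.Dstc
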