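import Pool.Agent.H467.PU.Spec
import Pool.Agent.H467.PG.Dst

/-!
# The distribution for all local classes together, general local conditions (helper551, for
helper467)
-/

set_option autoImplicit false
set_option linter.all false

open Finset Filter WithZero
open Pool.Agent.H467.PT
open Pool.Agent.H467.GK
open Pool.Agent.H467.CT (AS Bas IsTau Std Ev LV LF cc)
open Pool.Agent.H467.PG
open Pool.Agent.H467.PG.Dst
open scoped Classical

namespace Pool.Agent.H467.PU.Dstw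

/-- Bases of the local conditions of one class. -/
theorem svl_eq {K : Type} [Field K] [CharP K 2] (hPOQ : S_POQ) (S : Finset (PV K))
    (W : PV K → Qc K → Set (Qc K)) (dm : PV K → Qc K → ℕ)
    (hW : ∀ j ∈ S, ∀ χ, LW j (W j χ) (dm j χ))
    (hWW : ∀ j ∈ S, ∀ χ χ', Spl j (χ + χ') → W j χ = W j χ')
    (hWm : ∀ j ∈ S, ∀ χ, χ ∈ W j χ) (χ₁ : Qc K) :
    ∃ (d : PV K → ℕ) (w : ∀ j : PV K, Fin (d j) → Qc K) (m₀ : PV K → ℕ), WD S d w m₀ ∧
      (∀ j ∈ S, InW d w j χ₁) ∧ (∀ j ∈ S, d j = dm j χ₁) ∧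
      ∀ χ : Qc K, (∀ j ∈ S, Spl j (χ + χ₁)) → SVL S (fun j => W j χ) χ = SVW S d w χ := by
  have h : ∀ j : PV K, ∃ w : Fin (dm j χ₁) → Qc K, j ∈ S →
      ((∀ T : Finset (Fin (dm j χ₁)), Spl j (∑ i ∈ T, w i) → T = ∅) ∧
        ∀ α, α ∈ W j χ₁ ↔ ∃ T : Finset (Fin (dm j χ₁)), Spl j (α + ∑ i ∈ T, w i)) := by
    intro j
    by_cases hj : j ∈ S
    · obtain ⟨w, h1, h2⟩ := hW j hj χ₁
      exact ⟨w, fun _ => ⟨h1, h2⟩⟩
    · exact ⟨fun _ => 0, fun h => absurd h hj⟩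
  choose w hw using h
  refine ⟨fun j => dm j χ₁, w, fun j => Finset.univ.sup (fun i => poq j (w j i)), ⟨?_, ?_⟩, ?_,
    fun j _ => rfl, ?_⟩
  · intro j hj
    exact (hw j hj).1
  · intro j hj i
    exact Finset.le_sup (f := fun i => poq j (w j i)) (Finset.mem_univ i)
  · intro j hj
    exact ((hw j hj).2 χ₁).1 (hWm j hj χ₁)
  · intro χ hχ
    unfold SVL SVW
    ext α
    constructor
    · rintro ⟨h1, h2⟩
      refine ⟨fun j hj => ?_, h2⟩
      have h3 : α ∈ W j χ := h1 j hj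
      rw [hWW j hj χ χ₁ (hχ j hj)] at h3
      exact ((hw j hj).2 α).1 h3
    · rintro ⟨h1, h2⟩
      refine ⟨fun j hj => ?_, h2⟩
      show α ∈ W j χ
      rw [hWW j hj χ χ₁ (hχ j hj)]
      exact ((hw j hj).2 α).2 (h1 j hj)

theorem dstw : S_COREW → S_DSTC → S_OML → S_UBG → S_PKG → S_DIV → S_POQ → S_HSD → S_DSTW := by
  intro hCORE hDSTC hOML hUBG hPKG hDIV hPOQ hHSD k K _ _ _ _ _ _ hFF F a₀ S hS ha P hP hex0
    W dm hLW hWW hWm r s hrs
  have hq : (2 : ℝ) ≤ Nat.card k := by exact_mod_cast (Finite.one_lt_card : 1 < Nat.card k)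
  obtain ⟨-, hB⟩ := hDSTC k K hFF F a₀ S hS ha P hP hex0
  obtain ⟨q, hqdef⟩ : ∃ q : ℝ, (Nat.card k : ℝ) = q := ⟨_, rfl⟩
  rw [hqdef] at hq hB
  have hq0 : 0 < q := by linarith
  obtain ⟨C, hC, hcount⟩ := cls_count hUBG hPOQ hHSD F.R
  obtain ⟨_, _, _, _, hPH⟩ := hPKG k K hFF F.R ∅
  obtain ⟨_, _, _, _, hPHS⟩ := hPKG k K hFF F.R S
  obtain ⟨w, hw⟩ := exists_out hPHS
  obtain ⟨hfin, ⟨C', hC', hup⟩, -, htail⟩ := hDIV _ (sysB F.R ∅) (Nat.card k) _ _ _ _ hPH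
  rw [hqdef] at hup hcount htail
  -- the degree of the divisor of `χ + a₀`
  have hdeg : ∀ (χ : Qc K) (m : ℕ), DegLE F.R (χ + mkq a₀) m ↔
      dg F.R (dvs (χ + mkq a₀)) ≤ m := fun χ m => degLE_iff hHSD F.R _ m
  -- the upper bound
  have hA : ∀ m : ℕ, {χ : Qc K | dg F.R (dvs (χ + mkq a₀)) ≤ m}.Finite ∧
      ({χ : Qc K | dg F.R (dvs (χ + mkq a₀)) ≤ m}.ncard : ℝ) ≤ C * C' * q ^ (2 * m) := by
    intro m
    have h1 := hcount (fun _ => True) C' hC'.le (fun i => by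
      have h2 := count_le F.R (fun _ => True) i (C' * q ^ i) (hfin i) (by
        have h3 := hup i
        simpa using h3)
      exact h2) m
    have h4 := translate F.R a₀ (fun _ => True) m h1
    simpa using h4
  -- the tail
  have hT : ∀ ε : ℝ, 0 < ε → ∃ M : ℕ, ∀ m : ℕ,
      ({χ : Qc K | dg F.R (dvs (χ + mkq a₀)) ≤ m ∧
        M < ∑ j ∈ S, dvs (χ + mkq a₀) j * F.R.deg j}.ncard : ℝ) ≤ C * ε * q ^ (2 * m) := by
    intro ε hε
    obtain ⟨M, hM⟩ := htail (S.sup F.R.deg) ε hε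
    refine ⟨M, fun m => ?_⟩
    have hL : ∀ j ∈ S, F.R.deg j ≤ S.sup F.R.deg := fun j hj => Finset.le_sup (f := F.R.deg) hj
    have h1 := hcount (fun D => M < ∑ j ∈ S, D j * F.R.deg j) ε hε.le (fun i => by
      have h2 := count_le F.R (fun D => M < ∑ p ∈ D.support.filter
        (fun p => (sysB F.R ∅).deg p ≤ S.sup F.R.deg), D p * (sysB F.R ∅).deg p) i (ε * q ^ i)
        (hfin i) (hM i)
      have h3 : {D : PV K →₀ ℕ | dg F.R D = i ∧ M < ∑ j ∈ S, D j * F.R.deg j} ⊆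
          {D : PV K →₀ ℕ | dg F.R D = i ∧ M < ∑ p ∈ (out ∅ D).support.filter
            (fun p => (sysB F.R ∅).deg p ≤ S.sup F.R.deg),
              out ∅ D p * (sysB F.R ∅).deg p} := by
        rintro D ⟨h4, h5⟩
        exact ⟨h4, lt_of_lt_of_le h5 (small_le F.R S _ hL D)⟩
      refine ⟨h2.1.subset h3, le_trans ?_ h2.2⟩
      exact_mod_cast Set.ncard_le_ncard h3 h2.1) m
    exact (translate F.R a₀ (fun D => M < ∑ j ∈ S, D j * F.R.deg j) m h1).2
  -- local classes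
  have hEfin : ∀ m : ℕ, {χ : Qc K | P χ ∧ DegLE F.R (χ + mkq a₀) m}.Finite := by
    intro m
    refine (hA m).1.subset ?_
    rintro χ ⟨-, h2⟩
    exact (hdeg χ m).1 h2
  -- finite sets
  obtain ⟨U, hU⟩ : ∃ U : ℕ → Finset (Qc K), ∀ m χ, χ ∈ U m ↔ dg F.R (dvs (χ + mkq a₀)) ≤ m :=
    ⟨fun m => (hA m).1.toFinset, fun m χ => Set.Finite.mem_toFinset _⟩
  have hUcard : ∀ m, ((U m).card : ℝ) ≤ C * C' * q ^ (2 * m) := by
    intro m
    have h1 := (hA m).2
    have h2 : {χ : Qc K | dg F.R (dvs (χ + mkq a₀)) ≤ m} = (U m : Set (Qc K)) := by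
      ext χ
      exact (hU m χ).symm
    rwa [h2, Set.ncard_coe_finset] at h1
  obtain ⟨good, hgood⟩ : ∃ good : Qc K → Prop,
      ∀ χ, good χ ↔ (SVL S (fun j => W j χ) χ).ncard = 2 ^ (s + 1) :=
    ⟨fun χ => (SVL S (fun j => W j χ) χ).ncard = 2 ^ (s + 1), fun χ => Iff.rfl⟩
  have hE : ∀ m, {χ : Qc K | P χ ∧ DegLE F.R (χ + mkq a₀) m}.ncard =
      ((U m).filter P).card := by
    intro m
    rw [← Set.ncard_coe_finset]
    congr 1
    ext χ
    rw [Finset.mem_coe, Finset.mem_filter, hU, Set.mem_ofPred_eq, hdeg, and_comm]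
  have hEg : ∀ m, {χ : Qc K | (P χ ∧ DegLE F.R (χ + mkq a₀) m) ∧
      (SVL S (fun j => W j χ) χ).ncard = 2 ^ (s + 1)}.ncard =
        (((U m).filter P).filter good).card := by
    intro m
    rw [← Set.ncard_coe_finset]
    congr 1
    ext χ
    rw [Finset.mem_coe, Finset.mem_filter, Finset.mem_filter, hU, hgood, Set.mem_ofPred_eq,
      hdeg, and_comm (a := P χ)]
  obtain ⟨cB, hcB, mB, hmB⟩ := hB
  refine tendsto_of_abs ⟨mB, fun m hm => lt_of_lt_of_le (by positivity) (hmB m hm)⟩ ?_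
  intro δ hδ
  obtain ⟨α, hα⟩ : ∃ α : ℝ, alq s r = α := ⟨_, rfl⟩
  rw [hα]
  -- the families of local classes with bounded poles
  obtain ⟨M, hM⟩ := hT (δ * cB / (2 * (1 + |α|) * C)) (by positivity)
  obtain ⟨Z, hZdef⟩ : ∃ Z : Qc K → ℕ, ∀ χ, Z χ = ∑ j ∈ S, dvs (χ + mkq a₀) j * F.R.deg j :=
    ⟨_, fun χ => rfl⟩
  have hYfin := fin_cls hPOQ hHSD F.R S a₀ w hw M
  obtain ⟨Y, hY⟩ : ∃ Y : Finset (Qc K ⧸ NS hPOQ S), ∀ y, y ∈ Y ↔
      ∃ χ : Qc K, QuotientAddGroup.mk χ = y ∧ Z χ ≤ M := by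
    refine ⟨hYfin.toFinset, fun y => ?_⟩
    rw [Set.Finite.mem_toFinset]
    constructor
    · rintro ⟨χ, h1, h2⟩
      exact ⟨χ, h1, by rw [hZdef]; exact h2⟩
    · rintro ⟨χ, h1, h2⟩
      exact ⟨χ, h1, by rw [← hZdef]; exact h2⟩
  have hZinv : ∀ χ χ' : Qc K, (∀ j ∈ S, Spl j (χ + χ')) → Z χ = Z χ' := by
    intro χ χ' h
    rw [hZdef, hZdef]
    refine Finset.sum_congr rfl fun j hj => ?_
    have h1 : Spl j ((χ + mkq a₀) + (χ' + mkq a₀)) := by
      have e : (χ + mkq a₀) + (χ' + mkq a₀) = χ + χ' := by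
        have h2 := two_q (mkq a₀)
        calc (χ + mkq a₀) + (χ' + mkq a₀) = χ + χ' + (mkq a₀ + mkq a₀) := by abel
          _ = _ := by rw [h2, add_zero]
      rw [e]
      exact h j hj
    rw [dvs_apply hHSD F.R, dvs_apply hHSD F.R, (hPOQ K j).2.2.2.2.2.2.2.2.1 _ _ h1]
  obtain ⟨G, hG⟩ : ∃ G : Qc K → ℝ, ∀ χ, G χ = (if good χ then (1 : ℝ) else 0) - α :=
    ⟨_, fun χ => rfl⟩
  -- one family
  have hone : ∀ y ∈ Y, ∀ δ' : ℝ, 0 < δ' → ∃ m₁ : ℕ, ∀ m, m₁ ≤ m →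
      |∑ χ ∈ (((U m).filter P).filter (fun χ => Z χ ≤ M)).filter
        (fun χ => (QuotientAddGroup.mk χ : Qc K ⧸ NS hPOQ S) = y), G χ| ≤
        δ' * q ^ (2 * m) := by
    intro y hy δ' hδ'
    by_cases hex : ∃ χ₁ : Qc K, P χ₁ ∧ Z χ₁ ≤ M ∧
        (QuotientAddGroup.mk χ₁ : Qc K ⧸ NS hPOQ S) = y
    · obtain ⟨χ₁, h1, h2, h3⟩ := hex
      obtain ⟨d, ww, m₀, hWD, hInW, hd, hSV⟩ := svl_eq hPOQ S W dm hLW hWW hWm χ₁
      have hZ1 : ∑ j ∈ S, ((poq j (mkq χ₁.out + mkq a₀) + 1) / 2) * F.R.deg j = Z χ₁ := by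
        rw [hZdef, mkq_out]
        refine Finset.sum_congr rfl fun j _ => ?_
        rw [dvs_apply hHSD F.R]
      have hom : ∀ m, Z χ₁ ≤ m → {χ : Qc K | (∀ j ∈ S, Spl j (χ + χ₁)) ∧
          dg F.R (dvs (χ + mkq a₀)) ≤ m} = Om F.R S (fun _ => χ₁.out) (m - Z χ₁) := by
        intro m hm
        have h4 := om_eq hPOQ hHSD F.R S a₀ ha (fun _ => χ₁.out) m (by
          show ∑ j ∈ S, ((poq j (mkq χ₁.out + mkq a₀) + 1) / 2) * F.R.deg j ≤ m
          rw [hZ1]; exact hm)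
        have h4' : m - ∑ j ∈ S, ((poq j (mkq ((fun _ : PV K => χ₁.out) j) + mkq a₀) + 1) / 2) *
            F.R.deg j = m - Z χ₁ := by rw [← hZ1]
        rw [h4'] at h4
        rw [← h4]
        ext χ
        rw [Set.mem_ofPred_eq, Set.mem_ofPred_eq]
        refine and_congr ⟨fun h j hj => ?_, fun h j hj => ?_⟩ Iff.rfl
        · show Spl j (χ + mkq χ₁.out)
          rw [mkq_out]
          exact h j hj
        · have h8 : Spl j (χ + mkq χ₁.out) := h j hj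
          rwa [mkq_out] at h8
      have hset : ∀ m, Z χ₁ ≤ m → (((((U m).filter P).filter (fun χ => Z χ ≤ M)).filter
          (fun χ => (QuotientAddGroup.mk χ : Qc K ⧸ NS hPOQ S) = y) : Finset (Qc K)) :
            Set (Qc K)) = Om F.R S (fun _ => χ₁.out) (m - Z χ₁) := by
        intro m hm
        rw [← hom m hm]
        ext χ
        rw [Finset.mem_coe, Finset.mem_filter, Finset.mem_filter, Finset.mem_filter, hU,
          Set.mem_ofPred_eq, ← h3, ns_eq]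
        constructor
        · rintro ⟨⟨⟨h5, -⟩, -⟩, h6⟩
          exact ⟨h6, h5⟩
        · rintro ⟨h7, h6⟩
          refine ⟨⟨⟨h6, ?_⟩, ?_⟩, h7⟩
          · exact hP χ₁ χ (fun j hj => by rw [add_comm]; exact h7 j hj) h1
          · rw [hZinv χ χ₁ h7]
            exact h2
      have hOmfin : ∀ m, (Om F.R S (fun _ => χ₁.out) m).Finite := by
        intro m
        have h4 := hom (m + Z χ₁) (Nat.le_add_left _ _)
        rw [Nat.add_sub_cancel] at h4
        rw [← h4]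
        exact (hA (m + Z χ₁)).1.subset fun χ hχ => hχ.2
      have hOmr := hCORE k K hFF F S hS (fun _ => χ₁.out) d ww m₀ hWD (fun j hj => by
        show InW d ww j (mkq χ₁.out)
        rw [mkq_out]
        exact hInW j hj) r s (by
          rw [Finset.sum_congr rfl hd]
          exact hrs χ₁ h1)
      obtain ⟨m₁, hm₁⟩ := abs_of_tendsto (fun m => Nat.cast_nonneg _)
        (fun m => by exact_mod_cast Set.ncard_le_ncard (Set.sep_subset _ _) (hOmfin m))
        hOmr (δ := δ' / (C * C')) (by positivity)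
      refine ⟨m₁ + Z χ₁, fun m hm => ?_⟩
      have h6 := hm₁ (m - Z χ₁) (by omega)
      have h7 := hset m (by omega)
      have h7' := hom m (by omega)
      obtain ⟨A, hA'⟩ : ∃ A : Finset (Qc K), (((U m).filter P).filter
          (fun χ => Z χ ≤ M)).filter
          (fun χ => (QuotientAddGroup.mk χ : Qc K ⧸ NS hPOQ S) = y) = A := ⟨_, rfl⟩
      rw [hA'] at h7 ⊢
      have h8 : {χ ∈ Om F.R S (fun _ => χ₁.out) (m - Z χ₁) | (SVW S d ww χ).ncard = 2 ^ (s + 1)} =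
          ((A.filter good : Finset (Qc K)) : Set (Qc K)) := by
        ext χ
        rw [Finset.mem_coe, Finset.mem_filter, hgood, ← Finset.mem_coe, h7]
        have h9 : χ ∈ Om F.R S (fun _ => χ₁.out) (m - Z χ₁) →
            SVL S (fun j => W j χ) χ = SVW S d ww χ := by
          intro h10
          rw [← h7'] at h10
          exact hSV χ h10.1
        constructor
        · rintro ⟨h10, h11⟩
          exact ⟨h10, by rw [h9 h10]; exact h11⟩
        · rintro ⟨h10, h11⟩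
          refine ⟨h10, ?_⟩
          rw [h9 h10] at h11
          exact h11
      rw [h8, ← h7, Set.ncard_coe_finset, Set.ncard_coe_finset, hα] at h6
      rw [Finset.sum_congr rfl fun χ _ => hG χ, sum_G]
      refine h6.trans ?_
      have h9 : (A.card : ℝ) ≤ C * C' * q ^ (2 * m) := by
        refine le_trans ?_ (hUcard m)
        have : A ⊆ U m := by
          rw [← hA']
          exact (Finset.filter_subset _ _).trans
            ((Finset.filter_subset _ _).trans (Finset.filter_subset _ _))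
        exact_mod_cast Finset.card_le_card this
      calc δ' / (C * C') * (A.card : ℝ) ≤ δ' / (C * C') * (C * C' * q ^ (2 * m)) := by gcongr
        _ = _ := by field_simp
    · refine ⟨0, fun m _ => ?_⟩
      rw [Finset.sum_eq_zero, abs_zero]
      · positivity
      · intro χ hχ
        rw [Finset.mem_filter, Finset.mem_filter, Finset.mem_filter] at hχ
        exact absurd ⟨χ, hχ.1.1.2, hχ.1.2, hχ.2⟩ hex
  obtain ⟨δ₁, hδ₁⟩ : ∃ δ₁ : ℝ, δ * cB / (2 * ((Y.card : ℝ) + 1)) = δ₁ := ⟨_, rfl⟩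
  have hδ₁0 : 0 < δ₁ := by rw [← hδ₁]; positivity
  have hall : ∃ m₁ : ℕ, ∀ m, m₁ ≤ m → ∀ y ∈ Y,
      |∑ χ ∈ (((U m).filter P).filter (fun χ => Z χ ≤ M)).filter
        (fun χ => (QuotientAddGroup.mk χ : Qc K ⧸ NS hPOQ S) = y), G χ| ≤
        δ₁ * q ^ (2 * m) := by
    choose! f hf using fun y hy => hone y hy δ₁ hδ₁0
    exact ⟨Y.sup f, fun m hm y hy => hf y hy m ((Finset.le_sup (f := f) hy).trans hm)⟩
  obtain ⟨m₁, hm₁⟩ := hall
  refine ⟨max m₁ mB, fun m hm => ?_⟩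
  have h1 := hm₁ m ((le_max_left _ _).trans hm)
  have h2 := hmB m ((le_max_right _ _).trans hm)
  rw [hE] at h2 ⊢
  rw [hEg, ← sum_G, Finset.sum_congr rfl fun χ _ => (hG χ).symm,
    ← Finset.sum_filter_add_sum_filter_not ((U m).filter P) (fun χ => Z χ ≤ M)]
  have hmaps : ∀ χ ∈ ((U m).filter P).filter (fun χ => Z χ ≤ M),
      (QuotientAddGroup.mk χ : Qc K ⧸ NS hPOQ S) ∈ Y := by
    intro χ hχ
    rw [hY]
    exact ⟨χ, rfl, (Finset.mem_filter.1 hχ).2⟩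
  have h3 : |∑ χ ∈ ((U m).filter P).filter (fun χ => Z χ ≤ M), G χ| ≤
      δ * cB / 2 * q ^ (2 * m) := by
    rw [← Finset.sum_fiberwise_of_maps_to hmaps]
    refine (Finset.abs_sum_le_sum_abs _ _).trans ((Finset.sum_le_sum h1).trans ?_)
    rw [Finset.sum_const, nsmul_eq_mul, ← hδ₁]
    have h4 : (Y.card : ℝ) * (δ * cB / (2 * ((Y.card : ℝ) + 1))) ≤ δ * cB / 2 := by
      rw [← mul_div_assoc, div_le_div_iff₀ (by positivity) (by positivity)]
      have : 0 ≤ δ * cB := by positivity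
      nlinarith
    calc (Y.card : ℝ) * (δ * cB / (2 * ((Y.card : ℝ) + 1)) * q ^ (2 * m)) =
        (Y.card : ℝ) * (δ * cB / (2 * ((Y.card : ℝ) + 1))) * q ^ (2 * m) := by ring
      _ ≤ _ := by gcongr
  have h4 : |∑ χ ∈ ((U m).filter P).filter (fun χ => ¬ Z χ ≤ M), G χ| ≤
      δ * cB / 2 * q ^ (2 * m) := by
    have h5 : ∀ χ, |G χ| ≤ 1 + |α| := by
      intro χ
      rw [hG]
      refine (abs_sub _ _).trans ?_
      have : |(if good χ then (1 : ℝ) else 0)| ≤ 1 := by split_ifs <;> norm_num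
      linarith
    have h6 : ((((U m).filter P).filter (fun χ => ¬ Z χ ≤ M)).card : ℝ) ≤
        C * (δ * cB / (2 * (1 + |α|) * C)) * q ^ (2 * m) := by
      refine le_trans ?_ (hM m)
      rw [← Set.ncard_coe_finset]
      have h7 : {χ : Qc K | dg F.R (dvs (χ + mkq a₀)) ≤ m ∧
        M < ∑ j ∈ S, dvs (χ + mkq a₀) j * F.R.deg j}.Finite :=
        (hA m).1.subset fun χ hχ => hχ.1
      have h8 : ((((U m).filter P).filter (fun χ => ¬ Z χ ≤ M) : Finset (Qc K)) :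
          Set (Qc K)) ⊆ {χ : Qc K | dg F.R (dvs (χ + mkq a₀)) ≤ m ∧
        M < ∑ j ∈ S, dvs (χ + mkq a₀) j * F.R.deg j} := by
        intro χ hχ
        rw [Finset.mem_coe, Finset.mem_filter, Finset.mem_filter, hU, hZdef, not_le] at hχ
        exact ⟨hχ.1.1, hχ.2⟩
      exact_mod_cast Set.ncard_le_ncard h8 h7
    refine (Finset.abs_sum_le_sum_abs _ _).trans ((Finset.sum_le_sum fun χ _ => h5 χ).trans ?_)
    rw [Finset.sum_const, nsmul_eq_mul]
    have h9 : 0 < 1 + |α| := by positivity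
    calc ((((U m).filter P).filter (fun χ => ¬ Z χ ≤ M)).card : ℝ) * (1 + |α|)
        ≤ (C * (δ * cB / (2 * (1 + |α|) * C)) * q ^ (2 * m)) * (1 + |α|) := by gcongr
      _ = _ := by field_simp
  calc |∑ χ ∈ ((U m).filter P).filter (fun χ => Z χ ≤ M), G χ +
      ∑ χ ∈ ((U m).filter P).filter (fun χ => ¬ Z χ ≤ M), G χ|
      ≤ δ * cB / 2 * q ^ (2 * m) + δ * cB / 2 * q ^ (2 * m) :=
        (abs_add_le _ _).trans (add_le_add h3 h4)
    _ = δ * (cB * q ^ (2 * m)) := by ring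
    _ ≤ δ * (((U m).filter P).card : ℝ) := by gcongr

end Pool.Agent.H467.PU.Dstw
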