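import Pool.Agent.H467.PU.Spec5
import Pool.Agent.H467.PG.Poq
import Pool.Agent.H467.PG.Ubg

/-!
# Classes with bounded poles (project DN of helper467, part FC1)
-/

set_option autoImplicit false
set_option linter.all false

open Finset Filter WithZero
open Pool.Agent.H467.PT
open Pool.Agent.H467.GK
open Pool.Agent.H467.CT (AS Bas)
open Pool.Agent.H467.PG
open scoped Classical

namespace Pool.Agent.H467.PU.Fc1

open Pool.Agent.H467.PG.Ubg (ex_exp fin_poles mkq_eq)
open Pool.Agent.H467.PG.Poq (mkq_add two ple_add spl_add)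

section basic

variable {k K : Type} [Field k] [Field K] [Algebra k K]

/-- The divisor `D` outside `S`, and `-1` at `S`. -/
noncomputable def Dz (S : Finset (PV K)) (D : Ob S →₀ ℕ) : PV K →₀ ℤ :=
  (D.mapRange (fun n : ℕ => (n : ℤ)) (by simp)).mapDomain (fun j : Ob S => j.1) +
    ∑ j ∈ S, Finsupp.single j (-1 : ℤ)

theorem sum_single (S : Finset (PV K)) (j : PV K) :
    (∑ i ∈ S, Finsupp.single i (-1 : ℤ)) j = if j ∈ S then -1 else 0 := by
  rw [Finsupp.finset_sum_apply]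
  simp only [Finsupp.single_apply]
  rw [Finset.sum_ite_eq']

theorem Dz_in (S : Finset (PV K)) (D : Ob S →₀ ℕ) (j : PV K) (hj : j ∈ S) : Dz S D j = -1 := by
  unfold Dz
  rw [Finsupp.add_apply, sum_single, if_pos hj, Finsupp.mapDomain_notin_range, zero_add]
  rintro ⟨i, hi⟩
  have hi' : i.1 = j := hi
  exact i.2 (by rw [hi']; exact hj)

theorem Dz_out (S : Finset (PV K)) (D : Ob S →₀ ℕ) (j : Ob S) : Dz S D j.1 = (D j : ℤ) := by
  unfold Dz
  rw [Finsupp.add_apply, sum_single, if_neg j.2, add_zero,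
    Finsupp.mapDomain_apply (f := fun j : Ob S => j.1) Subtype.val_injective, Finsupp.mapRange_apply]

theorem ddg_add (deg : PV K → ℕ) (A B : PV K →₀ ℤ) : ddg deg (A + B) = ddg deg A + ddg deg B := by
  unfold ddg
  exact Finsupp.sum_add_index' (fun j => by ring) (fun j m n => by ring)

theorem ddg_Dz (R : GFR k K) (S : Finset (PV K)) (D : Ob S →₀ ℕ) :
    ddg R.deg (Dz S D) = (dgf (sysB R S) D : ℤ) - ∑ j ∈ S, (R.deg j : ℤ) := by
  unfold Dz
  rw [ddg_add]
  have h1 : ∀ T : Finset (PV K), ddg R.deg (∑ j ∈ T, Finsupp.single j (-1 : ℤ)) =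
      -∑ j ∈ T, (R.deg j : ℤ) := by
    intro T
    induction T using Finset.induction_on with
    | empty =>
      rw [Finset.sum_empty, Finset.sum_empty, neg_zero]
      unfold ddg
      rw [Finsupp.sum_zero_index]
    | insert a T ha ih =>
      rw [Finset.sum_insert ha, Finset.sum_insert ha, ddg_add, ih]
      unfold ddg
      rw [Finsupp.sum_single_index (by ring)]
      ring
  rw [h1, sub_eq_add_neg]
  congr 1
  unfold ddg dgf
  rw [Finsupp.sum_mapDomain_index (fun j => by ring) (fun j m n => by ring),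
    Finsupp.sum_mapRange_index (fun j => by ring)]
  unfold Finsupp.sum
  push_cast
  rfl

/-- Strong approximation at the places in `Z`, which contains `S`. -/
theorem approx (R : GFR k K) (S : Finset (PV K)) (D : Ob S →₀ ℕ)
    (hN : R.N₀ ≤ ddg R.deg (Dz S D)) (Z : Finset (PV K)) (f : PV K → K)
    (hf : ∀ j, j ∉ Z → f j = 0) : ∃ x : K, ∀ j : PV K, j.1 (x + f j) ≤ exp (Dz S D j) := by
  choose n hn using fun j : PV K => ex_exp R j (f j)
  obtain ⟨E, hE⟩ : ∃ E : PV K →₀ ℤ, E = ∑ j ∈ Z, Finsupp.single j (max (n j) 0 + 2) := ⟨_, rfl⟩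
  have hE1 : ∀ j, E j = if j ∈ Z then max (n j) 0 + 2 else 0 := by
    intro j
    rw [hE, Finsupp.finset_sum_apply]
    simp only [Finsupp.single_apply]
    rw [Finset.sum_ite_eq']
  have hD1 : ∀ j, -1 ≤ Dz S D j := by
    intro j
    by_cases hj : j ∈ S
    · rw [Dz_in S D j hj]
    · have := Dz_out S D ⟨j, hj⟩
      rw [this]
      have : (0 : ℤ) ≤ (D ⟨j, hj⟩ : ℤ) := by positivity
      omega
  have hle : Dz S D ≤ Dz S D + E := by
    intro j
    rw [Finsupp.add_apply, hE1]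
    have := le_max_right (n j) 0
    split_ifs <;> omega
  obtain ⟨x, hx1, hx2⟩ := R.sa (Dz S D + E) (Dz S D) hle hN f (by
    intro j hj
    rw [Finsupp.add_apply, hE1] at hj
    refine (hn j).trans ?_
    rw [exp_le_exp, Finsupp.add_apply, hE1]
    have h1 := hD1 j
    have h2 := le_max_left (n j) 0
    split_ifs at hj ⊢ <;> omega)
  refine ⟨x, fun j => ?_⟩
  by_cases hj : j ∈ Z
  · refine hx2 j ?_
    rw [Finsupp.add_apply, hE1, if_pos hj]
    have := le_max_right (n j) 0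
    omega
  · have h4 := hx1 j
    rw [Finsupp.add_apply, hE1, if_neg hj, add_zero] at h4
    rw [hf j hj, add_zero]
    exact h4

end basic

section main

variable {k K : Type} [Field k] [Field K] [CharP K 2] [Algebra k K]

theorem rep (R : GFR k K) (S : Finset (PV K)) (D : Ob S →₀ ℕ)
    (hN : R.N₀ ≤ ddg R.deg (Dz S D)) (χ : Qc K) (h1 : ∀ j ∈ S, Spl j χ)
    (h2 : ∀ j : Ob S, Ple j.1 (exp (2 * (D j : ℤ))) χ) : χ ∈ mkq '' LD S D := by
  have c2 : (2 : K) = 0 := CharTwo.two_eq_zero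
  obtain ⟨a, ha⟩ : ∃ a : K, mkq a = χ := QuotientAddGroup.mk_surjective χ
  have hfin := fin_poles R a
  have hz : ∀ j : PV K, ∃ z : K, (j ∈ S → j.1 (a + z ^ 2 + z) < 1) ∧
      (∀ h : j ∉ S, j.1 (a + z ^ 2 + z) ≤ exp (2 * (D ⟨j, h⟩ : ℤ))) ∧
      (j ∉ S ∪ hfin.toFinset → z = 0) := by
    intro j
    by_cases hj : j ∈ S
    · obtain ⟨b, hb, hb'⟩ := h1 j hj
      rw [← ha] at hb
      obtain ⟨z, hz⟩ := mkq_eq.mp hb.symm
      refine ⟨z, fun _ => by rw [← hz]; exact hb', fun h => absurd hj h, fun h => ?_⟩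
      exact absurd (Finset.mem_union_left _ hj) h
    · by_cases h3 : j.1 a ≤ 1
      · refine ⟨0, fun h => absurd h hj, fun h => ?_, fun _ => rfl⟩
        have : a + 0 ^ 2 + 0 = a := by ring
        rw [this]
        refine h3.trans ?_
        rw [← exp_zero, exp_le_exp]
        positivity
      · obtain ⟨b, hb, hb'⟩ := h2 ⟨j, hj⟩
        rw [← ha] at hb
        obtain ⟨z, hz⟩ := mkq_eq.mp hb.symm
        refine ⟨z, fun h => absurd h hj, fun _ => by rw [← hz]; exact hb', fun h => ?_⟩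
        refine absurd (Finset.mem_union_right _ ?_) h
        rw [Set.Finite.mem_toFinset]
        exact h3
  choose z hz1 hz2 hz3 using hz
  obtain ⟨x, hx⟩ := approx R S D hN (S ∪ hfin.toFinset) z hz3
  have he : ∀ j, a + x ^ 2 + x = (a + z j ^ 2 + z j) + ((x + z j) ^ 2 + (x + z j)) := by
    intro j
    linear_combination (-(z j ^ 2) - x * z j - z j) * c2
  refine ⟨a + x ^ 2 + x, ⟨fun j hj => ?_, fun j => ?_⟩, ?_⟩
  · have h3 : j.1 (x + z j) < 1 := by
      refine lt_of_le_of_lt (hx j) ?_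
      rw [Dz_in S D j hj, ← exp_zero, exp_lt_exp]
      norm_num
    rw [he j]
    refine Valuation.map_add_lt _ (hz1 j hj) (Valuation.map_add_lt _ ?_ h3)
    rw [map_pow]
    exact pow_lt_one₀ zero_le' h3 two_ne_zero
  · have h3 : j.1.1 (x + z j.1) ≤ exp (D j : ℤ) := by
      have := hx j.1
      rw [Dz_out] at this
      exact this
    rw [he j.1]
    refine Valuation.map_add_le _ (hz2 j.1 j.2) (Valuation.map_add_le _ ?_ ?_)
    · rw [map_pow]
      calc j.1.1 (x + z j.1) ^ 2 ≤ exp (D j : ℤ) ^ 2 := pow_le_pow_left₀ zero_le' h3 2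
        _ = exp (2 * (D j : ℤ)) := by rw [pow_two, ← exp_add, two_mul]
    · refine h3.trans ?_
      rw [exp_le_exp]
      have : (0 : ℤ) ≤ (D j : ℤ) := by positivity
      omega
  · rw [← ha]
    exact (mkq_eq.mpr ⟨x, rfl⟩).symm

theorem XC_eq (R : GFR k K) (S : Finset (PV K)) (c : PV K → K) (D : Ob S →₀ ℕ)
    (hN : R.N₀ ≤ ddg R.deg (Dz S D)) :
    ∃ ξ : Qc K, XC S c D = (fun χ => χ + ξ) '' (mkq '' LD S D) := by
  have c2 : (2 : K) = 0 := CharTwo.two_eq_zero
  obtain ⟨x, hx⟩ := approx R S D hN S (fun j => if j ∈ S then c j else 0)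
    (fun j hj => if_neg hj)
  have hxS : ∀ j ∈ S, j.1 (x + c j) < 1 := by
    intro j hj
    have h3 := hx j
    simp only [if_pos hj] at h3
    refine lt_of_le_of_lt h3 ?_
    rw [Dz_in S D j hj, ← exp_zero, exp_lt_exp]
    norm_num
  have hxO : ∀ j : Ob S, j.1.1 x ≤ exp (2 * (D j : ℤ)) := by
    intro j
    have h3 := hx j.1
    simp only [if_neg j.2, add_zero] at h3
    rw [Dz_out] at h3
    refine h3.trans ?_
    rw [exp_le_exp]
    have : (0 : ℤ) ≤ (D j : ℤ) := by positivity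
    omega
  refine ⟨mkq x, ?_⟩
  ext χ
  constructor
  · rintro ⟨h1, h2⟩
    refine ⟨χ + mkq x, ?_, ?_⟩
    · refine rep R S D hN _ (fun j hj => ?_) (fun j => ?_)
      · have h3 : Spl j (mkq (x + c j)) := ⟨_, rfl, hxS j hj⟩
        have h4 := spl_add (h1 j hj) h3
        have e : χ + mkq (c j) + mkq (x + c j) = χ + mkq x := by
          rw [mkq_add]
          have h5 := two (mkq (c j))
          calc χ + mkq (c j) + (mkq x + mkq (c j)) = χ + mkq x + (mkq (c j) + mkq (c j)) := by abel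
            _ = χ + mkq x := by rw [h5, add_zero]
        rw [e] at h4
        exact h4
      · exact ple_add (h2 j) ⟨x, rfl, hxO j⟩
    · show χ + mkq x + mkq x = χ
      rw [add_assoc, two, add_zero]
  · rintro ⟨_, ⟨a, ⟨ha1, ha2⟩, rfl⟩, rfl⟩
    refine ⟨fun j hj => ?_, fun j => ?_⟩
    · refine ⟨a + (x + c j), ?_, Valuation.map_add_lt _ (ha1 j hj) (hxS j hj)⟩
      show mkq (a + (x + c j)) = mkq a + mkq x + mkq (c j)
      rw [mkq_add, mkq_add, add_assoc]
    · exact ⟨a + x, mkq_add a x, Valuation.map_add_le _ (ha2 j) (hxO j)⟩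

end main

theorem fc1 : S_POQ → S_FC1 := by
  intro _ k K _ _ _ _ _ R S
  refine ⟨(R.N₀ + ∑ j ∈ S, (R.deg j : ℤ)).toNat, fun c D hD => ?_⟩
  have hN : R.N₀ ≤ ddg R.deg (Dz S D) := by
    rw [ddg_Dz]
    have h1 := Int.toNat_le.mp hD
    omega
  obtain ⟨ξ, hξ⟩ := XC_eq R S c D hN
  rw [hξ, Set.ncard_image_of_injective _ (add_left_injective ξ)]

end Pool.Agent.H467.PU.Fc1
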