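import Pool.Agent.H467.PU.Spec5

/-!
# The fibres of `mkq` on `LD` (task FC2 of helper467)
-/

set_option autoImplicit false

open Finset Filter WithZero
open Pool.Agent.H467.PT
open Pool.Agent.H467.GK
open Pool.Agent.H467.CT (AS Bas)
open Pool.Agent.H467.PG
open scoped Classical

namespace Pool.Agent.H467.PU.Fc2

/-! ### the counting lemma -/

section count

variable {K : Type} [Field K] [CharP K 2]

/-- `z ↦ z ^ 2 + z` -/
def ph (A B : AddSubgroup K) (h : ∀ z : K, z ∈ B → z ^ 2 + z ∈ A) : B →+ A where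
  toFun z := ⟨(z : K) ^ 2 + z, h z z.2⟩
  map_zero' := by
    apply Subtype.ext
    simp
  map_add' x y := by
    apply Subtype.ext
    show ((x : K) + y) ^ 2 + (x + y) = ((x : K) ^ 2 + x) + ((y : K) ^ 2 + y)
    rw [CharTwo.add_sq]
    ring

theorem count (A B : AddSubgroup K) (h : ∀ z : K, z ∈ B ↔ z ^ 2 + z ∈ A) :
    2 * Nat.card A = (mkq '' (A : Set K)).ncard * Nat.card B := by
  have h1 : (1 : K) ∈ B := by
    rw [h]
    have : (1 : K) ^ 2 + 1 = 0 := by
      rw [one_pow]
      exact CharTwo.add_self_eq_zero 1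
    rw [this]
    exact A.zero_mem
  obtain ⟨φ, hφ⟩ : ∃ φ : B →+ A, φ = ph A B (fun z hz => (h z).1 hz) := ⟨_, rfl⟩
  obtain ⟨ψ, hψ⟩ : ∃ ψ : A →+ Qc K, ψ = (QuotientAddGroup.mk' (wp K)).comp A.subtype := ⟨_, rfl⟩
  have hφv : ∀ z : B, ((φ z : A) : K) = (z : K) ^ 2 + z := by
    intro z
    rw [hφ]
    rfl
  have hψv : ∀ x : A, ψ x = mkq (x : K) := by
    intro x
    rw [hψ]
    rfl
  -- the kernel of the second map
  have hker : ψ.ker = φ.range := by
    ext x
    rw [AddMonoidHom.mem_ker, AddMonoidHom.mem_range, hψv]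
    constructor
    · intro hx
      have hx' : (x : K) ∈ wp K := (QuotientAddGroup.eq_zero_iff (x : K)).1 hx
      obtain ⟨z, hz⟩ : AS (x : K) := hx'
      have hzB : z ∈ B := by
        rw [h, ← hz]
        exact x.2
      refine ⟨⟨z, hzB⟩, ?_⟩
      apply Subtype.ext
      rw [hφv]
      exact hz.symm
    · rintro ⟨z, rfl⟩
      refine (QuotientAddGroup.eq_zero_iff _).2 ?_
      exact ⟨(z : K), hφv z⟩
  -- the kernel of the first map
  have hk2 : Nat.card φ.ker = 2 := by
    have e : ((φ.ker : AddSubgroup B) : Set B) = {0, ⟨1, h1⟩} := by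
      ext z
      rw [SetLike.mem_coe, AddMonoidHom.mem_ker, Set.mem_insert_iff, Set.mem_singleton_iff]
      have e1 : φ z = 0 ↔ (z : K) ^ 2 + z = 0 := by
        rw [← hφv]
        constructor
        · intro hz
          rw [hz]
          rfl
        · intro hz
          exact Subtype.ext hz
      rw [e1]
      have e2 : (z : K) ^ 2 + z = z * (z + 1) := by ring
      rw [e2, mul_eq_zero]
      constructor
      · rintro (hz | hz)
        · left
          exact Subtype.ext hz
        · right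
          apply Subtype.ext
          show (z : K) = 1
          have := CharTwo.add_eq_zero.1 hz
          exact this
      · rintro (hz | hz)
        · left
          rw [hz]
          rfl
        · right
          rw [hz]
          exact CharTwo.add_self_eq_zero 1
    have e3 : Nat.card φ.ker = ((φ.ker : AddSubgroup B) : Set B).ncard :=
      Nat.card_coe_set_eq _
    rw [e3, e, Set.ncard_pair]
    intro h0
    have h2 := congrArg (fun w : B => (w : K)) h0
    exact zero_ne_one h2
  have c1 : Nat.card φ.ker * Nat.card φ.range = Nat.card B := by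
    rw [← AddSubgroup.index_ker]
    exact AddSubgroup.card_mul_index φ.ker
  have c2 : Nat.card ψ.ker * Nat.card ψ.range = Nat.card A := by
    rw [← AddSubgroup.index_ker]
    exact AddSubgroup.card_mul_index ψ.ker
  have c3 : Nat.card ψ.range = (mkq '' (A : Set K)).ncard := by
    have e : ((ψ.range : AddSubgroup (Qc K)) : Set (Qc K)) = mkq '' (A : Set K) := by
      ext y
      rw [SetLike.mem_coe, AddMonoidHom.mem_range, Set.mem_image]
      constructor
      · rintro ⟨x, rfl⟩
        exact ⟨x, x.2, (hψv x).symm⟩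
      · rintro ⟨x, hx, rfl⟩
        exact ⟨⟨x, hx⟩, hψv _⟩
    rw [← e]
    exact Nat.card_coe_set_eq _
  rw [hk2] at c1
  rw [hker] at c2
  rw [← c2, ← c1, c3]
  ring

end count

/-! ### valuations -/

section val

variable {K : Type} [Field K] [CharP K 2]

theorem at_in (v : Vl K) (z : K) : (v z < 1 ∨ v (z + 1) < 1) ↔ v (z ^ 2 + z) < 1 := by
  have e : z ^ 2 + z = z * (z + 1) := by ring
  rw [e, map_mul]
  constructor
  · rintro (h | h)
    · have h1 : v (z + 1) ≤ 1 := v.map_add_le h.le (by rw [map_one])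
      calc v z * v (z + 1) ≤ v z * 1 := by gcongr
        _ < 1 := by rwa [mul_one]
    · have h1 : v z ≤ 1 := by
        have e2 : z = (z + 1) + 1 := by
          rw [add_assoc, CharTwo.add_self_eq_zero, add_zero]
        rw [e2]
        exact v.map_add_le h.le (by rw [map_one])
      calc v z * v (z + 1) ≤ 1 * v (z + 1) := by gcongr
        _ < 1 := by rwa [one_mul]
  · intro h
    by_contra hcon
    push Not at hcon
    obtain ⟨h1, h2⟩ := hcon
    have h3 : 1 * 1 ≤ v z * v (z + 1) := mul_le_mul' h1 h2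
    rw [one_mul] at h3
    exact absurd h (not_lt.2 h3)

theorem at_out (v : Vl K) (z : K) (n : ℕ) :
    v z ≤ exp (n : ℤ) ↔ v (z ^ 2 + z) ≤ exp (2 * (n : ℤ)) := by
  have e0 : exp (2 * (n : ℤ)) = (exp (n : ℤ)) ^ 2 := by
    rw [← exp_nsmul]
    congr 1
  have e1 : (1 : WithZero (Multiplicative ℤ)) ≤ exp (n : ℤ) := by
    rw [← exp_zero, exp_le_exp]
    exact Int.natCast_nonneg n
  have e2 : exp (n : ℤ) ≤ (exp (n : ℤ)) ^ 2 := by
    rw [pow_two]
    calc exp (n : ℤ) = exp (n : ℤ) * 1 := (mul_one _).symm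
      _ ≤ _ := by gcongr
  constructor
  · intro h
    rw [e0]
    refine v.map_add_le ?_ (h.trans e2)
    rw [map_pow]
    gcongr
  · intro h
    by_contra hcon
    rw [not_le] at hcon
    have h1 : 1 < v z := lt_of_le_of_lt e1 hcon
    have h2 : v z < v (z ^ 2) := by
      rw [map_pow, pow_two]
      calc v z = v z * 1 := (mul_one _).symm
        _ < v z * v z := by
          apply mul_lt_mul_of_pos_left h1
          exact lt_trans zero_lt_one h1
    have h3 : v (z ^ 2 + z) = v (z ^ 2) := Valuation.map_add_eq_of_lt_left v h2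
    rw [h3, map_pow, e0] at h
    have h4 : exp (n : ℤ) ^ 2 < v z ^ 2 := pow_lt_pow_left₀ hcon zero_le' (by norm_num)
    exact absurd h (not_le.2 h4)

end val

/-! ### the groups -/

section groups

variable {k K : Type} [Field k] [Field K] [CharP K 2] [Algebra k K]

/-- `LD` as a group -/
def LDs (S : Finset (PV K)) (D : Ob S →₀ ℕ) : AddSubgroup K where
  carrier := LD S D
  zero_mem' := ⟨fun j _ => by rw [map_zero]; exact zero_lt_one, fun j => by
    rw [map_zero]; exact zero_le'⟩
  add_mem' := fun {x y} hx hy => ⟨fun j hj => j.1.map_add_lt (hx.1 j hj) (hy.1 j hj),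
    fun j => j.1.1.map_add_le (hx.2 j) (hy.2 j)⟩
  neg_mem' := fun {x} hx => by
    have : -x = x := CharTwo.neg_eq x
    rw [this]
    exact hx

theorem mem_ZD (S : Finset (PV K)) (D : Ob S →₀ ℕ) (z : K) : z ∈ ZD S D ↔ z ^ 2 + z ∈ LD S D :=
  and_congr (forall₂_congr fun j _ => at_in j.1 z) (forall_congr' fun j => at_out j.1.1 z (D j))

/-- `ZD` as a group -/
def ZDs (S : Finset (PV K)) (D : Ob S →₀ ℕ) : AddSubgroup K where
  carrier := ZD S D
  zero_mem' := by
    rw [mem_ZD]
    have : (0 : K) ^ 2 + 0 = 0 := by ring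
    rw [this]
    exact (LDs S D).zero_mem
  add_mem' := fun {x y} hx hy => by
    rw [mem_ZD] at hx hy ⊢
    have : (x + y) ^ 2 + (x + y) = (x ^ 2 + x) + (y ^ 2 + y) := by
      rw [CharTwo.add_sq]
      ring
    rw [this]
    exact (LDs S D).add_mem hx hy
  neg_mem' := fun {x} hx => by
    have : -x = x := CharTwo.neg_eq x
    rw [this]
    exact hx

/-- the divisor `a D` on all places -/
noncomputable def dv (a : ℤ) (S : Finset (PV K)) (D : Ob S →₀ ℕ) : PV K →₀ ℤ :=
  (D.embDomain (Function.Embedding.subtype _)).mapRange (fun n : ℕ => a * (n : ℤ)) (by simp)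

theorem dv_out (a : ℤ) (S : Finset (PV K)) (D : Ob S →₀ ℕ) (j : Ob S) :
    dv a S D j.1 = a * (D j : ℤ) := by
  unfold dv
  rw [Finsupp.mapRange_apply]
  congr 2
  exact Finsupp.embDomain_apply_self (Function.Embedding.subtype _) D j

theorem dv_in (a : ℤ) (S : Finset (PV K)) (D : Ob S →₀ ℕ) {j : PV K} (hj : j ∈ S) :
    dv a S D j = 0 := by
  unfold dv
  rw [Finsupp.mapRange_apply, Finsupp.embDomain_of_notMem_range]
  · simp
  · rintro ⟨i, hi⟩
    exact i.2 (by
      have : (i : PV K) = j := hi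
      rw [this]
      exact hj)

theorem LD_fin (R : GFR k K) (S : Finset (PV K)) (D : Ob S →₀ ℕ) : (LD S D).Finite := by
  refine (R.fin (dv 2 S D)).subset ?_
  intro x hx j
  by_cases hj : j ∈ S
  · rw [dv_in 2 S D hj, exp_zero]
    exact (hx.1 j hj).le
  · rw [dv_out 2 S D ⟨j, hj⟩]
    exact hx.2 ⟨j, hj⟩

theorem ZD_fin (R : GFR k K) (S : Finset (PV K)) (D : Ob S →₀ ℕ) : (ZD S D).Finite := by
  refine (R.fin (dv 1 S D)).subset ?_
  intro x hx j
  by_cases hj : j ∈ S
  · rw [dv_in 1 S D hj, exp_zero]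
    rcases hx.1 j hj with h | h
    · exact h.le
    · have e2 : x = (x + 1) + 1 := by
        rw [add_assoc, CharTwo.add_self_eq_zero, add_zero]
      rw [e2]
      exact j.1.map_add_le h.le (by rw [map_one])
  · rw [dv_out 1 S D ⟨j, hj⟩, one_mul]
    exact hx.2 ⟨j, hj⟩

end groups

theorem fc2 : S_FC2 := by
  intro k K _ _ _ _ _ R S D
  refine ⟨LD_fin R S D, ZD_fin R S D, ?_⟩
  have h := count (LDs S D) (ZDs S D) (fun z => mem_ZD S D z)
  have e1 : Nat.card (LDs S D) = (LD S D).ncard := Nat.card_coe_set_eq _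
  have e2 : Nat.card (ZDs S D) = (ZD S D).ncard := Nat.card_coe_set_eq _
  rw [e1, e2] at h
  exact h

end Pool.Agent.H467.PU.Fc2
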