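import Pool.Agent.H467.PU.Spec5

/-!
# The complete law: densities, task FC3
-/

set_option autoImplicit false
set_option linter.all false

open Finset Filter WithZero
open Pool.Agent.H467.PT
open Pool.Agent.H467.GK
open Pool.Agent.H467.CT (AS Bas)
open Pool.Agent.H467.PG
open scoped Classical

namespace Pool.Agent.H467.PU.Fc3

section a

variable {K : Type} [Field K]

/-- The divisor with the values `m` at `S` and `c * D` outside `S`. -/
noncomputable def ext (S : Finset (PV K)) (c m : ℤ) (D : Ob S →₀ ℕ) : PV K →₀ ℤ :=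
  Finsupp.onFinset (S ∪ D.support.map ⟨Subtype.val, Subtype.val_injective⟩)
    (fun j => if h : j ∈ S then m else c * (D ⟨j, h⟩ : ℤ)) (by
      intro j hj
      by_cases h : j ∈ S
      · exact Finset.mem_union_left _ h
      · refine Finset.mem_union_right _ ?_
        rw [Finset.mem_map]
        refine ⟨⟨j, h⟩, ?_, rfl⟩
        rw [Finsupp.mem_support_iff]
        intro h0
        apply hj
        simp only [dif_neg h, h0, Nat.cast_zero, mul_zero])

lemma ext_in (S : Finset (PV K)) (c m : ℤ) (D : Ob S →₀ ℕ) (j : PV K) (h : j ∈ S) :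
    ext S c m D j = m := by
  unfold ext
  rw [Finsupp.onFinset_apply, dif_pos h]

lemma ext_out (S : Finset (PV K)) (c m : ℤ) (D : Ob S →₀ ℕ) (j : Ob S) :
    ext S c m D j.1 = c * (D j : ℤ) := by
  unfold ext
  rw [Finsupp.onFinset_apply, dif_neg j.2]

lemma lt_one_iff (x : ℤᵐ⁰) : x < 1 ↔ x ≤ exp (-1 : ℤ) := by
  by_cases hx : x = 0
  · subst hx
    simp
  · obtain ⟨n, rfl⟩ : ∃ n : ℤ, x = exp n := ⟨log x, (exp_log hx).symm⟩
    rw [← exp_zero, exp_lt_exp, exp_le_exp]
    omega

lemma mem_ext (S : Finset (PV K)) (c m : ℤ) (D : Ob S →₀ ℕ) (x : K) :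
    x ∈ LLs (ext S c m D) ↔ (∀ j ∈ S, j.1 x ≤ exp m) ∧ ∀ j : Ob S, j.1.1 x ≤ exp (c * (D j : ℤ)) := by
  constructor
  · intro h
    refine ⟨fun j hj => ?_, fun j => ?_⟩
    · have := h j
      rwa [ext_in S c m D j hj] at this
    · have := h j.1
      rwa [ext_out S c m D j] at this
  · rintro ⟨h1, h2⟩ j
    by_cases hj : j ∈ S
    · rw [ext_in S c m D j hj]
      exact h1 j hj
    · have := h2 ⟨j, hj⟩
      rw [← ext_out S c m D ⟨j, hj⟩] at this
      exact this

end a

variable {k K : Type} [Field k] [Field K] [CharP K 2] [Algebra k K]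

lemma ddg_ext (R : GFR k K) (S : Finset (PV K)) (c m : ℤ) (D : Ob S →₀ ℕ) :
    ddg R.deg (ext S c m D) = c * (dgf (sysB R S) D : ℤ) + m * ((∑ j ∈ S, R.deg j : ℕ) : ℤ) := by
  unfold ddg ext
  rw [Finsupp.onFinset_sum _ (by intro j; simp), Finset.sum_union, Finset.sum_map]
  · rw [add_comm]
    congr 1
    · unfold dgf Finsupp.sum
      rw [Nat.cast_sum, Finset.mul_sum]
      refine Finset.sum_congr rfl fun j _ => ?_
      simp only [Function.Embedding.coeFn_mk]
      rw [dif_neg j.2]
      simp only [sysB, Nat.cast_mul]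
      ring
    · rw [Nat.cast_sum, Finset.mul_sum]
      refine Finset.sum_congr rfl fun j hj => ?_
      rw [dif_pos hj]
  · rw [Finset.disjoint_left]
    intro j hj h
    rw [Finset.mem_map] at h
    obtain ⟨i, -, rfl⟩ := h
    exact i.2 hj

lemma LD_eq (S : Finset (PV K)) (D : Ob S →₀ ℕ) : LD S D = LLs (ext S 2 (-1) D) := by
  ext x
  rw [mem_ext]
  unfold LD
  simp only [Set.mem_setOf_eq, lt_one_iff]

lemma ZD_card (R : GFR k K) (S : Finset (PV K)) (D : Ob S →₀ ℕ)
    (h : R.N₀ ≤ ddg R.deg (ext S 1 (-1) D)) :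
    (ZD S D).ncard = 2 ^ S.card * (LLs (ext S 1 (-1) D)).ncard := by
  have hle : ext S 1 (-1) D ≤ ext S 1 0 D := by
    intro j
    by_cases hj : j ∈ S
    · rw [ext_in S _ _ D j hj, ext_in S _ _ D j hj]
      omega
    · rw [ext_out S _ _ D ⟨j, hj⟩, ext_out S _ _ D ⟨j, hj⟩]
  have hlt : ∀ j, ext S 1 (-1) D j < ext S 1 0 D j → j ∈ S := by
    intro j h1
    by_contra hj
    rw [ext_out S _ _ D ⟨j, hj⟩, ext_out S _ _ D ⟨j, hj⟩] at h1
    exact lt_irrefl _ h1
  have hex : ∀ T : Finset (PV K), ∃ z ∈ LLs (ext S 1 0 D),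
      ∀ j ∈ S, j.1 (z + if j ∈ T then 1 else 0) < 1 := by
    intro T
    obtain ⟨z, hz, hz2⟩ := R.sa (ext S 1 0 D) (ext S 1 (-1) D) hle h
      (fun j => if j ∈ T then 1 else 0) (fun j hj => by
        rw [ext_in S _ _ D j (hlt j hj), exp_zero]
        split_ifs
        · rw [map_one]
        · rw [map_zero]
          exact zero_le_one)
    refine ⟨z, hz, fun j hj => ?_⟩
    have h2 := hz2 j (by
      rw [ext_in S _ _ D j hj, ext_in S _ _ D j hj]
      omega)
    rw [ext_in S _ _ D j hj] at h2
    rwa [lt_one_iff]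
  choose z hz hz2 using hex
  have hch : ∀ x : K, x + x = 0 := fun x => CharTwo.add_self_eq_zero x
  have key : ((↑S.powerset : Set (Finset (PV K))) ×ˢ LLs (ext S 1 (-1) D)).ncard =
      (ZD S D).ncard := by
    refine Set.ncard_congr (fun a _ => z a.1 + a.2) ?_ ?_ ?_
    · rintro ⟨T, y⟩ ⟨hT, hy⟩
      simp only at hT hy ⊢
      rw [mem_ext] at hy
      have hzT := hz T
      rw [mem_ext] at hzT
      refine ⟨fun j hj => ?_, fun j => ?_⟩
      · have h1 := hz2 T j hj
        have h2 := (lt_one_iff _).2 (hy.1 j hj)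
        by_cases hjT : j ∈ T
        · right
          rw [if_pos hjT] at h1
          rw [show z T + y + 1 = (z T + 1) + y by ring]
          exact Valuation.map_add_lt _ h1 h2
        · left
          rw [if_neg hjT, add_zero] at h1
          exact Valuation.map_add_lt _ h1 h2
      · have h1 := hzT.2 j
        have h2 := hy.2 j
        rw [one_mul] at h1 h2
        exact Valuation.map_add_le _ h1 h2
    · rintro ⟨T, y⟩ ⟨T', y'⟩ ⟨hT, hy⟩ ⟨hT', hy'⟩ he
      simp only at hT hy hT' hy' he ⊢
      rw [mem_ext] at hy hy'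
      have hTT : T = T' := by
        rw [Finset.mem_coe, Finset.mem_powerset] at hT hT'
        ext j
        have main : ∀ (A B : Finset (PV K)) (u v : K), (∀ j ∈ S, j.1 u ≤ exp (-1 : ℤ)) →
            (∀ j ∈ S, j.1 v ≤ exp (-1 : ℤ)) → z A + u = z B + v → A ⊆ S → j ∈ A → j ∈ B := by
          intro A B u v hu hv huv hA hjA
          by_contra hjB
          have hjS := hA hjA
          have h1 := hz2 A j hjS
          have h2 := hz2 B j hjS
          rw [if_pos hjA] at h1
          rw [if_neg hjB, add_zero] at h2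
          have h3 := (lt_one_iff _).2 (hu j hjS)
          have h4 := (lt_one_iff _).2 (hv j hjS)
          have h5 := Valuation.map_add_lt _ (Valuation.map_add_lt _ h1 h3)
            (Valuation.map_add_lt _ h2 h4)
          have h6 : (z A + 1 + u) + (z B + v) = 1 := by
            rw [← huv]
            have h7 : (z A + 1 + u) + (z A + u) = (z A + z A) + (u + u) + 1 := by ring
            rw [h7, hch, hch, add_zero, zero_add]
          rw [h6, map_one] at h5
          exact lt_irrefl _ h5
        exact ⟨main T T' y y' hy.1 hy'.1 he hT, main T' T y' y hy'.1 hy.1 he.symm hT'⟩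
      subst hTT
      have := add_left_cancel he
      rw [this]
    · intro x hx
      have hx1 := hx.1
      have hx2 := hx.2
      set T : Finset (PV K) := S.filter (fun j => j.1 (x + 1) < 1) with hTdef
      refine ⟨(T, z T + x), ⟨?_, ?_⟩, ?_⟩
      · simp only [Finset.coe_powerset, Set.mem_preimage, Set.mem_powerset_iff]
        rw [Finset.coe_subset]
        exact Finset.filter_subset _ _
      · show z T + x ∈ LLs (ext S 1 (-1) D)
        have hzT := hz T
        rw [mem_ext] at hzT ⊢
        refine ⟨fun j hj => ?_, fun j => ?_⟩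
        · rw [← lt_one_iff]
          have h1 := hz2 T j hj
          by_cases hjT : j ∈ T
          · rw [if_pos hjT] at h1
            have h2 : j.1 (x + 1) < 1 := (Finset.mem_filter.1 hjT).2
            have h3 := Valuation.map_add_lt _ h1 h2
            have h4 : (z T + 1) + (x + 1) = z T + x := by
              have : (z T + 1) + (x + 1) = z T + x + (1 + 1) := by ring
              rw [this, hch, add_zero]
            rwa [h4] at h3
          · rw [if_neg hjT, add_zero] at h1
            have h2 : j.1 x < 1 := by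
              rcases hx1 j hj with h | h
              · exact h
              · exact absurd (Finset.mem_filter.2 ⟨hj, h⟩) hjT
            exact Valuation.map_add_lt _ h1 h2
        · have h1 := hzT.2 j
          have h2 := hx2 j
          rw [one_mul] at h1 ⊢
          exact Valuation.map_add_le _ h1 h2
      · show z T + (z T + x) = x
        rw [← add_assoc, hch, zero_add]
  rw [← key, Set.ncard_prod, Set.ncard_coe_finset, Finset.card_powerset]

theorem fc3 : S_FC3 := by
  intro k K _ _ _ _ _ R S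
  refine ⟨(R.N₀ + ((∑ j ∈ S, R.deg j : ℕ) : ℤ)).toNat, fun D hD => ?_⟩
  have h1 := ddg_ext R S 1 (-1) D
  have h2 := ddg_ext R S 2 (-1) D
  set d := dgf (sysB R S) D
  set s := (∑ j ∈ S, R.deg j : ℕ)
  have hd := Int.toNat_le.1 hD
  have hN1 : R.N₀ ≤ ddg R.deg (ext S 1 (-1) D) := by rw [h1]; omega
  have hN2 : R.N₀ ≤ ddg R.deg (ext S 2 (-1) D) := by rw [h2]; omega
  obtain ⟨n1, hn1, hc1⟩ := R.riem _ hN1
  obtain ⟨n2, hn2, hc2⟩ := R.riem _ hN2
  rw [LD_eq, ZD_card R S D hN1, hc1, hc2]
  have : n2 = d + n1 := by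
    rw [h1] at hn1
    rw [h2] at hn2
    omega
  rw [this, pow_add]
  ring

end Pool.Agent.H467.PU.Fc3
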