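import Pool.Agent.H467.PU.Spec5

/-!
# The complete law: densities, first assembly

Project DN (helper467).
-/

set_option autoImplicit false
set_option linter.all false

open Finset Filter WithZero
open Pool.Agent.H467.PT
open Pool.Agent.H467.GK
open Pool.Agent.H467.CT (AS Bas)
open Pool.Agent.H467.PG
open scoped Classical

namespace Pool.Agent.H467.PU.Fcd

theorem fcd : S_FC1 → S_FC2 → S_FC3 → S_FCD := by
  intro h1 h2 h3 k K _ _ _ _ _ R S
  obtain ⟨d₁, hd1⟩ := h1 k K R S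
  obtain ⟨d₃, hd3⟩ := h3 k K R S
  refine ⟨max d₁ d₃, fun c D hD => ?_⟩
  have e1 := hd1 c D ((le_max_left _ _).trans hD)
  have e3 := hd3 D ((le_max_right _ _).trans hD)
  obtain ⟨-, hZ, e2⟩ := h2 k K R S D
  have hpos : 0 < (ZD S D).ncard := by
    rw [Set.ncard_pos hZ]
    refine ⟨0, fun j _ => Or.inl ?_, fun j => ?_⟩
    · rw [map_zero]
      exact zero_lt_one
    · rw [map_zero]
      exact zero_le
  rw [e1]
  apply Nat.eq_of_mul_eq_mul_right hpos
  calc (mkq '' LD S D).ncard * 2 ^ S.card * (ZD S D).ncard =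
        ((mkq '' LD S D).ncard * (ZD S D).ncard) * 2 ^ S.card := by ring
    _ = (2 * (LD S D).ncard) * 2 ^ S.card := by rw [e2]
    _ = 2 * ((LD S D).ncard * 2 ^ S.card) := by ring
    _ = 2 * (Nat.card k ^ dgf (sysB R S) D * (ZD S D).ncard) := by rw [e3]
    _ = _ := by ring

/-- Moebius inversion. -/
theorem mob : S_MB1 → S_MB2 → S_MB3 → S_MOB := by
  intro h1 h2 h3 ι S q C hq hfin hup δ ζ hδ hdiv hlim κ
  obtain ⟨hM, hG⟩ := h2 ι S hfin
  have hdeg : ∀ D : ι →₀ ℕ, δ ∣ dgf S D := fun D =>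
    Finset.dvd_sum fun p _ => Dvd.dvd.mul_left (hdiv p) _
  have hq0 : (0 : ℝ) < q := by positivity
  have hMd : ∀ i, ¬ δ ∣ i → MM S i = 0 := by
    intro i hi
    unfold MM
    rw [finsum_mem_eq_zero_of_forall_eq_zero]
    intro T hT
    exfalso
    apply hi
    rw [← hT]
    exact Finset.dvd_sum fun p _ => hdiv p
  refine ⟨(∑' i : ℕ, MM S i / (q : ℝ) ^ (2 * i)) * (κ * ζ) / (1 - 1 / (q : ℝ) ^ (2 * δ)),
    fun f g d₁ hfg hf => ?_⟩
  have e1 : ∀ m : ℕ, ∑ n ∈ Finset.range (δ * m + 1), SG S g n =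
      ∑ n ∈ Finset.range (δ * m + 1), ∑ p ∈ Finset.HasAntidiagonal.antidiagonal n,
        MM S p.1 * SG S f p.2 := fun m =>
    Finset.sum_congr rfl fun n _ => hG f g (h1 ι f g hfg) n
  simp only [e1]
  refine h3 q δ C (κ * ζ) (MM S) (SG S f) hq hδ (fun i => (hM i).trans (hup i)) hMd
    (fun i hi => ?_) ?_
  · unfold SG
    rw [finsum_mem_eq_zero_of_forall_eq_zero]
    intro D hD
    exfalso
    apply hi
    rw [← hD]
    exact hdeg D
  · refine (hlim.const_mul κ).congr' ?_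
    filter_upwards [eventually_ge_atTop d₁] with n hn
    have h4 : d₁ ≤ δ * n := hn.trans (Nat.le_mul_of_pos_left n hδ)
    have h5 : SG S f (δ * n) = κ * (q : ℝ) ^ (δ * n) *
        ({D : ι →₀ ℕ | dgf S D = δ * n}.ncard : ℝ) := by
      unfold SG
      rw [finsum_mem_congr (g := fun _ => κ * (q : ℝ) ^ (δ * n)) rfl (fun D hD => by
        have hD' : dgf S D = δ * n := hD
        rw [hf D (by rw [hD']; exact h4), hD'])]
      rw [finsum_mem_eq_finite_toFinset_sum _ (hfin (δ * n)), Finset.sum_const, nsmul_eq_mul,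
        ← Set.ncard_eq_toFinset_card _ (hfin (δ * n)), mul_comm]
    rw [h5, two_mul, pow_add]
    field_simp

end Pool.Agent.H467.PU.Fcd
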