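import Pool.Agent.H467.PU.Spec
import Pool.Agent.H467.PG.Fib

/-!
# PU FIBKW: the dependent column (helper199 for helper467, after helper643)
-/

set_option autoImplicit false
set_option linter.all false

open Finset Filter WithZero
open Pool.Agent.H467.PT
open Pool.Agent.H467.GK
open Pool.Agent.H467.PG
open Pool.Agent.H467.CT (AS Bas Ev)
open scoped Classical

namespace Pool.Agent.H467.PU.Fibkw

section

variable {k K : Type} [Field k] [Finite k] [Field K] [CharP K 2] [Algebra k K] {F : GF k K}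
  {B : Finset (PV K)}

/-- additivity of the symbol in the class -/
theorem pr_sum (hsym : S_SYM) (F : GF k K) (j : PV K) (d : K) (hd : d ≠ 0) {ι : Type}
    (T : Finset ι) (w : ι → Qc K) :
    pr F.G j d (∑ i ∈ T, w i) = ∑ i ∈ T, pr F.G j d (w i) := by
  obtain ⟨-, h2, -⟩ := hsym K F.G j (FibK.fin_res F.R j)
  have h0 : pr F.G j d (0 : Qc K) = 0 := by
    have h := h2 0 0 d hd
    rw [add_zero] at h
    exact left_eq_add.1 h
  induction T using Finset.induction_on with
  | empty => rw [Finset.sum_empty, Finset.sum_empty, h0]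
  | insert a s ha ih => rw [Finset.sum_insert ha, Finset.sum_insert ha, h2 _ _ d hd, ih]

theorem pr_inw (hsym : S_SYM) (F : GF k K) (j : PV K) (d : K) (hd : d ≠ 0) {ι : Type}
    (T : Finset ι) (w : ι → Qc K) (χ : Qc K) (hT : Spl j (χ + ∑ i ∈ T, w i)) :
    pr F.G j d χ = ∑ i ∈ T, pr F.G j d (w i) := by
  obtain ⟨-, h2, -, -, h5, -⟩ := hsym K F.G j (FibK.fin_res F.R j)
  have h3 := h5 _ d hd hT
  rw [h2 _ _ d hd, pr_sum hsym F j d hd T w] at h3
  exact CharTwo.add_eq_zero.1 h3

end

theorem fibkw : S_POQ → S_SYM → S_FIBKW := by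
  intro _ hsym k K _ _ _ _ _ F B bd U d w χ v₀ hW hv₀ hχ hpv e heB heU
  refine ⟨heB, ?_⟩
  intro j hj
  by_cases hjv : j = v₀
  · subst hjv
    have h2 : ∑ l ∈ FibK.s0 B U, ∑ i, e i * pr F.G l (ro bd U i) χ = 0 := by
      rw [Finset.sum_comm]
      refine Finset.sum_eq_zero fun i _ => ?_
      rw [← Finset.mul_sum, FibK.sum_pr hsym bd U χ hχ i, mul_zero]
    have h3 : j.1 ∈ FibK.s0 B U :=
      Finset.mem_union_right _ (Finset.mem_image.2 ⟨j, hj, rfl⟩)
    have h4 : ∀ l : PV K, ∑ i, e i * pr F.G l (ro bd U i) χ =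
        FibK.ep χ l * ∑ i, e i * tt F.G l (ro bd U i) χ := by
      intro l
      rw [Finset.mul_sum]
      refine Finset.sum_congr rfl fun i _ => ?_
      rw [FibK.pr_eq hsym F χ l _ (FibK.ro_ne bd U i)]
      ring
    rw [Finset.sum_eq_single_of_mem j.1 h3] at h2
    · rw [h4, show FibK.ep χ j.1 = 1 from if_neg (fun h => hpv h.1), one_mul] at h2
      exact h2
    · intro l hl hlj
      rcases Finset.mem_union.1 hl with h | h
      · obtain ⟨T, hT⟩ := hW l h
        have h5 : ∀ i, e i * pr F.G l (ro bd U i) χ =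
            ∑ t ∈ T, e i * pr F.G l (ro bd U i) (w l t) := by
          intro i
          rw [pr_inw hsym F l _ (FibK.ro_ne bd U i) T (w l) χ hT, Finset.mul_sum]
        rw [Finset.sum_congr rfl fun i _ => h5 i, Finset.sum_comm]
        exact Finset.sum_eq_zero fun t _ => heB l h t
      · obtain ⟨m, hm, rfl⟩ := Finset.mem_image.1 h
        rw [h4, heU m hm (fun h => hlj (congrArg Subtype.val h)), mul_zero]
  · exact heU j hj hjv

end Pool.Agent.H467.PU.Fibkw
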