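import Pool.Agent.H467.PU.Spec
import Pool.Agent.H467.PG.Fib

/-!
Project PU (helper467), part FIBW: the distribution in a fibre (adapted from PG/Fib.lean by
helper878).
-/

set_option autoImplicit false
set_option linter.all false

open Finset Filter WithZero
open Pool.Agent.H467.PT
open Pool.Agent.H467.GK
open Pool.Agent.H467.CT (AS Bas Ev)
open Pool.Agent.H467.PG
open Pool.Agent.H467.PG.Fib (qself qneg qcan spl_add poq_eq tt_tr finres ro_ne coset_poq sum_conv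
  card_conv)
open scoped Classical

namespace Pool.Agent.H467.PU.Fibw

theorem pcu_nonneg (n m r : ℕ) : 0 ≤ pcu n m r := by
  unfold pcu
  positivity

theorem pcu_le_one (n m r : ℕ) : pcu n m r ≤ 1 := by
  unfold pcu
  rw [div_le_one (by positivity)]
  have h1 : ({T : Fin m → Fin n → ZMod 2 |
      {e : Fin n → ZMod 2 | ∀ j, ∑ i, e i * T j i = 0}.ncard = 2 ^ r}.ncard) ≤ 2 ^ (n * m) := by
    refine (Set.ncard_le_ncard (Set.subset_univ _) Set.finite_univ).trans ?_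
    rw [Set.ncard_univ, Nat.card_eq_fintype_card, Fintype.card_pi]
    simp only [Fintype.card_pi, Finset.prod_const, Finset.card_univ, Fintype.card_fin, ZMod.card]
    rw [← pow_mul]
  exact_mod_cast h1

/-- The numbers of elements. -/
theorem card_iff {x y b D r s C₀ C₁ : ℕ} (h : x * 2 ^ b = 2 * y * 2 ^ D)
    (h1 : s + C₁ = r + C₀) (h2 : C₁ + D = C₀ + b) : x = 2 ^ (s + 1) ↔ y = 2 ^ r := by
  have h3 : s + 1 + b = 1 + r + D := by omega
  constructor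
  · intro hx
    rw [hx, ← pow_add, h3, pow_add, pow_add, pow_one] at h
    have h4 : (0 : ℕ) < 2 * 2 ^ D := by positivity
    refine Nat.eq_of_mul_eq_mul_left h4 ?_
    calc 2 * 2 ^ D * y = 2 * y * 2 ^ D := by ring
      _ = 2 * 2 ^ r * 2 ^ D := h.symm
      _ = 2 * 2 ^ D * 2 ^ r := by ring
  · intro hy
    have h4 : (0 : ℕ) < 2 ^ b := by positivity
    refine Nat.eq_of_mul_eq_mul_right h4 ?_
    rw [h, hy, ← pow_add, h3, pow_add, pow_add, pow_one]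

section grp

variable {k K : Type} [Field k] [Field K] [CharP K 2] [Algebra k K] {F : GF k K}
  {B : Finset (PV K)}

/-- The left kernels. -/
theorem KAW_eq [Finite k] (hPOQ : S_POQ) (hSYM : S_SYM) (hK : S_FIBKW) (bd : BD F B)
    (U : Finset (Ob B)) (L : ℕ) (v₀ : Ob B) (d : PV K → ℕ) (w : ∀ j : PV K, Fin (d j) → Qc K)
    (χ₁ χ : Qc K) (hInW : ∀ j ∈ B, InW d w j χ₁) (hv0U : v₀ ∈ U)
    (hv0L : L < F.R.deg v₀.1) (hout : ∀ j : Ob B, j ∉ U → poq j.1 χ = 0)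
    (hχ : χ ∈ Phi F.R B U L χ₁) : KAW bd U L v₀ d w χ₁ (χ + χ₁) = LKW bd U d w χ := by
  obtain ⟨⟨h1, h2, h3, h4⟩, h5⟩ := hχ
  have hback : χ₁ + (χ + χ₁) = χ := by rw [← add_assoc, qcan]
  have hIn : ∀ j ∈ B, InW d w j χ := by
    intro j hj
    obtain ⟨T, hT⟩ := hInW j hj
    refine ⟨T, ?_⟩
    have e : χ + ∑ i ∈ T, w j i = (χ + χ₁) + (χ₁ + ∑ i ∈ T, w j i) := by
      rw [add_assoc χ χ₁, ← add_assoc χ₁ χ₁, qself, zero_add]
    rw [e]
    exact spl_add hPOQ j (h1 j hj) hT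
  have eS : ∀ j ∈ U, F.R.deg j.1 ≤ L → ∀ i, tt F.G j.1 (ro bd U i) χ =
      tt F.G j.1 (ro bd U i) χ₁ := by
    intro j hj hjL i
    have := tt_tr hPOQ hSYM F.G j.1 (finres F.R j.1) (ro_ne bd U i) (χ := χ₁) (h2 j hj hjL)
    rwa [hback] at this
  have eL : ∀ j ∈ U, L < F.R.deg j.1 → ∀ i, tt F.G j.1 (ro bd U i) χ =
      pr F.G j.1 (ro bd U i) (χ₁ + (χ + χ₁)) := by
    intro j hj hjL i
    rw [hback]
    unfold tt
    rw [if_neg (h5 j hj hjL)]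
  ext e
  constructor
  · rintro ⟨k1, k2, k3⟩
    apply hK k K F B bd U d w χ v₀ hIn hv0U hout (h5 v₀ hv0U hv0L) e k1
    intro j hj hjv
    rcases le_or_gt (F.R.deg j.1) L with h | h
    · rw [← k2 j hj h]
      exact Finset.sum_congr rfl fun i _ => by rw [eS j hj h i]
    · rw [← k3 j hj h hjv]
      exact Finset.sum_congr rfl fun i _ => by rw [eL j hj h i]
  · rintro ⟨k1, k2⟩
    refine ⟨k1, fun j hj h => ?_, fun j hj h hjv => ?_⟩
    · rw [← k2 j hj]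
      exact Finset.sum_congr rfl fun i _ => by rw [eS j hj h i]
    · rw [← k2 j hj]
      exact Finset.sum_congr rfl fun i _ => by rw [eL j hj h i]

end grp

theorem fib0 (hLAPW : S_LAPW) (hK : S_FIBKW) (hORDG : S_ORDG) (hSVM : S_SVMW)
    (hPOQ : S_POQ) (hSYM : S_SYM) (hC : S_FIBC) (hN : S_FIBN) : S_FIBW := by
  intro k K _ _ _ _ _ F B bd U d w mp L C₀ C₁ θ χ₁ hWD hInW hCC hL hC0 hθ0 hθ1 hgood hmany hsm
    hlg hout hdet
  obtain ⟨v₀, Z, rk, hv0U, hv0L, hv0Z, hZU, hZc, hv0Y, hZY, hrkinj, hrkZ, hrkv0, hsum⟩ :=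
    hORDG (Ob B) (sysB F.R B) (Nat.card k) (Fin bd.n → ZMod 2) (Rl bd) L C₀ θ U hL hC0 hθ0 hθ1
      hgood hmany
  obtain ⟨hAfin, hClow⟩ := hC k K F B bd U L
  have hfree : ∀ p₀ ∈ U, L < F.R.deg p₀.1 → (sysB F.R B).dg U ≤ Yf (F.R.deg p₀.1) →
      ∀ V ⊆ U, p₀ ∉ V → ∀ e, (V.Nonempty ∨ e ≠ 0) → ¬ Rl bd p₀ V e := by
    intro p₀ hp hLp hY V hV hpV e he
    refine hgood.g1 p₀ hp hLp V hV hpV (fun P hP => ?_) e he
    exact (Finset.single_le_sum (f := (sysB F.R B).deg) (fun i _ => Nat.zero_le _)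
      (hV hP)).trans hY
  -- the coset
  set A : Set (Qc K) := AJ F.R B U L with hA
  set Φ : Set (Qc K) := Phi F.R B U L χ₁ with hΦ
  let Cs : Set (Qc K) := {χ | χ + χ₁ ∈ A}
  have hback : ∀ χ : Qc K, χ₁ + (χ + χ₁) = χ := fun χ => by rw [← add_assoc, qcan]
  have hCsim : Cs = (fun a => χ₁ + a) '' A := by
    ext χ
    constructor
    · intro h
      exact ⟨χ + χ₁, h, hback χ⟩
    · rintro ⟨a, ha, rfl⟩
      change χ₁ + a + χ₁ ∈ A
      rw [qcan]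
      exact ha
  have hCsfin : Cs.Finite := by
    rw [hCsim]
    exact hAfin.image _
  have hCsA : Cs.ncard = A.ncard := by
    rw [hCsim]
    exact Set.ncard_image_of_injective _ (add_right_injective χ₁)
  have hΦCs : Φ ⊆ Cs := fun χ h => h.1
  have hΦfin : Φ.Finite := hCsfin.subset hΦCs
  -- unramified elements
  have hq : (0 : ℝ) < (Nat.card k : ℝ) := by
    exact_mod_cast Nat.card_pos
  have hNp : ∀ p ∈ U.filter (fun p => L < F.R.deg p.1),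
      (({χ | χ + χ₁ ∈ AJ F.R B U L ∧ poq p.1 χ = 0} : Set (Qc K)).ncard : ℝ) ≤
        (1 / (Nat.card k : ℝ)) ^ ((sysB F.R B).deg p) * (A.ncard : ℝ) := by
    intro p hp
    obtain ⟨hpU, hpL⟩ := Finset.mem_filter.1 hp
    obtain ⟨p₀, hp0U, hp0L, hne, hfr⟩ : ∃ p₀ : Ob B, p₀ ∈ U ∧ L < F.R.deg p₀.1 ∧ p₀ ≠ p ∧
        ∀ V ⊆ U, p₀ ∉ V → ∀ e, (V.Nonempty ∨ e ≠ 0) → ¬ Rl bd p₀ V e := by
      by_cases hpv : v₀ = p
      · obtain ⟨z, hz⟩ : Z.Nonempty := by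
          rw [← Finset.card_pos, hZc]
          exact hC0
        obtain ⟨hzU, hzL⟩ := Finset.mem_filter.1 (hZU hz)
        refine ⟨z, hzU, hzL, ?_, hfree z hzU hzL (hZY z hz)⟩
        rintro rfl
        exact hv0Z (hpv ▸ hz)
      · exact ⟨v₀, hv0U, hv0L, hpv, hfree v₀ hv0U hv0L hv0Y⟩
    have h1 := hN k K F B bd U L χ₁ p p₀ hpU hpL hp0U hp0L hne hfr
    have h2 : ((Nat.card k : ℝ)) ^ F.R.deg p.1 *
        (({χ | χ + χ₁ ∈ AJ F.R B U L ∧ poq p.1 χ = 0} : Set (Qc K)).ncard : ℝ) ≤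
          (A.ncard : ℝ) := by
      exact_mod_cast h1
    change _ ≤ (1 / (Nat.card k : ℝ)) ^ (F.R.deg p.1) * (A.ncard : ℝ)
    rw [one_div, inv_pow, ← div_eq_inv_mul, le_div_iff₀ (by positivity)]
    linarith
  have hbad : ((Cs \ Φ).ncard : ℝ) ≤ θ * (A.ncard : ℝ) := by
    have h1 : Cs \ Φ ⊆ ⋃ p ∈ U.filter (fun p => L < F.R.deg p.1),
        ({χ | χ + χ₁ ∈ AJ F.R B U L ∧ poq p.1 χ = 0} : Set (Qc K)) := by
      rintro χ ⟨h1, h2⟩
      have h3 : ∃ j ∈ U, L < F.R.deg j.1 ∧ poq j.1 χ = 0 := by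
        by_contra hcon
        push Not at hcon
        exact h2 ⟨h1, fun j hj hjL => hcon j hj hjL⟩
      obtain ⟨j, hj, hjL, hj0⟩ := h3
      simp only [Set.mem_iUnion]
      exact ⟨j, Finset.mem_filter.2 ⟨hj, hjL⟩, h1, hj0⟩
    have hfinU : (⋃ p ∈ U.filter (fun p => L < F.R.deg p.1),
        ({χ | χ + χ₁ ∈ AJ F.R B U L ∧ poq p.1 χ = 0} : Set (Qc K))).Finite := by
      refine hCsfin.subset ?_
      intro χ hχ
      simp only [Set.mem_iUnion] at hχ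
      obtain ⟨p, _, hp, _⟩ := hχ
      exact hp
    have h2 : (Cs \ Φ).ncard ≤ ∑ p ∈ U.filter (fun p => L < F.R.deg p.1),
        ({χ | χ + χ₁ ∈ AJ F.R B U L ∧ poq p.1 χ = 0} : Set (Qc K)).ncard :=
      (Set.ncard_le_ncard h1 hfinU).trans (Finset.set_ncard_biUnion_le _ _)
    calc ((Cs \ Φ).ncard : ℝ) ≤ ((∑ p ∈ U.filter (fun p => L < F.R.deg p.1),
        ({χ | χ + χ₁ ∈ AJ F.R B U L ∧ poq p.1 χ = 0} : Set (Qc K)).ncard : ℕ) : ℝ) := by
          exact_mod_cast h2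
      _ = ∑ p ∈ U.filter (fun p => L < F.R.deg p.1),
        (({χ | χ + χ₁ ∈ AJ F.R B U L ∧ poq p.1 χ = 0} : Set (Qc K)).ncard : ℝ) := by
          push_cast
          rfl
      _ ≤ ∑ p ∈ U.filter (fun p => L < F.R.deg p.1),
        (1 / (Nat.card k : ℝ)) ^ ((sysB F.R B).deg p) * (A.ncard : ℝ) :=
          Finset.sum_le_sum hNp
      _ = (∑ p ∈ U.filter (fun p => L < F.R.deg p.1),
        (1 / (Nat.card k : ℝ)) ^ ((sysB F.R B).deg p)) * (A.ncard : ℝ) := by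
          rw [Finset.sum_mul]
      _ ≤ θ * (A.ncard : ℝ) := by
          have := hgood.g4
          gcongr
          exact this
  have hsplit : (Φ.ncard : ℝ) + ((Cs \ Φ).ncard : ℝ) = (A.ncard : ℝ) := by
    have := Set.ncard_diff_add_ncard_of_subset hΦCs hCsfin
    rw [hCsA] at this
    have h2 : Φ.ncard + (Cs \ Φ).ncard = A.ncard := by omega
    exact_mod_cast h2
  have hθ8 : θ ≤ 1 / 8 := by
    refine hθ1.le.trans ?_
    calc (1 / 2 : ℝ) ^ (C₀ + 2) ≤ (1 / 2) ^ 3 :=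
          pow_le_pow_of_le_one (by norm_num) (by norm_num) (by omega)
      _ = 1 / 8 := by norm_num
  have hA0 : (0 : ℝ) ≤ (A.ncard : ℝ) := by positivity
  have hΦ0 : (0 : ℝ) ≤ (Φ.ncard : ℝ) := by positivity
  have hD0 : (0 : ℝ) ≤ ((Cs \ Φ).ncard : ℝ) := by positivity
  have hA2 : (A.ncard : ℝ) ≤ 2 * (Φ.ncard : ℝ) := by nlinarith
  refine ⟨hΦfin, ?_, ?_⟩
  · refine hClow.trans ?_
    rw [pow_succ (2 : ℝ)]
    have h2 : (0 : ℝ) < 2 ^ (B.card + (U.filter (fun p => F.R.deg p.1 ≤ L)).card) := by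
      positivity
    nlinarith
  · intro r s hrs
    have hsum2 : ∑ j ∈ U.filter (fun p => L < F.R.deg p.1 ∧ p ∉ Z ∧ p ≠ v₀),
      (1 / 2 : ℝ) ^ ((U.filter (fun p => L < F.R.deg p.1 ∧
        F.R.deg p.1 ≤ Yf (F.R.deg j.1))).card) *
        2 ^ (1 + (U.filter (fun p => L < F.R.deg p.1 ∧ rk p < rk j)).card) ≤
          θ + (1 / 2) ^ C₀ := by
      refine le_trans (le_of_eq ?_) hsum
      refine sum_conv U _ _ _ _ (fun p => Iff.rfl) _ _ fun j => ?_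
      exact congrArg₂ (fun (x y : ℕ) => (1 / 2 : ℝ) ^ x * 2 ^ (1 + y))
        (card_conv U _ _ _ _ fun p => Iff.rfl) (card_conv U _ _ _ _ fun p => Iff.rfl)
    have hling := hLAPW k K F B bd U d w mp L C₀ C₁ θ χ₁ hWD hCC hL hAfin hgood hdet v₀ Z
      rk hv0U hv0L hv0Z hZU hZc hZY hrkinj hrkZ hrkv0 hsum2 (hfree v₀ hv0U hv0L hv0Y) r
    set S : Set (Qc K) := {χ ∈ Φ | (SVW B d w χ).ncard = 2 ^ (s + 1)} with hS
    let T : Set (Qc K) := {χ ∈ Cs | (KAW bd U L v₀ d w χ₁ (χ + χ₁)).ncard = 2 ^ r}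
    have hTc : T.ncard = {a ∈ A | (KAW bd U L v₀ d w χ₁ a).ncard = 2 ^ r}.ncard := by
      have : T = (fun a => χ₁ + a) '' {a ∈ A | (KAW bd U L v₀ d w χ₁ a).ncard = 2 ^ r} := by
        ext χ
        constructor
        · rintro ⟨h1, h2⟩
          exact ⟨χ + χ₁, ⟨h1, h2⟩, hback χ⟩
        · rintro ⟨a, ⟨ha, ha2⟩, rfl⟩
          refine ⟨?_, ?_⟩
          · change χ₁ + a + χ₁ ∈ A
            rw [qcan]
            exact ha
          · change (KAW bd U L v₀ d w χ₁ (χ₁ + a + χ₁)).ncard = 2 ^ r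
            rw [qcan]
            exact ha2
      rw [this]
      exact Set.ncard_image_of_injective _ (add_right_injective χ₁)
    have houtχ : ∀ χ ∈ Cs, ∀ j : Ob B, j ∉ U → poq j.1 χ = 0 := by
      intro χ hχ j hj
      have := (coset_poq hPOQ hlg hout hχ).1 j hj
      rwa [hback] at this
    have hST : S = T ∩ Φ := by
      ext χ
      constructor
      · rintro ⟨h1, h2⟩
        refine ⟨⟨hΦCs h1, ?_⟩, h1⟩
        rw [KAW_eq hPOQ hSYM hK bd U L v₀ d w χ₁ χ hInW hv0U hv0L (houtχ χ (hΦCs h1)) h1]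
        have h3 := (hSVM k K F B bd U d w mp χ hWD (houtχ χ (hΦCs h1))).2
        exact (card_iff h3 hrs hCC).1 h2
      · rintro ⟨⟨h1, h2⟩, h3⟩
        refine ⟨h3, ?_⟩
        rw [KAW_eq hPOQ hSYM hK bd U L v₀ d w χ₁ χ hInW hv0U hv0L (houtχ χ h1) h3] at h2
        exact (card_iff (hSVM k K F B bd U d w mp χ hWD (houtχ χ h1)).2 hrs hCC).2 h2
    have hTfin : T.Finite := hCsfin.subset fun χ h => h.1
    have hle1 : (S.ncard : ℝ) ≤ (T.ncard : ℝ) := by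
      rw [hST]
      exact_mod_cast Set.ncard_le_ncard Set.inter_subset_left hTfin
    have hle2 : (T.ncard : ℝ) ≤ (S.ncard : ℝ) + ((Cs \ Φ).ncard : ℝ) := by
      have h1 : T ⊆ S ∪ (Cs \ Φ) := by
        intro χ hχ
        by_cases h : χ ∈ Φ
        · left
          rw [hST]
          exact ⟨hχ, h⟩
        · exact Or.inr ⟨hχ.1, h⟩
      have h2 : T.ncard ≤ S.ncard + (Cs \ Φ).ncard :=
        (Set.ncard_le_ncard h1 ((hΦfin.subset fun χ h => h.1).union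
          (hCsfin.subset Set.diff_subset))).trans (Set.ncard_union_le _ _)
      exact_mod_cast h2
    rw [← hA, ← hTc, abs_le] at hling
    obtain ⟨l1, l2⟩ := hling
    have hp0 := pcu_nonneg C₁ C₀ r
    have hp1 := pcu_le_one C₁ C₀ r
    have hh : (0 : ℝ) ≤ (1 / 2 : ℝ) ^ C₀ := by positivity
    have h2D : (1 : ℝ) ≤ 2 ^ (∑ j ∈ B, d j) := one_le_pow₀ (by norm_num)
    obtain ⟨E, hE⟩ : ∃ E : ℝ, E = 2 ^ (∑ j ∈ B, d j) := ⟨_, rfl⟩
    rw [← hE] at l1 l2 h2D ⊢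
    have hpd0 : 0 ≤ pcu C₁ C₀ r * ((Cs \ Φ).ncard : ℝ) := mul_nonneg hp0 hD0
    have hpd1 : pcu C₁ C₀ r * ((Cs \ Φ).ncard : ℝ) ≤ ((Cs \ Φ).ncard : ℝ) :=
      mul_le_of_le_one_left hD0 hp1
    have hpA : pcu C₁ C₀ r * (A.ncard : ℝ) = pcu C₁ C₀ r * (Φ.ncard : ℝ) +
        pcu C₁ C₀ r * ((Cs \ Φ).ncard : ℝ) := by
      rw [← hsplit, mul_add]
    have hup : ((θ + (1 / 2) ^ C₀) * E) * (A.ncard : ℝ) + θ * (A.ncard : ℝ) ≤
        ((6 * θ + 2 * (1 / 2) ^ C₀) * E) * (Φ.ncard : ℝ) := by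
      have e0 : (θ + (1 / 2) ^ C₀) * E + θ ≤ (3 * θ + (1 / 2) ^ C₀) * E := by
        nlinarith
      have e1 : ((θ + (1 / 2) ^ C₀) * E + θ) * (A.ncard : ℝ) ≤
          ((3 * θ + (1 / 2) ^ C₀) * E) * (2 * (Φ.ncard : ℝ)) :=
        mul_le_mul e0 hA2 hA0 (by positivity)
      calc ((θ + (1 / 2) ^ C₀) * E) * (A.ncard : ℝ) + θ * (A.ncard : ℝ)
          = ((θ + (1 / 2) ^ C₀) * E + θ) * (A.ncard : ℝ) := by ring
        _ ≤ ((3 * θ + (1 / 2) ^ C₀) * E) * (2 * (Φ.ncard : ℝ)) := e1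
        _ = ((6 * θ + 2 * (1 / 2) ^ C₀) * E) * (Φ.ncard : ℝ) := by ring
    rw [abs_le]
    constructor
    · linarith
    · linarith

theorem fibw : S_LAPW → S_FIBKW → S_ORDG → S_SVMW → S_DIR → S_LDG → S_LLC → S_CFX → S_UBG →
    S_POQ → S_SYM → S_FIBW :=
  fun hLAPW hFIBKW hORDG hSVMW hDIR _ hLLC hCFX hUBG hPOQ hSYM =>
    fib0 hLAPW hFIBKW hORDG hSVMW hPOQ hSYM (FibC.fibc hPOQ hSYM hLLC hCFX hUBG)
      (FibN.fibn hPOQ hDIR hLLC hUBG)

end Pool.Agent.H467.PU.Fibw
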