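import Pool.Agent.H467.PU.Spec5

/-!
# Moebius inversion for divisors

Project DN (helper467), part MB1 (helper808).
-/

set_option autoImplicit false
set_option linter.all false

open Finset
open scoped Classical

namespace Pool.Agent.H467.PU.Mb1

open Pool.Agent.H467.PU

theorem ind1_apply {ι : Type} (T : Finset ι) (i : ι) : ind1 T i = if i ∈ T then 1 else 0 := by
  unfold ind1
  rw [Finsupp.indicator_apply]
  split_ifs <;> rfl

theorem le_iff {ι : Type} {D E : ι →₀ ℕ} {T : Finset ι} (hT : T ⊆ D.support) :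
    E ≤ D - ind1 T ↔ E ≤ D ∧ T ⊆ (D - E).support := by
  constructor
  · intro h
    refine ⟨fun i => (h i).trans (by rw [Finsupp.tsub_apply]; exact Nat.sub_le _ _), fun i hi => ?_⟩
    have h1 := h i
    rw [Finsupp.tsub_apply, ind1_apply, if_pos hi] at h1
    have h2 := Finsupp.mem_support_iff.1 (hT hi)
    rw [Finsupp.mem_support_iff, Finsupp.tsub_apply]
    omega
  · rintro ⟨h1, h2⟩ i
    have h3 := h1 i
    rw [Finsupp.tsub_apply, ind1_apply]
    split_ifs with hi
    · have h4 := Finsupp.mem_support_iff.1 (h2 hi)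
      rw [Finsupp.tsub_apply] at h4
      omega
    · omega

theorem sum_sign {ι : Type} (S : Finset ι) :
    ∑ T ∈ S.powerset, (-1 : ℝ) ^ T.card = if S = ∅ then 1 else 0 := by
  have h := Finset.sum_powerset_neg_one_pow_card (x := S)
  have h2 : ((∑ T ∈ S.powerset, (-1 : ℤ) ^ T.card : ℤ) : ℝ) = ((if S = ∅ then 1 else 0 : ℤ) : ℝ) := by
    rw [h]
  push_cast at h2
  rw [h2]

theorem mb1 : S_MB1 := by
  intro ι f g hf D
  have e1 : ∀ T ∈ D.support.powerset, (-1 : ℝ) ^ T.card * f (D - ind1 T) =
      ∑ E ∈ Finset.Iic D, if T ⊆ (D - E).support then (-1 : ℝ) ^ T.card * g E else 0 := by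
    intro T hT
    rw [Finset.mem_powerset] at hT
    rw [hf, Finset.mul_sum, ← Finset.sum_filter]
    refine Finset.sum_congr ?_ fun _ _ => rfl
    ext E
    rw [Finset.mem_Iic, Finset.mem_filter, Finset.mem_Iic]
    exact le_iff hT
  rw [Finset.sum_congr rfl e1, Finset.sum_comm]
  have e2 : ∀ E ∈ Finset.Iic D, (∑ T ∈ D.support.powerset,
      if T ⊆ (D - E).support then (-1 : ℝ) ^ T.card * g E else 0) = if E = D then g E else 0 := by
    intro E hE
    rw [Finset.mem_Iic] at hE
    rw [← Finset.sum_filter]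
    have h1 : D.support.powerset.filter (fun T => T ⊆ (D - E).support) =
        (D - E).support.powerset := by
      ext T
      rw [Finset.mem_filter, Finset.mem_powerset, Finset.mem_powerset]
      refine ⟨fun h => h.2, fun h => ⟨fun i hi => ?_, h⟩⟩
      have h2 := Finsupp.mem_support_iff.1 (h hi)
      rw [Finsupp.tsub_apply] at h2
      rw [Finsupp.mem_support_iff]
      omega
    rw [h1, ← Finset.sum_mul, sum_sign]
    have h3 : (D - E).support = ∅ ↔ E = D := by
      rw [Finsupp.support_eq_empty, tsub_eq_zero_iff_le]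
      exact ⟨fun h => le_antisymm hE h, fun h => h ▸ le_refl _⟩
    simp only [h3]
    split_ifs
    · rw [one_mul]
    · rw [zero_mul]
  rw [Finset.sum_congr rfl e2, Finset.sum_ite_eq', if_pos (Finset.mem_Iic.2 (le_refl D))]

end Pool.Agent.H467.PU.Mb1
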