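import Pool.Agent.H467.PU.Spec5
import Pool.Agent.H467.PG.Div

/-!
# Moebius inversion and degrees
-/

set_option autoImplicit false
set_option linter.all false

open Finset Filter
open Pool.Agent.H467.PT
open Pool.Agent.H467.PG
open scoped Classical

namespace Pool.Agent.H467.PU.Mb2

open Pool.Agent.H467.PU

variable {ι : Type}

lemma ind1_apply (T : Finset ι) (p : ι) : ind1 T p = if p ∈ T then 1 else 0 := by
  unfold ind1
  rw [Finsupp.indicator_apply]
  split_ifs <;> rfl

lemma support_ind1 (T : Finset ι) : (ind1 T).support = T := by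
  ext p
  rw [Finsupp.mem_support_iff, ind1_apply]
  split_ifs with h <;> simp [h]

lemma ind1_inj : Function.Injective (ind1 : Finset ι → ι →₀ ℕ) := fun T T' h => by
  rw [← support_ind1 T, h, support_ind1]

lemma dgf_ind1 (S : PSys ι) (T : Finset ι) : dgf S (ind1 T) = ∑ p ∈ T, S.deg p := by
  unfold dgf Finsupp.sum
  rw [support_ind1]
  apply Finset.sum_congr rfl
  intro p hp
  rw [ind1_apply, if_pos hp]
  exact one_mul _

lemma dgf_add' (S : PSys ι) (D D' : ι →₀ ℕ) : dgf S (D + D') = dgf S D + dgf S D' := by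
  unfold dgf
  rw [Finsupp.sum_add_index']
  · intro p
    rw [zero_mul]
  · intro p a b
    rw [add_mul]

lemma ind1_le {D : ι →₀ ℕ} {T : Finset ι} (h : T ⊆ D.support) : ind1 T ≤ D := by
  intro p
  rw [ind1_apply]
  split_ifs with hp
  · have := Finsupp.mem_support_iff.mp (h hp)
    omega
  · exact Nat.zero_le _

lemma sub_ind1_add {D : ι →₀ ℕ} {T : Finset ι} (h : T ⊆ D.support) : D - ind1 T + ind1 T = D :=
  tsub_add_cancel_of_le (ind1_le h)

lemma fin_T (S : PSys ι) (hf : ∀ n, {D : ι →₀ ℕ | dgf S D = n}.Finite) (i : ℕ) :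
    {T : Finset ι | ∑ p ∈ T, S.deg p = i}.Finite := by
  have h1 : {T : Finset ι | ∑ p ∈ T, S.deg p = i} = ind1 ⁻¹' {D : ι →₀ ℕ | dgf S D = i} := by
    ext T
    constructor
    · intro h
      show dgf S (ind1 T) = i
      rw [dgf_ind1]
      exact h
    · intro h
      have h2 : dgf S (ind1 T) = i := h
      rw [dgf_ind1] at h2
      exact h2
  rw [h1]
  exact (hf i).preimage ind1_inj.injOn

theorem mb2 : S_MB2 := by
  intro ι S hf
  have hT : ∀ i, MM S i = ∑ T ∈ (fin_T S hf i).toFinset, (-1 : ℝ) ^ T.card := by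
    intro i
    unfold MM
    exact finsum_mem_eq_finite_toFinset_sum _ (fin_T S hf i)
  have hD : ∀ (f : (ι →₀ ℕ) → ℝ) (n : ℕ), SG S f n = ∑ D ∈ (hf n).toFinset, f D := by
    intro f n
    unfold SG
    exact finsum_mem_eq_finite_toFinset_sum _ (hf n)
  refine ⟨?_, ?_⟩
  · intro i
    rw [hT i]
    refine (Finset.abs_sum_le_sum_abs _ _).trans ?_
    have h1 : ∑ T ∈ (fin_T S hf i).toFinset, |(-1 : ℝ) ^ T.card| =
        ((fin_T S hf i).toFinset.card : ℝ) := by
      rw [Finset.sum_congr rfl (g := fun _ => (1 : ℝ))]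
      · simp
      · intro T _
        rw [abs_pow, abs_neg, abs_one, one_pow]
    rw [h1, ← Set.ncard_eq_toFinset_card _ (fin_T S hf i)]
    have h2 : {T : Finset ι | ∑ p ∈ T, S.deg p = i}.ncard ≤
        {D : ι →₀ ℕ | dgf S D = i}.ncard := by
      refine Set.ncard_le_ncard_of_injOn (ind1 : Finset ι → ι →₀ ℕ) ?_ ind1_inj.injOn (hf i)
      intro T h
      show dgf S (ind1 T) = i
      rw [dgf_ind1]
      exact h
    exact_mod_cast h2
  · intro f g hg n
    rw [hD g n]
    have h1 : ∑ D ∈ (hf n).toFinset, g D = ∑ x ∈ (hf n).toFinset.sigma (fun D => D.support.powerset),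
        (-1 : ℝ) ^ x.2.card * f (x.1 - ind1 x.2) := by
      rw [Finset.sum_sigma]
      exact Finset.sum_congr rfl (fun D _ => hg D)
    have h2 : ∑ p ∈ Finset.HasAntidiagonal.antidiagonal n, MM S p.1 * SG S f p.2 =
        ∑ y ∈ (Finset.HasAntidiagonal.antidiagonal n).sigma
          (fun p => (fin_T S hf p.1).toFinset ×ˢ (hf p.2).toFinset),
          (-1 : ℝ) ^ y.2.1.card * f y.2.2 := by
      rw [Finset.sum_sigma]
      apply Finset.sum_congr rfl
      intro p _
      rw [hT, hD, Finset.sum_mul_sum, ← Finset.sum_product']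
    rw [h1, h2]
    refine Finset.sum_nbij'
      (i := fun x : (Σ _ : ι →₀ ℕ, Finset ι) =>
        (⟨(∑ p ∈ x.2, S.deg p, dgf S (x.1 - ind1 x.2)), (x.2, x.1 - ind1 x.2)⟩ :
          Σ _ : ℕ × ℕ, Finset ι × (ι →₀ ℕ)))
      (j := fun y : (Σ _ : ℕ × ℕ, Finset ι × (ι →₀ ℕ)) =>
        (⟨y.2.2 + ind1 y.2.1, y.2.1⟩ : Σ _ : ι →₀ ℕ, Finset ι)) ?_ ?_ ?_ ?_ ?_
    · rintro ⟨D, T⟩ hx
      rw [Finset.mem_sigma, Set.Finite.mem_toFinset, Finset.mem_powerset] at hx
      obtain ⟨h3, h4⟩ := hx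
      simp only at h3 h4
      rw [Finset.mem_sigma, Finset.mem_product, Set.Finite.mem_toFinset, Set.Finite.mem_toFinset,
        Finset.HasAntidiagonal.mem_antidiagonal]
      refine ⟨?_, rfl, rfl⟩
      show ∑ p ∈ T, S.deg p + dgf S (D - ind1 T) = n
      have h5 : dgf S D = n := h3
      rw [← dgf_ind1, ← dgf_add', add_comm, sub_ind1_add h4]
      exact h5
    · rintro ⟨⟨i, j⟩, ⟨T, D⟩⟩ hy
      rw [Finset.mem_sigma, Finset.mem_product, Set.Finite.mem_toFinset, Set.Finite.mem_toFinset,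
        Finset.HasAntidiagonal.mem_antidiagonal] at hy
      obtain ⟨h3, h4, h5⟩ := hy
      have h3' : i + j = n := h3
      have h4' : ∑ p ∈ T, S.deg p = i := h4
      have h5' : dgf S D = j := h5
      rw [Finset.mem_sigma, Set.Finite.mem_toFinset, Finset.mem_powerset]
      constructor
      · show dgf S (D + ind1 T) = n
        rw [dgf_add', dgf_ind1, h4', h5']
        omega
      · show T ⊆ (D + ind1 T).support
        intro p hp
        rw [Finsupp.mem_support_iff, Finsupp.add_apply, ind1_apply, if_pos hp]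
        omega
    · rintro ⟨D, T⟩ hx
      rw [Finset.mem_sigma, Set.Finite.mem_toFinset, Finset.mem_powerset] at hx
      obtain ⟨h3, h4⟩ := hx
      simp only at h3 h4
      show (⟨D - ind1 T + ind1 T, T⟩ : Σ _ : ι →₀ ℕ, Finset ι) = ⟨D, T⟩
      rw [sub_ind1_add h4]
    · rintro ⟨⟨i, j⟩, ⟨T, D⟩⟩ hy
      rw [Finset.mem_sigma, Finset.mem_product, Set.Finite.mem_toFinset, Set.Finite.mem_toFinset,
        Finset.HasAntidiagonal.mem_antidiagonal] at hy
      obtain ⟨h3, h4, h5⟩ := hy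
      have h4' : ∑ p ∈ T, S.deg p = i := h4
      have h5' : dgf S D = j := h5
      show (⟨(∑ p ∈ T, S.deg p, dgf S (D + ind1 T - ind1 T)), (T, D + ind1 T - ind1 T)⟩ :
        Σ _ : ℕ × ℕ, Finset ι × (ι →₀ ℕ)) = ⟨(i, j), (T, D)⟩
      rw [add_tsub_cancel_right, h4', h5']
    · rintro ⟨D, T⟩ hx
      rfl

end Pool.Agent.H467.PU.Mb2
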