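import Pool.Agent.H467.PU.Spec5

/-!
# Project DN (helper467): the limit of the sums (S_MB3), written by helper307
-/

set_option autoImplicit false

open Filter Topology Finset

namespace Pool.Agent.H467.PU.Mb3

open Pool.Agent.H467.PU

/-- convolution of an absolutely summable sequence with a convergent one -/
theorem tann (b a : ℕ → ℝ) (L : ℝ) (hb : Summable fun i => |b i|) (ha : Tendsto a atTop (𝓝 L)) :
    Tendsto (fun n => ∑ p ∈ Finset.HasAntidiagonal.antidiagonal n, b p.1 * a p.2) atTop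
      (𝓝 ((∑' i, b i) * L)) := by
  obtain ⟨K, hK⟩ := ha.abs.bddAbove_range
  have hK' : ∀ n, |a n| ≤ K := fun n => hK ⟨n, rfl⟩
  have h1 := tendsto_tsum_of_dominated_convergence (𝓕 := atTop) (β := ℕ) (α := ℕ)
    (f := fun n i => if i ≤ n then b i * a (n - i) else 0) (g := fun i => b i * L)
    (bound := fun i => |b i| * K) (hb.mul_right K) (fun i => by
      have h2 : Tendsto (fun n => b i * a (n - i)) atTop (𝓝 (b i * L)) :=
        (ha.comp (tendsto_sub_atTop_nat i)).const_mul (b i)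
      refine h2.congr' ?_
      filter_upwards [eventually_ge_atTop i] with n hn
      rw [if_pos hn]) (Eventually.of_forall fun n i => by
      by_cases h : i ≤ n
      · simp only [if_pos h]
        rw [norm_mul, Real.norm_eq_abs, Real.norm_eq_abs]
        exact mul_le_mul_of_nonneg_left (hK' _) (abs_nonneg _)
      · simp only [if_neg h]
        rw [norm_zero]
        exact mul_nonneg (abs_nonneg _) ((abs_nonneg _).trans (hK' 0)))
  rw [tsum_mul_right] at h1
  refine h1.congr fun n => ?_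
  rw [Finset.Nat.sum_antidiagonal_eq_sum_range_succ (fun i j => b i * a j) n,
    tsum_eq_sum (s := Finset.range (n + 1))]
  · refine Finset.sum_congr rfl fun i hi => ?_
    rw [Finset.mem_range] at hi
    rw [if_pos (by omega)]
  · intro i hi
    rw [Finset.mem_range] at hi
    rw [if_neg (by omega)]

theorem anti_div (δ : ℕ) (hδ : 0 < δ) (M f : ℕ → ℝ) (hM : ∀ i, ¬ δ ∣ i → M i = 0)
    (hf : ∀ i, ¬ δ ∣ i → f i = 0) (k : ℕ) :
    ∑ p ∈ Finset.HasAntidiagonal.antidiagonal (δ * k), M p.1 * f p.2 =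
      ∑ p ∈ Finset.HasAntidiagonal.antidiagonal k, M (δ * p.1) * f (δ * p.2) := by
  classical
  have hinj : Set.InjOn (fun p : ℕ × ℕ => (δ * p.1, δ * p.2))
      (Finset.HasAntidiagonal.antidiagonal k : Finset (ℕ × ℕ)) := by
    rintro ⟨x1, x2⟩ - ⟨y1, y2⟩ - h
    simp only [Prod.mk.injEq] at h
    rw [Prod.mk.injEq]
    exact ⟨Nat.eq_of_mul_eq_mul_left hδ h.1, Nat.eq_of_mul_eq_mul_left hδ h.2⟩
  rw [← Finset.sum_image (f := fun p : ℕ × ℕ => M p.1 * f p.2) hinj]
  symm
  apply Finset.sum_subset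
  · intro p hp
    rw [Finset.mem_image] at hp
    obtain ⟨x, hx, rfl⟩ := hp
    rw [Finset.HasAntidiagonal.mem_antidiagonal] at hx ⊢
    show δ * x.1 + δ * x.2 = δ * k
    rw [← mul_add, hx]
  · rintro ⟨i, l⟩ hp hp'
    rw [Finset.HasAntidiagonal.mem_antidiagonal] at hp
    by_cases h1 : δ ∣ i
    · by_cases h2 : δ ∣ l
      · exfalso
        apply hp'
        obtain ⟨x, rfl⟩ := h1
        obtain ⟨y, rfl⟩ := h2
        rw [Finset.mem_image]
        refine ⟨(x, y), ?_, rfl⟩
        rw [Finset.HasAntidiagonal.mem_antidiagonal]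
        have h3 : δ * (x + y) = δ * k := by
          rw [mul_add]
          exact hp
        exact Nat.eq_of_mul_eq_mul_left hδ h3
      · show M i * f l = 0
        rw [hf l h2, mul_zero]
    · show M i * f l = 0
      rw [hM i h1, zero_mul]

theorem range_div (δ : ℕ) (hδ : 0 < δ) (H : ℕ → ℝ) (hH : ∀ i, ¬ δ ∣ i → H i = 0) (m : ℕ) :
    ∑ n ∈ Finset.range (δ * m + 1), H n = ∑ k ∈ Finset.range (m + 1), H (δ * k) := by
  classical
  have hinj : Set.InjOn (fun k : ℕ => δ * k) (Finset.range (m + 1) : Finset ℕ) := by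
    intro x _ y _ h
    exact Nat.eq_of_mul_eq_mul_left hδ h
  rw [← Finset.sum_image (f := H) hinj]
  symm
  apply Finset.sum_subset
  · intro p hp
    rw [Finset.mem_image] at hp
    obtain ⟨x, hx, rfl⟩ := hp
    rw [Finset.mem_range] at hx ⊢
    have h1 : δ * x ≤ δ * m := Nat.mul_le_mul_left δ (by omega)
    omega
  · intro n hn hn'
    apply hH
    rintro ⟨x, rfl⟩
    apply hn'
    rw [Finset.mem_image]
    refine ⟨x, ?_, rfl⟩
    rw [Finset.mem_range] at hn ⊢
    by_contra hc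
    have h1 : δ * (m + 1) ≤ δ * x := Nat.mul_le_mul_left δ (by omega)
    have h2 : δ * (m + 1) = δ * m + δ := by ring
    omega

theorem mb3 : S_MB3 := by
  intro q δ C φ M f hq hδ hMb hM hf hlim
  have hq0 : (0 : ℝ) < q := by
    have : 0 < q := by omega
    exact_mod_cast this
  have hq1 : (1 : ℝ) < q := by
    have : 1 < q := by omega
    exact_mod_cast this
  obtain ⟨r, hr⟩ : ∃ r : ℝ, r = (q : ℝ) ^ (2 * δ) := ⟨_, rfl⟩
  have hr1 : 1 < r := by
    rw [hr]
    exact one_lt_pow₀ hq1 (by omega)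
  have hr0 : 0 < r := by linarith
  have hrk : ∀ k : ℕ, (q : ℝ) ^ (2 * (δ * k)) = r ^ k := by
    intro k
    rw [hr, ← pow_mul]
    congr 1
    ring
  -- the sequences
  obtain ⟨A, hA⟩ : ∃ A : ℕ → ℝ, A = fun i => M (δ * i) / (q : ℝ) ^ (2 * (δ * i)) := ⟨_, rfl⟩
  obtain ⟨F, hF⟩ : ∃ F : ℕ → ℝ, F = fun n => f (δ * n) / (q : ℝ) ^ (2 * (δ * n)) := ⟨_, rfl⟩
  rw [← hF] at hlim
  have hsumA : Summable fun i => |A i| := by
    have hs1 : (1 / (q : ℝ) ^ δ) < 1 := by
      rw [div_lt_one (by positivity)]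
      exact one_lt_pow₀ hq1 (by omega)
    have hs : Summable fun i : ℕ => C * (1 / (q : ℝ) ^ δ) ^ i :=
      (summable_geometric_of_lt_one (by positivity) hs1).mul_left C
    refine Summable.of_nonneg_of_le (fun i => abs_nonneg _) (fun i => ?_) hs
    rw [hA]
    simp only
    rw [abs_div, abs_of_pos (by positivity : (0 : ℝ) < (q : ℝ) ^ (2 * (δ * i)))]
    have h1 := hMb (δ * i)
    rw [div_le_iff₀ (by positivity)]
    refine h1.trans (le_of_eq ?_)
    have e1 : (q : ℝ) ^ (2 * (δ * i)) = (q : ℝ) ^ (δ * i) * (q : ℝ) ^ (δ * i) := by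
      rw [← pow_add]
      congr 1
      ring
    have e2 : (1 / (q : ℝ) ^ δ) ^ i = 1 / (q : ℝ) ^ (δ * i) := by
      rw [div_pow, one_pow, ← pow_mul]
    rw [e1, e2]
    field_simp
  have hAsum : ∑' i, A i = ∑' i : ℕ, M i / (q : ℝ) ^ (2 * i) := by
    have hinj : Function.Injective (fun i : ℕ => δ * i) :=
      fun x y h => Nat.eq_of_mul_eq_mul_left hδ h
    have h1 := hinj.tsum_eq (f := fun i : ℕ => M i / (q : ℝ) ^ (2 * i)) (by
      intro i hi
      rw [Function.mem_support] at hi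
      by_contra hc
      apply hi
      have h2 : ¬ δ ∣ i := by
        rintro ⟨x, rfl⟩
        exact hc ⟨x, rfl⟩
      rw [hM i h2, zero_div])
    rw [← h1, hA]
  have hG := tann A F φ hsumA hlim
  obtain ⟨G, hGd⟩ : ∃ G : ℕ → ℝ, G = fun n =>
    ∑ p ∈ Finset.HasAntidiagonal.antidiagonal n, A p.1 * F p.2 := ⟨_, rfl⟩
  rw [← hGd] at hG
  have hs2 : Summable fun i : ℕ => |(1 / r) ^ i| := by
    have h1 : (fun i : ℕ => |(1 / r) ^ i|) = fun i : ℕ => (1 / r) ^ i := by
      funext i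
      exact abs_of_nonneg (by positivity)
    rw [h1]
    exact summable_geometric_of_lt_one (by positivity) (by rw [div_lt_one hr0]; exact hr1)
  have hN := tann (fun i : ℕ => (1 / r) ^ i) G _ hs2 hG
  have htg : ∑' i : ℕ, (1 / r) ^ i = (1 - 1 / r)⁻¹ :=
    tsum_geometric_of_lt_one (by positivity) (by rw [div_lt_one hr0]; exact hr1)
  have hval : (∑' i : ℕ, (1 / r) ^ i) * ((∑' i, A i) * φ) =
      (∑' i : ℕ, M i / (q : ℝ) ^ (2 * i)) * φ / (1 - 1 / (q : ℝ) ^ (2 * δ)) := by
    rw [htg, hAsum, ← hr, mul_comm]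
    exact (div_eq_mul_inv _ _).symm
  rw [hval] at hN
  refine hN.congr fun m => ?_
  -- the sums
  have hH : ∀ n, ¬ δ ∣ n → ∑ p ∈ Finset.HasAntidiagonal.antidiagonal n, M p.1 * f p.2 = 0 := by
    intro n hn
    refine Finset.sum_eq_zero fun p hp => ?_
    rw [Finset.HasAntidiagonal.mem_antidiagonal] at hp
    by_cases h1 : δ ∣ p.1
    · by_cases h2 : δ ∣ p.2
      · exact absurd (hp ▸ dvd_add h1 h2) hn
      · rw [hf _ h2, mul_zero]
    · rw [hM _ h1, zero_mul]
  rw [range_div δ hδ (fun n => ∑ p ∈ Finset.HasAntidiagonal.antidiagonal n, M p.1 * f p.2) hH m,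
    hrk, Finset.sum_div]
  have e3 := Finset.Nat.sum_antidiagonal_eq_sum_range_succ (fun i j => (1 / r) ^ i * G j) m
  rw [e3, ← Finset.sum_range_reflect]
  refine Finset.sum_congr rfl fun k hk => ?_
  rw [Finset.mem_range] at hk
  have hkm : m + 1 - 1 - k = m - k := by omega
  have hkm2 : m - (m - k) = k := by omega
  rw [hkm, hkm2, anti_div δ hδ M f hM hf k, hGd]
  simp only
  have e4 : r ^ m = r ^ (m - k) * r ^ k := by
    rw [← pow_add]
    congr 1
    omega
  rw [e4, Finset.mul_sum, Finset.sum_div]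
  refine Finset.sum_congr rfl fun p hp => ?_
  rw [Finset.HasAntidiagonal.mem_antidiagonal] at hp
  rw [hA, hF]
  simp only
  rw [hrk, hrk]
  have e5 : r ^ k = r ^ p.1 * r ^ p.2 := by
    rw [← pow_add, hp]
  rw [e5, div_pow, one_pow]
  field_simp

end Pool.Agent.H467.PU.Mb3
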