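import Pool.Agent.H467.PU.Spec5
import Pool.Agent.H467.PG.SpecC

/-!
# Asymptotics for given local classes (task OMA, helper976)
-/

set_option autoImplicit false
set_option linter.all false

open Finset Filter WithZero
open Pool.Agent.H467.PT
open Pool.Agent.H467.GK
open Pool.Agent.H467.PG
open Pool.Agent.H467.PU
open scoped Classical

namespace Pool.Agent.H467.PU.Oma

/-- counting by fibres -/
theorem fib {α β : Type} (A : Set α) (hA : A.Finite) (φ : α → β) (I : Finset β)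
    (hI : ∀ x ∈ A, φ x ∈ I) (B : β → Set α) (hB : ∀ b ∈ I, ∀ x, x ∈ B b ↔ x ∈ A ∧ φ x = b) :
    A.ncard = ∑ b ∈ I, (B b).ncard := by
  have h1 : A.ncard = hA.toFinset.card := Set.ncard_eq_toFinset_card A hA
  rw [h1, Finset.card_eq_sum_card_fiberwise (f := φ) (s := hA.toFinset) (t := I)
    (fun x hx => hI x (hA.mem_toFinset.1 hx))]
  refine Finset.sum_congr rfl fun b hb => ?_
  have h2 : B b = ((hA.toFinset.filter fun x => φ x = b : Finset α) : Set α) := by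
    ext x
    rw [hB b hb x, Finset.coe_filter, Set.mem_ofPred_eq, hA.mem_toFinset]
  rw [h2, Set.ncard_coe_finset]

section

variable {k K : Type} [Field k] [Finite k] [CharP k 2] [Field K] [CharP K 2] [Algebra k K]

theorem ple_iff (hPOQ : S_POQ) (j : PV K) (χ : Qc K) (n : ℕ) :
    Ple j (exp (2 * (n : ℤ))) χ ↔ poq j χ ≤ 2 * n := by
  obtain ⟨-, -, -, h, -⟩ := hPOQ K j
  have h1 := h χ (2 * n)
  rw [Nat.cast_mul, Nat.cast_ofNat] at h1
  exact h1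

theorem hasD_uniq {S : Finset (PV K)} {χ : Qc K} {D E : Ob S →₀ ℕ} (h : HasD χ D)
    (h' : HasD χ E) : D = E := by
  ext j
  rw [← h j, ← h' j]

/-- the classes with bounded poles -/
theorem mem_XC (hPOQ : S_POQ) {S : Finset (PV K)} {c : PV K → K} {D E : Ob S →₀ ℕ} {χ : Qc K}
    (hE : HasD χ E) : χ ∈ XC S c D ↔ (∀ j ∈ S, Spl j (χ + mkq (c j))) ∧ E ≤ D := by
  unfold XC
  rw [Set.mem_ofPred_eq]
  refine and_congr Iff.rfl ?_
  constructor
  · intro h j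
    have h1 := (ple_iff hPOQ j.1 χ (D j)).1 (h j)
    have h2 := hE j
    omega
  · intro h j
    rw [ple_iff hPOQ]
    have h1 : E j ≤ D j := h j
    have h2 := hE j
    omega

theorem sum_XC (hPOQ : S_POQ) (hOMU : S_OMU) (hHSD : S_HSD) (R : GFR k K) (S : Finset (PV K))
    (c : PV K → K) (D : Ob S →₀ ℕ) (I : Finset (Ob S →₀ ℕ)) (hI : ∀ E, E ∈ I ↔ E ≤ D) :
    ((XC S c D).ncard : ℝ) = ∑ E ∈ I, ((OmD S c E).ncard : ℝ) := by
  obtain ⟨Cu, -, hCu⟩ := hOMU k K R S c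
  choose φ hφ using hHSD k K R S
  have hfin : (XC S c D).Finite := by
    refine Set.Finite.subset (Set.Finite.biUnion (Finset.finite_toSet I)
      (fun E _ => (hCu E).1)) ?_
    intro χ hχ
    rw [Set.mem_iUnion₂]
    obtain ⟨h1, h2⟩ := (mem_XC hPOQ (hφ χ)).1 hχ
    exact ⟨φ χ, Finset.mem_coe.2 ((hI _).2 h2), h1, hφ χ⟩
  have h := fib (XC S c D) hfin φ I
    (fun χ hχ => (hI _).2 ((mem_XC hPOQ (hφ χ)).1 hχ).2) (fun E => OmD S c E) (by
      intro E hE χ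
      rw [hI] at hE
      constructor
      · rintro ⟨h1, h2⟩
        have h3 := hasD_uniq (hφ χ) h2
        exact ⟨(mem_XC hPOQ h2).2 ⟨h1, hE⟩, h3⟩
      · rintro ⟨h1, h2⟩
        have h3 := ((mem_XC hPOQ (hφ χ)).1 h1).1
        have h4 := hφ χ
        rw [h2] at h4
        exact ⟨h3, h4⟩)
  rw [h]
  push_cast
  rfl

theorem sum_Om (hOMU : S_OMU) (hHSD : S_HSD) (R : GFR k K) (S : Finset (PV K))
    (hfin : ∀ n, {D : Ob S →₀ ℕ | dgf (sysB R S) D = n}.Finite) (c : PV K → K) (N : ℕ) :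
    ((Om R S c N).ncard : ℝ) =
      ∑ n ∈ Finset.range (N + 1), SG (sysB R S) (fun E => ((OmD S c E).ncard : ℝ)) n := by
  obtain ⟨Cu, -, hCu⟩ := hOMU k K R S c
  choose φ hφ using hHSD k K R S
  have hI : ∀ D : Ob S →₀ ℕ, D ∈ (Finset.range (N + 1)).biUnion (fun n => (hfin n).toFinset) ↔
      dgf (sysB R S) D ≤ N := by
    intro D
    rw [Finset.mem_biUnion]
    constructor
    · rintro ⟨n, hn, hD⟩
      rw [Set.Finite.mem_toFinset, Set.mem_ofPred_eq] at hD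
      rw [Finset.mem_range] at hn
      omega
    · intro h
      refine ⟨dgf (sysB R S) D, Finset.mem_range.2 (by omega), ?_⟩
      rw [Set.Finite.mem_toFinset, Set.mem_ofPred_eq]
  have hOm : (Om R S c N).Finite := by
    refine Set.Finite.subset (Set.Finite.biUnion (Finset.finite_toSet
      ((Finset.range (N + 1)).biUnion (fun n => (hfin n).toFinset))) (fun E _ => (hCu E).1)) ?_
    rintro χ ⟨h1, D, h2, h3⟩
    rw [Set.mem_iUnion₂]
    exact ⟨D, Finset.mem_coe.2 ((hI D).2 h3), h1, h2⟩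
  have h := fib (Om R S c N) hOm φ
    ((Finset.range (N + 1)).biUnion (fun n => (hfin n).toFinset)) (by
      rintro χ ⟨h1, D, h2, h3⟩
      rw [hasD_uniq (hφ χ) h2]
      exact (hI D).2 h3) (fun E => OmD S c E) (by
      intro E hE χ
      constructor
      · rintro ⟨h1, h2⟩
        exact ⟨⟨h1, E, h2, (hI E).1 hE⟩, hasD_uniq (hφ χ) h2⟩
      · rintro ⟨⟨h1, D, h2, h3⟩, h4⟩
        refine ⟨h1, ?_⟩
        rw [← h4]
        exact hφ χ)
  rw [h, Finset.sum_biUnion]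
  · push_cast
    refine Finset.sum_congr rfl fun n _ => ?_
    unfold SG
    rw [finsum_mem_eq_finite_toFinset_sum _ (hfin n)]
  · intro a _ b _ hab
    rw [Function.onFun, Finset.disjoint_left]
    intro D h1 h2
    rw [Set.Finite.mem_toFinset, Set.mem_ofPred_eq] at h1 h2
    exact hab (h1.symm.trans h2)

end

/-- the instance is an explicit argument, to be found by unification -/
theorem mem_Iic' {α : Type} [Preorder α] (i : LocallyFiniteOrderBot α) (a x : α) :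
    x ∈ @Finset.Iic α _ i a ↔ x ≤ a := Finset.mem_Iic

theorem fval (x s q d : ℕ) (h : x * 2 ^ s = 2 * q ^ d) :
    (x : ℝ) = 2 / 2 ^ s * (q : ℝ) ^ d := by
  have h2 : (x : ℝ) * 2 ^ s = 2 * (q : ℝ) ^ d := by exact_mod_cast h
  have h3 : (2 : ℝ) ^ s ≠ 0 := by positivity
  rw [div_mul_eq_mul_div, eq_div_iff h3]
  exact h2

theorem lim_pos (N : ℕ → ℕ) (q δ m₀ : ℕ) (Λ c' : ℝ) (hq : 0 < q) (hδ : 0 < δ) (hc' : 0 < c')
    (h : Tendsto (fun m : ℕ => (N (δ * m) : ℝ) / (q : ℝ) ^ (2 * (δ * m))) atTop (nhds Λ))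
    (hm₀ : ∀ m, m₀ ≤ m → c' * (q : ℝ) ^ (2 * m) ≤ (N m : ℝ)) : 0 < Λ := by
  refine lt_of_lt_of_le hc' (ge_of_tendsto h ?_)
  filter_upwards [eventually_ge_atTop m₀] with m hm
  have hq' : (0 : ℝ) < (q : ℝ) := by exact_mod_cast hq
  rw [le_div_iff₀ (by positivity)]
  exact hm₀ (δ * m) (hm.trans (Nat.le_mul_of_pos_left m hδ))

theorem conv (N : ℕ → ℕ) (a : ℕ → ℝ) (q δ : ℕ) (Λ : ℝ)
    (h : Tendsto (fun m : ℕ => (∑ n ∈ Finset.range (δ * m + 1), a n) /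
      (q : ℝ) ^ (2 * (δ * m))) atTop (nhds Λ))
    (hN : ∀ M, (N M : ℝ) = ∑ n ∈ Finset.range (M + 1), a n) :
    Tendsto (fun m : ℕ => (N (δ * m) : ℝ) / (q : ℝ) ^ (2 * (δ * m))) atTop (nhds Λ) := by
  refine h.congr fun m => ?_
  rw [hN]

theorem oma : S_FCD → S_ZAS → S_MOB → S_OML → S_PKG → S_DIV → S_OMU → S_POQ → S_HSD → S_OMA := by
  intro hFCD hZAS hMOB hOML hPKG hDIV hOMU hPOQ hHSD k K _ _ _ _ _ _ hff F
  obtain ⟨j₀, -⟩ := F.ne
  obtain ⟨δ, hδ, hdvd, hS⟩ := hZAS k K F.R ⟨j₀⟩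
  refine ⟨δ, hδ, hdvd, fun S hBS => ?_⟩
  obtain ⟨ζ, hζ, hT⟩ := hS S
  obtain ⟨C, c₀, W, n₀, hP⟩ := hPKG k K hff F.R S
  obtain ⟨hfin, ⟨C', hC', hbd⟩, -, -⟩ := hDIV _ _ _ _ _ _ _ hP
  obtain ⟨Λ, hΛ⟩ := hMOB (Ob S) (sysB F.R S) (Nat.card k) C' hP.q2 hfin hbd δ ζ hδ
    (fun p => hdvd p.1) hT (2 / 2 ^ S.card)
  obtain ⟨d₁, hd₁⟩ := hFCD k K F.R S
  have main : ∀ c : PV K → K, Tendsto (fun m : ℕ => ((Om F.R S c (δ * m)).ncard : ℝ) /
      (Nat.card k : ℝ) ^ (2 * (δ * m))) atTop (nhds Λ) := by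
    intro c
    exact conv (fun N => (Om F.R S c N).ncard) _ (Nat.card k) δ Λ
      (hΛ (fun D => ((XC S c D).ncard : ℝ)) (fun E => ((OmD S c E).ncard : ℝ)) d₁
        (fun D => sum_XC hPOQ hOMU hHSD F.R S c D _ fun E => mem_Iic' _ D E)
        (fun D hD => fval _ _ _ _ (hd₁ c D hD)))
      (fun N => sum_Om hOMU hHSD F.R S hfin c N)
  refine ⟨Λ, ?_, main⟩
  obtain ⟨c', hc', m₀, hm₀⟩ := hOML k K hff F S hBS (fun _ => 0)
  exact lim_pos (fun N => (Om F.R S (fun _ => 0) N).ncard) (Nat.card k) δ m₀ Λ c' Nat.card_pos hδ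
    hc' (main fun _ => 0) hm₀

end Pool.Agent.H467.PU.Oma
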