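import Pool.Agent.H467.PU.Spec5

/-!
# Project DN, ZB: effective divisors in a class (helper372)
-/

set_option autoImplicit false
set_option linter.all false

open Finset Filter WithZero
open Pool.Agent.H467.PT
open Pool.Agent.H467.GK
open Pool.Agent.H467.PG
open Pool.Agent.H467.PU
open scoped Classical

namespace Pool.Agent.H467.PU.Zb

variable {k K : Type} [Field k] [Field K] [Algebra k K]

lemma val1 (R : GFR k K) (u : K) (hu : u ≠ 0) (h : u ∈ LLs (0 : PV K →₀ ℤ)) (j : PV K) :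
    j.1 u = 1 := by
  obtain ⟨D, hD, hdeg⟩ := R.dvd u hu
  have hle : ∀ i, D i ≤ 0 := by
    intro i
    have h1 : i.1 u ≤ exp ((0 : PV K →₀ ℤ) i) := h i
    rw [hD i] at h1
    exact WithZero.exp_le_exp.1 h1
  have h0 : D j = 0 := by
    by_contra hne
    have hj : j ∈ D.support := Finsupp.mem_support_iff.2 hne
    have h2 : ∑ i ∈ D.support, D i * (R.deg i : ℤ) = 0 := hdeg
    have h3 : ∀ i ∈ D.support, D i * (R.deg i : ℤ) ≤ 0 := fun i _ =>
      mul_nonpos_of_nonpos_of_nonneg (hle i) (by positivity)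
    have h4 := (Finset.sum_eq_zero_iff_of_nonpos h3).1 h2 j hj
    rcases mul_eq_zero.1 h4 with h5 | h5
    · exact hne h5
    · have := R.pos j
      have h6 : R.deg j = 0 := by exact_mod_cast h5
      omega
  rw [hD j, h0]
  simp

/-- the effective divisor of `x` in the class of `D` -/
noncomputable def ef (R : GFR k K) (D : PV K →₀ ℤ) (x : K) : PV K →₀ ℕ :=
  if h : x ≠ 0 then (D - Classical.choose (R.dvd x h)).mapRange Int.toNat rfl else 0

lemma ef_spec (R : GFR k K) (D : PV K →₀ ℤ) (x : K) (hx : x ≠ 0) (h : x ∈ LLs D) (j : PV K) :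
    j.1 x = exp (D j - (ef R D x j : ℤ)) := by
  have h1 := (Classical.choose_spec (R.dvd x hx)).1 j
  have h2 : (Classical.choose (R.dvd x hx)) j ≤ D j := by
    have h3 : j.1 x ≤ exp (D j) := h j
    rw [h1] at h3
    exact WithZero.exp_le_exp.1 h3
  have h4 : (ef R D x j : ℤ) = D j - (Classical.choose (R.dvd x hx)) j := by
    unfold ef
    rw [dif_pos hx, Finsupp.mapRange_apply, Finsupp.sub_apply]
    exact Int.toNat_of_nonneg (by linarith)
  rw [h4, h1]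
  congr 1
  ring

lemma ef_eq (R : GFR k K) (D : PV K →₀ ℤ) (x : K) (hx : x ≠ 0) (h : x ∈ LLs D) (E : PV K →₀ ℕ)
    (hE : ∀ j : PV K, j.1 x = exp (D j - (E j : ℤ))) : ef R D x = E := by
  ext j
  have h1 := ef_spec R D x hx h j
  rw [hE j] at h1
  have h2 : D j - (E j : ℤ) = D j - (ef R D x j : ℤ) := WithZero.exp_injective h1
  omega

lemma mem_of (D : PV K →₀ ℤ) (x : K) (E : PV K →₀ ℕ)
    (hE : ∀ j : PV K, j.1 x = exp (D j - (E j : ℤ))) : x ∈ LLs D := by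
  intro j
  rw [hE j]
  have h1 : D j - (E j : ℤ) ≤ D j := by omega
  exact WithZero.exp_le_exp.2 h1

lemma img (R : GFR k K) (D : PV K →₀ ℤ) :
    {E : PV K →₀ ℕ | ∃ x : K, x ≠ 0 ∧ ∀ j : PV K, j.1 x = exp (D j - (E j : ℤ))} =
      ef R D '' (LLs D \ {0}) := by
  ext E
  constructor
  · rintro ⟨x, hx, hE⟩
    have hm := mem_of D x E hE
    exact ⟨x, ⟨hm, hx⟩, ef_eq R D x hx hm E hE⟩
  · rintro ⟨x, ⟨hm, hx⟩, rfl⟩
    exact ⟨x, hx, fun j => ef_spec R D x hx hm j⟩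

lemma fib (R : GFR k K) (D : PV K →₀ ℤ) (x₀ : K) (hx₀ : x₀ ≠ 0) (h₀ : x₀ ∈ LLs D) :
    {x : K | x ∈ LLs D \ {0} ∧ ef R D x = ef R D x₀} = (fun u => u * x₀) '' (LLs (0 : PV K →₀ ℤ) \ {0}) := by
  ext x
  constructor
  · rintro ⟨⟨hm, hx⟩, he⟩
    have hx' : x ≠ 0 := hx
    refine ⟨x / x₀, ⟨?_, div_ne_zero hx' hx₀⟩, div_mul_cancel₀ x hx₀⟩
    intro j
    have h1 := ef_spec R D x hx' hm j
    have h2 := ef_spec R D x₀ hx₀ h₀ j
    rw [he, ← h2] at h1
    have h3 : j.1 x₀ ≠ 0 := (Valuation.ne_zero_iff _).2 hx₀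
    rw [map_div₀, h1, div_self h3]
    simp
  · rintro ⟨u, ⟨hu, hu0⟩, rfl⟩
    have hu0' : u ≠ 0 := hu0
    have hv : ∀ j : PV K, j.1 (u * x₀) = j.1 x₀ := fun j => by
      rw [map_mul, val1 R u hu0' hu j, one_mul]
    have hne : u * x₀ ≠ 0 := mul_ne_zero hu0' hx₀
    have hm : u * x₀ ∈ LLs D := fun j => by rw [hv j]; exact h₀ j
    refine ⟨⟨hm, hne⟩, ef_eq R D _ hne hm _ fun j => ?_⟩
    rw [hv j]
    exact ef_spec R D x₀ hx₀ h₀ j

theorem zb : S_ZB := by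
  intro k K _ _ _ _ _ R
  have h0 : (0 : K) ∈ LLs (0 : PV K →₀ ℤ) := fun j => by simp
  have h1 : (1 : K) ∈ LLs (0 : PV K →₀ ℤ) := fun j => by simp
  have hz : ∀ D : PV K →₀ ℤ, (0 : K) ∈ LLs D := fun D j => by simp
  have hq : 2 ≤ (LLs (0 : PV K →₀ ℤ)).ncard := by
    have h2 : ({0, 1} : Set K) ⊆ LLs (0 : PV K →₀ ℤ) := by
      rintro x (rfl | rfl)
      · exact h0
      · exact h1
    have h3 := Set.ncard_le_ncard h2 (R.fin 0)
    rwa [Set.ncard_pair (zero_ne_one)] at h3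
  refine ⟨(LLs (0 : PV K →₀ ℤ)).ncard, hq, fun D => ?_⟩
  rw [img R D]
  have hfin : (LLs D \ {0}).Finite := (R.fin D).subset Set.diff_subset
  refine ⟨hfin.image _, ?_⟩
  have hu : (LLs (0 : PV K →₀ ℤ) \ {0}).ncard = (LLs (0 : PV K →₀ ℤ)).ncard - 1 :=
    Set.ncard_diff_singleton_of_mem h0
  have hD : (LLs D \ {0}).ncard + 1 = (LLs D).ncard :=
    Set.ncard_diff_singleton_add_one (hz D) (R.fin D)
  rw [← hD, ← hu]
  congr 1
  set L := hfin.toFinset with hL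
  have e1 : (LLs D \ {0}).ncard = L.card := Set.ncard_eq_toFinset_card _ hfin
  have e2 : (ef R D '' (LLs D \ {0})).ncard = (L.image (ef R D)).card := by
    rw [← Set.ncard_coe_finset, Finset.coe_image, hL, Set.Finite.coe_toFinset]
  rw [e1, e2]
  have e3 : L.card = ∑ E ∈ L.image (ef R D), (L.filter fun x => ef R D x = E).card :=
    Finset.card_eq_sum_card_fiberwise (fun x hx => Finset.mem_coe.2 (Finset.mem_image_of_mem _ hx))
  rw [e3, Finset.sum_const_nat (m := (LLs (0 : PV K →₀ ℤ) \ {0}).ncard)]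
  intro E hE
  obtain ⟨x₀, hx₀, rfl⟩ := Finset.mem_image.1 hE
  have hx₀' : x₀ ∈ LLs D \ {0} := hfin.mem_toFinset.1 hx₀
  rw [← Set.ncard_coe_finset, Finset.coe_filter]
  have e4 : {x : K | x ∈ L ∧ ef R D x = ef R D x₀} =
      {x : K | x ∈ LLs D \ {0} ∧ ef R D x = ef R D x₀} := by
    ext x
    simp only [Set.mem_setOf_eq, hL, Set.Finite.mem_toFinset]
  rw [e4, fib R D x₀ hx₀'.2 hx₀'.1]
  exact Set.ncard_image_of_injective _ (mul_left_injective₀ hx₀'.2)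

end Pool.Agent.H467.PU.Zb
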