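import Pool.Agent.H467.PU.Spec5

/-!
# Project DN, ZC: the number of effective divisors (helper784)
-/

set_option autoImplicit false
set_option linter.all false

open Finset Filter WithZero
open Pool.Agent.H467.PT
open Pool.Agent.H467.GK
open Pool.Agent.H467.PG
open scoped Classical

namespace Pool.Agent.H467.PU.Zc

section basic

variable {k K : Type} [Field k] [Field K] [Algebra k K]

/-- the principal divisors -/
def Pr (K : Type) [Field K] : AddSubgroup (PV K →₀ ℤ) where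
  carrier := {D | ∃ x : K, x ≠ 0 ∧ ∀ j : PV K, j.1 x = exp (D j)}
  zero_mem' := ⟨1, one_ne_zero, fun j => by rw [map_one, Finsupp.zero_apply, exp_zero]⟩
  add_mem' := by
    rintro D D' ⟨x, hx, h⟩ ⟨y, hy, h'⟩
    exact ⟨x * y, mul_ne_zero hx hy, fun j => by rw [map_mul, h, h', Finsupp.add_apply, exp_add]⟩
  neg_mem' := by
    rintro D ⟨x, hx, h⟩
    exact ⟨x⁻¹, inv_ne_zero hx, fun j => by rw [map_inv₀, h, Finsupp.neg_apply, exp_neg]⟩

/-- the degree as a homomorphism -/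
noncomputable def dd (deg : PV K → ℕ) : (PV K →₀ ℤ) →+ ℤ where
  toFun := ddg deg
  map_zero' := by
    unfold ddg
    exact Finsupp.sum_zero_index
  map_add' D D' := by
    unfold ddg
    exact Finsupp.sum_add_index' (fun _ => Int.zero_mul _) (fun _ _ _ => Int.add_mul _ _ _)

lemma dd_apply (deg : PV K → ℕ) (D : PV K →₀ ℤ) : dd deg D = ddg deg D := rfl

/-- an effective divisor as a divisor -/
noncomputable def toZ (E : PV K →₀ ℕ) : PV K →₀ ℤ := E.mapRange (fun n : ℕ => (n : ℤ)) rfl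

lemma toZ_apply (E : PV K →₀ ℕ) (j : PV K) : toZ E j = (E j : ℤ) := rfl

lemma ddg_toZ (deg : PV K → ℕ) (E : PV K →₀ ℕ) :
    ddg deg (toZ E) = ((E.sum fun j n => n * deg j : ℕ) : ℤ) := by
  unfold ddg toZ
  rw [Finsupp.sum_mapRange_index (h := fun (j : PV K) (n : ℤ) => n * (deg j : ℤ))
    (fun _ => Int.zero_mul _)]
  unfold Finsupp.sum
  push_cast
  rfl

lemma deg_pr (R : GFR k K) {D : PV K →₀ ℤ} (h : D ∈ Pr K) : ddg R.deg D = 0 := by
  obtain ⟨x, hx, h1⟩ := h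
  obtain ⟨D', h2, h3⟩ := R.dvd x hx
  have h4 : D = D' := by
    ext j
    exact exp_injective ((h1 j).symm.trans (h2 j))
  rw [h4, h3]

lemma fin (R : GFR k K) (m : ℕ) :
    {D : PV K →₀ ℕ | (D.sum fun j n => n * R.deg j) = m}.Finite := by
  refine (Set.finite_Icc (0 : PV K →₀ ℕ) (Finsupp.indicator (R.le m) fun _ _ => m)).subset ?_
  intro D hD
  have hD' : (D.sum fun j n => n * R.deg j) = m := hD
  refine ⟨zero_le, fun p => ?_⟩
  have h0 : D p * R.deg p ≤ m := by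
    by_cases hp : p ∈ D.support
    · rw [← hD']
      exact Finset.single_le_sum (f := fun p => D p * R.deg p) (fun _ _ => Nat.zero_le _) hp
    · rw [Finsupp.notMem_support_iff] at hp
      rw [hp, Nat.zero_mul]
      exact Nat.zero_le _
  by_cases hp : D p = 0
  · rw [hp]
    exact Nat.zero_le _
  · have h1 : R.deg p ≤ m := (Nat.le_mul_of_pos_left _ (Nat.pos_of_ne_zero hp)).trans h0
    rw [← R.mem_le] at h1
    rw [Finsupp.indicator_of_mem h1]
    exact (Nat.le_mul_of_pos_right _ (R.pos p)).trans h0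

/-- the class of an effective divisor -/
noncomputable def cl (E : PV K →₀ ℕ) : (PV K →₀ ℤ) ⧸ Pr K := QuotientAddGroup.mk (toZ E)

lemma cl_eq (E : PV K →₀ ℕ) (D : PV K →₀ ℤ) :
    cl E = QuotientAddGroup.mk D ↔ ∃ x : K, x ≠ 0 ∧ ∀ j : PV K, j.1 x = exp (D j - (E j : ℤ)) := by
  unfold cl
  rw [QuotientAddGroup.eq, neg_add_eq_sub]
  constructor
  · rintro ⟨x, hx, h⟩
    exact ⟨x, hx, fun j => by rw [h, Finsupp.sub_apply, toZ_apply]⟩
  · rintro ⟨x, hx, h⟩
    exact ⟨x, hx, fun j => by rw [h, Finsupp.sub_apply, toZ_apply]⟩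

lemma cl_deg (R : GFR k K) (E : PV K →₀ ℕ) (D : PV K →₀ ℤ)
    (h : cl E = QuotientAddGroup.mk D) : ddg R.deg D = ((E.sum fun j n => n * R.deg j : ℕ) : ℤ) := by
  unfold cl at h
  rw [QuotientAddGroup.eq, neg_add_eq_sub] at h
  have h1 := deg_pr R h
  rw [← dd_apply, map_sub, dd_apply, dd_apply, ddg_toZ] at h1
  omega

/-- the effective divisors of degree `m` -/
noncomputable def EF (R : GFR k K) (m : ℕ) : Finset (PV K →₀ ℕ) := (fin R m).toFinset

lemma mem_EF (R : GFR k K) (m : ℕ) (E : PV K →₀ ℕ) :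
    E ∈ EF R m ↔ (E.sum fun j n => n * R.deg j) = m := by
  unfold EF
  rw [Set.Finite.mem_toFinset]
  rfl

lemma fib (R : GFR k K) (m : ℕ) (D : PV K →₀ ℤ) (hD : ddg R.deg D = m) :
    {E : PV K →₀ ℕ | ∃ x : K, x ≠ 0 ∧ ∀ j : PV K, j.1 x = exp (D j - (E j : ℤ))}.ncard =
      ((EF R m).filter fun E => cl E = QuotientAddGroup.mk D).card := by
  rw [← Set.ncard_coe_finset]
  have h : {E : PV K →₀ ℕ | ∃ x : K, x ≠ 0 ∧ ∀ j : PV K, j.1 x = exp (D j - (E j : ℤ))} =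
      (((EF R m).filter fun E => cl E = QuotientAddGroup.mk D : Finset (PV K →₀ ℕ)) :
        Set (PV K →₀ ℕ)) := by
    ext E
    rw [Finset.mem_coe, Finset.mem_filter, mem_EF, cl_eq]
    constructor
    · intro h1
      refine ⟨?_, h1⟩
      have h2 := cl_deg R E D ((cl_eq E D).2 h1)
      rw [hD] at h2
      exact_mod_cast h2.symm
    · rintro ⟨-, h1⟩
      exact h1
  rw [h]

end basic

theorem zc : S_ZB → S_ZA1 := by
  intro hZB k K _ _ _ _ _ R hne
  obtain ⟨q₀, hq₀, hZ⟩ := hZB k K R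
  have hq2 : 2 ≤ Nat.card k := Finite.one_lt_card
  set q : ℕ := Nat.card k with hq
  obtain ⟨a, ha⟩ := Int.subgroup_cyclic (dd R.deg).range
  have hmem : ∀ D : PV K →₀ ℤ, ∃ n : ℤ, ddg R.deg D = n * a := by
    intro D
    have h1 : ddg R.deg D ∈ (dd R.deg).range := ⟨D, rfl⟩
    rw [ha, AddSubgroup.mem_closure_singleton] at h1
    obtain ⟨n, hn⟩ := h1
    exact ⟨n, by rw [← hn, smul_eq_mul]⟩
  have hsing : ∀ j : PV K, ddg R.deg (Finsupp.single j 1) = R.deg j := by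
    intro j
    unfold ddg
    rw [Finsupp.sum_single_index (h := fun (j : PV K) (n : ℤ) => n * (R.deg j : ℤ))
      (Int.zero_mul _), one_mul]
  obtain ⟨A₀, hA₀⟩ : ∃ A₀ : PV K →₀ ℤ, ddg R.deg A₀ = a := by
    have h1 : a ∈ (dd R.deg).range := by
      rw [ha]
      exact AddSubgroup.mem_closure_singleton_self a
    exact h1
  have ha0 : a ≠ 0 := by
    rintro rfl
    obtain ⟨j⟩ := hne
    obtain ⟨n, hn⟩ := hmem (Finsupp.single j 1)
    rw [hsing, mul_zero] at hn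
    have h1 := R.pos j
    omega
  set δ : ℕ := a.natAbs with hδ
  have hδ0 : 0 < δ := Int.natAbs_pos.2 ha0
  have hdvd : ∀ D : PV K →₀ ℤ, (δ : ℤ) ∣ ddg R.deg D := by
    intro D
    obtain ⟨n, hn⟩ := hmem D
    rw [hn, hδ, Int.natAbs_dvd]
    exact Dvd.intro_left n rfl
  obtain ⟨A, hA⟩ : ∃ A : PV K →₀ ℤ, ddg R.deg A = δ := by
    rcases le_total 0 a with h | h
    · exact ⟨A₀, by rw [hA₀, hδ]; omega⟩
    · refine ⟨-A₀, ?_⟩
      rw [← dd_apply, map_neg, dd_apply, hA₀, hδ]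
      omega
  refine ⟨δ, hδ0, fun j => ?_, ?_⟩
  · have h1 := hdvd (Finsupp.single j 1)
    rw [hsing] at h1
    exact_mod_cast h1
  -- the threshold
  obtain ⟨n₀, hn₀⟩ : ∃ n₀ : ℕ, ∀ n : ℕ, n₀ ≤ n → R.N₀ ≤ ((δ * n : ℕ) : ℤ) ∧
      R.gam + 1 ≤ ((δ * n : ℕ) : ℤ) := by
    refine ⟨(max R.N₀ (R.gam + 1)).toNat, fun n hn => ?_⟩
    have h1 : max R.N₀ (R.gam + 1) ≤ (n : ℤ) := Int.toNat_le.1 hn
    have h2 : (n : ℤ) ≤ ((δ * n : ℕ) : ℤ) := by
      exact_mod_cast Nat.le_mul_of_pos_left n hδ0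
    exact ⟨(le_max_left _ _).trans (h1.trans h2), (le_max_right _ _).trans (h1.trans h2)⟩
  have hfib : ∀ n : ℕ, n₀ ≤ n → ∀ D : PV K →₀ ℤ, ddg R.deg D = ((δ * n : ℕ) : ℤ) →
      ∃ m : ℕ, (m : ℤ) = ((δ * n : ℕ) : ℤ) - R.gam ∧
      ((EF R (δ * n)).filter fun E => cl E = QuotientAddGroup.mk D).card * (q₀ - 1) + 1 = q ^ m := by
    intro n hn D hD
    obtain ⟨m, hm, hL⟩ := R.riem D (by rw [hD]; exact (hn₀ n hn).1)
    refine ⟨m, by rw [hm, hD], ?_⟩
    rw [← fib R _ D hD, (hZ D).2, hL]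
  -- the classes
  have hI : ∀ n : ℕ, n₀ ≤ n → ∀ c : (PV K →₀ ℤ) ⧸ Pr K, c ∈ (EF R (δ * n)).image cl ↔
      ∃ D : PV K →₀ ℤ, c = QuotientAddGroup.mk D ∧ ddg R.deg D = ((δ * n : ℕ) : ℤ) := by
    intro n hn c
    rw [Finset.mem_image]
    constructor
    · rintro ⟨E, hE, rfl⟩
      rw [mem_EF] at hE
      exact ⟨toZ E, rfl, by rw [ddg_toZ, hE]⟩
    · rintro ⟨D, rfl, hD⟩
      obtain ⟨m, hm, h1⟩ := hfib n hn D hD
      have h2 : 1 ≤ m := by
        have := (hn₀ n hn).2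
        omega
      have h3 : 2 ≤ q ^ m := hq2.trans (Nat.le_self_pow (by omega) q)
      have h4 : 0 < ((EF R (δ * n)).filter fun E => cl E = QuotientAddGroup.mk D).card := by
        rcases Nat.eq_zero_or_pos ((EF R (δ * n)).filter fun E => cl E = QuotientAddGroup.mk D).card
          with h5 | h5
        · rw [h5, Nat.zero_mul] at h1
          omega
        · exact h5
      obtain ⟨E, hE⟩ := Finset.card_pos.1 h4
      rw [Finset.mem_filter] at hE
      exact ⟨E, hE.1, hE.2⟩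
  set h : ℕ := ((EF R (δ * n₀)).image cl).card with hh
  have hcard : ∀ n : ℕ, n₀ ≤ n → ((EF R (δ * n)).image cl).card = h := by
    intro n hn
    have h1 : (EF R (δ * n)).image cl = ((EF R (δ * n₀)).image cl).image
        (fun c => c + (QuotientAddGroup.mk (((n : ℤ) - n₀) • A) : (PV K →₀ ℤ) ⧸ Pr K)) := by
      ext c
      rw [hI n hn, Finset.mem_image]
      constructor
      · rintro ⟨D, rfl, hD⟩
        refine ⟨QuotientAddGroup.mk (D - ((n : ℤ) - n₀) • A), ?_, ?_⟩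
        · rw [hI n₀ le_rfl]
          refine ⟨_, rfl, ?_⟩
          rw [← dd_apply, map_sub, map_zsmul, dd_apply, dd_apply, hD, hA, smul_eq_mul]
          push_cast
          ring
        · rw [← QuotientAddGroup.mk_add, sub_add_cancel]
      · rintro ⟨c, hc, rfl⟩
        rw [hI n₀ le_rfl] at hc
        obtain ⟨D, rfl, hD⟩ := hc
        refine ⟨D + ((n : ℤ) - n₀) • A, ?_, ?_⟩
        · rw [← QuotientAddGroup.mk_add]
        · rw [← dd_apply, map_add, map_zsmul, dd_apply, dd_apply, hD, hA, smul_eq_mul]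
          push_cast
          ring
    rw [h1, Finset.card_image_of_injective _ (add_left_injective _)]
  have hh0 : 0 < h := by
    rw [hh, Finset.card_pos]
    refine ⟨QuotientAddGroup.mk ((n₀ : ℤ) • A), ?_⟩
    rw [hI n₀ le_rfl]
    refine ⟨_, rfl, ?_⟩
    rw [← dd_apply, map_zsmul, dd_apply, hA, smul_eq_mul]
    push_cast
    ring
  have hqR : (1 : ℝ) < (q : ℝ) := by exact_mod_cast hq2
  have hq0R : (0 : ℝ) < (q : ℝ) := by linarith
  have hq₀R : (0 : ℝ) < (q₀ : ℝ) - 1 := by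
    have : (2 : ℝ) ≤ (q₀ : ℝ) := by exact_mod_cast hq₀
    linarith
  -- the number of effective divisors
  have hcount : ∀ n : ℕ, n₀ ≤ n →
      ({D : PV K →₀ ℕ | (D.sum fun j n => n * R.deg j) = δ * n}.ncard : ℝ) / (q : ℝ) ^ (δ * n) =
        h / ((q₀ : ℝ) - 1) * ((q : ℝ) ^ (-R.gam) - ((q : ℝ) ^ δ)⁻¹ ^ n) := by
    intro n hn
    have h1 : {D : PV K →₀ ℕ | (D.sum fun j n => n * R.deg j) = δ * n}.ncard =
        (EF R (δ * n)).card := by
      rw [← Set.ncard_coe_finset]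
      have h2 : {D : PV K →₀ ℕ | (D.sum fun j n => n * R.deg j) = δ * n} =
          ((EF R (δ * n) : Finset (PV K →₀ ℕ)) : Set (PV K →₀ ℕ)) := by
        ext E
        rw [Finset.mem_coe, mem_EF]
        rfl
      rw [h2]
    have h3 : ((EF R (δ * n)).card : ℝ) = h *
        (((q : ℝ) ^ (((δ * n : ℕ) : ℤ) - R.gam) - 1) / ((q₀ : ℝ) - 1)) := by
      rw [Finset.card_eq_sum_card_image cl]
      push_cast
      have h4 : ∀ c ∈ (EF R (δ * n)).image cl,
          (((EF R (δ * n)).filter fun E => cl E = c).card : ℝ) =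
            ((q : ℝ) ^ (((δ * n : ℕ) : ℤ) - R.gam) - 1) / ((q₀ : ℝ) - 1) := by
        intro c hc
        rw [hI n hn] at hc
        obtain ⟨D, rfl, hD⟩ := hc
        obtain ⟨m, hm, h5⟩ := hfib n hn D hD
        rw [← hm, zpow_natCast, eq_div_iff hq₀R.ne']
        have h6 : ((((EF R (δ * n)).filter fun E => cl E = QuotientAddGroup.mk D).card *
          (q₀ - 1) + 1 : ℕ) : ℝ) = ((q ^ m : ℕ) : ℝ) := by rw [h5]
        rw [Nat.cast_add, Nat.cast_mul, Nat.cast_sub (by omega), Nat.cast_one, Nat.cast_pow] at h6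
        linarith
      rw [Finset.sum_congr rfl h4, Finset.sum_const, nsmul_eq_mul, hcard n hn]
      push_cast
      ring
    rw [h1, h3, zpow_sub₀ hq0R.ne', zpow_natCast]
    have h7 : (q : ℝ) ^ (-R.gam) = ((q : ℝ) ^ R.gam)⁻¹ := zpow_neg _ _
    have h8 : ((q : ℝ) ^ δ)⁻¹ ^ n = ((q : ℝ) ^ (δ * n))⁻¹ := by rw [inv_pow, ← pow_mul]
    rw [h7, h8]
    have h9 : (q : ℝ) ^ (δ * n) ≠ 0 := (pow_pos hq0R _).ne'
    have h10 : (q : ℝ) ^ R.gam ≠ 0 := (zpow_pos hq0R _).ne'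
    field_simp
  refine ⟨h / ((q₀ : ℝ) - 1) * (q : ℝ) ^ (-R.gam), ?_, ?_⟩
  · have h1 : (0 : ℝ) < h := by exact_mod_cast hh0
    have h2 : 0 < (q : ℝ) ^ (-R.gam) := zpow_pos hq0R _
    positivity
  · have h1 : Tendsto (fun n : ℕ => ((q : ℝ) ^ δ)⁻¹ ^ n) atTop (nhds 0) := by
      refine tendsto_pow_atTop_nhds_zero_of_lt_one (by positivity) ?_
      exact inv_lt_one_of_one_lt₀ (one_lt_pow₀ hqR hδ0.ne')
    have h2 : Tendsto (fun n : ℕ => h / ((q₀ : ℝ) - 1) *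
        ((q : ℝ) ^ (-R.gam) - ((q : ℝ) ^ δ)⁻¹ ^ n)) atTop
        (nhds (h / ((q₀ : ℝ) - 1) * ((q : ℝ) ^ (-R.gam) - 0))) :=
      (tendsto_const_nhds.sub h1).const_mul _
    rw [sub_zero] at h2
    refine h2.congr' ?_
    filter_upwards [eventually_ge_atTop n₀] with n hn
    exact (hcount n hn).symm

end Pool.Agent.H467.PU.Zc
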