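import Pool.Agent.H467.PU.Spec5
import Pool.Agent.H467.PG.Dst
import Pool.Agent.H467.PG.Div

/-!
# Project DN, ZS: effective divisors outside a finite set of places (helper218, for helper467)
-/

set_option autoImplicit false
set_option linter.all false

open Finset Filter WithZero
open Pool.Agent.H467.PT
open Pool.Agent.H467.GK
open Pool.Agent.H467.CT (AS Bas)
open Pool.Agent.H467.PG
open scoped Classical

namespace Pool.Agent.H467.PU.Zs

section abs

variable {ι : Type} (P : PSys ι)

/-- the divisors of degree `N` which vanish on `T` -/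
def Z (T : Finset ι) (N : ℕ) : Set (ι →₀ ℕ) := {D | (∀ j ∈ T, D j = 0) ∧ dgf P D = N}

theorem Z_fin (T : Finset ι) (N : ℕ) : (Z P T N).Finite :=
  (Div.fin P N).subset fun _ hD => hD.2

theorem Z_rec (T : Finset ι) (v : ι) (hv : v ∉ T) (N : ℕ) (hN : P.deg v ≤ N) :
    (Z P T N).ncard = (Z P (insert v T) N).ncard + (Z P T (N - P.deg v)).ncard := by
  have h1 : Z P T N = Z P (insert v T) N ∪
      (fun D : ι →₀ ℕ => D + Finsupp.single v 1) '' Z P T (N - P.deg v) := by
    ext D
    constructor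
    · rintro ⟨h0, hd⟩
      by_cases hDv : D v = 0
      · left
        refine ⟨fun j hj => ?_, hd⟩
        rcases Finset.mem_insert.1 hj with rfl | hj
        · exact hDv
        · exact h0 j hj
      · right
        have hle : Finsupp.single v 1 ≤ D := by
          rw [Finsupp.single_le_iff]
          exact Nat.pos_of_ne_zero hDv
        have hD : D - Finsupp.single v 1 + Finsupp.single v 1 = D := tsub_add_cancel_of_le hle
        refine ⟨D - Finsupp.single v 1, ⟨fun j hj => ?_, ?_⟩, hD⟩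
        · rw [Finsupp.tsub_apply, h0 j hj, Nat.zero_sub]
        · have h2 := congrArg (dgf P) hD
          rw [Div.dgf_add, Div.dgf_single, one_mul, hd] at h2
          omega
    · rintro (⟨h0, hd⟩ | ⟨E, ⟨h0, hd⟩, rfl⟩)
      · exact ⟨fun j hj => h0 j (Finset.mem_insert_of_mem hj), hd⟩
      · refine ⟨fun j hj => ?_, ?_⟩
        · have hjv : v ≠ j := by
            rintro rfl
            exact hv hj
          show (E + Finsupp.single v 1 : ι →₀ ℕ) j = 0
          rw [Finsupp.add_apply, h0 j hj, Finsupp.single_eq_of_ne' hjv, add_zero]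
        · show dgf P (E + Finsupp.single v 1) = N
          rw [Div.dgf_add, Div.dgf_single, one_mul, hd]
          omega
  have h2 : Disjoint (Z P (insert v T) N)
      ((fun D : ι →₀ ℕ => D + Finsupp.single v 1) '' Z P T (N - P.deg v)) := by
    rw [Set.disjoint_left]
    rintro D ⟨h0, _⟩ ⟨E, _, rfl⟩
    have h3 := h0 v (Finset.mem_insert_self v T)
    have h4 : (E + Finsupp.single v 1 : ι →₀ ℕ) v = 0 := h3
    rw [Finsupp.add_apply, Finsupp.single_eq_same] at h4
    omega
  have h3 : ((fun D : ι →₀ ℕ => D + Finsupp.single v 1) '' Z P T (N - P.deg v)).ncard =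
      (Z P T (N - P.deg v)).ncard :=
    Set.ncard_image_of_injective _ (add_left_injective _)
  rw [h1, Set.ncard_union_eq h2 (Z_fin P _ _) ((Z_fin P _ _).image _), h3]

end abs

section main

variable {k K : Type} [Field k] [Field K] [Algebra k K]

/-- all places with their degrees -/
def sP (R : GFR k K) : PSys (PV K) where
  deg := R.deg
  le := R.le
  mem_le := R.mem_le
  pos := R.pos

theorem dg_vanish (R : GFR k K) (S : Finset (PV K)) (D : PV K →₀ ℕ) (h : ∀ j ∈ S, D j = 0) :
    dgf (sP R) D = dgf (sysB R S) (Dst.out S D) := by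
  have h1 := Dst.dg_split R S D
  have h2 : ∑ j ∈ S, D j * R.deg j = 0 :=
    Finset.sum_eq_zero fun j hj => by rw [h j hj, zero_mul]
  rw [h2, zero_add] at h1
  exact h1

theorem card_out (R : GFR k K) (S : Finset (PV K)) (N : ℕ) :
    {D : Ob S →₀ ℕ | dgf (sysB R S) D = N}.ncard = (Z (sP R) S N).ncard := by
  have himg : Dst.out S '' Z (sP R) S N = {D : Ob S →₀ ℕ | dgf (sysB R S) D = N} := by
    ext E
    constructor
    · rintro ⟨D, ⟨h0, hd⟩, rfl⟩
      show dgf (sysB R S) (Dst.out S D) = N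
      rw [← dg_vanish R S D h0, hd]
    · intro hE
      have hE' : dgf (sysB R S) E = N := hE
      have h0 : ∀ j ∈ S, (Finsupp.extendDomain (P := fun j : PV K => j ∉ S) E) j = 0 := by
        intro j hj
        show (if hi : j ∉ S then E ⟨j, hi⟩ else 0) = 0
        rw [dif_neg (not_not.2 hj)]
      have ho : Dst.out S (Finsupp.extendDomain (P := fun j : PV K => j ∉ S) E) = E :=
        Finsupp.subtypeDomain_extendDomain E
      refine ⟨Finsupp.extendDomain (P := fun j : PV K => j ∉ S) E, ⟨h0, ?_⟩, ho⟩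
      rw [dg_vanish R S _ h0, ho, hE']
  have hinj : Set.InjOn (Dst.out S) (Z (sP R) S N) := by
    rintro D ⟨h0, _⟩ D' ⟨h0', _⟩ h
    ext j
    by_cases hj : j ∈ S
    · rw [h0 j hj, h0' j hj]
    · exact DFunLike.congr_fun h (⟨j, hj⟩ : Ob S)
  rw [← himg, Set.ncard_image_of_injOn hinj]

end main

theorem lim_step (q : ℝ) (hq : 2 ≤ q) (δ e : ℕ) (hδ : 0 < δ) (he : 0 < e) (ζ : ℝ) (hζ : 0 < ζ)
    (a b : ℕ → ℕ) (hab : ∀ n, e ≤ n → a (δ * n) = b (δ * n) + a (δ * n - δ * e))
    (ha : Tendsto (fun n : ℕ => (a (δ * n) : ℝ) / q ^ (δ * n)) atTop (nhds ζ)) :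
    ∃ ζ' : ℝ, 0 < ζ' ∧ Tendsto (fun n : ℕ => (b (δ * n) : ℝ) / q ^ (δ * n)) atTop (nhds ζ') := by
  have hq0 : 0 < q := by linarith
  have hpe : 1 < q ^ (δ * e) := one_lt_pow₀ (by linarith) (Nat.mul_pos hδ he).ne'
  refine ⟨ζ - ζ / q ^ (δ * e), ?_, ?_⟩
  · rw [sub_pos]
    exact div_lt_self hζ hpe
  · rw [← tendsto_add_atTop_iff_nat e]
    have h1 : Tendsto (fun n : ℕ => (a (δ * (n + e)) : ℝ) / q ^ (δ * (n + e))) atTop (nhds ζ) :=
      (tendsto_add_atTop_iff_nat (f := fun n : ℕ => (a (δ * n) : ℝ) / q ^ (δ * n)) e).2 ha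
    have h2 := h1.sub (ha.div_const (q ^ (δ * e)))
    refine h2.congr fun n => ?_
    have h3 := hab (n + e) (Nat.le_add_left e n)
    have h4 : δ * (n + e) - δ * e = δ * n := by
      rw [mul_add]; omega
    rw [h4] at h3
    rw [h3]
    push_cast
    rw [mul_add, pow_add]
    have hx : q ^ (δ * n) ≠ 0 := (pow_pos hq0 _).ne'
    have hy : q ^ (δ * e) ≠ 0 := (pow_pos hq0 _).ne'
    field_simp
    ring

theorem zs : S_ZA1 → S_ZAS := by
  intro hZ k K _ _ _ _ _ R hne
  obtain ⟨δ, hδ, hdiv, ζ, hζ, hlim⟩ := hZ k K R hne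
  refine ⟨δ, hδ, hdiv, fun S => ?_⟩
  have hq : (2 : ℝ) ≤ (Nat.card k : ℝ) := by
    have : 1 < Nat.card k := Finite.one_lt_card
    exact_mod_cast this
  have key : ∀ S : Finset (PV K), ∃ ζ : ℝ, 0 < ζ ∧
      Tendsto (fun n : ℕ => ((Z (sP R) S (δ * n)).ncard : ℝ) /
        (Nat.card k : ℝ) ^ (δ * n)) atTop (nhds ζ) := by
    intro S
    induction S using Finset.induction_on with
    | empty =>
      refine ⟨ζ, hζ, hlim.congr fun n => ?_⟩
      have h1 : {D : PV K →₀ ℕ | (D.sum fun j n => n * R.deg j) = δ * n} =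
          Z (sP R) ∅ (δ * n) := by
        ext D
        constructor
        · intro h
          exact ⟨fun j hj => absurd hj (Finset.notMem_empty j), h⟩
        · intro h
          exact h.2
      rw [h1]
    | insert v T hv ih =>
      obtain ⟨ζ', hζ', hlim'⟩ := ih
      obtain ⟨e, he⟩ := hdiv v
      have he0 : 0 < e := by
        rcases Nat.eq_zero_or_pos e with h | h
        · rw [h, mul_zero] at he
          exact absurd he (R.pos v).ne'
        · exact h
      refine lim_step (Nat.card k : ℝ) hq δ e hδ he0 ζ' hζ'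
        (fun N => (Z (sP R) T N).ncard) (fun N => (Z (sP R) (insert v T) N).ncard)
        (fun n hn => ?_) hlim'
      have h1 : (sP R).deg v = δ * e := he
      have h2 : (sP R).deg v ≤ δ * n := by
        rw [h1]
        exact Nat.mul_le_mul_left δ hn
      have h3 := Z_rec (sP R) T v hv (δ * n) h2
      rw [h1] at h3
      exact h3
  obtain ⟨ζ', h0, h⟩ := key S
  refine ⟨ζ', h0, h.congr fun n => ?_⟩
  rw [card_out]

end Pool.Agent.H467.PU.Zs
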