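import Pool.Agent.H467.PU.Asmw4
import Pool.Agent.H467.PU.Fcd
import Pool.Agent.H467.PU.Fc1
import Pool.Agent.H467.PU.Fc2
import Pool.Agent.H467.PU.Fc3
import Pool.Agent.H467.PU.Zb
import Pool.Agent.H467.PU.Zc
import Pool.Agent.H467.PU.Zs
import Pool.Agent.H467.PU.Mb1
import Pool.Agent.H467.PU.Mb2
import Pool.Agent.H467.PU.Mb3
import Pool.Agent.H467.PU.Oma
import Pool.Agent.H467.PU.Dsd

/-!
# The complete law: all parts of the densities together

Project DN (helper467).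
-/

set_option autoImplicit false
set_option linter.all false

open Filter WithZero
open Pool.Agent.H467.PT
open Pool.Agent.H467.GK
open Pool.Agent.H467.PG
open scoped Classical

namespace Pool.Agent.H467.PU.Finw

open Pool.Agent.H467.PG.Fin (hPOQ hSYM hHALG hBAD hDIV hTRF hFAV hNNC hGF hCFX hUBG hLLC hDIR hPKG
  hRKG hHSD hOMU hCHB hFIB)

theorem hFCD : S_FCD := Fcd.fcd (Fc1.fc1 hPOQ) Fc2.fc2 Fc3.fc3

theorem hZAS : S_ZAS := Zs.zs (Zc.zc Zb.zb)

theorem hMOB : S_MOB := Fcd.mob Mb1.mb1 Mb2.mb2 Mb3.mb3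

theorem hOMA : S_OMA := Oma.oma hFCD hZAS hMOB hOML hPKG hDIV hOMU hPOQ hHSD

theorem hDSD : S_DSD := Dsd.dsd hOMA hDSTC hUBG hPKG hDIV hPOQ hHSD

end Pool.Agent.H467.PU.Finw
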