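import Pool.Agent.H467.PU.Spec2

/-!
# Heights and translations

Project PU (helper467).
-/

set_option autoImplicit false
set_option linter.all false

open WithZero WeierstrassCurve WeierstrassCurve.Affine IsDedekindDomain
open Pool.Agent.H467.CT (Std)
open Pool.Agent.H467.GK Pool.Agent.H467.GK.Fink
open scoped Classical nonZeroDivisors

namespace Pool.Agent.H467.PU.Htt

section one

variable {O K : Type} [CommRing O] [IsDedekindDomain O] [Field K] [Algebra O K]
  [IsFractionRing O K] (w : Vl K)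

theorem lw_add (hge : ∀ x : O, x ≠ 0 → 1 ≤ w (algebraMap O K x)) (x y : O) :
    lw w (x + y) ≤ max (lw w x) (lw w y) := by
  apply lw_le w hge
  rw [map_add]
  refine (Valuation.map_add w _ _).trans ?_
  apply max_le
  · refine (le_lw w hge x).trans ?_
    rw [exp_le_exp]
    push_cast
    exact le_max_left _ _
  · refine (le_lw w hge y).trans ?_
    rw [exp_le_exp]
    push_cast
    exact le_max_right _ _

theorem lw_add_le (hge : ∀ x : O, x ≠ 0 → 1 ≤ w (algebraMap O K x)) {x y : O} {n : ℕ}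
    (hx : lw w x ≤ n) (hy : lw w y ≤ n) : lw w (x + y) ≤ n :=
  (lw_add w hge x y).trans (max_le hx hy)

theorem lw_mul_le2 (hge : ∀ x : O, x ≠ 0 → 1 ≤ w (algebraMap O K x)) {x y : O} {m n k : ℕ}
    (hx : lw w x ≤ m) (hy : lw w y ≤ n) (hk : m + n ≤ k) : lw w (x * y) ≤ k :=
  (lw_mul_le w hge x y).trans ((add_le_add hx hy).trans hk)

theorem lw_pow_le (hge : ∀ x : O, x ≠ 0 → 1 ≤ w (algebraMap O K x)) {x : O} {m : ℕ}
    (hx : lw w x ≤ m) (n : ℕ) : lw w (x ^ n) ≤ n * m := by
  induction n with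
  | zero =>
    rw [pow_zero]
    apply lw_le w hge
    rw [map_one, map_one]
    simp
  | succ n ih =>
    rw [pow_succ]
    refine lw_mul_le2 w hge ih hx ?_
    rw [Nat.succ_mul]

theorem den (x : K) : ∃ D N : O, D ≠ 0 ∧ x * algebraMap O K D = algebraMap O K N := by
  obtain ⟨A, D, hD, hx⟩ := IsFractionRing.div_surjective (A := O) x
  have hD' : D ≠ 0 := nonZeroDivisors.ne_zero hD
  refine ⟨D, A, hD', ?_⟩
  rw [← hx]
  exact div_mul_cancel₀ _ (am_ne hD')

theorem den4 (a b c d : K) : ∃ C N₁ N₂ N₃ N₄ : O, C ≠ 0 ∧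
    a * algebraMap O K C = algebraMap O K N₁ ∧ b * algebraMap O K C = algebraMap O K N₂ ∧
    c * algebraMap O K C = algebraMap O K N₃ ∧ d * algebraMap O K C = algebraMap O K N₄ := by
  obtain ⟨D₁, M₁, h₁, e₁⟩ := den (O := O) a
  obtain ⟨D₂, M₂, h₂, e₂⟩ := den (O := O) b
  obtain ⟨D₃, M₃, h₃, e₃⟩ := den (O := O) c
  obtain ⟨D₄, M₄, h₄, e₄⟩ := den (O := O) d
  refine ⟨D₁ * D₂ * D₃ * D₄, M₁ * D₂ * D₃ * D₄, D₁ * M₂ * D₃ * D₄, D₁ * D₂ * M₃ * D₄,
    D₁ * D₂ * D₃ * M₄, mul_ne_zero (mul_ne_zero (mul_ne_zero h₁ h₂) h₃) h₄, ?_, ?_, ?_, ?_⟩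
  · simp only [map_mul]
    rw [← e₁]; ring
  · simp only [map_mul]
    rw [← e₂]; ring
  · simp only [map_mul]
    rw [← e₃]; ring
  · simp only [map_mul]
    rw [← e₄]; ring

theorem int2 (b c : O) {z : K} (h : z ^ 2 + algebraMap O K b * z = algebraMap O K c) :
    _root_.IsIntegral O z := by
  refine ⟨Polynomial.X ^ 2 + Polynomial.C b * Polynomial.X + Polynomial.C (-c), ?_, ?_⟩
  · monicity!
  · rw [Polynomial.eval₂_add, Polynomial.eval₂_add, Polynomial.eval₂_mul, Polynomial.eval₂_pow,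
      Polynomial.eval₂_X, Polynomial.eval₂_C, Polynomial.eval₂_C, map_neg]
    linear_combination h

/-- The ordinate times a denominator is integral. -/
theorem ord {C A' B' D N : O} {x y A B : K} (e : y ^ 2 + x * y = x ^ 3 + A * x ^ 2 + B)
    (hA : A * algebraMap O K C = algebraMap O K A') (hB : B * algebraMap O K C = algebraMap O K B')
    (hx : x * algebraMap O K D = algebraMap O K N) :
    ∃ t : O, y * (algebraMap O K C * algebraMap O K D ^ 2) = algebraMap O K t ∧
      t ^ 2 = (C ^ 2 * (D * N ^ 3) + C * (D ^ 2 * N ^ 2 * A') + C * (D ^ 4 * B')) -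
        C * D * N * t := by
  have hint : _root_.IsIntegral O (y * (algebraMap O K C * algebraMap O K D ^ 2)) := by
    apply int2 (C * D * N) (C ^ 2 * (D * N ^ 3) + C * (D ^ 2 * N ^ 2 * A') + C * (D ^ 4 * B'))
    simp only [map_add, map_mul, map_pow]
    rw [← hA, ← hB, ← hx]
    linear_combination (algebraMap O K C) ^ 2 * (algebraMap O K D) ^ 4 * e
  obtain ⟨t, ht⟩ := IsIntegrallyClosed.isIntegral_iff.1 hint
  refine ⟨t, ht.symm, ?_⟩
  apply am_inj (K := K)
  simp only [map_sub, map_add, map_mul, map_pow]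
  rw [ht, ← hA, ← hB, ← hx]
  linear_combination (algebraMap O K C) ^ 2 * (algebraMap O K D) ^ 4 * e

/-- The size of the ordinate. -/
theorem ord_le (hge : ∀ x : O, x ≠ 0 → 1 ≤ w (algebraMap O K x)) {b c t : O} {M : ℕ}
    (hb : lw w b ≤ M) (hc : lw w c ≤ 2 * M) (e : t ^ 2 = c - b * t) : lw w t ≤ M := by
  by_contra hcon
  push Not at hcon
  have ht : t ≠ 0 := by
    rintro rfl
    rw [lw_zero] at hcon
    omega
  have h1 : lw w (t ^ 2) = 2 * lw w t := lw_pow w hge ht 2
  have h2 : lw w (t ^ 2) ≤ max (lw w c) (lw w (b * t)) := by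
    rw [e]
    exact lw_sub w hge _ _
  have h3 : lw w (b * t) ≤ lw w b + lw w t := lw_mul_le w hge b t
  rcases max_cases (lw w c) (lw w (b * t)) with ⟨h4, -⟩ | ⟨h4, -⟩ <;> rw [h4] at h2 <;> omega

end one

section two

variable {O K : Type} [CommRing O] [IsDedekindDomain O] [Field K] [CharP K 2] [Algebra O K]
  [IsFractionRing O K] (w : Vl K) {W : Affine K} {A B : K}

/-- The chord. -/
theorem chord_le (hge : ∀ x : O, x ≠ 0 → 1 ≤ w (algebraMap O K x)) (h : Std W A B) (u v : K) :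
    ∃ κ : ℕ, ∀ x y l : K, v ^ 2 + u * v = u ^ 3 + A * u ^ 2 + B →
      y ^ 2 + x * y = x ^ 3 + A * x ^ 2 + B → x ≠ u → l * (u + x) = v + y →
      hh O w (l ^ 2 + l + A + u + x) ≤ 2 * hh O w x + κ := by
  have h2 : (2 : K) = 0 := CharTwo.two_eq_zero
  obtain ⟨C, A', B', U, V, hC, hA, hB, hU, hV⟩ := den4 (O := O) A B u v
  obtain ⟨κ, hκ⟩ : ∃ κ : ℕ, κ = max (lw w C) (max (max (lw w A') (lw w B'))
    (max (lw w U) (lw w V))) := ⟨_, rfl⟩
  have kC : lw w C ≤ κ := by rw [hκ]; exact le_max_left _ _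
  have kA : lw w A' ≤ κ := by
    rw [hκ]; exact (le_max_left _ _).trans ((le_max_left _ _).trans (le_max_right _ _))
  have kB : lw w B' ≤ κ := by
    rw [hκ]; exact (le_max_right _ _).trans ((le_max_left _ _).trans (le_max_right _ _))
  have kU : lw w U ≤ κ := by
    rw [hκ]; exact (le_max_left _ _).trans ((le_max_right _ _).trans (le_max_right _ _))
  have kV : lw w V ≤ κ := by
    rw [hκ]; exact (le_max_right _ _).trans ((le_max_right _ _).trans (le_max_right _ _))
  refine ⟨2 * κ, ?_⟩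
  intro x y l e1 e2 hxu hl
  obtain ⟨N, D, hD, hx, hN', hD'⟩ := hh_spec (O := O) w x
  obtain ⟨H, hH⟩ : ∃ H, H = hh O w x := ⟨_, rfl⟩
  rw [← hH] at hN' hD' ⊢
  obtain ⟨t, ht, ht2⟩ := ord e2 hA hB hx
  -- the size of `t`
  have kt : lw w t ≤ κ + 2 * H := by
    refine ord_le w hge (b := C * D * N)
      (c := C ^ 2 * (D * N ^ 3) + C * (D ^ 2 * N ^ 2 * A') + C * (D ^ 4 * B')) ?_ ?_ ht2
    · exact lw_mul_le2 w hge (lw_mul_le2 w hge kC hD' le_rfl) hN' (by omega)
    · refine lw_add_le w hge (lw_add_le w hge ?_ ?_) ?_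
      · exact lw_mul_le2 w hge (lw_pow_le w hge kC 2)
          (lw_mul_le2 w hge hD' (lw_pow_le w hge hN' 3) le_rfl) (by omega)
      · exact lw_mul_le2 w hge kC (lw_mul_le2 w hge (lw_mul_le2 w hge (lw_pow_le w hge hD' 2)
          (lw_pow_le w hge hN' 2) le_rfl) kA le_rfl) (by omega)
      · exact lw_mul_le2 w hge kC (lw_mul_le2 w hge (lw_pow_le w hge hD' 4) kB le_rfl) (by omega)
  -- the denominator
  set E : O := C * N + U * D with hE
  have hE1 : algebraMap O K E = algebraMap O K C * algebraMap O K D * (x + u) := by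
    rw [hE, map_add, map_mul, map_mul, ← hx, ← hU]
    ring
  have hxu' : x + u ≠ 0 := by
    intro h0
    apply hxu
    linear_combination h0 - u * h2
  have hE0 : E ≠ 0 := by
    intro h0
    rw [h0, map_zero] at hE1
    exact mul_ne_zero (mul_ne_zero (am_ne hC) (am_ne hD)) hxu' hE1.symm
  have hX : (l ^ 2 + l + A + u + x) * (x + u) ^ 2 = u * x ^ 2 + u ^ 2 * x + u * y + v * x := by
    have hl2 : l * (x + u) = y + v := by linear_combination hl
    linear_combination (l * (x + u) + y + v + x + u) * hl2 + e1 + e2 +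
      (x ^ 3 + A * x ^ 2 + B + u ^ 3 + A * u ^ 2 + y * v + A * x * u + u * x ^ 2 +
        x * u ^ 2) * h2
  have hXE : (l ^ 2 + l + A + u + x) * algebraMap O K (E ^ 2) =
      algebraMap O K (C * (U * N ^ 2) + U ^ 2 * (D * N) + U * t + C * (V * (D * N))) := by
    rw [map_pow, hE1]
    simp only [map_add, map_mul, map_pow]
    rw [← hx, ← ht, ← hU, ← hV]
    linear_combination (algebraMap O K C) ^ 2 * (algebraMap O K D) ^ 2 * hX
  refine (hh_le w (pow_ne_zero 2 hE0) hXE).trans (max_le ?_ ?_)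
  · refine lw_add_le w hge (lw_add_le w hge (lw_add_le w hge ?_ ?_) ?_) ?_
    · exact lw_mul_le2 w hge kC (lw_mul_le2 w hge kU (lw_pow_le w hge hN' 2) le_rfl) (by omega)
    · exact lw_mul_le2 w hge (lw_pow_le w hge kU 2) (lw_mul_le2 w hge hD' hN' le_rfl) (by omega)
    · exact lw_mul_le2 w hge kU kt (by omega)
    · exact lw_mul_le2 w hge kC (lw_mul_le2 w hge kV (lw_mul_le2 w hge hD' hN' le_rfl) le_rfl)
        (by omega)
  · have hEl : lw w E ≤ κ + H := by
      rw [hE]
      exact lw_add_le w hge (lw_mul_le2 w hge kC hN' le_rfl) (lw_mul_le2 w hge kU hD' le_rfl)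
    refine (lw_pow_le w hge hEl 2).trans ?_
    omega

theorem transl (hge : ∀ x : O, x ≠ 0 → 1 ≤ w (algebraMap O K x)) (h : Std W A B) (Q : W.Point) :
    ∃ c : ℕ, ∀ P : W.Point, ht O w (Q + P) ≤ 2 * ht O w P + c := by
  rcases Q with _ | ⟨u, v, hq⟩
  · refine ⟨0, fun P => ?_⟩
    change ht O w (0 + P) ≤ 2 * ht O w P + 0
    rw [zero_add]
    omega
  · obtain ⟨κ, hκ⟩ := chord_le (O := O) w hge h u v
    set Q : W.Point := Point.some u v hq with hQ
    refine ⟨κ + ht O w Q + ht O w (Q + Q), fun P => ?_⟩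
    rcases P with _ | ⟨x, y, hp⟩
    · change ht O w (Q + 0) ≤ _
      rw [add_zero]
      omega
    · by_cases hxu : x = u
      · subst hxu
        rcases h.cases_x hp hq with e | e
        · subst e
          change ht O w (Q + Q) ≤ _
          omega
        · subst e
          have h0 := h.opp hp hq
          rw [add_comm] at h0
          rw [← hQ] at h0
          rw [h0]
          change 0 ≤ _
          exact Nat.zero_le _
      · have hne : u + x ≠ 0 := by
          intro h0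
          apply hxu
          have h2 : (2 : K) = 0 := CharTwo.two_eq_zero
          linear_combination h0 - u * h2
        have hl : (v + y) / (u + x) * (u + x) = v + y := div_mul_cancel₀ _ hne
        obtain ⟨h', e⟩ := h.chord hq hp (fun e => hxu e.symm) hl rfl rfl
        rw [← hQ] at e
        rw [e]
        have h5 := hκ x y ((v + y) / (u + x)) (h.eq_of hq) (h.eq_of hp) hxu hl
        change hh O w _ ≤ 2 * hh O w x + _
        omega

end two

theorem htt : S_HTT := by
  intro O K _ _ _ _ _ _ _ w hge W A B h Q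
  obtain ⟨c, hc⟩ := transl (O := O) w hge h (-Q)
  refine ⟨c, fun P => ?_⟩
  have h1 := hc (Q + P)
  rwa [neg_add_cancel_left] at h1

end Pool.Agent.H467.PU.Htt
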