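import Pool.Agent.H467.PU.Spec
import Pool.Agent.H467.PG.Jin

/-!
# The constant columns are linearly independent: arbitrary local conditions

Project PU (helper467), by helper399.
-/

set_option autoImplicit false
set_option linter.all false

open Finset Filter WithZero
open Pool.Agent.H467.PT
open Pool.Agent.H467.GK
open Pool.Agent.H467.CT (AS Bas Ev)
open Pool.Agent.H467.PG
open scoped Classical

namespace Pool.Agent.H467.PU.Jinw

open Pool.Agent.H467.PG.Jin

section rows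

variable {k K : Type} [Field k] [Field K] [CharP K 2] [Algebra k K] {F : GF k K}
  {B : Finset (PV K)}

/-- Global classes with prescribed local classes. -/
theorem liftw [Finite k] (hC : S_CFX) (hP : S_POQ) (bd : BD F B)
    (U : Finset (Ob B)) (β : PV K → Qc K)
    (hβ : ∀ i, ∑ j ∈ pls B U, pr F.G j (ro bd U i) (β j) = 0) :
    ∃ α : Qc K, (∀ j, j ∉ pls B U → poq j α = 0) ∧ ∀ j ∈ pls B U, Spl j (α + β j) := by
  have hB : F.B₁ ⊆ pls B U := fun j hj => mem_pls.2 (Or.inl (bd.sub hj))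
  obtain ⟨x, hx1, hx2⟩ := hC k K F (pls B U) hB (fun j => Quotient.out (β j)) (by
    intro d hd he
    obtain ⟨c, hc⟩ := sum_ro bd U hd he
    have h1 : ∀ j ∈ pls B U, F.G.sy j (Quotient.out (β j) * dl F.G.t d) =
        ∑ i, c i * pr F.G j (ro bd U i) (β j) := by
      intro j _
      rw [hc (F.G.sy j) (F.G.add j)]
      rfl
    rw [Finset.sum_congr rfl h1, Finset.sum_comm]
    refine Finset.sum_eq_zero fun i _ => ?_
    rw [← Finset.mul_sum, hβ i, mul_zero])
  refine ⟨mkq x, fun j hj => ?_, fun j hj => ?_⟩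
  · exact ((hP K j).2.2.2.2.1 _).2 ⟨x, rfl, hx1 j hj⟩
  · obtain ⟨p1, p2, p3, p4, p5, p6, p7, p8, p9, p10⟩ := hP K j
    have h1 : Spl j (mkq x + mkq (Quotient.out (β j))) := (p2 _).1 (hx2 j hj)
    rw [mkq_out] at h1
    exact h1

end rows

theorem poq_sum {K : Type} [Field K] [CharP K 2] (hP : S_POQ) (j : PV K) {ι : Type}
    (s : Finset ι) (f : ι → Qc K) (m : ℕ) (h : ∀ i ∈ s, poq j (f i) ≤ m) :
    poq j (∑ i ∈ s, f i) ≤ m := by
  obtain ⟨p1, p2, p3, p4, p5, p6, p7, p8, p9, p10⟩ := hP K j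
  induction s using Finset.induction_on with
  | empty =>
    rw [Finset.sum_empty, p7 _ (spl_zero j)]
    exact Nat.zero_le _
  | insert a s ha ih =>
    rw [Finset.sum_insert ha]
    refine (p8 _ _).trans (max_le (h a (mem_insert_self a s)) (ih fun i hi => ?_))
    exact h i (mem_insert_of_mem hi)

theorem pr_sum {K : Type} [Field K] [CharP K 2] (G : GFS K) (j : PV K) (d : K)
    (hadd : ∀ χ χ' : Qc K, pr G j d (χ + χ') = pr G j d χ + pr G j d χ')
    (h0 : pr G j d (0 : Qc K) = 0) {ι : Type} (s : Finset ι) (f : ι → Qc K) :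
    pr G j d (∑ i ∈ s, f i) = ∑ i ∈ s, pr G j d (f i) := by
  induction s using Finset.induction_on with
  | empty => rw [Finset.sum_empty, Finset.sum_empty, h0]
  | insert a s ha ih => rw [Finset.sum_insert ha, Finset.sum_insert ha, hadd, ih]

theorem z2_ne {x : ZMod 2} (h : x ≠ 0) : x = 1 := by
  revert x
  decide

theorem jinw : S_CFX → S_POQ → S_SYM → S_JINW := by
  intro hC hP hS k K _ _ _ _ _ F B bd U U₁ d w m₀ χ hW hU hα ε ε' hε
  have hres := resf F.R
  obtain ⟨ω, w1, w2, w3, w4⟩ := omg hP hS F.G hres χ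
  -- the local classes
  obtain ⟨β, b1, b2, b3, b4⟩ : ∃ β : PV K → Qc K,
      (∀ j ∈ B, β j = ∑ l ∈ univ.filter (fun l => ε j l ≠ 0), w j l) ∧
      (∀ j ∈ U₁, ε' j ≠ 0 → β j.1 = mkq (ω j.1)) ∧ (∀ j ∈ U₁, ε' j = 0 → β j.1 = 0) ∧
      ∀ j : Ob B, j ∉ U₁ → β j.1 = 0 := by
    refine ⟨fun j => if h : j ∈ B then ∑ l ∈ univ.filter (fun l => ε j l ≠ 0), w j l else
      if (⟨j, h⟩ : Ob B) ∈ U₁ ∧ ε' ⟨j, h⟩ ≠ 0 then mkq (ω j) else 0,
      fun j hj => ?_, fun j hj hj2 => ?_, fun j hj hj2 => ?_, fun j hj => ?_⟩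
    · show (if h : j ∈ B then _ else _) = _
      rw [dif_pos hj]
    · show (if h : j.1 ∈ B then _ else _) = _
      rw [dif_neg j.2]
      exact if_pos ⟨hj, hj2⟩
    · show (if h : j.1 ∈ B then _ else _) = _
      rw [dif_neg j.2]
      exact if_neg fun h => h.2 hj2
    · show (if h : j.1 ∈ B then _ else _) = _
      rw [dif_neg j.2]
      exact if_neg fun h => hj h.1
  have hadd : ∀ (j : PV K) (x : K), x ≠ 0 → ∀ χ χ' : Qc K,
      pr F.G j x (χ + χ') = pr F.G j x χ + pr F.G j x χ' := fun j x hx χ χ' =>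
    (hS K F.G j (hres j)).2.1 χ χ' x hx
  have h0 : ∀ (j : PV K) (x : K), x ≠ 0 → pr F.G j x (0 : Qc K) = 0 := by
    intro j x hx
    have h := hadd j x hx 0 0
    rw [add_zero] at h
    exact left_eq_add.1 h
  obtain ⟨α, a1, a2⟩ := liftw hC hP bd U β (by
    intro i
    rw [sum_pls, ← hε i]
    congr 1
    · refine Finset.sum_congr rfl fun j hj => ?_
      rw [b1 j hj, pr_sum F.G j _ (hadd j _ (ro_ne bd U i)) (h0 j _ (ro_ne bd U i)),
        Finset.sum_filter]
      refine Finset.sum_congr rfl fun l _ => ?_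
      split_ifs with h
      · rw [z2_ne h, one_mul]
      · rw [not_not.1 h, zero_mul]
    · rw [← Finset.sum_subset hU]
      · refine Finset.sum_congr rfl fun j hj => ?_
        by_cases h : ε' j = 0
        · rw [b3 j hj h, h0 j.1 _ (ro_ne bd U i), h, zero_mul]
        · rw [b2 j hj h, (hS K F.G j.1 (hres j.1)).1 _ _ (ro_ne bd U i), w4 j.1 _ (ro_ne bd U i),
            z2_ne h, one_mul]
      · intro j _ hj
        rw [b4 j hj, h0 j.1 _ (ro_ne bd U i)])
  have mB : ∀ j ∈ B, j ∈ pls B U := fun j hj => mem_pls.2 (Or.inl hj)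
  have mU : ∀ j ∈ U, j.1 ∈ pls B U := fun j hj => mem_pls.2 (Or.inr ⟨j.2, hj⟩)
  have hpq : ∀ j ∈ pls B U, poq j α = poq j (β j) := fun j hj =>
    (hP K j).2.2.2.2.2.2.2.2.1 _ _ (a2 j hj)
  have hz : ∀ j : PV K, poq j (0 : Qc K) = 0 := fun j =>
    (hP K j).2.2.2.2.2.2.1 _ (spl_zero j)
  have hα0 : α = 0 := by
    by_contra hne
    obtain ⟨p, hp, hp1, hp2⟩ := hα α hne (fun j hj => by
        rw [hpq j (mB j hj), b1 j hj]
        exact poq_sum hP j _ _ _ fun l _ => hW.bnd j hj l)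
      (fun j hj => by
        rw [hpq j.1 (mU j (hU hj))]
        by_cases h : ε' j = 0
        · rw [b3 j hj h, hz]
          exact Nat.zero_le _
        · rw [b2 j hj h, w1])
      (fun j hj => by
        by_cases hjU : j ∈ U
        · rw [hpq j.1 (mU j hjU), b4 j hj, hz]
        · refine a1 j.1 fun h => ?_
          rcases mem_pls.1 h with h | ⟨h, h2⟩
          · exact j.2 h
          · exact hjU h2)
    apply hp2
    have h1 := a2 p.1 (mU p hp)
    rw [b4 p hp1, add_zero] at h1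
    exact h1
  refine ⟨fun j hj l => ?_, fun j hj => ?_⟩
  · have h1 := a2 j (mB j hj)
    rw [hα0, zero_add, b1 j hj] at h1
    have h2 := hW.ind j hj _ h1
    by_contra h
    have h3 : l ∈ univ.filter (fun l => ε j l ≠ 0) := mem_filter.2 ⟨mem_univ l, h⟩
    rw [h2] at h3
    exact absurd h3 (Finset.notMem_empty l)
  · by_contra h
    have h1 := a2 j.1 (mU j (hU hj))
    rw [hα0, zero_add, b2 j hj h] at h1
    exact w2 j.1 h1

end Pool.Agent.H467.PU.Jinw
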