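import Pool.Agent.H467.PU.Spec2

/-! helper34: the rank of a finitely generated group (S_RKF). -/

set_option autoImplicit false

namespace Pool.Agent.H467.PU.Rkf

open Pool.Agent.H467.PU

/-- an element of the torsion which is not divisible by two in the torsion -/
theorem exists_t0 (G : Type) [AddCommGroup G] [Module.Finite ℤ G] {T : G} (hT0 : T ≠ 0)
    (hTT : T + T = 0) : ∃ t0 : Submodule.torsion ℤ G, ∀ Q : Submodule.torsion ℤ G, t0 ≠ Q + Q := by
  by_contra hcon
  push Not at hcon
  let f : Submodule.torsion ℤ G →ₗ[ℤ] Submodule.torsion ℤ G := LinearMap.id + LinearMap.id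
  have hsurj : Function.Surjective f := fun y => by
    obtain ⟨Q, hQ⟩ := hcon y
    exact ⟨Q, hQ.symm⟩
  have hinj := IsNoetherian.injective_of_surjective_endomorphism f hsurj
  have hTm : T ∈ Submodule.torsion ℤ G := by
    rw [Submodule.mem_torsion_iff]
    refine ⟨⟨2, mem_nonZeroDivisors_of_ne_zero two_ne_zero⟩, ?_⟩
    change (2 : ℤ) • T = 0
    rw [two_zsmul, hTT]
  have h1 : f ⟨T, hTm⟩ = f 0 := by
    rw [map_zero]
    apply Subtype.ext
    exact hTT
  have h2 := congrArg Subtype.val (hinj h1)
  exact hT0 h2

theorem finrank_quot (G : Type) [AddCommGroup G] [Module.Finite ℤ G] :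
    Module.finrank ℤ (G ⧸ Submodule.torsion ℤ G) = Module.finrank ℤ G := by
  unfold Module.finrank
  rw [rank_quotient_eq_of_le_torsion le_rfl]

theorem rkf : S_RKF := by
  intro G _ hfg n hidx hT
  obtain ⟨s, hs, hcov⟩ := hidx
  obtain ⟨T, hT0, hTT⟩ := hT
  have : Module.Finite ℤ G := Module.Finite.iff_addGroup_fg.2 hfg
  obtain ⟨t0, ht0⟩ := exists_t0 G hT0 hTT
  set r := Module.finrank ℤ (G ⧸ Submodule.torsion ℤ G) with hr
  let b := Module.finBasis ℤ (G ⧸ Submodule.torsion ℤ G)
  have hmk : ∀ i, ∃ a : G, Submodule.Quotient.mk (p := Submodule.torsion ℤ G) a = b i := fun i =>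
    Submodule.Quotient.mk_surjective _ _
  choose a ha using hmk
  let c : Bool → ℤ := fun x => if x then 1 else 0
  have hc : ∀ x y : Bool, ∀ q : ℤ, c x - c y = q + q → x = y := by
    intro x y q h
    cases x <;> cases y <;> simp [c] at h ⊢ <;> omega
  let P : (Fin r → Bool) × Bool → G := fun v => ∑ i, c (v.1 i) • a i + c v.2 • (t0 : G)
  choose g hg Q hQ using fun v => hcov (P v)
  have hinj : Function.Injective g := by
    intro v w hvw
    have h1 : P v - P w = (Q v - Q w) + (Q v - Q w) := by
      rw [hQ v, hQ w, hvw]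
      abel
    -- project to the free quotient
    have h2 : ∀ i, c (v.1 i) - c (w.1 i) =
        b.repr (Submodule.Quotient.mk (Q v - Q w)) i +
          b.repr (Submodule.Quotient.mk (Q v - Q w)) i := by
      intro i
      have h3 := congrArg (fun z => b.repr (Submodule.Quotient.mk z) i) h1
      simp only [Submodule.Quotient.mk_add, map_add, Finsupp.add_apply] at h3
      rw [← h3]
      have h4 : ∀ u : (Fin r → Bool) × Bool,
          b.repr (Submodule.Quotient.mk (P u)) i = c (u.1 i) := by
        intro u
        have h5 : (Submodule.Quotient.mk (P u) : G ⧸ Submodule.torsion ℤ G) =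
            ∑ j, c (u.1 j) • b j := by
          have h6 : (Submodule.Quotient.mk (t0 : G) : G ⧸ Submodule.torsion ℤ G) = 0 :=
            (Submodule.Quotient.mk_eq_zero _).2 t0.2
          change (Submodule.torsion ℤ G).mkQ (P u) = _
          simp only [P, map_add, map_sum, map_smul]
          change ∑ j, c (u.1 j) • Submodule.Quotient.mk (p := Submodule.torsion ℤ G) (a j) +
            c u.2 • Submodule.Quotient.mk (p := Submodule.torsion ℤ G) (t0 : G) = _
          rw [h6, smul_zero, add_zero]
          exact Finset.sum_congr rfl fun j _ => by rw [ha]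
        rw [h5, b.repr_sum_self]
      rw [Submodule.Quotient.mk_sub, map_sub, Finsupp.sub_apply, h4, h4]
    have h3 : v.1 = w.1 := funext fun i => hc _ _ _ (h2 i)
    have h4 : (c v.2 - c w.2) • (t0 : G) = (Q v - Q w) + (Q v - Q w) := by
      rw [← h1]
      simp only [P]
      rw [h3, sub_smul]
      abel
    have h5 : Q v - Q w ∈ Submodule.torsion ℤ G := by
      have h6 : (c v.2 - c w.2) • (t0 : G) ∈ Submodule.torsion ℤ G := Submodule.smul_mem _ _ t0.2
      rw [h4, Submodule.mem_torsion_iff] at h6
      obtain ⟨⟨m, hm⟩, h7⟩ := h6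
      rw [Submodule.mem_torsion_iff]
      refine ⟨⟨m * 2, mul_mem hm (mem_nonZeroDivisors_of_ne_zero two_ne_zero)⟩, ?_⟩
      change m • ((Q v - Q w) + (Q v - Q w)) = 0 at h7
      change (m * 2) • (Q v - Q w) = 0
      rw [mul_smul, two_zsmul, h7]
    have h6 : v.2 = w.2 := by
      by_contra hne
      rcases hv : v.2 with _ | _
      · have hw : w.2 = true := by
          rcases hw : w.2 with _ | _
          · exact absurd (hv.trans hw.symm) hne
          · rfl
        rw [hv, hw] at h4
        have h7 : (c false - c true) • (t0 : G) = - (t0 : G) := by simp [c]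
        rw [h7] at h4
        apply ht0 (-⟨Q v - Q w, h5⟩)
        apply Subtype.ext
        change (t0 : G) = -(Q v - Q w) + -(Q v - Q w)
        rw [← neg_add, ← h4, neg_neg]
      · have hw : w.2 = false := by
          rcases hw : w.2 with _ | _
          · rfl
          · exact absurd (hv.trans hw.symm) hne
        rw [hv, hw] at h4
        have h7 : (c true - c false) • (t0 : G) = (t0 : G) := by simp [c]
        rw [h7] at h4
        exact ht0 ⟨Q v - Q w, h5⟩ (Subtype.ext h4)
    exact Prod.ext h3 h6
  have hcard : Fintype.card ((Fin r → Bool) × Bool) ≤ s.card := by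
    rw [← Finset.card_univ]
    exact Finset.card_le_card_of_injOn g (fun v _ => hg v) hinj.injOn
  rw [Fintype.card_prod, Fintype.card_fun, Fintype.card_bool, Fintype.card_fin, ← pow_succ] at hcard
  have h1 := (Nat.pow_le_pow_iff_right (by norm_num : 1 < 2)).1 (hcard.trans hs)
  rw [← finrank_quot]
  omega

end Pool.Agent.H467.PU.Rkf
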