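import Pool.Agent.H467.PU.Asmw2
import Pool.Agent.H467.PU.Jinw
import Pool.Agent.H467.PU.Htt
import Pool.Agent.H467.PU.Rkf
import Pool.Agent.H467.PU.Tgt

/-!
# The complete law: all parts together

Project PU (helper467).
-/

set_option autoImplicit false
set_option linter.all false

open Filter WithZero
open Pool.Agent.H467.PT
open Pool.Agent.H467.GK
open Pool.Agent.H467.PG
open scoped Classical

namespace Pool.Agent.H467.PU.Finw

open Pool.Agent.H467.PG.Fin (hPOQ hSYM hCFX)

theorem hJINW : S_JINW := Jinw.jinw hCFX hPOQ hSYM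

theorem hHTT : S_HTT := Htt.htt

theorem hRKF : S_RKF := Rkf.rkf

theorem hTGT : S_TGT := Tgt.tgt Pnu.pnu

end Pool.Agent.H467.PU.Finw
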