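import Pool.Agent.H467.PU.Spec2

/-!
# The complete law: the number of the dual classes for the curve

Project PU (helper467), part FULC (helper686).
-/

set_option autoImplicit false
set_option linter.all false

open Finset Filter WithZero WeierstrassCurve WeierstrassCurve.Affine
open Pool.Agent.TH115.GD
open Pool.Agent.H467.PT
open Pool.Agent.H467.GK
open Pool.Agent.H467.CT (AS Bas IsTau Std Ev LV LF cc fr xx)
open Pool.Agent.H467.PG
open scoped Classical

namespace Pool.Agent.H467.PU.Fulc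

theorem mkq_add {K : Type} [Field K] [CharP K 2] (x y : K) : mkq (x + y) = mkq x + mkq y := rfl

theorem mkq_zero {K : Type} [Field K] [CharP K 2] : mkq (0 : K) = 0 := rfl

theorem mkq_surj {K : Type} [Field K] [CharP K 2] (χ : Qc K) : ∃ x : K, mkq x = χ :=
  QuotientAddGroup.mk_surjective χ

theorem add_self {K : Type} [Field K] [CharP K 2] (χ : Qc K) : χ + χ = 0 := by
  obtain ⟨x, rfl⟩ := mkq_surj χ
  rw [← mkq_add, CharTwo.add_self_eq_zero, mkq_zero]

theorem spl_zero {K : Type} [Field K] [CharP K 2] (j : PV K) : Spl j (0 : Qc K) :=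
  ⟨0, mkq_zero, by rw [map_zero]; exact zero_lt_one⟩

/-- The symbol of a local class of the image and of a dual class is trivial. -/
theorem sy_eq_zero (hORT : S_ORT) {K : Type} [Field K] [CharP K 2] (G : GFS K) {a b : K}
    (hb : b ≠ 0) (j : PV K) (α x : K) (hx : x ≠ 0) (hα : mkq α ∈ Wl b j (mkq a))
    (hF : LF (algebraMap K (Cm j.1) (a ^ 2)) (algebraMap K (Cm j.1) (b ^ 2))
      (algebraMap K (Cm j.1) x)) : G.sy j (α * dl G.t x) = 0 := by
  have h1 : LV (algebraMap K (Cm j.1) (a ^ 2)) (algebraMap K (Cm j.1) (b ^ 2))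
      (algebraMap K (Cm j.1) α) := hα α a rfl rfl
  have hb' : algebraMap K (Cm j.1) (b ^ 2) ≠ 0 := by
    rw [Ne, FaithfulSMul.algebraMap_eq_zero_iff]
    exact pow_ne_zero _ hb
  have hx' : algebraMap K (Cm j.1) x ≠ 0 := by
    rw [Ne, FaithfulSMul.algebraMap_eq_zero_iff]
    exact hx
  apply G.nrm j α x hx
  rcases hORT (Cm j.1) _ _ _ _ hb' hx' h1 hF with h | h
  · obtain ⟨c, hc⟩ := h
    have hc0 : c ≠ 0 := by
      rintro rfl
      exact hx' (by rw [hc]; ring)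
    refine ⟨algebraMap K (Cm j.1) α / c, ?_⟩
    rw [hc]
    have e : algebraMap K (Cm j.1) α + c * c * (algebraMap K (Cm j.1) α / c) ^ 2 =
        algebraMap K (Cm j.1) α ^ 2 + algebraMap K (Cm j.1) α := by
      field_simp
      ring
    rw [e]
    exact Pool.Agent.H467.CT.AS_sq _
  · exact h

theorem fulc : S_ORT → S_LWX → S_FULG → S_POQ → S_SYM → S_FULC := by
  intro hORT hLWX hFULG hPOQ hSYM k K _ _ _ _ _ _ hff F a b hb S hS hb1 dm hdm r s hrs hcard
  have hres : ∀ j : PV K, Finite (IsLocalRing.ResidueField j.1.valuationSubring) := by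
    intro j
    apply Nat.finite_of_card_ne_zero
    rw [F.R.resc j]
    exact pow_ne_zero _ (Nat.card_ne_zero.2 ⟨⟨0⟩, inferInstance⟩)
  have hw : ∀ j : PV K, ∃ w : Fin (dm j) → Qc K, j ∈ S →
      ((∀ T : Finset (Fin (dm j)), Spl j (∑ i ∈ T, w i) → T = ∅) ∧
      ∀ α, α ∈ Wl b j (mkq a) ↔ ∃ T : Finset (Fin (dm j)), Spl j (α + ∑ i ∈ T, w i)) := by
    intro j
    by_cases hj : j ∈ S
    · obtain ⟨w, h1, h2⟩ := hdm j hj
      exact ⟨w, fun _ => ⟨h1, h2⟩⟩
    · exact ⟨fun _ => 0, fun h => absurd h hj⟩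
  choose w hw using hw
  have hWD : WD S dm w (fun j => Finset.univ.sup (fun i => poq j (w j i))) :=
    ⟨fun j hj => (hw j hj).1, fun j _ i =>
      Finset.le_sup (f := fun i => poq j (w j i)) (Finset.mem_univ i)⟩
  have hSV : SVW S dm w (mkq a) = SVL S (fun j => Wl b j (mkq a)) (mkq a) := by
    ext α
    constructor
    · rintro ⟨h1, h2⟩
      exact ⟨fun j hj => ((hw j hj).2 α).2 (h1 j hj), h2⟩
    · rintro ⟨h1, h2⟩
      exact ⟨fun j hj => ((hw j hj).2 α).1 (h1 j hj), h2⟩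
  obtain ⟨T, hT, hT'⟩ := hFULG k K F S hS dm w _ (mkq a) hWD r s hrs (by rw [hSV]; exact hcard)
  refine ⟨T, hT, fun x hx hxF => ?_⟩
  have hpr : ∀ (j : PV K) (χ : Qc K), χ ∈ Wl b j (mkq a) → pr F.G j x χ = 0 := by
    intro j χ hχ
    obtain ⟨α, rfl⟩ := mkq_surj χ
    rw [(hSYM K F.G j (hres j)).1 α x hx]
    exact sy_eq_zero hORT F.G hb j α x hx hχ (hxF j.1 j.2)
  apply hT' x hx
  · intro j hj l
    apply hpr
    rw [(hw j hj).2]
    refine ⟨{l}, ?_⟩
    rw [Finset.sum_singleton, add_self]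
    exact spl_zero j
  · intro j hj
    obtain ⟨-, -, l3, l4, -⟩ := hLWX K j (hres j) b hb
    refine ⟨fun h0 => ?_, fun _ => hpr j _ (l3 (mkq a))⟩
    by_contra hEv
    obtain ⟨p1, p2, -, -, p5, -, -, -, -, p10⟩ := hPOQ K j
    obtain ⟨-, -, y, hy1, hy2⟩ := p10 (hres j)
    have hy3 : poq j (mkq y) = 0 := (p5 _).2 ⟨y, rfl, hy1⟩
    have hy4 : ¬ Spl j (mkq y) := fun h => hy2 ((p2 y).2 h)
    have hmem : mkq y ∈ Wl b j (mkq a) :=
      ((l4 a (Or.inl (hb1 j hj))).2 _).2 ⟨fun _ => hy3, fun h => absurd h0 h⟩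
    have e1 := hpr j _ hmem
    have e2 := (hSYM K F.G j (hres j)).2.2.2.2.2.2.1 (mkq y) x hx hy3 hy4 hEv
    rw [e1] at e2
    exact absurd e2 (by decide)

end Pool.Agent.H467.PU.Fulc
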