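import Pool.Agent.H467.PU.Spec2
import Pool.Agent.H467.PG.Ful

/-!
The number of the dual classes (helper122 for helper467): the classes `x` are products of the
elements of a basis, with the exponents in the left kernel, up to squares. Compare `PG/Ful.lean`.
-/

set_option autoImplicit false
set_option linter.all false

open Finset Filter WithZero WeierstrassCurve WeierstrassCurve.Affine
open Pool.Agent.TH115.GD
open Pool.Agent.H467.PT
open Pool.Agent.H467.GK
open Pool.Agent.H467.CT (AS Bas IsTau Std Ev LV LF cc)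
open Pool.Agent.H467.PG
open scoped Classical

namespace Pool.Agent.H467.PU.Fulg

open Pool.Agent.H467.PG.Ful (zmod_cases row_sum)

section

variable {K : Type} [Field K] [CharP K 2] (G : GFS K) (j : PV K) (χ : Qc K)

theorem pr_one (hS : S_SYM) (hfin : Finite (IsLocalRing.ResidueField j.1.valuationSubring)) :
    pr G j 1 χ = 0 := by
  have := (hS K G j hfin).2.2.2.1 χ 1
  rwa [one_pow] at this

theorem pr_pow (hS : S_SYM) (hfin : Finite (IsLocalRing.ResidueField j.1.valuationSubring))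
    (x : K) (e : ZMod 2) : pr G j (x ^ e.val) χ = e * pr G j x χ := by
  rcases zmod_cases e with h | h
  · subst h
    rw [ZMod.val_zero, pow_zero, zero_mul]
    exact pr_one G j χ hS hfin
  · subst h
    have : (1 : ZMod 2).val = 1 := rfl
    rw [this, pow_one, one_mul]

theorem pr_prod (hS : S_SYM) (hfin : Finite (IsLocalRing.ResidueField j.1.valuationSubring))
    {ι : Type} (s : Finset ι) (f : ι → K) (hf : ∀ i ∈ s, f i ≠ 0) :
    pr G j (∏ i ∈ s, f i) χ = ∑ i ∈ s, pr G j (f i) χ := by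
  induction s using Finset.induction_on with
  | empty =>
    rw [Finset.prod_empty, Finset.sum_empty]
    exact pr_one G j χ hS hfin
  | insert a s ha ih =>
    rw [Finset.prod_insert ha, Finset.sum_insert ha,
      (hS K G j hfin).2.2.1 χ _ _ (hf a (Finset.mem_insert_self a s))
        (Finset.prod_ne_zero_iff.2 fun i hi => hf i (Finset.mem_insert_of_mem hi)),
      ih fun i hi => hf i (Finset.mem_insert_of_mem hi)]

end

/-- The row vector of an element in the span of the basis, for the symbols. -/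
theorem row_pr {k K : Type} [Field k] [Field K] [CharP K 2] [Algebra k K] {F : GF k K}
    {B : Finset (PV K)} (hS : S_SYM) (bd : BD F B) (U V : Finset (Ob B)) (hVU : V ⊆ U)
    (e : Fin bd.n → ZMod 2) (y : K) (hy : y ≠ 0) (χ : Qc K) (j : PV K)
    (hfin : Finite (IsLocalRing.ResidueField j.1.valuationSubring)) :
    ∑ i, (Sum.elim e (fun P : U => if P.1 ∈ V then (1 : ZMod 2) else 0) i) *
      pr F.G j (ro bd U i) χ = pr F.G j (pd bd.u bd.g V e * y ^ 2) χ := by
  have hV : ∏ P ∈ V, bd.g P ≠ 0 := Finset.prod_ne_zero_iff.2 fun i _ => bd.gne i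
  have hu : ∏ i, bd.u i ^ (e i).val ≠ 0 :=
    Finset.prod_ne_zero_iff.2 fun i _ => pow_ne_zero _ (bd.une i)
  have h1 : pr F.G j (pd bd.u bd.g V e * y ^ 2) χ =
      ∑ P ∈ V, pr F.G j (bd.g P) χ + ∑ i, e i * pr F.G j (bd.u i) χ := by
    unfold pd
    rw [(hS K F.G j hfin).2.2.1 χ _ _ (mul_ne_zero hV hu) (pow_ne_zero 2 hy),
      (hS K F.G j hfin).2.2.2.1 χ y, add_zero, (hS K F.G j hfin).2.2.1 χ _ _ hV hu,
      pr_prod F.G j χ hS hfin V bd.g (fun i _ => bd.gne i),
      pr_prod F.G j χ hS hfin Finset.univ (fun i => bd.u i ^ (e i).val)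
        (fun i _ => pow_ne_zero _ (bd.une i))]
    congr 1
    exact Finset.sum_congr rfl fun i _ => pr_pow F.G j χ hS hfin (bd.u i) (e i)
  rw [h1, Fintype.sum_sum_type, add_comm]
  congr 1
  · show ∑ P : U, (if P.1 ∈ V then (1 : ZMod 2) else 0) * pr F.G j (bd.g P.1) χ = _
    rw [Finset.sum_coe_sort U (fun P => (if P ∈ V then (1 : ZMod 2) else 0) *
      pr F.G j (bd.g P) χ)]
    simp only [ite_mul, one_mul, zero_mul]
    rw [Finset.sum_ite_mem, Finset.inter_eq_right.2 hVU]

/-- The product attached to a vector. -/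
theorem prod_pd {k K : Type} [Field k] [Field K] [CharP K 2] [Algebra k K] {F : GF k K}
    {B : Finset (PV K)} (bd : BD F B) (U V : Finset (Ob B)) (hVU : V ⊆ U)
    (e : Fin bd.n → ZMod 2) :
    ∏ i, (ro bd U i) ^ (Sum.elim e (fun P : U => if P.1 ∈ V then (1 : ZMod 2) else 0) i).val =
      pd bd.u bd.g V e := by
  rw [Fintype.prod_sum_type, mul_comm]
  unfold pd
  congr 1
  · show ∏ P : U, (bd.g P.1) ^ (if P.1 ∈ V then (1 : ZMod 2) else 0).val = _
    rw [Finset.prod_coe_sort U (fun P => (bd.g P) ^ (if P ∈ V then (1 : ZMod 2) else 0).val)]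
    have h1 : ∀ P ∈ U, (bd.g P) ^ (if P ∈ V then (1 : ZMod 2) else 0).val =
        if P ∈ V then bd.g P else 1 := by
      intro P _
      by_cases h : P ∈ V
      · rw [if_pos h, if_pos h]
        have : (1 : ZMod 2).val = 1 := rfl
        rw [this, pow_one]
      · rw [if_neg h, if_neg h, ZMod.val_zero, pow_zero]
    rw [Finset.prod_congr rfl h1, Finset.prod_ite_mem, Finset.inter_eq_right.2 hVU]

theorem fulg (hSVMW : S_SVMW) (hBDE : S_BDE) (hHSD : S_HSD) (hPOQ : S_POQ) (hSYM : S_SYM) :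
    S_FULG := by
  intro k K _ _ _ _ _ F S hBS d w m₀ χ hWD r s hrs hcard
  have hfin : ∀ j : PV K, Finite (IsLocalRing.ResidueField j.1.valuationSubring) := by
    intro j
    apply Nat.finite_of_card_ne_zero
    rw [F.R.resc j]
    exact pow_ne_zero _ Nat.card_pos.ne'
  obtain ⟨bd⟩ := hBDE k K F S hBS
  obtain ⟨D, hD⟩ := hHSD k K F.R S χ
  obtain ⟨U, hU⟩ : ∃ U : Finset (Ob S), U = D.support := ⟨_, rfl⟩
  have hUj : ∀ j : Ob S, j ∉ U → poq j.1 χ = 0 := by
    intro j hj
    have h1 : D j = 0 := by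
      rw [hU] at hj
      exact Finsupp.notMem_support_iff.1 hj
    have h2 := hD j
    rw [h1] at h2
    omega
  obtain ⟨-, hLK⟩ := hSVMW k K F S bd U d w m₀ χ hWD hUj
  rw [hcard] at hLK
  have hLKr : (LKW bd U d w χ).ncard = 2 ^ r := by
    have h1 : 2 ^ (s + 1) * 2 ^ S.card = 2 * 2 ^ r * 2 ^ (∑ j ∈ S, d j) := by
      rw [← pow_add, ← pow_succ', ← pow_add]
      congr 1
      omega
    rw [h1] at hLK
    have h2 : 0 < 2 ^ (∑ j ∈ S, d j) := Nat.two_pow_pos _
    have h3 := Nat.eq_of_mul_eq_mul_right h2 hLK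
    omega
  have hLf : (LKW bd U d w χ).Finite := Set.toFinite _
  refine ⟨hLf.toFinset.image (fun e => ∏ i, (ro bd U i) ^ (e i).val), ?_, ?_⟩
  · refine Finset.card_image_le.trans ?_
    rw [← hLKr, Set.ncard_eq_toFinset_card _ hLf]
  · intro x hx hxw hcond
    have hev : ∀ j : Ob S, j ∉ U → Ev (j.1.1 x) := fun j hj =>
      (hcond j.1 j.2).1 (hUj j hj)
    obtain ⟨V, hVU, e, y, hy, hde⟩ := bd.gen U x hx hev
    have hcol : ∀ j : Ob S, tt F.G j.1 x χ = 0 := by
      intro j
      unfold tt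
      by_cases h : poq j.1 χ = 0
      · rw [if_pos h, if_pos ((hcond j.1 j.2).1 h)]
      · rw [if_neg h]
        exact (hcond j.1 j.2).2 h
    have hmem : (Sum.elim e (fun P : U => if P.1 ∈ V then (1 : ZMod 2) else 0)) ∈
        LKW bd U d w χ := by
      constructor
      · intro j hj l
        rw [row_pr hSYM bd U V hVU e y hy (w j l) j (hfin j), ← hde]
        exact hxw j hj l
      · intro j _
        rw [row_sum hSYM bd U V hVU e y hy χ j.1 (hfin j.1), ← hde]
        exact hcol j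
    refine ⟨pd bd.u bd.g V e, ?_, y, hy, hde⟩
    rw [Finset.mem_image]
    exact ⟨_, hLf.mem_toFinset.2 hmem, prod_pd bd U V hVU e⟩

end Pool.Agent.H467.PU.Fulg
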