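import Pool.Agent.H467.PU.Spec
import Pool.Agent.H467.PG.Ful

/-!
Trivial dual Selmer group (helper984 for helper467), after `PG/Ful.lean` of helper685.
-/

set_option autoImplicit false
set_option linter.all false

open Finset Filter WithZero
open Pool.Agent.TH115.GD
open Pool.Agent.H467.PT
open Pool.Agent.H467.GK
open Pool.Agent.H467.CT (AS Bas IsTau Std Ev LV LF cc)
open Pool.Agent.H467.PG
open scoped Classical

namespace Pool.Agent.H467.PU.Fulw

section gen

variable {K : Type} [Field K] (f : K → ZMod 2)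

theorem f_one (hsq : ∀ y : K, y ≠ 0 → f (y ^ 2) = 0) : f 1 = 0 := by
  have := hsq 1 one_ne_zero
  rwa [one_pow] at this

theorem f_pow (hsq : ∀ y : K, y ≠ 0 → f (y ^ 2) = 0) (x : K) (e : ZMod 2) :
    f (x ^ e.val) = e * f x := by
  rcases Pool.Agent.H467.PG.Ful.zmod_cases e with h | h
  · subst h
    rw [ZMod.val_zero, pow_zero, zero_mul]
    exact f_one f hsq
  · subst h
    have : (1 : ZMod 2).val = 1 := rfl
    rw [this, pow_one, one_mul]

theorem f_prod (hmul : ∀ d d' : K, d ≠ 0 → d' ≠ 0 → f (d * d') = f d + f d')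
    (hsq : ∀ y : K, y ≠ 0 → f (y ^ 2) = 0) {ι : Type} (s : Finset ι) (g : ι → K)
    (hg : ∀ i ∈ s, g i ≠ 0) : f (∏ i ∈ s, g i) = ∑ i ∈ s, f (g i) := by
  induction s using Finset.induction_on with
  | empty =>
    rw [Finset.prod_empty, Finset.sum_empty]
    exact f_one f hsq
  | insert a s ha ih =>
    rw [Finset.prod_insert ha, Finset.sum_insert ha,
      hmul _ _ (hg a (Finset.mem_insert_self a s))
        (Finset.prod_ne_zero_iff.2 fun i hi => hg i (Finset.mem_insert_of_mem hi)),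
      ih fun i hi => hg i (Finset.mem_insert_of_mem hi)]

end gen

/-- The row vector of an element in the span of the basis. -/
theorem row_sum {k K : Type} [Field k] [Field K] [CharP K 2] [Algebra k K] {F : GF k K}
    {B : Finset (PV K)} (bd : BD F B) (U V : Finset (Ob B)) (hVU : V ⊆ U)
    (e : Fin bd.n → ZMod 2) (y : K) (hy : y ≠ 0) (f : K → ZMod 2)
    (hmul : ∀ d d' : K, d ≠ 0 → d' ≠ 0 → f (d * d') = f d + f d')
    (hsq : ∀ y : K, y ≠ 0 → f (y ^ 2) = 0) :
    ∑ i, (Sum.elim e (fun P : U => if P.1 ∈ V then (1 : ZMod 2) else 0) i) *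
      f (ro bd U i) = f (pd bd.u bd.g V e * y ^ 2) := by
  have hV : ∏ P ∈ V, bd.g P ≠ 0 := Finset.prod_ne_zero_iff.2 fun i _ => bd.gne i
  have hu : ∏ i, bd.u i ^ (e i).val ≠ 0 :=
    Finset.prod_ne_zero_iff.2 fun i _ => pow_ne_zero _ (bd.une i)
  have h1 : f (pd bd.u bd.g V e * y ^ 2) =
      ∑ P ∈ V, f (bd.g P) + ∑ i, e i * f (bd.u i) := by
    unfold pd
    rw [hmul _ _ (mul_ne_zero hV hu) (pow_ne_zero 2 hy), hsq y hy, add_zero, hmul _ _ hV hu,
      f_prod f hmul hsq V bd.g (fun i _ => bd.gne i),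
      f_prod f hmul hsq Finset.univ (fun i => bd.u i ^ (e i).val)
        (fun i _ => pow_ne_zero _ (bd.une i))]
    congr 1
    exact Finset.sum_congr rfl fun i _ => f_pow f hsq (bd.u i) (e i)
  rw [h1, Fintype.sum_sum_type, add_comm]
  congr 1
  · show ∑ P : U, (if P.1 ∈ V then (1 : ZMod 2) else 0) * f (bd.g P.1) = _
    rw [Finset.sum_coe_sort U (fun P => (if P ∈ V then (1 : ZMod 2) else 0) * f (bd.g P))]
    simp only [ite_mul, one_mul, zero_mul]
    rw [Finset.sum_ite_mem, Finset.inter_eq_right.2 hVU]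

theorem fulw (hSVM : S_SVMW) (hBDE : S_BDE) (hHSD : S_HSD) (_hPOQ : S_POQ) (hSYM : S_SYM) :
    S_FULW := by
  intro k K _ _ _ _ _ F S hS d w m₀ χ hWD hsum hcard x hx hcondS hcond
  have hfin : ∀ j : PV K, Finite (IsLocalRing.ResidueField j.1.valuationSubring) := by
    intro j
    apply Nat.finite_of_card_ne_zero
    rw [F.R.resc j]
    exact pow_ne_zero _ Nat.card_pos.ne'
  obtain ⟨bd⟩ := hBDE k K F S hS
  obtain ⟨D, hD⟩ := hHSD k K F.R S χ
  obtain ⟨U, hU⟩ : ∃ U : Finset (Ob S), U = D.support := ⟨_, rfl⟩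
  have hUj : ∀ j : Ob S, j ∉ U → poq j.1 χ = 0 := by
    intro j hj
    have h1 : D j = 0 := by
      rw [hU] at hj
      exact Finsupp.notMem_support_iff.1 hj
    have h2 := hD j
    rw [h1] at h2
    omega
  obtain ⟨-, hLK⟩ := hSVM k K F S bd U d w m₀ χ hWD hUj
  rw [hcard, hsum] at hLK
  have hLK1 : (LKW bd U d w χ).ncard = 1 := by
    have h2 : 0 < 2 ^ S.card := pow_pos (by norm_num) _
    have h3 := Nat.eq_of_mul_eq_mul_right h2 hLK
    omega
  obtain ⟨z, hz⟩ := Set.ncard_eq_one.1 hLK1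
  have h0 : (0 : Fin bd.n ⊕ U → ZMod 2) ∈ LKW bd U d w χ := by
    constructor
    · intro j _ l
      simp
    · intro j _
      simp
  have hz0 : z = 0 := by
    rw [hz] at h0
    exact (Set.mem_singleton_iff.1 h0).symm
  have hev : ∀ j : Ob S, j ∉ U → Ev (j.1.1 x) := fun j hj => (hcond j.1 j.2).1 (hUj j hj)
  obtain ⟨V, hVU, e, y, hy, hde⟩ := bd.gen U x hx hev
  have hcol : ∀ j : Ob S, tt F.G j.1 x χ = 0 := by
    intro j
    unfold tt
    by_cases h : poq j.1 χ = 0
    · rw [if_pos h, if_pos ((hcond j.1 j.2).1 h)]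
    · rw [if_neg h]
      exact (hcond j.1 j.2).2 h
  have hmem : (Sum.elim e (fun P : U => if P.1 ∈ V then (1 : ZMod 2) else 0)) ∈
      LKW bd U d w χ := by
    constructor
    · intro j hj l
      rw [row_sum bd U V hVU e y hy (fun a => pr F.G j a (w j l))
        (fun a b ha hb => (hSYM K F.G j (hfin j)).2.2.1 (w j l) a b ha hb)
        (fun a _ => (hSYM K F.G j (hfin j)).2.2.2.1 (w j l) a), ← hde]
      exact hcondS j hj l
    · intro j _
      rw [row_sum bd U V hVU e y hy (fun a => tt F.G j.1 a χ)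
        (fun a b ha hb => Pool.Agent.H467.PG.Ful.tt_mul F.G j.1 χ hSYM (hfin j.1) ha hb)
        (fun a ha => Pool.Agent.H467.PG.Ful.tt_sq F.G j.1 χ hSYM (hfin j.1) ha), ← hde]
      exact hcol j
  rw [hz, hz0, Set.mem_singleton_iff] at hmem
  have he : e = 0 := by
    funext i
    exact congrFun hmem (Sum.inl i)
  have hV : V = ∅ := by
    rw [Finset.eq_empty_iff_forall_notMem]
    intro P hP
    have h1 := congrFun hmem (Sum.inr ⟨P, hVU hP⟩)
    simp only [Sum.elim_inr, if_pos hP, Pi.zero_apply] at h1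
    exact one_ne_zero h1
  rw [hde, hV, he]
  unfold pd
  refine ⟨y, ?_⟩
  simp [sq]

end Pool.Agent.H467.PU.Fulw

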