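import Pool.Agent.H467.PU.Spec
import Pool.Agent.H467.PG.Fib

/-!
# PU LAPW: application of the theorem on rectangular random matrices (helper898, after PG.Fib)
-/

set_option autoImplicit false
set_option linter.all false

open Finset Filter WithZero
open Pool.Agent.H467.PT
open Pool.Agent.H467.GK
open Pool.Agent.H467.CT (AS Bas Ev)
open Pool.Agent.H467.PG
open Pool.Agent.H467.PG.Fib
open scoped Classical

namespace Pool.Agent.H467.PU.Lapw

theorem card_sig {α : Type} (B : Finset α) (d : α → ℕ) :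
    Fintype.card (Σ j : {j // j ∈ B}, Fin (d j.1)) = ∑ j ∈ B, d j := by
  rw [Fintype.card_sigma, ← Finset.sum_coe_sort B]
  exact Finset.sum_congr rfl fun j _ => Fintype.card_fin _

theorem pow_aux' (n s m w D : ℕ) :
    (1 / 2 : ℝ) ^ (n + (s + m)) * 2 ^ (D + s + w) =
      ((1 / 2) ^ m * 2 ^ (1 + w)) * (2 ^ D * (1 / 2) ^ (n + 1)) := by
  have h2 : ∀ a : ℕ, (1 / 2 : ℝ) ^ a * 2 ^ a = 1 := by
    intro a
    rw [← mul_pow]
    norm_num
  rw [pow_add _ n (s + m), pow_add _ s m, pow_add _ (D + s) w, pow_add _ D s, pow_add _ 1 w,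
    pow_add _ n 1, pow_one, pow_one]
  calc (1 / 2 : ℝ) ^ n * ((1 / 2) ^ s * (1 / 2) ^ m) * (2 ^ D * 2 ^ s * 2 ^ w) =
      ((1 / 2 : ℝ) ^ s * 2 ^ s) * ((1 / 2) ^ n * (1 / 2) ^ m * 2 ^ D * 2 ^ w) := by ring
    _ = (1 / 2) ^ n * (1 / 2) ^ m * 2 ^ D * 2 ^ w := by rw [h2 s, one_mul]
    _ = _ := by ring

set_option maxHeartbeats 4000000 in
theorem lapw : S_LINGU → S_JINW → S_DIR → S_LDG → S_POQ → S_SYM → S_LAPW := by
  intro hLING hJIN hDIR hLDG hPOQ hSYM k K _ _ _ _ _ F B bd U d w m₀ L C₀ C₁ θ χ₁ hWD hC hL hAfin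
    hgood hdet v₀ Z rk hv0U hv0L hv0Z hZU hZc hZY hrkinj hrkZ hrkv0 hsum hfree r
  have hS := fun j => hSYM K F.G j (finres F.R j)
  let A := AJs hPOQ F.R B U L
  haveI hfinA : Finite A := hAfin.to_subtype
  letI : Fintype A := Fintype.ofFinite A
  let α := Σ j : {j // j ∈ B}, Fin (d j.1)
  let κ := α ⊕ {p // p ∈ U.erase v₀}
  let ρ := Fin bd.n ⊕ {p // p ∈ U}
  let X : A → κ → ρ → ZMod 2 := fun a j i =>
    Sum.elim (fun b => pr F.G b.1.1 (ro bd U i) (w b.1.1 b.2)) (fun p => if F.R.deg p.1.1 ≤ L then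
      tt F.G p.1.1 (ro bd U i) χ₁ else pr F.G p.1.1 (ro bd U i) (χ₁ + a.1)) j
  let Y : A → κ → ρ → ZMod 2 := fun a j i =>
    Sum.elim (fun _ => 0) (fun p => if F.R.deg p.1.1 ≤ L then 0 else
      pr F.G p.1.1 (ro bd U i) a.1) j
  let J : Finset κ := univ.filter (fun l : κ =>
    Sum.elim (fun _ => True) (fun p => F.R.deg p.1.1 ≤ L) l)
  let Z' : Finset κ := univ.filter (fun l : κ => Sum.elim (fun _ => False) (fun p => p.1 ∈ Z) l)
  let rk' : κ → ℕ := Sum.elim (fun _ => 0) (fun p => rk p.1)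
  let R : κ → Finset ρ := fun j => univ.filter (fun i : ρ => Sum.elim (fun _ => True)
    (fun P => F.R.deg P.1.1 ≤ Yf (Sum.elim (fun _ => 0) (fun p => F.R.deg p.1.1) j)) i)
  have hJl : ∀ b, Sum.inl b ∈ J := fun b => Finset.mem_filter.2 ⟨Finset.mem_univ _, trivial⟩
  have hJr : ∀ p, Sum.inr p ∈ J ↔ F.R.deg p.1.1 ≤ L := fun p =>
    ⟨fun h => (Finset.mem_filter.1 h).2, fun h => Finset.mem_filter.2 ⟨Finset.mem_univ _, h⟩⟩
  have hZl : ∀ b, Sum.inl b ∉ Z' := fun b h => (Finset.mem_filter.1 h).2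
  have hZr : ∀ p, Sum.inr p ∈ Z' ↔ p.1 ∈ Z := fun p =>
    ⟨fun h => (Finset.mem_filter.1 h).2, fun h => Finset.mem_filter.2 ⟨Finset.mem_univ _, h⟩⟩
  have hpU : ∀ p : {p // p ∈ U.erase v₀}, p.1 ∈ U := fun p => Finset.mem_of_mem_erase p.2
  have hpv : ∀ p : {p // p ∈ U.erase v₀}, p.1 ≠ v₀ := fun p => Finset.ne_of_mem_erase p.2
  have hJc : J.card = ∑ j ∈ B, d j + (U.filter (fun p => F.R.deg p.1 ≤ L)).card := by
    have := card_inl (α := α) U v₀ (fun p => F.R.deg p.1 ≤ L) (not_le.2 hv0L)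
    rw [card_sig] at this
    exact this
  have hcard : Fintype.card κ + C₁ = Fintype.card ρ + C₀ := by
    rw [Fintype.card_sum, Fintype.card_sum, card_sig, Fintype.card_coe, Fintype.card_coe,
      Fintype.card_fin, Finset.card_erase_of_mem hv0U]
    have h1 := bd.hn
    have h2 : 0 < U.card := Finset.card_pos.2 ⟨v₀, hv0U⟩
    omega
  have hX : ∀ a a' j i, X (a + a') j i = X a j i + Y a' j i := by
    intro a a' j i
    rcases j with b | p
    · change pr F.G b.1.1 (ro bd U i) (w b.1.1 b.2) = pr F.G b.1.1 (ro bd U i) (w b.1.1 b.2) + 0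
      rw [add_zero]
    · change (if F.R.deg p.1.1 ≤ L then tt F.G p.1.1 (ro bd U i) χ₁ else
        pr F.G p.1.1 (ro bd U i) (χ₁ + (a.1 + a'.1))) = (if F.R.deg p.1.1 ≤ L then
        tt F.G p.1.1 (ro bd U i) χ₁ else pr F.G p.1.1 (ro bd U i) (χ₁ + a.1)) +
        if F.R.deg p.1.1 ≤ L then 0 else pr F.G p.1.1 (ro bd U i) a'.1
      split_ifs with h
      · rw [add_zero]
      · rw [← add_assoc]
        exact (hS p.1.1).2.1 _ _ _ (ro_ne bd U i)
  have hY : ∀ a a' j i, Y (a + a') j i = Y a j i + Y a' j i := by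
    intro a a' j i
    rcases j with b | p
    · change (0 : ZMod 2) = 0 + 0
      rw [add_zero]
    · change (if F.R.deg p.1.1 ≤ L then 0 else pr F.G p.1.1 (ro bd U i) (a.1 + a'.1)) =
        (if F.R.deg p.1.1 ≤ L then 0 else pr F.G p.1.1 (ro bd U i) a.1) +
        if F.R.deg p.1.1 ≤ L then 0 else pr F.G p.1.1 (ro bd U i) a'.1
      split_ifs with h
      · rw [add_zero]
      · exact (hS p.1.1).2.1 _ _ _ (ro_ne bd U i)
  have hdisj : Disjoint J Z' := by
    rw [Finset.disjoint_left]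
    rintro (b | p) h1 h2
    · exact hZl b h2
    · have h3 := (Finset.mem_filter.1 (hZU ((hZr p).1 h2))).2
      exact absurd ((hJr p).1 h1) (not_le.2 h3)
  have hZc' : Z'.card = C₀ := by
    rw [← hZc]
    refine (card_inr (α := α) U v₀ (fun p => p ∈ Z) hv0Z).trans
      (congrArg Finset.card ?_)
    ext p
    rw [Finset.mem_filter]
    exact ⟨fun h => h.2, fun h => ⟨(Finset.mem_filter.1 (hZU h)).1, h⟩⟩
  have hinj : ∀ i j, i ∉ J → j ∉ J → rk' i = rk' j → i = j := by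
    rintro (b | p) (b' | p') h1 h2 h3
    · exact absurd (hJl b) h1
    · exact absurd (hJl b) h1
    · exact absurd (hJl b') h2
    · rw [hJr, not_le] at h1 h2
      have := hrkinj p.1 (Finset.mem_filter.2 ⟨hpU p, h1⟩) p'.1
        (Finset.mem_filter.2 ⟨hpU p', h2⟩) h3
      exact congrArg Sum.inr (Subtype.ext this)
  have hlast : ∀ j, j ∉ J → j ∉ Z' → ∀ z ∈ Z', rk' j < rk' z := by
    rintro (b | p) h1 h2 (b' | p') h3
    · exact absurd (hJl b) h1
    · exact absurd (hJl b) h1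
    · exact absurd h3 (hZl b')
    · rw [hJr, not_le] at h1
      rw [hZr] at h2 h3
      exact hrkZ p.1 (hpU p) h1 h2 (hpv p) p'.1 h3
  have hYJ : ∀ a, ∀ j ∈ J, ∀ i, Y a j i = 0 := by
    rintro a (b | p) h i
    · rfl
    · exact if_pos ((hJr p).1 h)
  have hJin : ∀ ε : κ → ZMod 2, (∀ j, j ∉ J → ε j = 0) →
      (∀ i, ∑ j, ε j * X 0 j i = 0) → ε = 0 := by
    intro ε hε hs
    let ε1 : ∀ j : PV K, Fin (d j) → ZMod 2 := fun j l =>
      if h : j ∈ B then ε (Sum.inl ⟨⟨j, h⟩, l⟩) else 0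
    let ε2 : Ob B → ZMod 2 := fun p => if h : p ∈ U.erase v₀ then ε (Sum.inr ⟨p, h⟩) else 0
    have e1 : ∀ b : α, ε1 b.1.1 b.2 = ε (Sum.inl b) := fun b => dif_pos b.1.2
    have e2 : ∀ p : {p // p ∈ U.erase v₀}, ε2 p.1 = ε (Sum.inr p) := fun p => dif_pos p.2
    obtain ⟨g1, g2⟩ := hJIN k K F B bd U (U.filter (fun p => F.R.deg p.1 ≤ L)) d w m₀ χ₁ hWD
      (Finset.filter_subset _ _) (by
        intro α hα h1 h2 h3
        obtain ⟨p, hp, hpL, hps⟩ := hdet α hα h1
          (fun j hj hjL => h2 j (Finset.mem_filter.2 ⟨hj, hjL⟩))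
          (fun j hj => h3 j (fun h => hj (Finset.mem_filter.1 h)))
        exact ⟨p, hp, fun h => absurd (Finset.mem_filter.1 h).2 (not_le.2 hpL), hps⟩) ε1 ε2 (by
        intro i
        rw [← hs i, Fintype.sum_sum_type]
        refine congrArg₂ _ ?_ ?_
        · rw [← Finset.sum_coe_sort B, Fintype.sum_sigma]
          refine Finset.sum_congr rfl fun b _ => Finset.sum_congr rfl fun l _ => ?_
          exact congrArg (fun x => x * pr F.G b.1 (ro bd U i) (w b.1 l)) (e1 ⟨b, l⟩)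
        · have h1 : ∀ p : {p // p ∈ U.erase v₀}, ε (Sum.inr p) * X 0 (Sum.inr p) i =
              (fun p : Ob B => ε2 p * tt F.G p.1 (ro bd U i) χ₁) p.1 := by
            intro p
            simp only [e2]
            by_cases hp : F.R.deg p.1.1 ≤ L
            · have : X 0 (Sum.inr p) i = tt F.G p.1.1 (ro bd U i) χ₁ := if_pos hp
              rw [this]
            · rw [hε (Sum.inr p) (fun h => hp ((hJr p).1 h)), zero_mul, zero_mul]
          rw [Finset.sum_congr rfl fun p _ => h1 p, Finset.sum_coe_sort (U.erase v₀)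
            (fun p : Ob B => ε2 p * tt F.G p.1 (ro bd U i) χ₁)]
          apply Finset.sum_subset
          · intro p hp
            obtain ⟨h2, h3⟩ := Finset.mem_filter.1 hp
            exact Finset.mem_erase.2 ⟨by rintro rfl; exact absurd h3 (not_le.2 hv0L), h2⟩
          · intro p hp hp2
            have h3 : ¬ F.R.deg p.1 ≤ L := fun h =>
              hp2 (Finset.mem_filter.2 ⟨Finset.mem_of_mem_erase hp, h⟩)
            have h4 : ε2 p = 0 := by
              have := e2 ⟨p, hp⟩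
              rw [this]
              exact hε _ (fun h => h3 ((hJr ⟨p, hp⟩).1 h))
            rw [h4, zero_mul])
    funext j
    rcases j with b | p
    · rw [← e1]
      exact g1 b.1.1 b.1.2 b.2
    · by_cases hp : F.R.deg p.1.1 ≤ L
      · rw [← e2]
        exact g2 p.1 (Finset.mem_filter.2 ⟨hpU p, hp⟩)
      · exact hε _ (fun h => hp ((hJr p).1 h))
  have hsurj : ∀ j, j ∉ J → ∀ y : ρ → ZMod 2, ∃ a, (∀ l, l ≠ j → ∀ i, Y a l i = 0) ∧
      ∀ i ∈ R j, Y a j i = y i := by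
    rintro (b | p) hj y
    · exact absurd (hJl b) hj
    · rw [hJr, not_le] at hj
      obtain ⟨δ, hδ, h1, h2⟩ := surj hDIR hLDG hPOQ hSYM bd U L θ hgood v₀ hv0U hv0L hfree p.1
        (hpU p) hj (hpv p) y
      refine ⟨⟨δ, hδ⟩, ?_, ?_⟩
      · rintro (b | q) hne i
        · rfl
        · by_cases hq : F.R.deg q.1.1 ≤ L
          · exact if_pos hq
          · have h3 : q.1 ≠ p.1 := fun h => hne (congrArg Sum.inr (Subtype.ext h))
            exact (if_neg hq).trans ((hS q.1.1).2.2.2.2.1 _ _ (ro_ne bd U i)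
              (h1 q.1 (hpU q) h3 (hpv q)))
      · intro i hi
        exact (if_neg (not_le.2 hj)).trans (h2 i (Finset.mem_filter.1 hi).2)
  have hRZ : ∀ z ∈ Z', R z = Finset.univ := by
    rintro (b | p) hz
    · exact absurd hz (hZl b)
    · rw [hZr] at hz
      ext i
      refine ⟨fun _ => Finset.mem_univ _, fun _ => Finset.mem_filter.2 ⟨Finset.mem_univ _, ?_⟩⟩
      rcases i with i | P
      · trivial
      · change (sysB F.R B).deg P.1 ≤ Yf (F.R.deg p.1.1)
        exact (Finset.single_le_sum (f := (sysB F.R B).deg) (fun i _ => Nat.zero_le _)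
          P.2).trans (hZY p.1 hz)
  have hσ : ∑ j ∈ U.filter (fun p => L < F.R.deg p.1 ∧ p ∉ Z ∧ p ≠ v₀),
      ((1 / 2 : ℝ) ^ ((U.filter (fun p => L < F.R.deg p.1 ∧
        F.R.deg p.1 ≤ Yf (F.R.deg j.1))).card) *
        2 ^ (1 + (U.filter (fun p => L < F.R.deg p.1 ∧ rk p < rk j)).card)) *
          (2 ^ (∑ j ∈ B, d j) * (1 / 2) ^ (bd.n + 1)) ≤
        (θ + (1 / 2) ^ C₀) * 2 ^ (∑ j ∈ B, d j) := by
    rw [← Finset.sum_mul]
    set S := ∑ j ∈ U.filter (fun p => L < F.R.deg p.1 ∧ p ∉ Z ∧ p ≠ v₀),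
          ((1 / 2 : ℝ) ^ ((U.filter (fun p => L < F.R.deg p.1 ∧
            F.R.deg p.1 ≤ Yf (F.R.deg j.1))).card) *
            2 ^ (1 + (U.filter (fun p => L < F.R.deg p.1 ∧ rk p < rk j)).card)) with hSd
    have hS0 : 0 ≤ S := Finset.sum_nonneg fun j _ => by positivity
    have h2 : (1 / 2 : ℝ) ^ (bd.n + 1) ≤ 1 := pow_le_one₀ (by norm_num) (by norm_num)
    have h3 : (0 : ℝ) ≤ 2 ^ (∑ j ∈ B, d j) := by positivity
    have h4 : (2 : ℝ) ^ (∑ j ∈ B, d j) * (1 / 2) ^ (bd.n + 1) ≤ 2 ^ (∑ j ∈ B, d j) :=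
      mul_le_of_le_one_right h3 h2
    calc S * (2 ^ (∑ j ∈ B, d j) * (1 / 2) ^ (bd.n + 1)) ≤ S * 2 ^ (∑ j ∈ B, d j) :=
          mul_le_mul_of_nonneg_left h4 hS0
      _ ≤ (θ + (1 / 2) ^ C₀) * 2 ^ (∑ j ∈ B, d j) := mul_le_mul_of_nonneg_right hsum h3
  have hling := hLING A κ ρ C₀ C₁ hcard X Y hX hY J Z' rk' R
    ((θ + (1 / 2) ^ C₀) * 2 ^ (∑ j ∈ B, d j)) hdisj hZc' hinj hlast hYJ hJin hsurj hRZ (by
      refine le_trans (le_of_eq ?_) hσ
      refine sum_inr2 U v₀ _ _ (fun p => L < F.R.deg p.1 ∧ p ∉ Z) _ _ ?_ ?_ ?_ _ _ ?_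
      · exact fun b h => h.1 (hJl b)
      · intro p
        rw [hJr, hZr, not_le]
      · intro p
        exact and_assoc
      · rintro p ⟨hpL, hpZ⟩
        have c1 : (R (Sum.inr p)).card = bd.n + (U.filter (fun P =>
            F.R.deg P.1 ≤ Yf (F.R.deg p.1.1))).card :=
          card_rows bd.n U (fun P => F.R.deg P.1 ≤ Yf (F.R.deg p.1.1))
        have c4 : (U.filter (fun P => F.R.deg P.1 ≤ Yf (F.R.deg p.1.1))).card =
            (U.filter (fun p => F.R.deg p.1 ≤ L)).card + (U.filter (fun q => L < F.R.deg q.1 ∧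
              F.R.deg q.1 ≤ Yf (F.R.deg p.1.1))).card :=
          split_card U (fun q => F.R.deg q.1) L _ (by
            have h5 := le_Yf (F.R.deg p.1.1) (by omega)
            omega)
        rw [hJc, c1, c4]
        rw [card_inr2 U v₀ _ _ (fun q => L < F.R.deg q.1 ∧ rk q < rk p.1) _
          (fun b h => h.1 (hJl b)) (fun q => by rw [hJr, not_le]; exact Iff.rfl)
          (fun h => absurd h.2 (not_lt.2 (hrkv0 p.1 (hpU p) hpL (hpv p)).le))]
        exact pow_aux' bd.n _ _ _ _) r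
  have hcA : (Fintype.card A : ℝ) = ((AJ F.R B U L).ncard : ℝ) := by
    rw [← Nat.card_eq_fintype_card]
    rfl
  have hker : ∀ a : A, {e : ρ → ZMod 2 | ∀ j, ∑ i, e i * X a j i = 0} = KAW bd U L v₀ d w χ₁ a.1 := by
    intro a
    ext e
    constructor
    · intro h
      refine ⟨fun j hj l => h (Sum.inl ⟨⟨j, hj⟩, l⟩), fun j hj hjL => ?_, fun j hj hjL hjv => ?_⟩
      · have hjv : j ≠ v₀ := by
          rintro rfl
          exact absurd hjL (not_le.2 hv0L)
        have h1 := h (Sum.inr ⟨j, Finset.mem_erase.2 ⟨hjv, hj⟩⟩)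
        rw [← h1]
        refine Finset.sum_congr rfl fun i _ => congrArg _ ?_
        exact (if_pos hjL).symm
      · have h1 := h (Sum.inr ⟨j, Finset.mem_erase.2 ⟨hjv, hj⟩⟩)
        rw [← h1]
        refine Finset.sum_congr rfl fun i _ => congrArg _ ?_
        exact (if_neg (not_le.2 hjL)).symm
    · rintro ⟨h1, h2, h3⟩ (b | p)
      · exact h1 b.1.1 b.1.2 b.2
      · by_cases hp : F.R.deg p.1.1 ≤ L
        · rw [← h2 p.1 (hpU p) hp]
          refine Finset.sum_congr rfl fun i _ => congrArg _ ?_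
          exact if_pos hp
        · rw [← h3 p.1 (hpU p) (not_le.1 hp) (hpv p)]
          refine Finset.sum_congr rfl fun i _ => congrArg _ ?_
          exact if_neg hp
  have hN : {a : A | {e : ρ → ZMod 2 | ∀ j, ∑ i, e i * X a j i = 0}.ncard = 2 ^ r}.ncard =
      {a ∈ AJ F.R B U L | (KAW bd U L v₀ d w χ₁ a).ncard = 2 ^ r}.ncard := by
    rw [← Set.ncard_image_of_injective _ (Subtype.val_injective (p := fun x => x ∈ A))]
    refine congrArg Set.ncard ?_
    ext χ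
    constructor
    · rintro ⟨a, ha, rfl⟩
      refine ⟨a.2, ?_⟩
      rw [← hker a]
      exact ha
    · rintro ⟨h1, h2⟩
      refine ⟨⟨χ, h1⟩, ?_, rfl⟩
      change Set.ncard {e : ρ → ZMod 2 | ∀ j, ∑ i, e i * X ⟨χ, h1⟩ j i = 0} = 2 ^ r
      rw [hker ⟨χ, h1⟩]
      exact h2
  rw [hN, hcA] at hling
  exact hling


end Pool.Agent.H467.PU.Lapw
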