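import Pool.Agent.H467.PU.Spec

/-!
# Finite groups of local classes have bases (project PU of helper467), by helper981
-/

set_option autoImplicit false
set_option linter.all false

open Finset WithZero
open Pool.Agent.H467.GK
open Pool.Agent.H467.CT (AS)
open Pool.Agent.H467.PG

namespace Pool.Agent.H467.PU.Lbs

/-! ### The abstract part -/

section abs

variable {A : Type} [AddCommGroup A]

theorem sum_symm (h2 : ∀ a : A, a + a = 0) {n : ℕ} (w : Fin n → A) (T T' : Finset (Fin n)) :
    ∑ i ∈ T, w i + ∑ i ∈ T', w i = ∑ i ∈ symmDiff T T', w i := by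
  classical
  have e : ∀ T : Finset (Fin n), ∑ i ∈ T, w i = ∑ i, if i ∈ T then w i else 0 := by
    intro T
    rw [Finset.sum_ite_mem, Finset.univ_inter]
  rw [e T, e T', e (symmDiff T T'), ← Finset.sum_add_distrib]
  apply Finset.sum_congr rfl
  intro i _
  by_cases h1 : i ∈ T <;> by_cases h3 : i ∈ T' <;> simp [h1, h3, Finset.mem_symmDiff, h2]

theorem abstract_basis (h2 : ∀ a : A, a + a = 0) (S W : Set A) (hS0 : (0 : A) ∈ S)
    (hSa : ∀ a b, a ∈ S → b ∈ S → a + b ∈ S) (hWa : ∀ a b, a ∈ W → b ∈ W → a + b ∈ W)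
    (hSW : ∀ a, a ∈ S → a ∈ W) (F : Finset A) (hF : ∀ a, a ∈ W → ∃ f ∈ F, a + f ∈ S) :
    ∃ n : ℕ, ∃ w : Fin n → A, (∀ T : Finset (Fin n), ∑ i ∈ T, w i ∈ S → T = ∅) ∧
      ∀ a, a ∈ W ↔ ∃ T : Finset (Fin n), a + ∑ i ∈ T, w i ∈ S := by
  classical
  -- sums of elements of `W`
  have hsum : ∀ (n : ℕ) (w : Fin n → A), (∀ i, w i ∈ W) → ∀ T : Finset (Fin n),
      ∑ i ∈ T, w i ∈ W := by
    intro n w hw T
    induction T using Finset.induction_on with
    | empty => rw [Finset.sum_empty]; exact hSW _ hS0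
    | insert i T hi ih => rw [Finset.sum_insert hi]; exact hWa _ _ (hw i) ih
  let N : ℕ → Prop := fun n => ∃ w : Fin n → A, (∀ i, w i ∈ W) ∧
    ∀ T : Finset (Fin n), ∑ i ∈ T, w i ∈ S → T = ∅
  have hN0 : N 0 := by
    refine ⟨fun i => i.elim0, fun i => i.elim0, fun T _ => ?_⟩
    exact Finset.eq_empty_of_isEmpty T
  have hNb : ∀ n, N n → n ≤ F.card := by
    rintro n ⟨w, hw, hind⟩
    choose! g hg1 hg2 using hF
    have hinj : Set.InjOn (fun T : Finset (Fin n) => g (∑ i ∈ T, w i))
        ((Finset.univ : Finset (Finset (Fin n))) : Set (Finset (Fin n))) := by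
      intro T _ T' _ h
      have h' : g (∑ i ∈ T, w i) = g (∑ i ∈ T', w i) := h
      have a1 := hg2 _ (hsum n w hw T)
      have a2 := hg2 _ (hsum n w hw T')
      have a3 := hSa _ _ a1 a2
      rw [h'] at a3
      have a4 : ∑ i ∈ T, w i + g (∑ i ∈ T', w i) + (∑ i ∈ T', w i + g (∑ i ∈ T', w i)) =
          ∑ i ∈ symmDiff T T', w i := by
        rw [← sum_symm h2 w T T', add_add_add_comm, h2 (g _), add_zero]
      rw [a4] at a3
      have a5 := hind _ a3
      exact symmDiff_eq_bot.mp a5
    have hc := Finset.card_le_card_of_injOn (s := (Finset.univ : Finset (Finset (Fin n))))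
      (t := F) (fun T : Finset (Fin n) => g (∑ i ∈ T, w i))
      (fun T _ => hg1 _ (hsum n w hw T)) hinj
    rw [Finset.card_univ, Fintype.card_finset, Fintype.card_fin] at hc
    exact (Nat.lt_two_pow_self (n := n)).le.trans hc
  obtain ⟨n, hn, hmax⟩ : ∃ n, N n ∧ ∀ m, N m → m ≤ n := by
    have hfin : (Set.Finite {n | N n}) := (Set.finite_Iic F.card).subset (fun n hn => hNb n hn)
    obtain ⟨n, hn, hm⟩ := hfin.exists_maximal ⟨0, hN0⟩
    refine ⟨n, hn, fun m hm' => ?_⟩
    by_contra hlt
    push Not at hlt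
    have := hm hm' hlt.le
    omega
  obtain ⟨w, hw, hind⟩ := hn
  refine ⟨n, w, hind, fun a => ⟨fun ha => ?_, ?_⟩⟩
  · by_contra hcon
    push Not at hcon
    have hN1 : N (n + 1) := by
      refine ⟨Fin.cons a w, ?_, ?_⟩
      · intro i
        refine Fin.cases ?_ ?_ i
        · simpa using ha
        · intro i; simpa using hw i
      · intro T hT
        -- the part of `T`
        let T' : Finset (Fin n) := Finset.univ.filter (fun i => i.succ ∈ T)
        have e1 : ∑ i ∈ T, (Fin.cons a w : Fin (n + 1) → A) i =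
            (if (0 : Fin (n + 1)) ∈ T then a else 0) + ∑ i ∈ T', w i := by
          have e2 : ∑ i ∈ T, (Fin.cons a w : Fin (n + 1) → A) i =
              ∑ i, if i ∈ T then (Fin.cons a w : Fin (n + 1) → A) i else 0 := by
            rw [Finset.sum_ite_mem, Finset.univ_inter]
          rw [e2, Fin.sum_univ_succ, Finset.sum_filter]
          simp
        rw [e1] at hT
        by_cases h0 : (0 : Fin (n + 1)) ∈ T
        · rw [if_pos h0] at hT
          exact absurd hT (hcon T')
        · rw [if_neg h0, zero_add] at hT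
          have h3 := hind T' hT
          rw [Finset.eq_empty_iff_forall_notMem]
          intro i
          refine Fin.cases h0 ?_ i
          intro i hi
          have : i ∈ T' := by simp [T', hi]
          rw [h3] at this
          simp at this
    have := hmax _ hN1
    omega
  · rintro ⟨T, hT⟩
    have h1 := hWa _ _ (hSW _ hT) (hsum n w hw T)
    rw [add_assoc, h2, add_zero] at h1
    exact h1

end abs

/-! ### Finiteness -/

theorem reps {K : Type} [Field K] [CharP K 2] (j : PV K)
    (hfin : Finite (IsLocalRing.ResidueField j.1.valuationSubring)) (n : ℕ) :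
    ∃ T : Finset K, ∀ x : K, j.1 x < exp (n : ℤ) → ∃ f ∈ T, j.1 (x + f) < 1 := by
  classical
  set u : Vl K := j.1 with hu
  have : Fintype (IsLocalRing.ResidueField u.valuationSubring) := Fintype.ofFinite _
  have hsurj : Function.Surjective (IsLocalRing.residue u.valuationSubring) :=
    IsLocalRing.residue_surjective
  choose s hs using hsurj
  induction n with
  | zero =>
    refine ⟨{0}, fun x hx => ⟨0, by simp, ?_⟩⟩
    rw [add_zero]
    simpa using hx
  | succ n ih =>
    obtain ⟨T, hT⟩ := ih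
    obtain ⟨t, ht⟩ := j.2 (exp (n : ℤ))
    have ht' : u t = exp (n : ℤ) := ht
    have ht0 : t ≠ 0 := by
      intro h
      rw [h, map_zero] at ht'
      exact absurd ht'.symm exp_ne_zero
    refine ⟨(Finset.univ ×ˢ T).image (fun p : IsLocalRing.ResidueField u.valuationSubring × K =>
      t * (s p.1 : K) + p.2), fun x hx => ?_⟩
    have hx1 : u x ≤ exp (n : ℤ) := by
      by_cases h0 : u x = 0
      · rw [h0]; exact zero_le'
      · rw [← exp_log h0, exp_le_exp]
        rw [← exp_log h0, exp_lt_exp] at hx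
        push_cast at hx
        omega
    have h1 : u (x * t⁻¹) ≤ 1 := by
      rw [map_mul, map_inv₀, ht']
      calc u x * (exp (n : ℤ))⁻¹ ≤ exp (n : ℤ) * (exp (n : ℤ))⁻¹ := mul_le_mul_left hx1 _
        _ = 1 := mul_inv_cancel₀ exp_ne_zero
    let y : u.valuationSubring := ⟨x * t⁻¹, (Valuation.mem_valuationSubring_iff _ _).2 h1⟩
    let c := IsLocalRing.residue u.valuationSubring y
    have h2 : u (x * t⁻¹ + (s c : K)) < 1 := by
      have h3 : IsLocalRing.residue u.valuationSubring (y - s c) = 0 := by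
        rw [map_sub, hs, sub_self]
      rw [IsLocalRing.residue_eq_zero_iff, Valuation.mem_maximalIdeal_iff] at h3
      have h4 : ((y - s c : u.valuationSubring) : K) = x * t⁻¹ + (s c : K) := by
        show x * t⁻¹ - (s c : K) = _
        rw [CharTwo.sub_eq_add]
      rw [h4] at h3
      exact h3
    have h5 : u (x + t * (s c : K)) < exp (n : ℤ) := by
      have e1 : x + t * (s c : K) = t * (x * t⁻¹ + (s c : K)) := by
        field_simp
      rw [e1, map_mul, ht']
      calc exp (n : ℤ) * u (x * t⁻¹ + (s c : K)) < exp (n : ℤ) * 1 :=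
            mul_lt_mul_of_pos_left h2 (zero_lt_iff.mpr exp_ne_zero)
        _ = exp (n : ℤ) := mul_one _
    obtain ⟨f, hf, hf1⟩ := hT _ h5
    refine ⟨t * (s c : K) + f, Finset.mem_image.2 ⟨(c, f), by simp [hf], rfl⟩, ?_⟩
    rw [← add_assoc]
    exact hf1

theorem mkq_add {K : Type} [Field K] [CharP K 2] (a b : K) : mkq (a + b) = mkq a + mkq b := rfl

theorem lbs : S_POQ → S_LBS := by
  classical
  intro hP K _ _ j hfin W hWa hSW hb
  obtain ⟨n, hn⟩ := hb
  obtain ⟨-, -, -, hPle, -, hSa, -, -, -, -⟩ := hP K j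
  obtain ⟨T, hT⟩ := reps j hfin (n + 1)
  have h2 : ∀ a : Qc K, a + a = 0 := by
    intro a
    induction a using QuotientAddGroup.induction_on with
    | H z =>
      show mkq z + mkq z = 0
      rw [← mkq_add, CharTwo.add_self_eq_zero]
      rfl
  obtain ⟨m, w, hw1, hw2⟩ := abstract_basis h2 {α | Spl j α} W
    (show Spl j 0 from ⟨0, rfl, by rw [map_zero]; exact zero_lt_one⟩)
    (fun a b ha hb => hSa a b ha hb) hWa (fun a ha => hSW a ha) (T.image mkq) (by
      intro α hα
      obtain ⟨x, hx, hx1⟩ := (hPle α n).2 (hn α hα)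
      have hx2 : j.1 x < exp (((n + 1 : ℕ)) : ℤ) := by
        refine lt_of_le_of_lt hx1 ?_
        rw [exp_lt_exp]
        push_cast
        omega
      obtain ⟨f, hf, hf1⟩ := hT x hx2
      refine ⟨mkq f, Finset.mem_image_of_mem _ hf, x + f, ?_, hf1⟩
      rw [mkq_add, hx])
  exact ⟨m, w, hw1, hw2⟩

end Pool.Agent.H467.PU.Lbs
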