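import Pool.Agent.H467.PU.Spec
import Pool.Agent.H467.PG.Ling

/-!
# Coranks of rectangular random matrices with independent columns (helper588, after PG/Ling)
-/

set_option autoImplicit false
set_option linter.all false

open Finset
open scoped Classical

namespace Pool.Agent.H467.PU.Lingu

open Pool.Agent.H467.PT.Lin (G F mem_G mem_F F_card G_card G_pos X_shift dc two_self)
open Pool.Agent.H467.PG.Ling (T Bad mem_Bad bad_card indep GZ mem_GZ GZ_pos Y_sum equi)

section
variable {A κ ρ : Type} [AddCommGroup A] [Fintype A] [Fintype κ] [Fintype ρ]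

variable {X Y : A → κ → ρ → ZMod 2}

variable (hX : ∀ a a' j i, X (a + a') j i = X a j i + Y a' j i)
  (hY : ∀ a a' j i, Y (a + a') j i = Y a j i + Y a' j i)

/-- the linear algebra: a basis of the left kernel of the columns outside `Z` -/
theorem ex_basis {X₀ : κ → ρ → ZMod 2} {C₁ : ℕ} {Z : Finset κ}
    {C₀ : ℕ} (hcard : Fintype.card κ + C₁ = Fintype.card ρ + C₀) (hZ : Z.card = C₀)
    (hli : ∀ c : κ → ZMod 2, (∀ j ∈ Z, c j = 0) → (∀ i, ∑ j, c j * X₀ j i = 0) → c = 0) :
    ∃ f : Fin C₁ → ρ → ZMod 2,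
      (∀ c c' : Fin C₁ → ZMod 2, (∀ i, ∑ k, c k * f k i = ∑ k, c' k * f k i) → c = c') ∧
      (∀ k, ∀ l, l ∉ Z → ∑ i, f k i * X₀ l i = 0) ∧
      (∀ e : ρ → ZMod 2, (∀ l, l ∉ Z → ∑ i, e i * X₀ l i = 0) →
        ∃ c : Fin C₁ → ZMod 2, ∀ i, e i = ∑ k, c k * f k i) ∧
      (∀ m : Fin C₁ → ZMod 2, ∃ y : ρ → ZMod 2, ∀ k, ∑ i, f k i * y i = m k) := by
  let Mx : Matrix {l // l ∉ Z} ρ (ZMod 2) := Matrix.of fun l i => X₀ l.1 i
  have hrow : LinearIndependent (ZMod 2) Mx.row := by
    rw [Fintype.linearIndependent_iff]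
    intro g hg
    have hc := hli (fun j => if h : j ∉ Z then g ⟨j, h⟩ else 0)
      (fun j hj => dif_neg (fun h => h hj)) ?_
    · intro l
      have := congrFun hc l.1
      simp only [Pi.zero_apply] at this
      rwa [dif_pos l.2] at this
    · intro i
      have h1 : ∑ j, (if h : j ∉ Z then g ⟨j, h⟩ else 0) * X₀ j i =
          ∑ j ∈ Finset.univ.filter (fun j => j ∉ Z),
            (if h : j ∉ Z then g ⟨j, h⟩ else 0) * X₀ j i := by
        symm
        refine Finset.sum_subset (Finset.filter_subset _ _) ?_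
        intro j _ hj
        have hj' : ¬ j ∉ Z := fun h => hj (Finset.mem_filter.2 ⟨Finset.mem_univ _, h⟩)
        rw [dif_neg hj', zero_mul]
      have h2 : ∑ j ∈ Finset.univ.filter (fun j => j ∉ Z),
            (if h : j ∉ Z then g ⟨j, h⟩ else 0) * X₀ j i =
          ∑ l : {l // l ∉ Z}, (if h : l.1 ∉ Z then g ⟨l.1, h⟩ else 0) * X₀ l.1 i :=
        Finset.sum_subtype (Finset.univ.filter (fun j => j ∉ Z)) (p := fun j => j ∉ Z)
        (fun l => by simp) (fun j => (if h : j ∉ Z then g ⟨j, h⟩ else 0) * X₀ j i)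
      rw [h1, h2]
      have h3 := congrFun hg i
      rw [Finset.sum_apply, Pi.zero_apply] at h3
      rw [← h3]
      refine Finset.sum_congr rfl fun l _ => ?_
      rw [dif_pos l.2]
      rfl
  have hrk := hrow.rank_matrix
  have hcZ : Fintype.card {l // l ∉ Z} + C₀ = Fintype.card κ := by
    have h1 := Fintype.card_subtype_compl (fun l => l ∈ Z)
    have h2 : Fintype.card {l // l ∈ Z} = C₀ := by rw [Fintype.card_coe, hZ]
    rw [h2] at h1
    have h3 : C₀ ≤ Fintype.card κ := by rw [← hZ]; exact Finset.card_le_univ Z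
    omega
  have hker : Module.finrank (ZMod 2) (LinearMap.ker Mx.mulVecLin) = C₁ := by
    have h1 := LinearMap.finrank_range_add_finrank_ker Mx.mulVecLin
    rw [Module.finrank_fintype_fun_eq_card] at h1
    have h2 : Module.finrank (ZMod 2) (LinearMap.range Mx.mulVecLin) =
        Fintype.card {l // l ∉ Z} := hrk
    omega
  let b := Module.finBasisOfFinrankEq (ZMod 2) (LinearMap.ker Mx.mulVecLin) hker
  let f : Fin C₁ → ρ → ZMod 2 := fun k => (b k : ρ → ZMod 2)
  have hflin : LinearIndependent (ZMod 2) f :=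
    b.linearIndependent.map' (LinearMap.ker Mx.mulVecLin).subtype (Submodule.ker_subtype _)
  have hmem : ∀ e : ρ → ZMod 2, e ∈ LinearMap.ker Mx.mulVecLin ↔
      ∀ l, l ∉ Z → ∑ i, e i * X₀ l i = 0 := by
    intro e
    rw [LinearMap.mem_ker, Matrix.mulVecLin_apply, funext_iff]
    constructor
    · intro h l hl
      refine Eq.trans ?_ (h ⟨l, hl⟩)
      exact Finset.sum_congr rfl fun i _ => mul_comm _ _
    · intro h l
      refine Eq.trans ?_ (h l.1 l.2)
      exact Finset.sum_congr rfl fun i _ => mul_comm _ _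
  refine ⟨f, ?_, ?_, ?_, ?_⟩
  · intro c c' h
    have h1 : ∑ k, (c k - c' k) • f k = 0 := by
      funext i
      rw [Finset.sum_apply, Pi.zero_apply]
      simp only [Pi.smul_apply, smul_eq_mul, sub_mul]
      rw [Finset.sum_sub_distrib, h i, sub_self]
    funext k
    have := Fintype.linearIndependent_iff.1 hflin _ h1 k
    exact sub_eq_zero.1 this
  · intro k
    exact (hmem (f k)).1 (b k).2
  · intro e he
    have h1 := (hmem e).2 he
    refine ⟨fun k => b.repr ⟨e, h1⟩ k, fun i => ?_⟩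
    have h2 := b.sum_repr ⟨e, h1⟩
    have h3 := congrFun (congrArg (Submodule.subtype _) h2) i
    rw [map_sum, Finset.sum_apply] at h3
    exact h3.symm
  · intro m
    let N : Matrix (Fin C₁) ρ (ZMod 2) := Matrix.of f
    have hN : LinearIndependent (ZMod 2) N.row := hflin
    have hr := hN.rank_matrix
    rw [Fintype.card_fin] at hr
    have htop : LinearMap.range N.mulVecLin = ⊤ := by
      apply Submodule.eq_top_of_finrank_eq
      rw [Module.finrank_fintype_fun_eq_card, Fintype.card_fin]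
      exact hr
    have hm : m ∈ LinearMap.range N.mulVecLin := by rw [htop]; exact Submodule.mem_top
    obtain ⟨y, hy⟩ := hm
    exact ⟨y, fun k => congrFun hy k⟩

include hX hY in
theorem coset {C₀ C₁ : ℕ} (hcard : Fintype.card κ + C₁ = Fintype.card ρ + C₀) {Z : Finset κ}
    (hZ : Z.card = C₀) {a : A}
    (hli : ∀ c : κ → ZMod 2, (∀ j ∈ Z, c j = 0) → (∀ i, ∑ j, c j * X a j i = 0) → c = 0)
    (hs : ∀ z ∈ Z, ∀ y : ρ → ZMod 2, ∃ g, (∀ l, l ≠ z → ∀ i, Y g l i = 0) ∧ ∀ i, Y g z i = y i)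
    (r : ℕ) :
    (((GZ Y Z).filter fun g =>
      {e : ρ → ZMod 2 | ∀ j, ∑ i, e i * X (a + g) j i = 0}.ncard = 2 ^ r).card : ℝ) =
      pcu C₁ C₀ r * ((GZ Y Z).card : ℝ) := by
  obtain ⟨f, hf1, hf2, hf3, hf4⟩ := ex_basis hcard hZ hli
  let ζ : Fin C₀ ≃ Z := (Z.equivFinOfCardEq hZ).symm
  let ψ : A → Fin C₀ → Fin C₁ → ZMod 2 := fun g j k => ∑ i, f k i * Y g (ζ j).1 i
  let m₀ : Fin C₀ → Fin C₁ → ZMod 2 := fun j k => ∑ i, f k i * X a (ζ j).1 i
  have hψ : ∀ g g', ψ (g + g') = ψ g + ψ g' := by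
    intro g g'
    funext j k
    show ∑ i, f k i * Y (g + g') (ζ j).1 i =
      ∑ i, f k i * Y g (ζ j).1 i + ∑ i, f k i * Y g' (ζ j).1 i
    rw [← Finset.sum_add_distrib]
    exact Finset.sum_congr rfl fun i _ => by rw [hY, mul_add]
  have hsurj : ∀ m : Fin C₀ → Fin C₁ → ZMod 2, ∃ g ∈ GZ Y Z, ψ g = m := by
    intro m
    choose y hy using fun j => hf4 (m j)
    choose g hg1 hg2 using fun j : Fin C₀ => hs (ζ j).1 (ζ j).2 (y j)
    refine ⟨∑ j, g j, mem_GZ.2 fun l hl i => ?_, ?_⟩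
    · rw [Y_sum hY]
      refine Finset.sum_eq_zero fun j _ => hg1 j l (fun h => hl ?_) i
      rw [h]
      exact (ζ j).2
    · funext j k
      show ∑ i, f k i * Y (∑ j, g j) (ζ j).1 i = m j k
      rw [← hy j k]
      refine Finset.sum_congr rfl fun i _ => ?_
      rw [Y_sum hY, Finset.sum_eq_single j]
      · rw [hg2]
      · intro j' _ hj'
        refine hg1 j' _ (fun h => hj' ?_) i
        exact (ζ.injective (Subtype.ext h)).symm
      · intro h
        exact absurd (Finset.mem_univ _) h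
  let S : Finset (Fin C₀ → Fin C₁ → ZMod 2) := Finset.univ.filter fun T =>
    {e : Fin C₁ → ZMod 2 | ∀ j, ∑ i, e i * T j i = 0}.ncard = 2 ^ r
  have heq := equi hY hψ hsurj m₀ S
  have hker : ∀ g ∈ GZ Y Z, {e : ρ → ZMod 2 | ∀ j, ∑ i, e i * X (a + g) j i = 0}.ncard =
      {c : Fin C₁ → ZMod 2 | ∀ j, ∑ k, c k * (m₀ + ψ g) j k = 0}.ncard := by
    intro g hg
    have hT : ∀ j k, (m₀ + ψ g) j k = ∑ i, f k i * X (a + g) (ζ j).1 i := by
      intro j k
      show ∑ i, f k i * X a (ζ j).1 i + ∑ i, f k i * Y g (ζ j).1 i = _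
      rw [← Finset.sum_add_distrib]
      exact Finset.sum_congr rfl fun i _ => by rw [hX, mul_add]
    have hXl : ∀ l, l ∉ Z → ∀ i, X (a + g) l i = X a l i := by
      intro l hl i
      rw [hX, mem_GZ.1 hg l hl i, add_zero]
    have hexch : ∀ (c : Fin C₁ → ZMod 2) (v : ρ → ZMod 2),
        ∑ i, (∑ k, c k * f k i) * v i = ∑ k, c k * ∑ i, f k i * v i := by
      intro c v
      simp only [Finset.sum_mul, Finset.mul_sum]
      rw [Finset.sum_comm]
      exact Finset.sum_congr rfl fun k _ => Finset.sum_congr rfl fun i _ => by ring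
    have himg : {e : ρ → ZMod 2 | ∀ j, ∑ i, e i * X (a + g) j i = 0} =
        (fun c : Fin C₁ → ZMod 2 => fun i => ∑ k, c k * f k i) ''
          {c : Fin C₁ → ZMod 2 | ∀ j, ∑ k, c k * (m₀ + ψ g) j k = 0} := by
      ext e
      constructor
      · intro he
        obtain ⟨c, hc⟩ := hf3 e (fun l hl => by
          have h1 := he l
          simp only [hXl l hl] at h1
          exact h1)
        refine ⟨c, fun j => ?_, funext fun i => (hc i).symm⟩
        simp only [hT]
        rw [← hexch]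
        have h1 := he (ζ j).1
        simp only [hc] at h1
        exact h1
      · rintro ⟨c, hc, rfl⟩
        intro l
        show ∑ i, (∑ k, c k * f k i) * X (a + g) l i = 0
        rw [hexch]
        by_cases hl : l ∈ Z
        · have h1 := hc (ζ.symm ⟨l, hl⟩)
          simp only [hT, Equiv.apply_symm_apply] at h1
          exact h1
        · refine Finset.sum_eq_zero fun k _ => ?_
          simp only [hXl l hl, hf2 k l hl, mul_zero]
    rw [himg]
    exact Set.ncard_image_of_injective _ (fun c c' h => hf1 c c' (fun i => congrFun h i))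
  replace heq : ((GZ Y Z).filter fun g =>
      {e : ρ → ZMod 2 | ∀ j, ∑ i, e i * X (a + g) j i = 0}.ncard = 2 ^ r).card *
        Fintype.card (Fin C₀ → Fin C₁ → ZMod 2) = S.card * (GZ Y Z).card := by
    rw [← heq]
    refine congrArg
      (fun s : Finset A => s.card * Fintype.card (Fin C₀ → Fin C₁ → ZMod 2)) ?_
    ext g
    simp only [Finset.mem_filter]
    refine and_congr_right fun hg => ?_
    rw [hker g hg, Finset.mem_filter]
    exact (and_iff_right (Finset.mem_univ _)).symm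
  have hcM : Fintype.card (Fin C₀ → Fin C₁ → ZMod 2) = 2 ^ (C₁ * C₀) := by
    rw [Fintype.card_fun, Fintype.card_fun, ZMod.card, Fintype.card_fin, Fintype.card_fin,
      ← pow_mul]
  have hp : pcu C₁ C₀ r = (S.card : ℝ) / 2 ^ (C₁ * C₀) := by
    unfold pcu
    congr 2
    rw [← Set.ncard_coe_finset]
    congr 1
    ext T
    simp [S]
  rw [hcM] at heq
  have h2 : (((GZ Y Z).filter fun g =>
      {e : ρ → ZMod 2 | ∀ j, ∑ i, e i * X (a + g) j i = 0}.ncard = 2 ^ r).card : ℝ) *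
      2 ^ (C₁ * C₀) = (S.card : ℝ) * ((GZ Y Z).card : ℝ) := by exact_mod_cast heq
  rw [hp, div_mul_eq_mul_div, eq_div_iff (by positivity)]
  exact h2

end

theorem pcu_nonneg (n m r : ℕ) : 0 ≤ pcu n m r := by
  unfold pcu
  positivity

theorem pcu_le_one (n m r : ℕ) : pcu n m r ≤ 1 := by
  unfold pcu
  rw [div_le_one (by positivity)]
  have hcM : Fintype.card (Fin m → Fin n → ZMod 2) = 2 ^ (n * m) := by
    rw [Fintype.card_fun, Fintype.card_fun, ZMod.card, Fintype.card_fin, Fintype.card_fin,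
      ← pow_mul]
  have h1 : {T : Fin m → Fin n → ZMod 2 |
      {e : Fin n → ZMod 2 | ∀ j, ∑ i, e i * T j i = 0}.ncard = 2 ^ r}.ncard ≤ 2 ^ (n * m) := by
    rw [← hcM, ← Nat.card_eq_fintype_card, ← Set.ncard_univ]
    exact Set.ncard_le_ncard (Set.subset_univ _)
  exact_mod_cast h1

theorem lingu : S_LINGU := by
  intro A κ ρ _ _ _ _ C₀ C₁ hcard X Y hX hY J Z rk R σ hJZ hZ hrk hlast hYJ hJind hs hRZ hsum r
  let B : Finset A := (Finset.univ.filter (fun j => j ∉ J ∧ j ∉ Z)).biUnion fun j => Bad X J rk j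
  have hB : (B.card : ℝ) ≤ σ * (Fintype.card A : ℝ) := by
    have h1 : (B.card : ℝ) ≤ ∑ j ∈ Finset.univ.filter (fun j => j ∉ J ∧ j ∉ Z),
        ((Bad X J rk j).card : ℝ) := by
      exact_mod_cast Finset.card_biUnion_le
    refine h1.trans ?_
    have h2 : ∑ j ∈ Finset.univ.filter (fun j => j ∉ J ∧ j ∉ Z), ((Bad X J rk j).card : ℝ) ≤
        ∑ j ∈ Finset.univ.filter (fun j => j ∉ J ∧ j ∉ Z), (Fintype.card A : ℝ) *
          ((1 / 2 : ℝ) ^ (R j).card *
            2 ^ (J.card + (Finset.univ.filter (fun l => l ∉ J ∧ rk l < rk j)).card)) := by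
      refine Finset.sum_le_sum fun j hj => ?_
      exact bad_card hX hY (Finset.mem_filter.1 hj).2.1 (hs j (Finset.mem_filter.1 hj).2.1)
    refine h2.trans ?_
    rw [← Finset.mul_sum, mul_comm]
    exact mul_le_mul_of_nonneg_right hsum (Nat.cast_nonneg _)
  let P : Finset A := Finset.univ.filter fun a =>
    {e : ρ → ZMod 2 | ∀ j, ∑ i, e i * X a j i = 0}.ncard = 2 ^ r
  have hP : {a : A | {e : ρ → ZMod 2 | ∀ j, ∑ i, e i * X a j i = 0}.ncard = 2 ^ r}.ncard =
      P.card := by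
    rw [← Set.ncard_coe_finset]
    congr 1
    ext a
    simp [P]
  rw [hP]
  -- the good cosets
  have hgood : ∀ a, a ∉ B → (((GZ Y Z).filter fun g => a + g ∈ P).card : ℝ) =
      pcu C₁ C₀ r * ((GZ Y Z).card : ℝ) := by
    intro a ha
    have hli : ∀ c : κ → ZMod 2, (∀ j ∈ Z, c j = 0) → (∀ i, ∑ j, c j * X a j i = 0) →
        c = 0 := by
      intro c hc1 hc2
      refine indep (Z := Z) hrk (fun ε h1 h2 => hJind ε h1 fun i => ?_) (fun j hj1 hj2 h => ?_) c
        hc1 hc2
      · rw [← h2 i]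
        refine Finset.sum_congr rfl fun j _ => ?_
        by_cases hj : j ∈ J
        · have h3 := hX 0 a j i
          rw [zero_add, hYJ a j hj i, add_zero] at h3
          rw [h3]
        · rw [h1 j hj, zero_mul, zero_mul]
      · exact ha (Finset.mem_biUnion.2 ⟨j, Finset.mem_filter.2 ⟨Finset.mem_univ _, hj1, hj2⟩,
          mem_Bad.2 h⟩)
    have hs' : ∀ z ∈ Z, ∀ y : ρ → ZMod 2, ∃ g, (∀ l, l ≠ z → ∀ i, Y g l i = 0) ∧
        ∀ i, Y g z i = y i := by
      intro z hz y
      have hzJ : z ∉ J := fun h => (Finset.disjoint_left.1 hJZ h) hz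
      obtain ⟨g, h1, h2⟩ := hs z hzJ y
      refine ⟨g, h1, fun i => h2 i ?_⟩
      rw [hRZ z hz]
      exact Finset.mem_univ _
    rw [← coset hX hY hcard hZ hli hs' r]
    congr 2
    refine Finset.filter_congr fun g _ => ?_
    rw [Finset.mem_filter]
    exact and_iff_right (Finset.mem_univ _)
  have hdc : ∑ a : A, (((GZ Y Z).filter fun g => a + g ∈ P).card : ℝ) =
      ((GZ Y Z).card : ℝ) * (P.card : ℝ) := by exact_mod_cast dc (GZ Y Z) P
  have hGpos : (0 : ℝ) < ((GZ Y Z).card : ℝ) := by exact_mod_cast GZ_pos hY Z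
  have hp0 := pcu_nonneg C₁ C₀ r
  have hp1 := pcu_le_one C₁ C₀ r
  -- compare
  have hdiff : |∑ a : A, ((((GZ Y Z).filter fun g => a + g ∈ P).card : ℝ) -
      pcu C₁ C₀ r * ((GZ Y Z).card : ℝ))| ≤ (B.card : ℝ) * ((GZ Y Z).card : ℝ) := by
    have h1 : ∑ a : A, ((((GZ Y Z).filter fun g => a + g ∈ P).card : ℝ) -
        pcu C₁ C₀ r * ((GZ Y Z).card : ℝ)) = ∑ a ∈ B,
          ((((GZ Y Z).filter fun g => a + g ∈ P).card : ℝ) -
            pcu C₁ C₀ r * ((GZ Y Z).card : ℝ)) := by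
      symm
      refine Finset.sum_subset (Finset.subset_univ _) fun a _ ha => ?_
      rw [hgood a ha, sub_self]
    rw [h1]
    refine (Finset.abs_sum_le_sum_abs _ _).trans ?_
    rw [← nsmul_eq_mul]
    refine Finset.sum_le_card_nsmul _ _ _ fun a _ => ?_
    have h2 : (((GZ Y Z).filter fun g => a + g ∈ P).card : ℝ) ≤ ((GZ Y Z).card : ℝ) := by
      exact_mod_cast Finset.card_filter_le _ _
    have h3 : (0 : ℝ) ≤ (((GZ Y Z).filter fun g => a + g ∈ P).card : ℝ) := Nat.cast_nonneg _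
    rw [abs_le]
    constructor <;> nlinarith
  rw [Finset.sum_sub_distrib, hdc, Finset.sum_const, Finset.card_univ, nsmul_eq_mul] at hdiff
  have h4 : ((GZ Y Z).card : ℝ) * |(P.card : ℝ) - pcu C₁ C₀ r * (Fintype.card A : ℝ)| ≤
      ((GZ Y Z).card : ℝ) * (σ * (Fintype.card A : ℝ)) := by
    calc ((GZ Y Z).card : ℝ) * |(P.card : ℝ) - pcu C₁ C₀ r * (Fintype.card A : ℝ)|
        = |((GZ Y Z).card : ℝ) * (P.card : ℝ) -
          (Fintype.card A : ℝ) * (pcu C₁ C₀ r * ((GZ Y Z).card : ℝ))| := by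
          rw [← abs_of_pos hGpos, ← abs_mul, abs_of_pos hGpos]
          congr 1
          ring
      _ ≤ (B.card : ℝ) * ((GZ Y Z).card : ℝ) := hdiff
      _ ≤ σ * (Fintype.card A : ℝ) * ((GZ Y Z).card : ℝ) :=
          mul_le_mul_of_nonneg_right hB hGpos.le
      _ = _ := by ring
  exact le_of_mul_le_mul_left h4 hGpos

end Pool.Agent.H467.PU.Lingu
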