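import Pool.Agent.H467.PU.Spec
import Pool.Agent.H467.PG.Poq
import Pool.Agent.H467.GK.Hen

/-!
# The local image consists of classes with bounded poles

Project PU (helper467), part LVB (helper124).
-/

set_option autoImplicit false
set_option linter.all false

open Finset Filter WithZero
open Pool.Agent.H467.GK
open Pool.Agent.H467.CT (AS LV)
open Pool.Agent.H467.PG
open scoped Classical

namespace Pool.Agent.H467.PU.Lvb

theorem lvb : S_LVB := by
  intro K _ _ j _ b hb χ
  have hen := Pool.Agent.H467.GK.Hen.hen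
  obtain ⟨e1, e2, e3⟩ := hen K j.1 j.2
  have hcL : CharP (Cm j.1) 2 :=
    charP_of_injective_algebraMap (algebraMap K (Cm j.1)).injective 2
  have c2 : (2 : Cm j.1) = 0 := CharTwo.two_eq_zero
  obtain ⟨a, rfl⟩ := Pool.Agent.H467.PG.Poq.mkq_surj χ
  obtain ⟨n, hn⟩ := Pool.Agent.H467.PG.Poq.le_exp (max 1 (max (j.1 b) (j.1 (a ^ 2))))
  refine ⟨n, fun α hα => ?_⟩
  obtain ⟨x₀, rfl⟩ := Pool.Agent.H467.PG.Poq.mkq_surj α
  -- split classes
  have hsp : AS (algebraMap K (Cm j.1) x₀) → poq j (mkq x₀) ≤ n := by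
    intro h
    have h1 : Spl j (mkq x₀) := (Pool.Agent.H467.PG.Poq.sp_iff j x₀).1 (apx_AS hen j.2 h)
    rw [Pool.Agent.H467.PG.Poq.spl_poq h1]
    exact Nat.zero_le n
  rcases hα x₀ a rfl rfl with h | ⟨X, h1, h2, -⟩
  · exact hsp h
  · by_cases hX : vc j.1 X ≤ max 1 (max (j.1 b) (j.1 (a ^ 2)))
    · obtain ⟨z, hz⟩ := h1
      have h3 : vc j.1 (algebraMap K (Cm j.1) x₀ + z ^ 2 + z) ≤
          max 1 (max (j.1 b) (j.1 (a ^ 2))) := by
        have e : algebraMap K (Cm j.1) x₀ + z ^ 2 + z = X + algebraMap K (Cm j.1) (a ^ 2) := by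
          linear_combination (-1 : Cm j.1) * hz +
            (algebraMap K (Cm j.1) x₀) * c2
        rw [e]
        refine Valuation.map_add_le _ hX ?_
        rw [e1]
        exact (le_max_right _ _).trans (le_max_right _ _)
      obtain ⟨z₀, hz₀⟩ := apx_le hen j.2 (le_max_left _ _) h3
      rw [← Pool.Agent.H467.PG.Poq.ple_iff]
      exact (Pool.Agent.H467.PG.Poq.rep_iff (fun c => j.1 c ≤ exp (n : ℤ)) x₀).1
        ⟨z₀, hz₀.trans hn⟩
    · rw [not_le] at hX
      have hX0 : X ≠ 0 := by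
        rintro rfl
        rw [map_zero] at hX
        exact absurd hX (not_lt.2 zero_le')
      have hp : 0 < vc j.1 X := zero_lt_iff.2 ((Valuation.ne_zero_iff _).2 hX0)
      have h3 : vc j.1 (algebraMap K (Cm j.1) (b ^ 2) / X ^ 2) < 1 := by
        rw [map_pow, ← div_pow, map_pow, map_div₀, e1]
        refine pow_lt_one₀ zero_le' ?_ two_ne_zero
        rw [div_lt_one₀ hp]
        exact ((le_max_left _ _).trans (le_max_right _ _)).trans_lt hX
      have h4 := e2 _ h3
      have h5 : AS (X + algebraMap K (Cm j.1) (a ^ 2)) := by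
        apply Pool.Agent.H467.CT.AS_of_add h4
        have e : algebraMap K (Cm j.1) (b ^ 2) / X ^ 2 + (X + algebraMap K (Cm j.1) (a ^ 2)) =
          X + algebraMap K (Cm j.1) (a ^ 2) + algebraMap K (Cm j.1) (b ^ 2) / X ^ 2 := by ring
        rw [e]
        exact h2 hX0
      apply hsp
      apply Pool.Agent.H467.CT.AS_of_add h5
      have e : X + algebraMap K (Cm j.1) (a ^ 2) + algebraMap K (Cm j.1) x₀ =
        algebraMap K (Cm j.1) x₀ + X + algebraMap K (Cm j.1) (a ^ 2) := by ring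
      rw [e]
      exact h1

end Pool.Agent.H467.PU.Lvb
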