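import Pool.Agent.H467.PU.Spec
import Pool.Agent.H467.PG.Locv
import Pool.Agent.H467.PG.Poq

/-!
# Properties of the local images

Project PU (helper467), part Lwx (by helper727).
-/

set_option autoImplicit false
set_option linter.all false

open Finset WithZero
open Pool.Agent.H467.GK
open Pool.Agent.H467.CT
open Pool.Agent.H467.PG
open scoped Classical

namespace Pool.Agent.H467.PU.Lwx

open Pool.Agent.H467.PG.Poq (mkq_iff mkq_add mkq_surj two poq_zero un_iff sp_iff le_exp spl_add
  spl_poq poq_eq_of)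

/-! ### The local condition -/

section loc

variable {L : Type} [Field L] [CharP L 2]

theorem LV_a {A A' B x : L} (h : AS (A + A')) (hl : LV A B x) : LV A' B x := by
  have c2 : (2 : L) = 0 := CharTwo.two_eq_zero
  rcases hl with h0 | ⟨y, h1, h2, h3⟩
  · exact Or.inl h0
  · refine Or.inr ⟨y, ?_, fun hy => ?_, h3⟩
    · have h4 := AS_add h1 h
      have e : x + y + A + (A + A') = x + y + A' := by linear_combination A * c2
      rwa [e] at h4
    · have h4 := AS_add (h2 hy) h
      have e : y + A + B / y ^ 2 + (A + A') = y + A' + B / y ^ 2 := by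
        linear_combination A * c2
      rwa [e] at h4

theorem LV_x {A B x x' : L} (h : AS (x + x')) (hl : LV A B x) : LV A B x' := by
  have c2 : (2 : L) = 0 := CharTwo.two_eq_zero
  rcases hl with h0 | ⟨y, h1, h2, h3⟩
  · exact Or.inl (AS_of_add h0 h)
  · refine Or.inr ⟨y, ?_, h2, h3⟩
    have h4 := AS_add h1 h
    have e : x + y + A + (x + x') = x' + y + A := by linear_combination x * c2
    rwa [e] at h4

end loc

section cls

variable {K : Type} [Field K] [CharP K 2]

theorem hSp (j : PV K) (c : K) : Sp j.1 c ↔ AS (algebraMap K (Cm j.1) c) := by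
  have hen := Hen.hen
  obtain ⟨e1, e2, e3⟩ := hen K j.1 j.2
  have hcL : CharP (Cm j.1) 2 :=
    charP_of_injective_algebraMap (algebraMap K (Cm j.1)).injective 2
  have c2 : (2 : Cm j.1) = 0 := CharTwo.two_eq_zero
  constructor
  · rintro ⟨z, hz⟩
    rw [← e1] at hz
    obtain ⟨v, hv⟩ := e2 _ hz
    refine ⟨v + algebraMap K (Cm j.1) z, ?_⟩
    rw [map_add, map_add, map_pow] at hv
    linear_combination hv - (algebraMap K (Cm j.1) z ^ 2 + algebraMap K (Cm j.1) z +
      v * algebraMap K (Cm j.1) z) * c2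
  · exact fun h => apx_AS hen j.2 h

/-- The local condition for the elements `a` and `x`. -/
def Lq (b : K) (j : PV K) (a x : K) : Prop :=
  LV (algebraMap K (Cm j.1) (a ^ 2)) (algebraMap K (Cm j.1) (b ^ 2)) (algebraMap K (Cm j.1) x)

theorem Lq_congr {b : K} {j : PV K} {a a' x x' : K} (ha : Sp j.1 (a + a'))
    (hx : Sp j.1 (x + x')) (h : Lq b j a x) : Lq b j a' x' := by
  have hcL : CharP (Cm j.1) 2 :=
    charP_of_injective_algebraMap (algebraMap K (Cm j.1)).injective 2
  have c2 : (2 : Cm j.1) = 0 := CharTwo.two_eq_zero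
  rw [hSp, map_add] at ha hx
  refine LV_x hx (LV_a ?_ h)
  have h1 := AS_add (AS_sq (algebraMap K (Cm j.1) a + algebraMap K (Cm j.1) a')) ha
  rw [map_pow, map_pow]
  have e : (algebraMap K (Cm j.1) a + algebraMap K (Cm j.1) a') ^ 2 +
      (algebraMap K (Cm j.1) a + algebraMap K (Cm j.1) a') +
      (algebraMap K (Cm j.1) a + algebraMap K (Cm j.1) a') =
      algebraMap K (Cm j.1) a ^ 2 + algebraMap K (Cm j.1) a' ^ 2 := by
    linear_combination (algebraMap K (Cm j.1) a * algebraMap K (Cm j.1) a' +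
      algebraMap K (Cm j.1) a + algebraMap K (Cm j.1) a') * c2
  rwa [e] at h1

theorem sp_of_mkq {j : PV K} {a a' : K} (h : Spl j (mkq a + mkq a')) : Sp j.1 (a + a') := by
  rw [sp_iff, mkq_add]
  exact h

theorem spl_zero (j : PV K) : Spl j (0 : Qc K) := by
  refine ⟨0, rfl, ?_⟩
  rw [map_zero]
  exact zero_lt_one

theorem spl_self (j : PV K) (χ : Qc K) : Spl j (χ + χ) := by
  rw [two]
  exact spl_zero j

theorem mem_Wl (b : K) (j : PV K) (a x : K) : mkq x ∈ Wl b j (mkq a) ↔ Lq b j a x := by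
  constructor
  · intro h
    exact h x a rfl rfl
  · intro h x' a' hx ha
    refine Lq_congr ?_ ?_ h
    · refine sp_of_mkq ?_
      rw [ha]
      exact spl_self j _
    · refine sp_of_mkq ?_
      rw [hx]
      exact spl_self j _

theorem Wl_sub {b : K} {j : PV K} {χ χ' : Qc K} (h : Spl j (χ + χ')) : Wl b j χ ⊆ Wl b j χ' := by
  obtain ⟨a, rfl⟩ := mkq_surj χ
  obtain ⟨a', rfl⟩ := mkq_surj χ'
  intro α hα
  obtain ⟨x, rfl⟩ := mkq_surj α
  rw [mem_Wl] at hα ⊢
  exact Lq_congr (sp_of_mkq h) (sp_of_mkq (spl_self j _)) hα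

theorem Wl_eq {b : K} {j : PV K} {χ χ' : Qc K} (h : Spl j (χ + χ')) : Wl b j χ = Wl b j χ' :=
  Set.Subset.antisymm (Wl_sub h) (Wl_sub (by rwa [add_comm]))

theorem self_mem (b : K) (j : PV K) (χ : Qc K) : χ ∈ Wl b j χ := by
  obtain ⟨a, rfl⟩ := mkq_surj χ
  rw [mem_Wl]
  have hcL : CharP (Cm j.1) 2 :=
    charP_of_injective_algebraMap (algebraMap K (Cm j.1)).injective 2
  refine Or.inr ⟨0, ?_, fun h => absurd rfl h, fun _ => ?_⟩
  · have h1 := AS_sq (algebraMap K (Cm j.1) a)
    rw [map_pow, add_zero, add_comm]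
    exact h1
  · rw [map_pow]
    exact ⟨algebraMap K (Cm j.1) b, sq _⟩

/-! ### Uniqueness of the number -/

/-- The group of the classes which split at `j`. -/
def SG (j : PV K) : AddSubgroup (Qc K) where
  carrier := {α | Spl j α}
  add_mem' := fun h h' => spl_add h h'
  zero_mem' := spl_zero j
  neg_mem' := fun {x} h => by
    have h1 : -x = x := by
      rw [neg_eq_iff_add_eq_zero]
      exact two x
    rw [h1]
    exact h

theorem mem_SG (j : PV K) (α : Qc K) : α ∈ SG j ↔ Spl j α := Iff.rfl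

theorem neg_q (x : Qc K) : -x = x := by
  rw [neg_eq_iff_add_eq_zero]
  exact two x

theorem sum_sd {n : ℕ} (w : Fin n → Qc K) (T T' : Finset (Fin n)) :
    ∑ i ∈ T, w i + ∑ i ∈ T', w i = ∑ i ∈ symmDiff T T', w i := by
  have h1 : ∀ S : Finset (Fin n), ∑ i ∈ S, w i = ∑ i, if i ∈ S then w i else 0 := by
    intro S
    rw [← Finset.sum_filter]
    congr 1
    ext i
    rw [Finset.mem_filter]
    exact ⟨fun h => ⟨Finset.mem_univ _, h⟩, fun h => h.2⟩
  rw [h1 T, h1 T', h1 (symmDiff T T'), ← Finset.sum_add_distrib]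
  refine Finset.sum_congr rfl fun i _ => ?_
  by_cases hT : i ∈ T
  · by_cases hT' : i ∈ T'
    · have h2 : i ∉ symmDiff T T' := by
        rw [Finset.mem_symmDiff]
        rintro (⟨-, h⟩ | ⟨-, h⟩)
        · exact h hT'
        · exact h hT
      rw [if_pos hT, if_pos hT', if_neg h2]
      exact two _
    · have h2 : i ∈ symmDiff T T' := by
        rw [Finset.mem_symmDiff]
        exact Or.inl ⟨hT, hT'⟩
      rw [if_pos hT, if_neg hT', if_pos h2, add_zero]
  · by_cases hT' : i ∈ T'
    · have h2 : i ∈ symmDiff T T' := by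
        rw [Finset.mem_symmDiff]
        exact Or.inr ⟨hT', hT⟩
      rw [if_neg hT, if_pos hT', if_pos h2, zero_add]
    · have h2 : i ∉ symmDiff T T' := by
        rw [Finset.mem_symmDiff]
        rintro (⟨h, -⟩ | ⟨h, -⟩)
        · exact hT h
        · exact hT' h
      rw [if_neg hT, if_neg hT', if_neg h2, add_zero]

theorem card_img {j : PV K} {W : Set (Qc K)} {n : ℕ} (h : LW j W n) :
    ((QuotientAddGroup.mk : Qc K → Qc K ⧸ SG j) '' W).ncard = 2 ^ n := by
  obtain ⟨w, hi, hw⟩ := h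
  have h1 : (QuotientAddGroup.mk : Qc K → Qc K ⧸ SG j) '' W =
      Set.range (fun T : Finset (Fin n) =>
        (QuotientAddGroup.mk (∑ i ∈ T, w i) : Qc K ⧸ SG j)) := by
    ext q
    constructor
    · rintro ⟨α, hα, rfl⟩
      obtain ⟨T, hT⟩ := (hw α).1 hα
      refine ⟨T, ?_⟩
      show (QuotientAddGroup.mk (∑ i ∈ T, w i) : Qc K ⧸ SG j) = QuotientAddGroup.mk α
      rw [QuotientAddGroup.eq, neg_q, add_comm, mem_SG]
      exact hT
    · rintro ⟨T, rfl⟩
      refine ⟨∑ i ∈ T, w i, ?_, rfl⟩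
      rw [hw]
      exact ⟨T, spl_self j _⟩
  have h2 : Function.Injective (fun T : Finset (Fin n) =>
        (QuotientAddGroup.mk (∑ i ∈ T, w i) : Qc K ⧸ SG j)) := by
    intro T T' hTT
    have h3 : (QuotientAddGroup.mk (∑ i ∈ T, w i) : Qc K ⧸ SG j) =
      QuotientAddGroup.mk (∑ i ∈ T', w i) := hTT
    rw [QuotientAddGroup.eq, neg_q, mem_SG, sum_sd] at h3
    have h4 := hi _ h3
    exact symmDiff_eq_bot.1 h4
  rw [h1, ← Set.image_univ, Set.ncard_image_of_injective _ h2, Set.ncard_univ,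
    Nat.card_eq_fintype_card, Fintype.card_finset, Fintype.card_fin]

theorem LW_unique {j : PV K} {W : Set (Qc K)} {n n' : ℕ} (h : LW j W n) (h' : LW j W n') :
    n = n' := by
  have h1 := card_img h
  rw [card_img h'] at h1
  exact (Nat.pow_right_injective (le_refl 2) h1).symm

/-! ### Finitely many local classes -/

theorem cov (j : PV K) (hfin : Finite (IsLocalRing.ResidueField j.1.valuationSubring)) (n : ℕ) :
    ∃ F : Finset K, ∀ x : K, j.1 x < exp (n : ℤ) → ∃ f ∈ F, j.1 (x + f) < 1 := by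
  obtain ⟨p, hp⟩ := j.2 (exp (1 : ℤ))
  have hp0 : p ≠ 0 := by
    rintro rfl
    rw [map_zero] at hp
    exact exp_ne_zero hp.symm
  obtain ⟨R, hR⟩ : ∃ R : Finset K, ∀ x : K, j.1 x ≤ 1 → ∃ r ∈ R, j.1 (x + r) < 1 := by
    have hft : Fintype (IsLocalRing.ResidueField j.1.valuationSubring) := Fintype.ofFinite _
    refine ⟨Finset.univ.image fun y : IsLocalRing.ResidueField j.1.valuationSubring =>
      ((Function.surjInv IsLocalRing.residue_surjective y : j.1.valuationSubring) : K), ?_⟩
    intro x hx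
    set y := IsLocalRing.residue j.1.valuationSubring ⟨x, hx⟩ with hy
    refine ⟨((Function.surjInv IsLocalRing.residue_surjective y : j.1.valuationSubring) : K),
      Finset.mem_image_of_mem _ (Finset.mem_univ y), ?_⟩
    have h1 : IsLocalRing.residue j.1.valuationSubring
        (Function.surjInv IsLocalRing.residue_surjective y) = y :=
      Function.surjInv_eq IsLocalRing.residue_surjective y
    have h2 : IsLocalRing.residue j.1.valuationSubring
        (⟨x, hx⟩ - Function.surjInv IsLocalRing.residue_surjective y) = 0 := by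
      rw [map_sub, h1, ← hy, sub_self]
    rw [IsLocalRing.residue_eq_zero_iff, Valuation.mem_maximalIdeal_iff] at h2
    have h3 : x + ((Function.surjInv IsLocalRing.residue_surjective y :
        j.1.valuationSubring) : K) =
        ((⟨x, hx⟩ - Function.surjInv IsLocalRing.residue_surjective y :
          j.1.valuationSubring) : K) := by
      rw [AddSubgroupClass.coe_sub]
      exact (CharTwo.sub_eq_add _ _).symm
    rw [h3]
    exact h2
  induction n with
  | zero =>
    refine ⟨{0}, fun x hx => ⟨0, Finset.mem_singleton_self _, ?_⟩⟩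
    rw [add_zero]
    rw [Nat.cast_zero, exp_zero] at hx
    exact hx
  | succ n ih =>
    obtain ⟨F, hF⟩ := ih
    refine ⟨(R ×ˢ F).image fun q => q.1 * p ^ n + q.2, ?_⟩
    intro x hx
    have hpn : j.1 (p ^ n) = exp (n : ℤ) := by
      rw [map_pow, hp, ← exp_nsmul]
      congr 1
      simp
    have hpn0 : p ^ n ≠ 0 := pow_ne_zero n hp0
    have hx' : j.1 x ≤ exp (n : ℤ) := by
      rcases eq_or_ne (j.1 x) 0 with h4 | h4
      · rw [h4]; exact zero_le'
      · rw [← log_le_iff_le_exp h4]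
        rw [← log_lt_iff_lt_exp h4] at hx
        push_cast at hx
        omega
    have h1 : j.1 (x / p ^ n) ≤ 1 := by
      rw [map_div₀, hpn, div_le_iff₀ (exp_pos (a := (n : ℤ))), one_mul]
      exact hx'
    obtain ⟨r, hr, hr2⟩ := hR _ h1
    have h2 : j.1 (x + r * p ^ n) < exp (n : ℤ) := by
      have e : x + r * p ^ n = (x / p ^ n + r) * p ^ n := by
        field_simp
      rw [e, map_mul, hpn]
      calc j.1 (x / p ^ n + r) * exp (n : ℤ) < 1 * exp (n : ℤ) :=
            mul_lt_mul_of_pos_right hr2 (exp_pos (a := (n : ℤ)))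
        _ = exp (n : ℤ) := one_mul _
    obtain ⟨f, hf, hf2⟩ := hF _ h2
    refine ⟨r * p ^ n + f, Finset.mem_image.2 ⟨(r, f), Finset.mem_product.2 ⟨hr, hf⟩, rfl⟩, ?_⟩
    rw [← add_assoc]
    exact hf2

theorem fin_cls (j : PV K) (hfin : Finite (IsLocalRing.ResidueField j.1.valuationSubring))
    (γ : WithZero (Multiplicative ℤ)) :
    ∃ F : Finset (Qc K), ∀ χ : Qc K, Ple j γ χ → ∃ f ∈ F, Spl j (χ + f) := by
  obtain ⟨n, hn⟩ := le_exp γ
  obtain ⟨F, hF⟩ := cov j hfin (n + 1)
  refine ⟨F.image mkq, ?_⟩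
  rintro χ ⟨a, rfl, ha⟩
  have h1 : j.1 a < exp ((n + 1 : ℕ) : ℤ) := by
    refine lt_of_le_of_lt (ha.trans hn) ?_
    rw [exp_lt_exp]
    push_cast
    omega
  obtain ⟨f, hf, hf2⟩ := hF a h1
  exact ⟨mkq f, Finset.mem_image_of_mem _ hf, a + f, mkq_add a f, hf2⟩

/-! ### One class -/

theorem LW_one {j : PV K} {W : Set (Qc K)} (β : Qc K) (hβ : ¬ Spl j β)
    (hW : ∀ α, α ∈ W ↔ Spl j α ∨ Spl j (α + β)) : LW j W 1 := by
  refine ⟨fun _ => β, ?_, ?_⟩
  · intro T hT
    by_contra hne
    obtain ⟨i, hi⟩ := Finset.nonempty_iff_ne_empty.2 hne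
    have h1 : T = {i} := by
      ext k
      rw [Finset.mem_singleton]
      constructor
      · intro _
        exact Subsingleton.elim k i
      · rintro rfl
        exact hi
    rw [h1, Finset.sum_singleton] at hT
    exact hβ hT
  · intro α
    rw [hW]
    constructor
    · rintro (h | h)
      · refine ⟨∅, ?_⟩
        rw [Finset.sum_empty, add_zero]
        exact h
      · refine ⟨{0}, ?_⟩
        rw [Finset.sum_singleton]
        exact h
    · rintro ⟨T, hT⟩
      rcases T.eq_empty_or_nonempty with rfl | ⟨i, hi⟩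
      · left
        rw [Finset.sum_empty, add_zero] at hT
        exact hT
      · right
        have h1 : T = {i} := by
          ext k
          rw [Finset.mem_singleton]
          constructor
          · intro _
            exact Subsingleton.elim k i
          · rintro rfl
            exact hi
        rw [h1, Finset.sum_singleton] at hT
        exact hT

end cls

/-- Properties of the local images. -/
theorem lwx : S_LVA → S_LVB → S_LBS → S_LOCV → S_POQ → S_LWX := by
  intro hlva hlvb hlbs hlocv hpoq K _ _ j hfin b hb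
  have h1 : ∀ χ : Qc K, ∃ n : ℕ, LW j (Wl b j χ) n := by
    intro χ
    refine hlbs K j hfin (Wl b j χ) ?_ ?_ (hlvb K j hfin b hb χ)
    · intro α β hα hβ
      obtain ⟨a, rfl⟩ := mkq_surj χ
      obtain ⟨x, rfl⟩ := mkq_surj α
      obtain ⟨y, rfl⟩ := mkq_surj β
      have hcL : CharP (Cm j.1) 2 :=
        charP_of_injective_algebraMap (algebraMap K (Cm j.1)).injective 2
      rw [mem_Wl] at hα hβ
      rw [← mkq_add, mem_Wl]
      show LV _ _ _
      rw [map_add]
      refine hlva (Cm j.1) _ _ _ _ ?_ hα hβ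
      exact (_root_.map_ne_zero (algebraMap K (Cm j.1))).2 (pow_ne_zero 2 hb)
    · intro α hα
      obtain ⟨a, rfl⟩ := mkq_surj χ
      obtain ⟨x, rfl⟩ := mkq_surj α
      rw [mem_Wl]
      rw [← sp_iff, hSp] at hα
      exact Or.inl hα
  obtain ⟨q1, q2, q3, q4, q5, q6, q7, q8, q9, q10⟩ := hpoq K j
  obtain ⟨q11, q12, q13⟩ := q10 hfin
  have h4 : ∀ a : K, Bal j.1 a b → LW j (Wl b j (mkq a)) 1 ∧ ∀ α : Qc K,
      α ∈ Wl b j (mkq a) ↔ (poq j (mkq a) = 0 → poq j α = 0) ∧
        (poq j (mkq a) ≠ 0 → Spl j α ∨ Spl j (α + mkq a)) := by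
    intro a hbal
    have hmem : ∀ α : Qc K, α ∈ Wl b j (mkq a) ↔ (poq j (mkq a) = 0 → poq j α = 0) ∧
        (poq j (mkq a) ≠ 0 → Spl j α ∨ Spl j (α + mkq a)) := by
      intro α
      obtain ⟨x, rfl⟩ := mkq_surj α
      rw [mem_Wl]
      have h5 := hlocv K j.1 j.2 hfin a b hb hbal x
      have h6 : Lq b j a x ↔ _ := h5
      rw [h6, q1 a, q1 x, ← q5, ← q5, q2 x, q2 (x + a), mkq_add]
      constructor
      · rintro (⟨h7, h8⟩ | ⟨h7, h8⟩)
        · exact ⟨fun _ => h8, fun h9 => absurd h7 h9⟩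
        · exact ⟨fun h9 => absurd h9 h7, fun _ => h8⟩
      · rintro ⟨h7, h8⟩
        by_cases h9 : poq j (mkq a) = 0
        · exact Or.inl ⟨h9, h7 h9⟩
        · exact Or.inr ⟨h9, h8 h9⟩
    refine ⟨?_, hmem⟩
    by_cases h9 : poq j (mkq a) = 0
    · obtain ⟨x, hx1, hx2⟩ := q13
      have hx3 : ¬ Spl j (mkq x) := by
        rw [← q2]
        exact hx2
      have hx4 : poq j (mkq x) = 0 := by
        rw [q5]
        exact ⟨x, rfl, hx1⟩
      refine LW_one (mkq x) hx3 fun α => ?_
      rw [hmem]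
      constructor
      · rintro ⟨h10, -⟩
        by_cases h11 : Spl j α
        · exact Or.inl h11
        · exact Or.inr (q12 _ _ (h10 h9) hx4 h11 hx3)
      · intro h10
        refine ⟨fun _ => ?_, fun h11 => absurd h9 h11⟩
        rcases h10 with h10 | h10
        · exact q7 _ h10
        · rw [q9 _ _ h10]
          exact hx4
    · refine LW_one (mkq a) (fun h10 => h9 (q7 _ h10)) fun α => ?_
      rw [hmem]
      constructor
      · rintro ⟨-, h10⟩
        exact h10 h9
      · intro h10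
        exact ⟨fun h11 => absurd h11 h9, fun _ => h10⟩
  refine ⟨h1, fun χ χ' h => Wl_eq h, self_mem b j, h4, ?_, fun W n n' h h' => LW_unique h h'⟩
  obtain ⟨F, hF⟩ := fin_cls j hfin (max 1 (j.1 b ^ 2))
  choose nn hnn using h1
  refine ⟨max 1 (F.sup nn), ?_⟩
  intro χ n hn
  obtain ⟨a, rfl⟩ := mkq_surj χ
  by_cases hbal : Bal j.1 a b
  · rw [LW_unique hn (h4 a hbal).1]
    exact le_max_left _ _
  · have h5 : Ple j (max 1 (j.1 b ^ 2)) (mkq a) := by
      rcases lt_trichotomy (j.1 b) 1 with h6 | h6 | h6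
      · have h7 : Sp j.1 a := by
          by_contra h8
          exact hbal (Or.inr (Or.inl ⟨h6, h8⟩))
        rw [q2] at h7
        obtain ⟨a', ha', hb'⟩ := h7
        exact ⟨a', ha', hb'.le.trans (le_max_left _ _)⟩
      · exact absurd (Or.inl h6) hbal
      · have h7 : ∃ z : K, j.1 (a + z ^ 2 + z) ≤ j.1 b ^ 2 := by
          by_contra h8
          push Not at h8
          exact hbal (Or.inr (Or.inr ⟨h6, h8⟩))
        obtain ⟨a', ha', hb'⟩ := (Poq.rep_iff (fun y => j.1 y ≤ j.1 b ^ 2) a).1 h7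
        exact ⟨a', ha', hb'.trans (le_max_right _ _)⟩
    obtain ⟨f, hf, hf2⟩ := hF _ h5
    have h6 : LW j (Wl b j f) n := by
      rw [← Wl_eq hf2]
      exact hn
    rw [LW_unique h6 (hnn f)]
    exact le_trans (Finset.le_sup hf) (le_max_right _ _)

end Pool.Agent.H467.PU.Lwx
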