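import Pool.Agent.H467.PU.Spec2
import Pool.Agent.H467.PG.Fn2a

/-!
# The complete law: weak Mordell-Weil implies Mordell-Weil
-/

set_option autoImplicit false
set_option linter.all false

open Polynomial IsDedekindDomain WithZero WeierstrassCurve WeierstrassCurve.Affine
open Pool.Agent.H467.GK
open Pool.Agent.H467.CT (Std)
open Pool.Agent.H467.PG
open scoped Classical

namespace Pool.Agent.H467.PU.Mwf

/-- descent -/
theorem fg_of {G : Type} [AddCommGroup G] {N : ℕ} (hI : Idx G N) (ht : G → ℕ)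
    (h1 : ∀ Q : G, ∃ c : ℕ, ∀ P : G, ht P ≤ 2 * ht (Q + P) + c)
    {C : ℕ} (h2 : ∀ P : G, 4 * ht P ≤ ht (P + P) + C)
    (hfin : ∀ n : ℕ, {P : G | ht P ≤ n}.Finite) : AddGroup.FG G := by
  obtain ⟨s, -, hs⟩ := hI
  choose c hc using h1
  have hN : Northcott (fun P : G => (ht P : ℝ)) := by
    refine ⟨fun b => ?_⟩
    refine (hfin ⌈b⌉₊).subset fun P hP => ?_
    have h3 : (ht P : ℝ) ≤ b := hP
    have h4 : (ht P : ℝ) ≤ (⌈b⌉₊ : ℝ) := h3.trans (Nat.le_ceil b)
    exact_mod_cast h4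
  refine AddGroup.fg_of_descent (f := AddMonoidHom.id G + AddMonoidHom.id G) (s := (s : Set G))
    (h := fun P : G => (ht P : ℝ)) (a := 2) (b := 4) (c := ((C + ∑ g ∈ s, c g : ℕ) : ℝ))
    ?_ (by norm_num) (by norm_num) s.finite_toSet ?_ ?_ ?_
  · rintro U _ ⟨x, hx, rfl⟩
    exact U.add_mem hx hx
  · refine Set.eq_univ_iff_forall.2 fun P => ?_
    obtain ⟨g, hg, Q, hQ⟩ := hs P
    exact Set.mem_add.2 ⟨g, hg, Q + Q, ⟨Q, rfl⟩, hQ.symm⟩
  · intro g hg P
    have h3 := hc g P
    have h4 : c g ≤ ∑ g ∈ s, c g := Finset.single_le_sum (fun _ _ => Nat.zero_le _) hg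
    have h5 : ht P ≤ 2 * ht (g + P) + (C + ∑ g ∈ s, c g) := by omega
    exact_mod_cast h5
  · intro P
    have h3 := h2 P
    have h4 : 4 * ht P ≤ ht (P + P) + (C + ∑ g ∈ s, c g) := by omega
    have h5 : (4 : ℝ) * ht P ≤ ht (P + P) + ((C + ∑ g ∈ s, c g : ℕ) : ℝ) := by exact_mod_cast h4
    have h6 : (AddMonoidHom.id G + AddMonoidHom.id G) P = P + P := rfl
    rw [h6]
    linarith

theorem core (hH : S_HTT) {O K : Type} [CommRing O] [IsDedekindDomain O] [Field K] [CharP K 2]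
    [Algebra O K] [IsFractionRing O K] [Finite (ClassGroup O)] (w : Vl K)
    (hge : ∀ x : O, x ≠ 0 → 1 ≤ w (algebraMap O K x))
    (hfn : ∀ N : ℤ, {x : O | w (algebraMap O K x) ≤ exp N}.Finite)
    (W : Affine K) (A B : K) (h : Std W A B) {N : ℕ} (hI : Idx W.Point N) :
    AddGroup.FG W.Point := by
  have h2 : (2 : K) = 0 := CharTwo.two_eq_zero
  obtain ⟨C, hC⟩ := Fink.key (O := O) w hge B h.b0
  refine fg_of hI (Fink.ht O w) (hH O K w hge W A B h) (C := C + 4 * Fink.hh O w (0 : K)) ?_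
    (fun n => Fink.fin_ht (O := O) w hge hfn h n)
  intro P
  rcases P with _ | ⟨x, y, hn⟩
  · show 4 * 0 ≤ _
    omega
  · by_cases hx : x = 0
    · subst hx
      show 4 * Fink.hh O w (0 : K) ≤ _
      omega
    · have hl : (x ^ 2 + y) / x * x = x ^ 2 + y := div_mul_cancel₀ _ hx
      set l := (x ^ 2 + y) / x with hldef
      obtain ⟨n1, e1⟩ := h.tang hn hx hl rfl rfl
      rw [e1]
      show 4 * Fink.hh O w x ≤ Fink.hh O w _ + (C + 4 * Fink.hh O w (0 : K))
      have h3 := hC x (l ^ 2 + l + A) hx (by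
        have e := h.eq_of hn
        linear_combination (l * x + x ^ 2 + y + x) * hl + e +
          (x ^ 2 * y + A * x ^ 2 + x ^ 3) * h2)
      exact h3.trans (by omega)

theorem mwf : S_HTT → S_MWF := by
  intro hH k K _ _ _ _ _ _ hK W A B h hI
  obtain ⟨N, hI⟩ := hI
  obtain ⟨φ, hφ, hpres⟩ := Drc.dri Dra.dra Drb.drb k K hK
  letI i1 : Algebra (RatFunc k) K := φ.toAlgebra
  obtain ⟨hfd, hsep, w, hinf⟩ := hpres
  haveI := hfd
  haveI := hsep
  letI i2 : Algebra k[X] K := (φ.comp (algebraMap k[X] (RatFunc k))).toAlgebra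
  haveI i3 : IsScalarTower k[X] (RatFunc k) K := IsScalarTower.of_algebraMap_eq fun _ => rfl
  haveI : IsDedekindDomain (integralClosure k[X] K) :=
    integralClosure.isDedekindDomain k[X] (RatFunc k) K
  haveI : IsFractionRing (integralClosure k[X] K) K :=
    IsIntegralClosure.isFractionRing_of_finite_extension k[X] (RatFunc k) K _
  have hF := Infb.infb k (RatFunc k) K (integralClosure k[X] K) w hinf
  haveI : Fintype k := Fintype.ofFinite k
  haveI : Finite (ClassGroup (integralClosure k[X] K)) := by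
    haveI := ClassGroup.fintypeOfAdmissibleOfFinite (S := integralClosure k[X] K) (RatFunc k) K
      (Polynomial.cardPowDegreeIsAdmissible :
        AbsoluteValue.IsAdmissible (Polynomial.cardPowDegree : AbsoluteValue k[X] ℤ))
    exact Finite.of_fintype _
  exact core hH (O := integralClosure k[X] K) w hF.ge_one hF.fin W A B h hI

end Pool.Agent.H467.PU.Mwf
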