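import Pool.Agent.H467.PU.Spec
import Pool.Agent.H467.PG.Div

/-!
Project PU (helper467), part NICW: most divisors are nice (adapted from PG/Nic.lean by helper878).
-/

set_option autoImplicit false

open Finset Filter WithZero
open Pool.Agent.H467.PT
open Pool.Agent.H467.GK
open Pool.Agent.H467.PG
open scoped Classical

namespace Pool.Agent.H467.PU.Nicw

theorem nicw : S_NNC → S_PKG → S_RKG → S_CHB → S_UBG → S_POQ → S_NICW := by
  intro hN hP hR hC hU hQ k K _ _ _ _ _ _ hFF F B bd mp C₀ θ ε hθ hε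
  obtain ⟨C, c', W, n₀, hPH⟩ := hP k K hFF F.R B
  obtain ⟨C₄, C₅, hRH⟩ := hR k K F B bd
  obtain ⟨L, hL, M, hM⟩ := hN (Ob B) (sysB F.R B) (Nat.card k) C c' W n₀ hPH
    (Fin bd.n → ZMod 2) (Rl bd) C₄ C₅ hRH (C₀ + 2) 24 θ ε hθ hε
  set AA : Set (Qc K) := {α | α ≠ 0 ∧ (∀ j ∈ B, poq j α ≤ mp j) ∧
    (∀ j : Ob B, L < F.R.deg j.1 → poq j.1 α = 0) ∧
    (∀ j : Ob B, F.R.deg j.1 ≤ L → poq j.1 α ≤ 2 * M)} with hAA
  -- finiteness
  set f : PV K → ℕ := fun j => if j ∈ B then mp j else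
    if j ∈ F.R.le L then M else 0 with hf
  set D' : PV K →₀ ℕ := Finsupp.onFinset (B ∪ F.R.le L) f (by
    intro j hj
    rw [Finset.mem_union]
    by_contra hcon
    rw [not_or] at hcon
    refine hj ?_
    simp only [hf]
    rw [if_neg hcon.1, if_neg hcon.2]) with hD'
  have hfin : AA.Finite := by
    obtain ⟨CU, -, h1⟩ := hU k K F.R
    refine (h1 D').1.subset ?_
    rintro α ⟨-, a1, a2, a3⟩ j
    obtain ⟨-, -, -, p4, -⟩ := hQ K j
    have e1 : (2 * ((D' j : ℕ) : ℤ)) = ((2 * D' j : ℕ) : ℤ) := by push_cast; rfl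
    rw [e1, p4]
    have e2 : D' j = f j := rfl
    rw [e2]
    simp only [hf]
    by_cases hjB : j ∈ B
    · rw [if_pos hjB]
      have := a1 j hjB
      omega
    · rw [if_neg hjB]
      by_cases hjL : j ∈ F.R.le L
      · rw [if_pos hjL]
        exact a3 ⟨j, hjB⟩ ((F.R.mem_le L j).1 hjL)
      · rw [if_neg hjL]
        have h2 : L < F.R.deg j := by
          by_contra hcon
          exact hjL ((F.R.mem_le L j).2 (not_lt.1 hcon))
        rw [a2 ⟨j, hjB⟩ h2]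
  set FA : Set (Set (Ob B)) := (fun α : Qc K => {j : Ob B | ¬ Spl j.1 α}) '' AA with hFA
  obtain ⟨m₀, hm₀⟩ := hM FA (hfin.image _) (by
    rintro I ⟨α, hα, rfl⟩
    exact hC k K hFF F.R B α hα.1)
  refine ⟨L, hL, M, m₀, fun m hm => le_trans ?_ (hm₀ m hm)⟩
  have hsub : {D : Ob B →₀ ℕ | dgf (sysB F.R B) D = m ∧ ¬ NiceW bd mp L M C₀ θ D} ⊆
      {D : Ob B →₀ ℕ | dgf (sysB F.R B) D = m ∧
        ¬ NiceG (sysB F.R B) (Nat.card k) (Rl bd) L M (C₀ + 2) θ FA D} := by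
    rintro D ⟨h1, h2⟩
    refine ⟨h1, fun h3 => h2 ?_⟩
    exact
      { sqf := h3.sqf
        sml := h3.sml
        good := h3.good
        many := h3.many
        hit := fun α hα a1 a2 a3 => h3.hit _ ⟨α, ⟨hα, a1, a2, a3⟩, rfl⟩ }
  have hfd : {D : Ob B →₀ ℕ | dgf (sysB F.R B) D = m ∧
      ¬ NiceG (sysB F.R B) (Nat.card k) (Rl bd) L M (C₀ + 2) θ FA D}.Finite := by
    refine (Div.fin (S := sysB F.R B) m).subset ?_
    rintro D ⟨h1, -⟩
    exact h1
  exact_mod_cast Set.ncard_le_ncard hsub hfd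

end Pool.Agent.H467.PU.Nicw
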