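import Pool.Agent.H467.PU.Spec
import Pool.Agent.H467.PG.Omd

/-!
# The complete law: the distribution for a nice divisor

Project PU (helper467), part OMDW (helper379).
-/

set_option autoImplicit false
set_option linter.all false

open Finset Filter WithZero
open Pool.Agent.TH115.GD
open Pool.Agent.H467.PT
open Pool.Agent.H467.GK
open Pool.Agent.H467.CT (AS Bas IsTau Std Ev LV LF cc)
open Pool.Agent.H467.PG
open scoped Classical

namespace Pool.Agent.H467.PU.Omdw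

open Pool.Agent.H467.PU
open Pool.Agent.H467.PG.Omd (two spl_zero PP pp q1 q3 partS)

section

variable {k K : Type} [Field k] [Finite k] [CharP k 2] [Field K] [CharP K 2] [Algebra k K]

variable {F : GF k K} {B : Finset (PV K)} {bd : BD F B} {c : PV K → K} {m₀ : PV K → ℕ}
  {L M C₀ : ℕ} {θ : ℝ} {D : Ob B →₀ ℕ}

theorem w2 (P : ∀ j, PP K j) (N : NiceW bd m₀ L M C₀ θ D) {χ : Qc K} (hχ : χ ∈ OmD B c D) {j : Ob B}
    (hj : L < F.R.deg j.1) : poq j.1 χ ≤ 1 := by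
  have h1 := hχ.2 j
  have h2 := N.sqf j hj
  rw [← h1] at h2
  by_contra hc
  obtain ⟨m, hm⟩ := (P j.1).p10 χ (by omega)
  omega

theorem w4 (N : NiceW bd m₀ L M C₀ θ D) {χ : Qc K} (hχ : χ ∈ OmD B c D) {j : Ob B}
    (hj : F.R.deg j.1 ≤ L) : poq j.1 χ ≤ 2 * M := by
  by_cases hjU : j ∈ D.support
  · have h1 := hχ.2 j
    have h2 : D j * F.R.deg j.1 ≤ M :=
      (Finset.single_le_sum (f := fun p : Ob B => D p * F.R.deg p.1) (fun _ _ => Nat.zero_le _)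
        (Finset.mem_filter.2 ⟨hjU, hj⟩)).trans N.sml
    have h3 : D j ≤ M := (Nat.le_mul_of_pos_right _ (F.R.pos j.1)).trans h2
    rw [← h1] at h3
    omega
  · rw [q3 hχ hjU]
    exact Nat.zero_le _

theorem psi1 (P : ∀ j, PP K j) (N : NiceW bd m₀ L M C₀ θ D) {χ₁ : Qc K} (h₁ : χ₁ ∈ OmD B c D)
    {χ : Qc K} (h : χ ∈ Phi F.R B D.support L χ₁) :
    χ ∈ OmD B c D ∧ ∀ j ∈ D.support, F.R.deg j.1 ≤ L → Spl j.1 (χ + χ₁) := by
  have e1 : (χ + χ₁) + χ₁ = χ := by rw [add_assoc, two, add_zero]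
  obtain ⟨⟨a1, a2, a3, a4⟩, a5⟩ := h
  refine ⟨⟨fun j hj => ?_, fun j => ?_⟩, a2⟩
  · have h2 := (P j).p6 _ _ (a1 j hj) (h₁.1 j hj)
    rw [← add_assoc, e1] at h2
    exact h2
  · have b3 : poq j.1 χ ≤ max (poq j.1 (χ + χ₁)) (poq j.1 χ₁) := by
      have h3 := (P j.1).p8 (χ + χ₁) χ₁
      rw [e1] at h3
      exact h3
    by_cases hjU : j ∈ D.support
    · rcases le_or_gt (F.R.deg j.1) L with hj | hj
      · rw [(P j.1).p9 χ χ₁ (a2 j hjU hj)]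
        exact h₁.2 j
      · have b1 : poq j.1 (χ + χ₁) ≤ 1 := ((P j.1).p3 _ 1).1 (a3 j hjU hj)
        have b2 := w2 P N h₁ hj
        have b4 := b3.trans (max_le b1 b2)
        have b5 : poq j.1 χ ≠ 0 := a5 j hjU hj
        have b6 : D j ≠ 0 := Finsupp.mem_support_iff.1 hjU
        have b7 := N.sqf j hj
        have b8 : poq j.1 χ = 1 := by omega
        have b9 : D j = 1 := by omega
        rw [b8, b9]
    · have b1 : poq j.1 (χ + χ₁) = 0 := ((P j.1).p5 _).2 (a4 j hjU)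
      rw [b1, q3 h₁ hjU, max_self] at b3
      rw [Nat.le_zero.1 b3, Finsupp.notMem_support_iff.1 hjU]
      rfl

theorem psi2 (P : ∀ j, PP K j) (N : NiceW bd m₀ L M C₀ θ D) {χ₁ : Qc K} (h₁ : χ₁ ∈ OmD B c D)
    {χ : Qc K} (h2 : χ ∈ OmD B c D) (a2 : ∀ j ∈ D.support, F.R.deg j.1 ≤ L → Spl j.1 (χ + χ₁)) :
    χ ∈ Phi F.R B D.support L χ₁ := by
  refine ⟨⟨fun j hj => ?_, a2, fun j hjU hj => ?_, fun j hjU => ?_⟩, fun j hjU _ => q1 h2 hjU⟩
  · have h3 := (P j).p6 _ _ (h2.1 j hj) (h₁.1 j hj)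
    have e2 : χ + mkq (c j) + (χ₁ + mkq (c j)) = χ + χ₁ := by
      have : χ + mkq (c j) + (χ₁ + mkq (c j)) = χ + χ₁ + (mkq (c j) + mkq (c j)) := by abel
      rw [this, two, add_zero]
    rw [e2] at h3
    exact h3
  · exact ((P j.1).p3 _ 1).2 (((P j.1).p8 χ χ₁).trans (max_le (w2 P N h2 hj) (w2 P N h₁ hj)))
  · refine ((P j.1).p5 _).1 ?_
    have b3 := (P j.1).p8 χ χ₁
    rw [q3 h2 hjU, q3 h₁ hjU, max_self] at b3
    exact Nat.le_zero.1 b3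

theorem psi3 (P : ∀ j, PP K j) (N : NiceW bd m₀ L M C₀ θ D) {χ₁ : Qc K} (h₁ : χ₁ ∈ OmD B c D)
    {χ : Qc K} (h2 : χ ∈ OmD B c D) :
    Phi F.R B D.support L χ = Phi F.R B D.support L χ₁ ↔ χ ∈ Phi F.R B D.support L χ₁ := by
  constructor
  · intro he
    rw [← he]
    exact psi2 P N h2 h2 fun j _ _ => by rw [two]; exact spl_zero _
  · intro h3
    have h4 := (psi1 P N h₁ h3).2
    apply Set.Subset.antisymm
    · intro χ' h5
      obtain ⟨h6, h7⟩ := psi1 P N h2 h5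
      refine psi2 P N h₁ h6 fun j hj hj' => ?_
      have h8 := (P j.1).p6 _ _ (h7 j hj hj') (h4 j hj hj')
      have e : χ' + χ + (χ + χ₁) = χ' + χ₁ := by
        have : χ' + χ + (χ + χ₁) = χ' + χ₁ + (χ + χ) := by abel
        rw [this, two, add_zero]
      rw [e] at h8
      exact h8
    · intro χ' h5
      obtain ⟨h6, h7⟩ := psi1 P N h₁ h5
      refine psi2 P N h2 h6 fun j hj hj' => ?_
      have h8 := (P j.1).p6 _ _ (h7 j hj hj') (h4 j hj hj')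
      have e : χ' + χ₁ + (χ + χ₁) = χ' + χ := by
        have : χ' + χ₁ + (χ + χ₁) = χ' + χ + (χ₁ + χ₁) := by abel
        rw [this, two, add_zero]
      rw [e] at h8
      exact h8

theorem hypw (P : ∀ j, PP K j) (N : NiceW bd m₀ L M C₀ θ D) {χ₁ : Qc K} (h₁ : χ₁ ∈ OmD B c D)
    (α : Qc K) (hα : α ≠ 0) (a1 : ∀ j ∈ B, poq j α ≤ m₀ j)
    (a2 : ∀ j ∈ D.support, F.R.deg j.1 ≤ L → poq j.1 α ≤ poq j.1 χ₁)
    (a3 : ∀ j : Ob B, ¬ (j ∈ D.support ∧ F.R.deg j.1 ≤ L) → poq j.1 α = 0) :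
    ∃ p ∈ D.support, L < F.R.deg p.1 ∧ ¬ Spl p.1 α := by
  refine N.hit α hα a1 (fun j hj => ?_) (fun j hj => ?_)
  · exact a3 j fun h => absurd h.2 (not_le.2 hj)
  · by_cases hjU : j ∈ D.support
    · exact (a2 j hjU hj).trans (w4 N h₁ hj)
    · rw [a3 j fun h => hjU h.1]
      exact Nat.zero_le _

theorem inw (P : ∀ j, PP K j) {d : PV K → ℕ} {w : ∀ j : PV K, Fin (d j) → Qc K} {χ₁ : Qc K}
    (h₁ : χ₁ ∈ OmD B c D) {j : PV K} (hj : j ∈ B) (h : InW d w j (mkq (c j))) : InW d w j χ₁ := by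
  obtain ⟨T, hT⟩ := h
  refine ⟨T, ?_⟩
  have h3 := (P j).p6 _ _ (h₁.1 j hj) hT
  have e : χ₁ + mkq (c j) + (mkq (c j) + ∑ i ∈ T, w j i) = χ₁ + ∑ i ∈ T, w j i := by
    have : χ₁ + mkq (c j) + (mkq (c j) + ∑ i ∈ T, w j i) =
        χ₁ + ∑ i ∈ T, w j i + (mkq (c j) + mkq (c j)) := by abel
    rw [this, two, add_zero]
  rw [e] at h3
  exact h3

end

theorem omdw : S_FIBW → S_OMU → S_POQ → S_OMDW := by
  intro hFIB hOMU hPOQ k K _ _ _ _ _ _ F B bd c d w m₀ L M C₀ C₁ θ D hWD hin hC₁ hL hC hθ hθ' N r s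
    hrs
  obtain ⟨Cu, -, hCu⟩ := hOMU k K F.R B c
  have P : ∀ j, PP K j := pp F.R hPOQ
  refine partS (OmD B c D) (hCu D).1 (fun χ => Phi F.R B D.support L χ)
    (fun χ => (SVW B d w χ).ncard = 2 ^ (s + 1)) _ _ fun χ₁ h₁ => ?_
  have fib := (hFIB k K F B bd D.support d w m₀ L C₀ C₁ θ χ₁ hWD (fun j hj => inw P h₁ hj (hin j hj))
      hC₁ hL hC hθ.le hθ' N.good N.many
      (fun j hj _ => q1 h₁ hj) (fun j _ hj => w2 P N h₁ hj) (fun j hj => q3 h₁ hj)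
      (hypw P N h₁)).2.2 r s hrs
  have n3 : {χ ∈ OmD B c D | Phi F.R B D.support L χ = Phi F.R B D.support L χ₁} =
      Phi F.R B D.support L χ₁ := by
    ext χ
    constructor
    · rintro ⟨h2, h3⟩
      exact (psi3 P N h₁ h2).1 h3
    · intro h3
      have h2 := (psi1 P N h₁ h3).1
      exact ⟨h2, (psi3 P N h₁ h2).2 h3⟩
  have n4 : {χ ∈ OmD B c D | Phi F.R B D.support L χ = Phi F.R B D.support L χ₁ ∧
      (SVW B d w χ).ncard = 2 ^ (s + 1)} =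
      {χ ∈ Phi F.R B D.support L χ₁ | (SVW B d w χ).ncard = 2 ^ (s + 1)} := by
    ext χ
    constructor
    · rintro ⟨h2, h3, h4⟩
      exact ⟨(psi3 P N h₁ h2).1 h3, h4⟩
    · rintro ⟨h3, h4⟩
      have h2 := (psi1 P N h₁ h3).1
      exact ⟨h2, (psi3 P N h₁ h2).2 h3, h4⟩
  beta_reduce
  rw [n3, n4]
  exact fib

end Pool.Agent.H467.PU.Omdw
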