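import Pool.Agent.H467.PU.Spec
import Pool.Agent.H467.PG.One

/-!
# The complete law: the conclusion for one twist

Project PU (helper467), part ONEW (helper225).
-/

set_option autoImplicit false
set_option linter.all false

open Finset Filter WithZero WeierstrassCurve WeierstrassCurve.Affine
open Pool.Agent.TH115.GD
open Pool.Agent.H467.PT
open Pool.Agent.H467.GK
open Pool.Agent.H467.CT (AS Bas IsTau Std Ev LV LF cc)
open Pool.Agent.H467.PG
open scoped Classical

namespace Pool.Agent.H467.PU.Onew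

open Pool.Agent.H467.PG.One (mkq_add mkq_zero mkq_eq_zero mkq_self spl_zero)

/-- the local condition depends only on the classes -/
theorem lv_inv {L : Type} [Field L] [CharP L 2] {a b α w z : L} (h : LV a b α) :
    LV (a + (w ^ 2 + w)) b (α + (z ^ 2 + z)) := by
  rcases h with h | ⟨x, h1, h2, h3⟩
  · exact Or.inl (Pool.Agent.H467.CT.AS_add h (Pool.Agent.H467.CT.AS_sq z))
  · refine Or.inr ⟨x, ?_, fun hx => ?_, h3⟩
    · have e : α + (z ^ 2 + z) + x + (a + (w ^ 2 + w)) = (α + x + a) + (z ^ 2 + z) + (w ^ 2 + w) := by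
        ring
      rw [e]
      exact Pool.Agent.H467.CT.AS_add (Pool.Agent.H467.CT.AS_add h1
        (Pool.Agent.H467.CT.AS_sq z)) (Pool.Agent.H467.CT.AS_sq w)
    · have e : x + (a + (w ^ 2 + w)) + b / x ^ 2 = (x + a + b / x ^ 2) + (w ^ 2 + w) := by
        ring
      rw [e]
      exact Pool.Agent.H467.CT.AS_add (h2 hx) (Pool.Agent.H467.CT.AS_sq w)

/-- two representatives of a class -/
theorem rep {K : Type} [Field K] [CharP K 2] {x y : K} (h : mkq x = mkq y) :
    ∃ z : K, x = y + (z ^ 2 + z) := by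
  have h1 : AS (y + x) := by
    rw [← mkq_eq_zero, mkq_add, h]
    exact mkq_self y
  obtain ⟨z, hz⟩ := h1
  refine ⟨z, ?_⟩
  rw [← hz, ← add_assoc, CharTwo.add_self_eq_zero, zero_add]

/-- membership in the local image -/
theorem mem_wl {K : Type} [Field K] [CharP K 2] (a b : K) (j : PV K) (α : K) :
    mkq α ∈ Wl b j (mkq a) ↔ LV (algebraMap K (Cm j.1) (a ^ 2)) (algebraMap K (Cm j.1) (b ^ 2))
      (algebraMap K (Cm j.1) α) := by
  constructor
  · intro h
    exact h α a rfl rfl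
  · intro h x a' hx ha'
    obtain ⟨z, hz⟩ := rep hx
    obtain ⟨w, hw⟩ := rep ha'
    have e1 : algebraMap K (Cm j.1) x = algebraMap K (Cm j.1) α +
        ((algebraMap K (Cm j.1) z) ^ 2 + algebraMap K (Cm j.1) z) := by
      rw [hz, map_add, map_add, map_pow]
    have e2 : algebraMap K (Cm j.1) (a' ^ 2) = algebraMap K (Cm j.1) (a ^ 2) +
        ((algebraMap K (Cm j.1) (w ^ 2)) ^ 2 + algebraMap K (Cm j.1) (w ^ 2)) := by
      have e3 : a' ^ 2 = a ^ 2 + ((w ^ 2) ^ 2 + w ^ 2) := by
        rw [hw]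
        have c2 : (2 : K) = 0 := CharTwo.two_eq_zero
        linear_combination (a * (w ^ 2 + w) + w ^ 3) * c2
      rw [e3]
      simp only [map_add, map_pow]
    rw [e1, e2]
    exact lv_inv h

theorem onew : S_ORT → S_LWX → S_FULW → S_FFI → S_SQMA → S_DWNA → S_POQ → S_SYM → S_ONEW := by
  intro hORT hLWX hFULW hFFI hSQMA hDWNA hPOQ hSYM k K _ _ _ _ _ _ hff F a b hb S hS hbS
  have hres : ∀ j : PV K, Finite (IsLocalRing.ResidueField j.1.valuationSubring) := by
    intro j
    apply Nat.finite_of_card_ne_zero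
    rw [F.R.resc j]
    exact pow_ne_zero _ (Nat.card_ne_zero.2 ⟨⟨0⟩, inferInstance⟩)
  have hout : ∀ j : PV K, j ∉ S → ∀ α : Qc K, α ∈ Wl b j (mkq a) ↔
      (poq j (mkq a) = 0 → poq j α = 0) ∧ (poq j (mkq a) ≠ 0 → Spl j α ∨ Spl j (α + mkq a)) := by
    intro j hj α
    obtain ⟨-, -, -, p4, -, -⟩ := hLWX K j (hres j) b hb
    exact (p4 a (Or.inl (hbS j hj))).2 α
  have hall : ∀ α : Qc K, α ∈ SVL S (fun j => Wl b j (mkq a)) (mkq a) ↔
      ∀ j : PV K, α ∈ Wl b j (mkq a) := by
    intro α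
    constructor
    · rintro ⟨h1, h2⟩ j
      by_cases hj : j ∈ S
      · exact h1 j hj
      · exact (hout j hj α).2 (h2 j hj)
    · intro h
      exact ⟨fun j _ => h j, fun j hj => (hout j hj α).1 (h j)⟩
  have hV : ∀ α : K, AllVA (a ^ 2) (b ^ 2) α ↔
      mkq α ∈ SVL S (fun j => Wl b j (mkq a)) (mkq a) := by
    intro α
    rw [hall]
    constructor
    · intro h j
      exact (mem_wl a b j α).2 (h j.1 j.2)
    · intro h u hu
      exact (mem_wl a b ⟨u, hu⟩ α).1 (h ⟨u, hu⟩)
  refine ⟨hV, fun dm hdm hsum hcard hAS => ?_⟩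
  have hne : (0 : Qc K) ≠ mkq a := fun h => hAS (mkq_eq_zero.1 h.symm)
  have h0 : (0 : Qc K) ∈ SVL S (fun j => Wl b j (mkq a)) (mkq a) := by
    rw [← mkq_zero, ← hV]
    intro u hu
    left
    rw [map_zero]
    exact Pool.Agent.H467.CT.AS_zero
  have h1 : mkq a ∈ SVL S (fun j => Wl b j (mkq a)) (mkq a) := by
    rw [hall]
    intro j
    obtain ⟨-, -, p3, -, -, -⟩ := hLWX K j (hres j) b hb
    exact p3 (mkq a)
  have hSV : SVL S (fun j => Wl b j (mkq a)) (mkq a) = {0, mkq a} := by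
    have hfin : (SVL S (fun j => Wl b j (mkq a)) (mkq a)).Finite :=
      Set.finite_of_ncard_ne_zero (by rw [hcard]; norm_num)
    symm
    apply Set.eq_of_subset_of_ncard_le _ _ hfin
    · intro x hx
      rcases hx with rfl | rfl
      · exact h0
      · exact h1
    · rw [hcard, Set.ncard_pair hne]
  have hV' : ∀ α : K, AllVA (a ^ 2) (b ^ 2) α → AS α ∨ AS (α + a ^ 2) := by
    intro α hα
    have h2 := (hV α).1 hα
    rw [hSV] at h2
    rcases h2 with h2 | h2
    · exact Or.inl (mkq_eq_zero.1 h2)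
    · right
      have h3 : AS (α + a) := by
        rw [← mkq_eq_zero, mkq_add, h2]
        exact mkq_self a
      have h4 := Pool.Agent.H467.CT.AS_add h3 (Pool.Agent.H467.CT.AS_sq a)
      have h5 : α + a + (a ^ 2 + a) = α + a ^ 2 := by
        linear_combination CharTwo.add_self_eq_zero a
      rwa [h5] at h4
  -- the bases of the local images
  choose! w hw1 hw2 using fun (j : PV K) (hj : j ∈ S) => hdm j hj
  have hInW : ∀ j ∈ S, ∀ α : Qc K, InW dm w j α ↔ α ∈ Wl b j (mkq a) :=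
    fun j hj α => (hw2 j hj α).symm
  have hSVW : SVW S dm w (mkq a) = SVL S (fun j => Wl b j (mkq a)) (mkq a) := by
    ext α
    constructor
    · rintro ⟨h2, h3⟩
      exact ⟨fun j hj => (hInW j hj α).1 (h2 j hj), h3⟩
    · rintro ⟨h2, h3⟩
      exact ⟨fun j hj => (hInW j hj α).2 (h2 j hj), h3⟩
  have hWD : WD S dm w (fun j => Finset.univ.sup (fun i => poq j (w j i))) :=
    ⟨fun j hj T hT => hw1 j hj T hT,
      fun j _ i => Finset.le_sup (f := fun i => poq j (w j i)) (Finset.mem_univ i)⟩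
  have hF' : ∀ d : K, d ≠ 0 → AllFA (a ^ 2) (b ^ 2) d → IsSquare d := by
    intro d hd hdF
    have hpr : ∀ j : PV K, ∀ α : Qc K, α ∈ Wl b j (mkq a) → pr F.G j d α = 0 := by
      intro j α hα
      have e1 : mkq α.out = α := Quotient.out_eq' α
      have h2 := hα α.out a e1 rfl
      have hb2 : algebraMap K (Cm j.1) (b ^ 2) ≠ 0 := by
        rw [Ne, map_eq_zero]
        exact pow_ne_zero 2 hb
      have hd2 : algebraMap K (Cm j.1) d ≠ 0 := by
        rw [Ne, map_eq_zero]
        exact hd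
      have h3 := hORT (Cm j.1) _ _ _ _ hb2 hd2 h2 (hdF j.1 j.2)
      show F.G.sy j (α.out * dl F.G.t d) = 0
      apply F.G.nrm j α.out d hd
      rcases h3 with ⟨c, hc⟩ | h3
      · have hc0 : c ≠ 0 := by
          rintro rfl
          apply hd2
          rw [hc, mul_zero]
        refine ⟨algebraMap K (Cm j.1) α.out / c, algebraMap K (Cm j.1) α.out, ?_⟩
        rw [hc]
        field_simp
        ring
      · exact h3
    apply hFULW k K F S hS dm w _ (mkq a) hWD hsum (by rw [hSVW]; exact hcard) d hd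
    · intro j hj l
      apply hpr j
      rw [← hInW j hj]
      refine ⟨{l}, ?_⟩
      rw [Finset.sum_singleton]
      have e1 : mkq (w j l).out = w j l := Quotient.out_eq' (w j l)
      rw [← e1, mkq_self]
      exact spl_zero j
    · intro j hj
      refine ⟨fun h2 => ?_, fun _ => ?_⟩
      · by_contra hev
        obtain ⟨-, p2, -, -, p5, -, -, -, -, p10⟩ := hPOQ K j
        obtain ⟨-, -, x, hx1, hx2⟩ := p10 (hres j)
        have hx3 : poq j (mkq x) = 0 := (p5 (mkq x)).2 ⟨x, rfl, hx1⟩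
        have hx4 : ¬ Spl j (mkq x) := fun h => hx2 ((p2 x).2 h)
        have h3 := hpr j (mkq x) ((hout j hj (mkq x)).2 ⟨fun _ => hx3, fun h => absurd h2 h⟩)
        obtain ⟨-, -, -, -, -, -, s7, -⟩ := hSYM K F.G j (hres j)
        have h4 := s7 (mkq x) d hd hx3 hx4 hev
        rw [h3] at h4
        exact zero_ne_one h4
      · exact hpr j (mkq a) (((hall (mkq a)).1 h1) j)
  exact hDWNA k K hff a b F.G.t hb F.G.bas hAS
    (hSQMA K (a ^ 2) b F.G.t hb F.G.bas hV' hF') (hFFI k K F a b hb)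

end Pool.Agent.H467.PU.Onew
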