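import Pool.Agent.H467.PU.Spec

/-!
# The local images of the two isogenies are orthogonal

helper213, for project PU of helper467.
-/

set_option autoImplicit false

open Pool.Agent.H467.CT (AS LV LF)

namespace Pool.Agent.H467.PU.Ort

section

variable {L : Type} [Field L] [CharP L 2]

theorem two_zero : (2 : L) = 0 := by
  have h := CharP.cast_eq_zero L 2
  rwa [Nat.cast_ofNat] at h

theorem as_add {x y : L} (hx : AS x) (hy : AS y) : AS (x + y) := by
  obtain ⟨z, hz⟩ := hx
  obtain ⟨w, hw⟩ := hy
  exact ⟨z + w, by linear_combination hz + hw - z * w * (two_zero : (2 : L) = 0)⟩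

/-- The case of a value `X` of the other isogeny. -/
theorem main_case (a b α d x X c m A : L) (hd : d ≠ 0) (hA : A = x + a)
    (h1 : AS (α + A)) (hX : X ≠ 0) (hc : X * d = c * c) (hm : X + b / X + a = m ^ 2 + m)
    (u v : L) (huv : X * (x + X + b / X) = u ^ 2 + u * v + A * v ^ 2) :
    IsSquare d ∨ ∃ r : L, AS (α + d * r ^ 2) := by
  have h2 : (2 : L) = 0 := two_zero
  obtain ⟨D, hD⟩ : ∃ D : L, D = x + X + b / X := ⟨_, rfl⟩
  rw [← hD] at huv
  have hN : D = m ^ 2 + m + A := by
    rw [hD, hA]
    linear_combination hm + (-a) * h2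
  by_cases hD0 : D = 0
  · -- `A` is in the image
    right
    refine ⟨0, ?_⟩
    have hAs : AS A := ⟨m, by linear_combination hD0 - hN + (- (m ^ 2 + m)) * h2⟩
    have h3 := as_add h1 hAs
    have h4 : α + A + A = α + d * 0 ^ 2 := by linear_combination A * h2
    rwa [h4] at h3
  · obtain ⟨U, hU⟩ : ∃ U : L, U = u * m + A * v := ⟨_, rfl⟩
    obtain ⟨V, hV⟩ : ∃ V : L, V = u + m * v + v := ⟨_, rfl⟩
    have hUV : X * D ^ 2 = U ^ 2 + U * V + A * V ^ 2 := by
      have h5 : X * D ^ 2 = (u ^ 2 + u * v + A * v ^ 2) * (m ^ 2 + m + A) := by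
        rw [← huv, ← hN]
        ring
      rw [h5, hU, hV]
      linear_combination (-(A * v ^ 2 + 2 * A * u * v * m + A * u * v + A * m * v ^ 2)) * h2
    by_cases hV0 : V = 0
    · left
      have h6 : X * D ^ 2 = U ^ 2 := by
        rw [hUV, hV0]
        ring
      have hU0 : U ≠ 0 := by
        intro h
        rw [h] at h6
        have : X * D ^ 2 ≠ 0 := mul_ne_zero hX (pow_ne_zero 2 hD0)
        exact this (by rw [h6]; ring)
      refine ⟨c * D / U, ?_⟩
      have h7 : d * U ^ 2 = c * c * D ^ 2 := by
        rw [← h6, ← hc]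
        ring
      field_simp
      linear_combination h7
    · right
      refine ⟨D / V * (c / d), ?_⟩
      have h8 : AS (A + d * (D / V * (c / d)) ^ 2) := by
        refine ⟨U / V, ?_⟩
        have h9 : d * (D / V * (c / d)) ^ 2 = X * D ^ 2 / V ^ 2 := by
          have h10 : X = c * c / d := by
            field_simp
            linear_combination hc
          rw [h10]
          field_simp
        rw [h9, hUV]
        field_simp
        linear_combination (A * V ^ 2) * h2
      have h11 := as_add h1 h8
      have h12 : α + A + (A + d * (D / V * (c / d)) ^ 2) = α + d * (D / V * (c / d)) ^ 2 := by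
        linear_combination A * h2
      rwa [h12] at h11

end

theorem ort : S_ORT := by
  intro L _ _ a b α d hb hd hV hF
  have h2 : (2 : L) = 0 := two_zero
  rcases hV with hα | ⟨x, h1, hx1, hx0⟩
  · right
    refine ⟨0, ?_⟩
    have : α + d * 0 ^ 2 = α := by ring
    rwa [this]
  rcases hF with hF | ⟨c, hc⟩ | ⟨X, hX, ⟨c, hc⟩, ⟨m, hm⟩⟩
  · exact Or.inl hF
  · by_cases hx : x = 0
    · left
      obtain ⟨β, hβ⟩ := hx0 hx
      have hβ0 : β ≠ 0 := by
        rintro rfl
        exact hb (by rw [hβ]; ring)
      refine ⟨c / β, ?_⟩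
      rw [hβ] at hc
      field_simp
      linear_combination hc
    · right
      refine ⟨c / (d * x), ?_⟩
      have h3 := as_add h1 (hx1 hx)
      have h4 : α + x + a + (x + a + b / x ^ 2) = α + d * (c / (d * x)) ^ 2 := by
        have h5 : d * (c / (d * x)) ^ 2 = b / x ^ 2 := by
          field_simp
          linear_combination -hc
        rw [h5]
        linear_combination (x + a) * h2
      rwa [h4] at h3
  · have h1' : AS (α + (x + a)) := by
      rwa [← add_assoc]
    by_cases hx : x = 0
    · obtain ⟨β, hβ⟩ := hx0 hx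
      refine main_case a b α d x X c m (x + a) hd rfl h1' hX hc hm (X + β) 0 ?_
      have h6 : X * (x + X + b / X) = x * X + X ^ 2 + b := by
        field_simp
      rw [h6, hx, hβ]
      linear_combination (-(X * β)) * h2
    · obtain ⟨n, hn⟩ := hx1 hx
      refine main_case a b α d x X c m (x + a) hd rfl h1' hX hc hm (X + n * x) x ?_
      have h6 : X * (x + X + b / X) = x * X + X ^ 2 + b := by
        field_simp
      have h7 : b = x ^ 2 * (n ^ 2 + n) + x ^ 2 * (x + a) := by
        have h8 : (x + a + b / x ^ 2) * x ^ 2 = (n ^ 2 + n) * x ^ 2 := by rw [hn]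
        have h9 : (x + a + b / x ^ 2) * x ^ 2 = (x + a) * x ^ 2 + b := by
          field_simp
        rw [h9] at h8
        linear_combination h8 - ((x + a) * x ^ 2) * h2
      rw [h6]
      linear_combination h7 - (X * n * x) * h2

end Pool.Agent.H467.PU.Ort
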