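import Pool.Agent.H467.PU.Spec2
import Pool.Agent.H467.CT.Loc

/-!
# The rank of one twist

Project PU (helper467), part by helper632.
-/

set_option autoImplicit false
set_option linter.all false

open Finset Filter WithZero WeierstrassCurve WeierstrassCurve.Affine
open Pool.Agent.TH115.GD
open Pool.Agent.H467.PT
open Pool.Agent.H467.GK
open Pool.Agent.H467.CT (AS Bas IsTau Std Ev LV LF cc fr xx)
open Pool.Agent.H467.PG
open scoped Classical

namespace Pool.Agent.H467.PU.Rone

/-- An injective additive map into a finitely generated group. -/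
theorem fg_rank {A B : Type} [AddCommGroup A] [AddCommGroup B] (f : A →+ B)
    (hf : Function.Injective f) (hB : AddGroup.FG B) :
    AddGroup.FG A ∧ Module.finrank ℤ A ≤ Module.finrank ℤ B := by
  haveI : Module.Finite ℤ B := Module.Finite.iff_addGroup_fg.2 hB
  have hinj : Function.Injective f.toIntLinearMap := hf
  haveI : Module.Finite ℤ A := Module.Finite.of_injective f.toIntLinearMap hinj
  exact ⟨Module.Finite.iff_addGroup_fg.1 inferInstance,
    LinearMap.finrank_le_finrank_of_injective hinj⟩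

theorem rone : S_ONEW → S_FULC → S_TDI → S_MWF → S_RKF → S_POQ → S_RONE := by
  intro hONE hFUL hTDI hMWF hRKF _ k K _ _ _ _ _ _ hFF F a b hb S hBS hbS dm hdm r s hrs hcard
  obtain ⟨hA, -⟩ := hONE k K hFF F a b hb S hBS hbS
  have hfin : (SVL S (fun j => Wl b j (mkq a)) (mkq a)).Finite := by
    apply Set.finite_of_ncard_ne_zero
    rw [hcard]
    positivity
  have hT := hFUL k K hFF F a b hb S hBS hbS dm hdm r s hrs hcard
  have hE : Std ((cc a b).baseChange K).toAffine a b :=
    CT.std_bc (K := K) (Ω := K) (a := a) (b := b) hb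
  have hW : Std ((cc (a ^ 2) (b ^ 2)).baseChange K).toAffine (a ^ 2) (b ^ 2) :=
    CT.std_bc2 (K := K) (Ω := K) (a := a) (b := b) hb
  have hidx : Idx ((cc (a ^ 2) (b ^ 2)).baseChange K).toAffine.Point (2 ^ (s + 1) * 2 ^ r) := by
    refine hTDI K a b hb (2 ^ (s + 1)) (2 ^ r) ⟨hfin.toFinset, ?_, ?_⟩ hT _ hW
    · rw [← Set.ncard_eq_toFinset_card _ hfin, hcard]
    · intro α hα
      rw [Set.Finite.mem_toFinset]
      exact (hA α).1 hα
  have hFG : AddGroup.FG ((cc (a ^ 2) (b ^ 2)).baseChange K).toAffine.Point :=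
    hMWF k K hFF _ _ _ hW ⟨_, hidx⟩
  have hrk : Module.finrank ℤ ((cc (a ^ 2) (b ^ 2)).baseChange K).toAffine.Point ≤ s + r := by
    refine hRKF _ hFG (s + r) ?_ ⟨CT.tt _ b, CT.tt_ne hW, CT.tt_two hW⟩
    rw [show s + r + 1 = (s + 1) + r by ring, pow_add]
    exact hidx
  let f : ((cc a b).baseChange K).toAffine.Point →+
      ((cc (a ^ 2) (b ^ 2)).baseChange K).toAffine.Point :=
    AddMonoidHom.mk' (fr _ _) (CT.fr_add hE hW)
  have hf : Function.Injective f := fun P Q e => CT.fr_inj hE hW e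
  obtain ⟨h1, h2⟩ := fg_rank f hf hFG
  exact ⟨h1, h2.trans hrk⟩

end Pool.Agent.H467.PU.Rone
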