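import Pool.Agent.H467.PU.Spec
import Pool.Agent.H467.PG.Svm

/-!
# The Selmer group and the left kernel, general local conditions at `B`

Project PU (helper467).
-/

set_option autoImplicit false
set_option linter.all false

open Finset Filter WithZero
open Pool.Agent.H467.PT
open Pool.Agent.H467.GK
open Pool.Agent.H467.CT (AS Bas Ev)
open Pool.Agent.H467.PG
open Pool.Agent.H467.PG.Jin
open Pool.Agent.H467.PG.Svm
open scoped Classical

namespace Pool.Agent.H467.PU.Svmw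

/-- The numbers of the elements of the two kernels of a matrix. -/
theorem kersg {ρ κ : Type} [Fintype ρ] [Fintype κ] (M : ρ → κ → ZMod 2) :
    {ε : κ → ZMod 2 | ∀ i, ∑ j, ε j * M i j = 0}.ncard * 2 ^ Fintype.card ρ =
      {e : ρ → ZMod 2 | ∀ j, ∑ i, e i * M i j = 0}.ncard * 2 ^ Fintype.card κ := by
  let A : Matrix ρ κ (ZMod 2) := Matrix.of M
  have h1 := LinearMap.finrank_range_add_finrank_ker A.mulVecLin
  have h2 := LinearMap.finrank_range_add_finrank_ker A.transpose.mulVecLin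
  have h3 : Module.finrank (ZMod 2) (LinearMap.range A.mulVecLin) = A.rank := rfl
  have h4 : Module.finrank (ZMod 2) (LinearMap.range A.transpose.mulVecLin) = A.rank := by
    rw [← Matrix.rank_transpose A]
    rfl
  rw [h3, Module.finrank_fintype_fun_eq_card] at h1
  rw [h4, Module.finrank_fintype_fun_eq_card] at h2
  have h5 : Module.finrank (ZMod 2) (LinearMap.ker A.mulVecLin) + Fintype.card ρ =
      Module.finrank (ZMod 2) (LinearMap.ker A.transpose.mulVecLin) + Fintype.card κ := by omega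
  have h6 : {ε : κ → ZMod 2 | ∀ i, ∑ j, ε j * M i j = 0} =
      (LinearMap.ker A.mulVecLin : Set (κ → ZMod 2)) := by
    ext ε
    rw [SetLike.mem_coe, LinearMap.mem_ker]
    constructor
    · intro h
      funext i
      rw [Pi.zero_apply, ← h i]
      show ∑ j, M i j * ε j = _
      exact Finset.sum_congr rfl fun j _ => mul_comm _ _
    · intro h i
      have h7 : (A.mulVecLin ε) i = 0 := by rw [h]; rfl
      rw [← h7]
      show _ = ∑ j, M i j * ε j
      exact Finset.sum_congr rfl fun j _ => mul_comm _ _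
  have h7 : {e : ρ → ZMod 2 | ∀ j, ∑ i, e i * M i j = 0} =
      (LinearMap.ker A.transpose.mulVecLin : Set (ρ → ZMod 2)) := by
    ext e
    rw [SetLike.mem_coe, LinearMap.mem_ker]
    constructor
    · intro h
      funext j
      rw [Pi.zero_apply, ← h j]
      show ∑ i, M i j * e i = _
      exact Finset.sum_congr rfl fun i _ => mul_comm _ _
    · intro h j
      have h8 : (A.transpose.mulVecLin e) j = 0 := by rw [h]; rfl
      rw [← h8]
      show _ = ∑ i, M i j * e i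
      exact Finset.sum_congr rfl fun i _ => mul_comm _ _
  rw [h6, h7]
  have h8 : ((LinearMap.ker A.mulVecLin : Set (κ → ZMod 2))).ncard =
      2 ^ Module.finrank (ZMod 2) (LinearMap.ker A.mulVecLin) := by
    have h9 : ((LinearMap.ker A.mulVecLin : Set (κ → ZMod 2))).ncard =
        Nat.card (LinearMap.ker A.mulVecLin) := rfl
    rw [h9, Module.natCard_eq_pow_finrank (K := ZMod 2), Nat.card_zmod]
  have h9 : ((LinearMap.ker A.transpose.mulVecLin : Set (ρ → ZMod 2))).ncard =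
      2 ^ Module.finrank (ZMod 2) (LinearMap.ker A.transpose.mulVecLin) := by
    have h10 : ((LinearMap.ker A.transpose.mulVecLin : Set (ρ → ZMod 2))).ncard =
        Nat.card (LinearMap.ker A.transpose.mulVecLin) := rfl
    rw [h10, Module.natCard_eq_pow_finrank (K := ZMod 2), Nat.card_zmod]
  rw [h8, h9, ← pow_add, ← pow_add, h5]

section basic

variable {K : Type} [Field K] [CharP K 2]

/-- sums over two sets -/
theorem sum_two {ι : Type} [DecidableEq ι] (w : ι → Qc K) (T T' : Finset ι) :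
    ∑ l ∈ T, w l + ∑ l ∈ T', w l = ∑ l ∈ (T \ T') ∪ (T' \ T), w l := by
  rw [Finset.sum_union disjoint_sdiff_sdiff, ← Finset.sum_inter_add_sum_sdiff T T' w,
    ← Finset.sum_inter_add_sum_sdiff T' T w, Finset.inter_comm T' T]
  have h := qc_self (∑ l ∈ T ∩ T', w l)
  calc ∑ l ∈ T ∩ T', w l + ∑ l ∈ T \ T', w l + (∑ l ∈ T ∩ T', w l + ∑ l ∈ T' \ T, w l)
      = (∑ l ∈ T ∩ T', w l + ∑ l ∈ T ∩ T', w l) + (∑ l ∈ T \ T', w l + ∑ l ∈ T' \ T, w l) := by
        abel
    _ = _ := by rw [h, zero_add]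

/-- a representative -/
noncomputable def ou (a : Qc K) : K := Quotient.out a

theorem mkq_ou (a : Qc K) : mkq (ou a) = a := mkq_out a

theorem pr_sum (hS : S_SYM) (G : GFS K) (j : PV K)
    (hres : Finite (IsLocalRing.ResidueField j.1.valuationSubring)) (d : K) (hd : d ≠ 0)
    {ι : Type} (T : Finset ι) (w : ι → Qc K) :
    pr G j d (∑ l ∈ T, w l) = ∑ l ∈ T, pr G j d (w l) := by
  obtain ⟨s1, s2, s3, s4, s5, s6, s7, s8⟩ := hS K G j hres
  induction T using Finset.induction_on with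
  | empty =>
    rw [Finset.sum_empty, Finset.sum_empty]
    exact s5 0 d hd (spl_zero j)
  | insert a T ha ih => rw [Finset.sum_insert ha, Finset.sum_insert ha, s2 _ _ d hd, ih]

theorem pr_eq (hS : S_SYM) (G : GFS K) (j : PV K)
    (hres : Finite (IsLocalRing.ResidueField j.1.valuationSubring)) (d : K) (hd : d ≠ 0)
    {ι : Type} (T : Finset ι) (w : ι → Qc K) (α : Qc K) (h : Spl j (α + ∑ l ∈ T, w l)) :
    pr G j d α = ∑ l ∈ T, pr G j d (w l) := by
  obtain ⟨s1, s2, s3, s4, s5, s6, s7, s8⟩ := hS K G j hres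
  have h1 := s5 _ d hd h
  rw [s2 _ _ d hd, pr_sum hS G j hres d hd] at h1
  have h3 : ∀ x y : ZMod 2, x + y = 0 → x = y := by decide
  exact h3 _ _ h1

theorem sum_fil {ι : Type} [Fintype ι] (ε x : ι → ZMod 2) :
    ∑ l ∈ Finset.univ.filter (fun l => ε l ≠ 0), x l = ∑ l, ε l * x l := by
  rw [Finset.sum_filter]
  refine Finset.sum_congr rfl fun l _ => ?_
  split_ifs with h
  · have h1 : ε l = 1 := by
      revert h
      generalize ε l = y
      revert y
      decide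
    rw [h1, one_mul]
  · rw [not_not] at h
    rw [h, zero_mul]

end basic

section main

variable {k K : Type} [Field k] [Field K] [CharP K 2] [Algebra k K] {F : GF k K}
  {B : Finset (PV K)}

/-- the columns -/
abbrev Kp (B : Finset (PV K)) (U : Finset (Ob B)) (d : PV K → ℕ) : Type :=
  (Σ j : {j : PV K // j ∈ B}, Fin (d j.1)) ⊕ {p : Ob B // p ∈ U}

/-- the matrix -/
noncomputable def Mm (bd : BD F B) (U : Finset (Ob B)) (d : PV K → ℕ)
    (w : ∀ j : PV K, Fin (d j) → Qc K) (χ : Qc K) (i : Fin bd.n ⊕ U) : Kp B U d → ZMod 2 :=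
  Sum.elim (fun c => pr F.G c.1.1 (ro bd U i) (w c.1.1 c.2))
    (fun p => tt F.G p.1.1 (ro bd U i) χ)

/-- the local classes of `α` are given by `ε` -/
def Rr (U : Finset (Ob B)) (d : PV K → ℕ) (w : ∀ j : PV K, Fin (d j) → Qc K) (α : Qc K)
    (ε : Kp B U d → ZMod 2) : Prop :=
  (∀ j : {j : PV K // j ∈ B},
    Spl j.1 (α + ∑ l ∈ Finset.univ.filter (fun l => ε (Sum.inl ⟨j, l⟩) ≠ 0), w j.1 l)) ∧
  ∀ p : {p : Ob B // p ∈ U}, (ε (Sum.inr p) = 0 ↔ Spl p.1.1 α)

theorem sum_Mm (bd : BD F B) (U : Finset (Ob B)) (d : PV K → ℕ)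
    (w : ∀ j : PV K, Fin (d j) → Qc K) (χ : Qc K) (i : Fin bd.n ⊕ U) (ε : Kp B U d → ZMod 2) :
    ∑ c, ε c * Mm bd U d w χ i c =
      (∑ j : {j : PV K // j ∈ B}, ∑ l, ε (Sum.inl ⟨j, l⟩) * pr F.G j.1 (ro bd U i) (w j.1 l)) +
      ∑ p : {p : Ob B // p ∈ U}, ε (Sum.inr p) * tt F.G p.1.1 (ro bd U i) χ := by
  rw [Fintype.sum_sum_type, Fintype.sum_sigma]
  rfl

/-- the coefficients are determined by the class -/
theorem uniq_e (hP : S_POQ) {U : Finset (Ob B)} {d : PV K → ℕ}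
    {w : ∀ j : PV K, Fin (d j) → Qc K} {m₀ : PV K → ℕ} (hw : WD B d w m₀) {α : Qc K}
    {ε ε' : Kp B U d → ZMod 2} (h : Rr U d w α ε) (h' : Rr U d w α ε') : ε = ε' := by
  have hz : ∀ x y : ZMod 2, (x ≠ 0 ↔ y ≠ 0) → x = y := by decide
  funext c
  rcases c with ⟨j, l⟩ | p
  · obtain ⟨p1, p2, p3, p4, p5, p6, p7, p8, p9, p10⟩ := hP K j.1
    have h1 := p6 _ _ (h.1 j) (h'.1 j)
    have h2 : ∀ (x y : Qc K), α + x + (α + y) = x + y := by
      intro x y
      have h3 : α + x + (α + y) = (α + α) + (x + y) := by abel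
      rw [h3, qc_self, zero_add]
    rw [h2, sum_two] at h1
    have h3 := hw.ind j.1 j.2 _ h1
    rw [Finset.union_eq_empty, Finset.sdiff_eq_empty_iff_subset,
      Finset.sdiff_eq_empty_iff_subset] at h3
    apply hz
    constructor
    · intro h4
      exact (Finset.mem_filter.1 (h3.1 (Finset.mem_filter.2 ⟨Finset.mem_univ l, h4⟩))).2
    · intro h4
      exact (Finset.mem_filter.1 (h3.2 (Finset.mem_filter.2 ⟨Finset.mem_univ l, h4⟩))).2
  · apply hz
    exact not_congr ((h.2 p).trans (h'.2 p).symm)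

/-- the class is determined by the coefficients -/
theorem uniq_a [Finite k] (hP : S_POQ) (bd : BD F B) {U : Finset (Ob B)} {d : PV K → ℕ}
    {w : ∀ j : PV K, Fin (d j) → Qc K} {χ : Qc K} (hχ : ∀ j : Ob B, j ∉ U → poq j.1 χ = 0)
    {α α' : Qc K} (hα : α ∈ SVW B d w χ) (hα' : α' ∈ SVW B d w χ) {ε : Kp B U d → ZMod 2}
    (h : Rr U d w α ε) (h' : Rr U d w α' ε) : α = α' := by
  obtain ⟨x, hx⟩ := mkq_surj (α + α')
  have h1 : AS x := by
    refine F.unr (pls B U) (fun j hj => mem_pls.2 (Or.inl (bd.sub hj))) x (fun j hj => ?_)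
      fun j hj => ?_
    · obtain ⟨p1, p2, p3, p4, p5, p6, p7, p8, p9, p10⟩ := hP K j
      have hjB : j ∉ B := fun h => hj (mem_pls.2 (Or.inl h))
      have hχj : poq j χ = 0 := hχ ⟨j, hjB⟩ fun h => hj (mem_pls.2 (Or.inr ⟨hjB, h⟩))
      refine (p1 x).2 ((p5 _).1 ?_)
      rw [hx]
      have h2 := p8 α α'
      rw [(hα.2 j hjB).1 hχj, (hα'.2 j hjB).1 hχj] at h2
      simpa using h2
    · obtain ⟨p1, p2, p3, p4, p5, p6, p7, p8, p9, p10⟩ := hP K j
      obtain ⟨q1, q2, q3⟩ := p10 (resf F.R j)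
      refine (p2 x).2 ?_
      rw [hx]
      rcases mem_pls.1 hj with hjB | ⟨hjB, hjU⟩
      · have h2 := p6 _ _ (h.1 ⟨j, hjB⟩) (h'.1 ⟨j, hjB⟩)
        have h3 : ∀ y : Qc K, α + y + (α' + y) = α + α' := by
          intro y
          have h4 : α + y + (α' + y) = α + α' + (y + y) := by abel
          rw [h4, qc_self, add_zero]
        rwa [h3] at h2
      · have e1 := h.2 ⟨⟨j, hjB⟩, hjU⟩
        have e2 := h'.2 ⟨⟨j, hjB⟩, hjU⟩
        have e3 : Spl j α ↔ Spl j α' := e1.symm.trans e2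
        by_cases h2 : Spl j α
        · exact p6 _ _ h2 (e3.1 h2)
        · have h3 : ¬ Spl j α' := fun h => h2 (e3.2 h)
          by_cases h4 : poq j χ = 0
          · exact q2 _ _ ((hα.2 j hjB).1 h4) ((hα'.2 j hjB).1 h4) h2 h3
          · have h5 : Spl j (α + χ) := ((hα.2 j hjB).2 h4).resolve_left h2
            have h6 : Spl j (α' + χ) := ((hα'.2 j hjB).2 h4).resolve_left h3
            have h7 := p6 _ _ h5 h6
            have h8 : α + χ + (α' + χ) = α + α' := by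
              have h9 : α + χ + (α' + χ) = α + α' + (χ + χ) := by abel
              rw [h9, qc_self, add_zero]
            rwa [h8] at h7
  have h2 : α + α' = 0 := by
    rw [← hx]
    exact (QuotientAddGroup.eq_zero_iff _).2 h1
  have h3 : α = α + α' + α' := by rw [add_assoc, qc_self, add_zero]
  rw [h3, h2, zero_add]

/-- the coefficients of a class of the Selmer group -/
theorem ex_e [Finite k] (hP : S_POQ) (hS : S_SYM) (bd : BD F B) {U : Finset (Ob B)} {d : PV K → ℕ}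
    {w : ∀ j : PV K, Fin (d j) → Qc K} {χ : Qc K} (hχ : ∀ j : Ob B, j ∉ U → poq j.1 χ = 0)
    {α : Qc K} (hα : α ∈ SVW B d w χ) :
    ∃ ε : Kp B U d → ZMod 2, (∀ i, ∑ c, ε c * Mm bd U d w χ i c = 0) ∧ Rr U d w α ε := by
  have h0 : ∀ j : {j : PV K // j ∈ B}, ∃ T : Finset (Fin (d j.1)),
      Spl j.1 (α + ∑ l ∈ T, w j.1 l) := fun j => hα.1 j.1 j.2
  choose T hT using h0
  obtain ⟨ε, hε⟩ : ∃ ε : Kp B U d → ZMod 2, ε = Sum.elim
      (fun c => if c.2 ∈ T c.1 then (1 : ZMod 2) else 0)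
      (fun p => if Spl p.1.1 α then (0 : ZMod 2) else 1) := ⟨_, rfl⟩
  have e1 : ∀ (j : {j : PV K // j ∈ B}) (l : Fin (d j.1)),
      ε (Sum.inl ⟨j, l⟩) = if l ∈ T j then (1 : ZMod 2) else 0 := fun j l => by rw [hε]; rfl
  have e2 : ∀ p : {p : Ob B // p ∈ U}, ε (Sum.inr p) = if Spl p.1.1 α then (0 : ZMod 2) else 1 :=
    fun p => by rw [hε]; rfl
  have hfil : ∀ j : {j : PV K // j ∈ B},
      Finset.univ.filter (fun l => ε (Sum.inl ⟨j, l⟩) ≠ 0) = T j := by
    intro j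
    ext l
    rw [Finset.mem_filter, e1]
    by_cases h : l ∈ T j
    · rw [if_pos h]
      exact ⟨fun _ => h, fun _ => ⟨Finset.mem_univ _, one_ne_zero⟩⟩
    · rw [if_neg h]
      exact ⟨fun h2 => absurd rfl h2.2, fun h2 => absurd h2 h⟩
  refine ⟨ε, fun i => ?_, fun j => ?_, fun p => ?_⟩
  · have hχ' : ∀ j : PV K, j ∉ pls B U → poq j α = 0 := by
      intro j hj
      have hjB : j ∉ B := fun h => hj (mem_pls.2 (Or.inl h))
      exact (hα.2 j hjB).1 (hχ ⟨j, hjB⟩ fun h => hj (mem_pls.2 (Or.inr ⟨hjB, h⟩)))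
    have h1 := sumz hP hS bd U α hχ' (ro bd U i) (ro_ne bd U i)
      (fun j hj => ro_ev bd U i j hj)
    rw [sum_pls] at h1
    rw [sum_Mm, ← h1]
    congr 1
    · rw [← Finset.sum_coe_sort B]
      refine Finset.sum_congr rfl fun j _ => ?_
      rw [pr_eq hS F.G j.1 (resf F.R j.1) (ro bd U i) (ro_ne bd U i) (T j) (w j.1) α (hT j),
        ← hfil j]
      exact (sum_fil (fun l => ε (Sum.inl ⟨j, l⟩))
        (fun l => pr F.G j.1 (ro bd U i) (w j.1 l))).symm
    · rw [← Finset.sum_coe_sort U]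
      refine Finset.sum_congr rfl fun p _ => ?_
      rw [e2]
      exact (prt hP hS χ α p.1.1 (hα.2 p.1.1 p.1.2).1 (hα.2 p.1.1 p.1.2).2 (ro bd U i)
        (ro_ne bd U i)).symm
  · rw [hfil j]
    exact hT j
  · rw [e2]
    by_cases h : Spl p.1.1 α
    · rw [if_pos h]
      exact ⟨fun _ => h, fun _ => rfl⟩
    · rw [if_neg h]
      exact ⟨fun h2 => absurd h2 one_ne_zero, fun h2 => absurd h2 h⟩

/-- the class with given coefficients -/
theorem ex_a [Finite k] (hC : S_CFX) (hP : S_POQ) (hS : S_SYM) (bd : BD F B) {U : Finset (Ob B)}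
    {d : PV K → ℕ} {w : ∀ j : PV K, Fin (d j) → Qc K} {χ : Qc K}
    (hχ : ∀ j : Ob B, j ∉ U → poq j.1 χ = 0) (ε : Kp B U d → ZMod 2)
    (hε : ∀ i, ∑ c, ε c * Mm bd U d w χ i c = 0) :
    ∃ α : Qc K, α ∈ SVW B d w χ ∧ Rr U d w α ε := by
  obtain ⟨ω, w1, w2, w3, w4⟩ := omg hP hS F.G (resf F.R) χ
  have hB : F.B₁ ⊆ pls B U := fun j hj => mem_pls.2 (Or.inl (bd.sub hj))
  have hz : ∀ j : PV K, F.G.sy j 0 = 0 := by
    intro j
    have := F.G.add j 0 0
    rw [add_zero] at this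
    exact left_eq_add.1 this
  obtain ⟨f, hf1, hf2⟩ : ∃ f : PV K → K,
      (∀ j : {j : PV K // j ∈ B}, f j.1 =
        ou (∑ l ∈ Finset.univ.filter (fun l => ε (Sum.inl ⟨j, l⟩) ≠ 0), w j.1 l)) ∧
      ∀ p : {p : Ob B // p ∈ U}, f p.1.1 = if ε (Sum.inr p) = 0 then 0 else ω p.1.1 := by
    refine ⟨fun j => if hj : j ∈ B then
      ou (∑ l ∈ Finset.univ.filter (fun l => ε (Sum.inl ⟨⟨j, hj⟩, l⟩) ≠ 0), w j l)
      else if hU : (⟨j, hj⟩ : Ob B) ∈ U then
        (if ε (Sum.inr ⟨⟨j, hj⟩, hU⟩) = 0 then 0 else ω j) else 0, fun j => ?_, fun p => ?_⟩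
    · exact dif_pos j.2
    · show (if hj : p.1.1 ∈ B then _ else _) = _
      rw [dif_neg p.1.2]
      exact dif_pos p.2
  have hsB : ∀ (j : {j : PV K // j ∈ B}) (x : K), x ≠ 0 → F.G.sy j.1 (f j.1 * dl F.G.t x) =
      ∑ l, ε (Sum.inl ⟨j, l⟩) * pr F.G j.1 x (w j.1 l) := by
    intro j x hx
    rw [hf1 j, ← sum_fil (fun l => ε (Sum.inl ⟨j, l⟩)) (fun l => pr F.G j.1 x (w j.1 l)),
      ← pr_sum hS F.G j.1 (resf F.R j.1) x hx]
    rfl
  have hsU : ∀ (p : {p : Ob B // p ∈ U}) (x : K), x ≠ 0 →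
      F.G.sy p.1.1 (f p.1.1 * dl F.G.t x) = ε (Sum.inr p) * tt F.G p.1.1 x χ := by
    intro p x hx
    rw [hf2 p]
    split_ifs with h
    · rw [h, zero_mul, zero_mul, hz]
    · have h1 : ε (Sum.inr p) = 1 := by
        revert h
        generalize ε (Sum.inr p) = y
        revert y; decide
      rw [h1, one_mul, w4 _ x hx]
  obtain ⟨x, hx1, hx2⟩ := hC k K F (pls B U) hB f (by
    intro y hy he
    obtain ⟨c, hc⟩ := sum_ro bd U hy he
    have h1 : ∀ j ∈ pls B U, F.G.sy j (f j * dl F.G.t y) =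
        ∑ i, c i * F.G.sy j (f j * dl F.G.t (ro bd U i)) := by
      intro j _
      exact hc (F.G.sy j) (F.G.add j) (f j)
    rw [Finset.sum_congr rfl h1, Finset.sum_comm]
    refine Finset.sum_eq_zero fun i _ => ?_
    rw [← Finset.mul_sum, sum_pls, ← Finset.sum_coe_sort B, ← Finset.sum_coe_sort U]
    have h2 := hε i
    rw [sum_Mm] at h2
    have h3 : ∑ j : {j : PV K // j ∈ B}, F.G.sy j.1 (f j.1 * dl F.G.t (ro bd U i)) =
        ∑ j : {j : PV K // j ∈ B}, ∑ l, ε (Sum.inl ⟨j, l⟩) * pr F.G j.1 (ro bd U i) (w j.1 l) :=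
      Finset.sum_congr rfl fun j _ => hsB j _ (ro_ne bd U i)
    have h4 : ∑ p : {p : Ob B // p ∈ U}, F.G.sy p.1.1 (f p.1.1 * dl F.G.t (ro bd U i)) =
        ∑ p : {p : Ob B // p ∈ U}, ε (Sum.inr p) * tt F.G p.1.1 (ro bd U i) χ :=
      Finset.sum_congr rfl fun p _ => hsU p _ (ro_ne bd U i)
    have h5 : ∑ j : {j : PV K // j ∈ B}, F.G.sy j.1 (f j.1 * dl F.G.t (ro bd U i)) +
        ∑ p : {p : Ob B // p ∈ U}, F.G.sy p.1.1 (f p.1.1 * dl F.G.t (ro bd U i)) = 0 := by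
      rw [h3, h4]
      exact h2
    exact mul_eq_zero_of_right _ h5)
  have hRB : ∀ j : {j : PV K // j ∈ B},
      Spl j.1 (mkq x + ∑ l ∈ Finset.univ.filter (fun l => ε (Sum.inl ⟨j, l⟩) ≠ 0), w j.1 l) := by
    intro j
    have h1 : Sp j.1.1 (x + f j.1) := hx2 j.1 (mem_pls.2 (Or.inl j.2))
    have h2 : Spl j.1 (mkq x + mkq (f j.1)) := ((hP K j.1).2.1 _).1 h1
    rwa [hf1 j, mkq_ou] at h2
  have hRU : ∀ p : {p : Ob B // p ∈ U},
      Spl p.1.1 (mkq x + mkq (if ε (Sum.inr p) = 0 then 0 else ω p.1.1)) := by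
    intro p
    have h1 : Sp p.1.1.1 (x + f p.1.1) := hx2 p.1.1 (mem_pls.2 (Or.inr ⟨p.1.2, p.2⟩))
    have h2 : Spl p.1.1 (mkq x + mkq (f p.1.1)) := ((hP K p.1.1).2.1 _).1 h1
    rwa [hf2 p] at h2
  refine ⟨mkq x, ⟨fun j hj => ⟨_, hRB ⟨j, hj⟩⟩, fun j hj => ?_⟩, hRB, fun p => ?_⟩
  · obtain ⟨p1, p2, p3, p4, p5, p6, p7, p8, p9, p10⟩ := hP K j
    by_cases hjU : (⟨j, hj⟩ : Ob B) ∈ U
    · have h1 := hRU ⟨⟨j, hj⟩, hjU⟩
      refine ⟨fun h0 => ?_, fun h0 => ?_⟩
      · rw [p9 _ _ h1]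
        split_ifs with h
        · rw [mkq_zero, p7 _ (spl_zero j)]
        · show poq j (mkq (ω j)) = 0
          rw [w1 j, h0]
      · by_cases he : ε (Sum.inr ⟨⟨j, hj⟩, hjU⟩) = 0
        · rw [if_pos he, mkq_zero, add_zero] at h1
          exact Or.inl h1
        · rw [if_neg he] at h1
          have h2 : Spl j (mkq x + mkq (ω j)) := h1
          rw [w3 j h0] at h2
          exact Or.inr h2
    · have hjp : j ∉ pls B U := fun h => by
        rcases mem_pls.1 h with h | ⟨h, h2⟩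
        · exact hj h
        · exact hjU h2
      exact ⟨fun _ => (p5 _).2 ⟨x, rfl, hx1 j hjp⟩, fun h0 => absurd (hχ ⟨j, hj⟩ hjU) h0⟩
  · obtain ⟨p1, p2, p3, p4, p5, p6, p7, p8, p9, p10⟩ := hP K p.1.1
    have h1 := hRU p
    by_cases he : ε (Sum.inr p) = 0
    · rw [if_pos he, mkq_zero, add_zero] at h1
      exact ⟨fun _ => h1, fun _ => he⟩
    · rw [if_neg he] at h1
      refine ⟨fun h => absurd h he, fun h => ?_⟩
      have h3 := p6 _ _ h h1
      rw [← add_assoc, qc_self, zero_add] at h3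
      exact absurd h3 (w2 p.1.1)

end main

theorem svmw : S_CFX → S_POQ → S_SYM → S_SVMW := by
  intro hC hP hS k K _ _ _ _ _ F B bd U d w m₀ χ hw hχ
  have hkey : ∀ ε : Kp B U d → ZMod 2, ∃ α : Qc K, (∀ i, ∑ c, ε c * Mm bd U d w χ i c = 0) →
      α ∈ SVW B d w χ ∧ Rr U d w α ε := by
    intro ε
    by_cases h : ∀ i, ∑ c, ε c * Mm bd U d w χ i c = 0
    · obtain ⟨α, hα⟩ := ex_a hC hP hS bd hχ ε h
      exact ⟨α, fun _ => hα⟩
    · exact ⟨0, fun h2 => absurd h2 h⟩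
  choose g hg using hkey
  obtain ⟨RK, hRK⟩ : ∃ RK : Set (Kp B U d → ZMod 2),
      RK = {ε | ∀ i, ∑ c, ε c * Mm bd U d w χ i c = 0} := ⟨_, rfl⟩
  have hmem : ∀ ε, ε ∈ RK ↔ ∀ i, ∑ c, ε c * Mm bd U d w χ i c = 0 := fun ε => by rw [hRK]; rfl
  have himg : g '' RK = SVW B d w χ := by
    ext α
    constructor
    · rintro ⟨ε, hε, rfl⟩
      exact (hg ε ((hmem ε).1 hε)).1
    · intro hα
      obtain ⟨ε, h1, h2⟩ := ex_e hP hS bd hχ hα
      refine ⟨ε, (hmem ε).2 h1, ?_⟩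
      obtain ⟨h3, h4⟩ := hg ε h1
      exact uniq_a hP bd hχ h3 hα h4 h2
  have hinj : Set.InjOn g RK := by
    intro ε hε ε' hε' h
    have h1 := (hg ε ((hmem ε).1 hε)).2
    have h2 := (hg ε' ((hmem ε').1 hε')).2
    rw [← h] at h2
    exact uniq_e hP hw h1 h2
  have hcard := Set.ncard_image_of_injOn hinj
  rw [himg] at hcard
  have hLK : LKW bd U d w χ =
      {e : Fin bd.n ⊕ U → ZMod 2 | ∀ c, ∑ i, e i * Mm bd U d w χ i c = 0} := by
    ext e
    constructor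
    · rintro ⟨h1, h2⟩ c
      rcases c with ⟨j, l⟩ | p
      · exact h1 j.1 j.2 l
      · exact h2 p.1 p.2
    · intro h
      exact ⟨fun j hj l => h (Sum.inl ⟨⟨j, hj⟩, l⟩), fun p hp => h (Sum.inr ⟨p, hp⟩)⟩
  have hk := kersg (Mm bd U d w χ)
  rw [← hRK, ← hLK, ← hcard] at hk
  have c1 : Fintype.card (Fin bd.n ⊕ U) = bd.n + U.card := by
    rw [Fintype.card_sum, Fintype.card_fin, Fintype.card_coe]
  have c2 : Fintype.card (Kp B U d) = ∑ j ∈ B, d j + U.card := by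
    rw [Fintype.card_sum, Fintype.card_sigma, Fintype.card_coe]
    congr 1
    rw [← Finset.sum_coe_sort B]
    exact Finset.sum_congr rfl fun j _ => Fintype.card_fin _
  rw [c1, c2, pow_add, pow_add, ← mul_assoc, ← mul_assoc] at hk
  have hk2 := Nat.eq_of_mul_eq_mul_right (pow_pos (by norm_num : 0 < 2) U.card) hk
  refine ⟨?_, ?_⟩
  · rw [← himg]
    exact (Set.toFinite RK).image g
  · rw [← bd.hn, pow_succ]
    calc (SVW B d w χ).ncard * (2 ^ bd.n * 2) = ((SVW B d w χ).ncard * 2 ^ bd.n) * 2 := by ring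
      _ = _ := by rw [hk2]; ring

end Pool.Agent.H467.PU.Svmw
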