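import Pool.Agent.H467.PU.Spec2

/-!
# Two-descent: the index of the doubles (helper720 for helper467)
-/

set_option autoImplicit false
set_option linter.all false

open Finset WeierstrassCurve WeierstrassCurve.Affine
open Pool.Agent.TH115.GD
open Pool.Agent.H467.GK
open Pool.Agent.H467.CT (AS Std LV LF cc fr xx AS_add AS_zero AS_of_add AS_sq sq_inj2 fr_some fr_zero
  fr_add fr_sub fr_inj ker_fr xx_sub xx_ne xx_some xx_tt xx_zero eq_tt tt tt_eq)
open Pool.Agent.H467.PG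
open scoped Classical

namespace Pool.Agent.H467.PU.Tdi

section basic

variable {K : Type} [Field K] [CharP K 2]

theorem mkq_add (x y : K) : mkq (x + y) = mkq x + mkq y := rfl

theorem mkq_eq_zero {x : K} : mkq x = 0 ↔ AS x := QuotientAddGroup.eq_zero_iff x

theorem mkq_self (x : K) : mkq x + mkq x = 0 := by
  rw [← mkq_add, CharTwo.add_self_eq_zero]
  rfl

theorem mkq_congr {x y : K} (h : AS (x + y)) : mkq x = mkq y := by
  have h1 : mkq x + mkq y = 0 := mkq_eq_zero.2 h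
  have h2 := mkq_self y
  exact add_right_cancel (h1.trans h2.symm)

theorem as_map {L L' : Type} [Field L] [Field L'] (f : L →+* L') {x : L} (h : AS x) :
    AS (f x) := by
  obtain ⟨z, rfl⟩ := h
  exact ⟨f z, by rw [map_add, map_pow]⟩

theorem std_cc {A B : K} (hB : B ≠ 0) : Std (cc A B).toAffine A B :=
  ⟨rfl, rfl, rfl, rfl, rfl, hB⟩

end basic

section pts

variable {K : Type} [Field K] [CharP K 2] {W W2 : Affine K} {A B : K}

/-- The descent map. -/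
noncomputable def ph (A : K) (P : W.Point) : Qc K :=
  match P with
  | .zero => 0
  | .some x _ _ => mkq (x + A)

theorem ph_zero : ph A (0 : W.Point) = 0 := rfl

theorem ph_some {x y : K} (h : W.Nonsingular x y) : ph A (Point.some x y h) = mkq (x + A) := rfl

theorem qc_self (χ : Qc K) : χ + χ = 0 := by
  obtain ⟨x, rfl⟩ := QuotientAddGroup.mk_surjective χ
  exact mkq_self x

theorem ph_add (h : Std W A B) (P Q : W.Point) : ph A (P + Q) = ph A P + ph A Q := by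
  have c2 : (2 : K) = 0 := CharTwo.two_eq_zero
  rcases P with _ | ⟨x₁, y₁, h₁⟩
  · rw [← Point.zero_def, zero_add, ph_zero, zero_add]
  rcases Q with _ | ⟨x₂, y₂, h₂⟩
  · rw [← Point.zero_def, add_zero, ph_zero, add_zero]
  rcases h.trich h₁ h₂ with hx | ⟨rfl, rfl⟩ | ⟨rfl, rfl, h0⟩
  · have hx' : x₁ + x₂ ≠ 0 := fun e => hx (by linear_combination e - x₂ * c2)
    have hl : (y₁ + y₂) / (x₁ + x₂) * (x₁ + x₂) = y₁ + y₂ := div_mul_cancel₀ _ hx'
    obtain ⟨l, hldef⟩ : ∃ l, l = (y₁ + y₂) / (x₁ + x₂) := ⟨_, rfl⟩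
    rw [← hldef] at hl
    obtain ⟨n1, e1⟩ := h.chord h₁ h₂ hx hl rfl rfl
    rw [e1, ph_some, ph_some, ph_some, ← mkq_add]
    refine mkq_congr ⟨l, ?_⟩
    linear_combination (2 * A + x₁ + x₂) * c2
  · rw [h.opp h₁ h₂, ph_zero, ph_some, ph_some, mkq_self]
  · have hl : (x₁ ^ 2 + y₁) / x₁ * x₁ = x₁ ^ 2 + y₁ := div_mul_cancel₀ _ h0
    obtain ⟨l, hldef⟩ : ∃ l, l = (x₁ ^ 2 + y₁) / x₁ := ⟨_, rfl⟩
    rw [← hldef] at hl
    obtain ⟨n1, e1⟩ := h.tang h₁ h0 hl rfl rfl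
    rw [e1, ph_some, ph_some, mkq_self]
    refine mkq_eq_zero.2 ⟨l, ?_⟩
    linear_combination A * c2

theorem ph_sub (h : Std W A B) (P Q : W.Point) : ph A (P - Q) = ph A P + ph A Q := by
  have h1 := ph_add h (P - Q) Q
  rw [sub_add_cancel] at h1
  rw [h1, add_assoc, qc_self, add_zero]

/-- Halving: points with `x ≠ 0`. -/
theorem halve1 (h : Std W A B) (h2 : Std W2 (A ^ 2) (B ^ 2)) {x y X : K}
    (h₁ : W.Nonsingular x y) (hx : x ≠ 0) (hX : X ^ 2 + x * X + B = 0) :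
    ∃ S : W2.Point, S + S = fr W W2 (Point.some x y h₁) := by
  have c2 : (2 : K) = 0 := CharTwo.two_eq_zero
  have e := h.eq_of h₁
  have hX0 : X ≠ 0 := by
    rintro rfl
    exact h.b0 (by linear_combination hX)
  set m := (y + X) / x with hm
  have hm1 : m * x = y + X := div_mul_cancel₀ _ hx
  have hm2 : m ^ 2 + m = x + A := by
    have : x ^ 2 * (m ^ 2 + m - (x + A)) = 0 := by grind
    exact sub_eq_zero.1 ((mul_eq_zero.1 this).resolve_left (pow_ne_zero 2 hx))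
  have hn : W2.Nonsingular X (X * (m + 1 + A) + B) := by
    apply h2.nons
    grind
  refine ⟨.some X (X * (m + 1 + A) + B) hn, ?_⟩
  rw [fr_some h h2]
  obtain ⟨h', e2⟩ := h2.tang hn hX0 (l := x + (m + 1) + A) (X := x ^ 2) (Y := y ^ 2) (by grind)
    (by grind) (by grind)
  exact e2

/-- Halving. -/
theorem halve {b : K} (hB : B = b ^ 2) (h : Std W A B) (h2 : Std W2 (A ^ 2) (B ^ 2))
    (P : W.Point) (hP : ph A P = 0) : ∃ S : W2.Point, S + S = fr W W2 P := by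
  have c2 : (2 : K) = 0 := CharTwo.two_eq_zero
  rcases P with _ | ⟨x, y, h₁⟩
  · exact ⟨0, by rw [add_zero]; rfl⟩
  have hP' : AS (x + A) := mkq_eq_zero.1 hP
  have e := h.eq_of h₁
  by_cases hx : x = 0
  · subst hx
    have hy : y = b := sq_inj2 (by rw [← hB]; linear_combination e)
    obtain ⟨z, hz⟩ := hP'
    have hA : A = z ^ 2 + z := by linear_combination hz
    have hb0 : b ≠ 0 := by
      rintro rfl
      exact h.b0 (by rw [hB]; ring)
    have hn : W2.Nonsingular b (b * (b + z ^ 2)) := by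
      apply h2.nons
      rw [hB, hA]
      linear_combination (b ^ 3 * z ^ 2) * c2 - (b ^ 2 * z ^ 3) * c2
    refine ⟨.some b (b * (b + z ^ 2)) hn, ?_⟩
    rw [fr_some h h2]
    have t1 : z ^ 2 * b = b ^ 2 + b * (b + z ^ 2) := by
      linear_combination -(b ^ 2) * c2
    have t2 : (0 : K) ^ 2 = (z ^ 2) ^ 2 + z ^ 2 + A ^ 2 := by
      rw [hA]
      linear_combination -(z ^ 4 + z ^ 3 + z ^ 2) * c2
    have t3 : y ^ 2 = z ^ 2 * (0 ^ 2 + b) + b * (b + z ^ 2) + 0 ^ 2 := by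
      rw [hy]
      linear_combination -(b * z ^ 2) * c2
    obtain ⟨h', e2⟩ := h2.tang hn hb0 t1 t2 t3
    exact e2
  · have h3 : AS (x + A + B / x ^ 2) := ⟨y / x, by
      field_simp
      linear_combination -e⟩
    obtain ⟨z, hz⟩ := AS_of_add hP' h3
    have hX : (x * z) ^ 2 + x * (x * z) + B = 0 := by
      have h4 : B = x ^ 2 * (z ^ 2 + z) := by
        rw [← hz]
        field_simp
      rw [h4]
      linear_combination (x ^ 2 * (z ^ 2 + z)) * c2
    exact halve1 h h2 h₁ hx hX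

end pts

section glob

variable {K : Type} [Field K] [CharP K 2] {W W2 : Affine K} {a b : K}

theorem allVA_zero : AllVA (a ^ 2) (b ^ 2) (0 : K) := by
  intro u _
  left
  rw [map_zero]
  exact ⟨0, by ring⟩

theorem allVA_pt (h : Std W (a ^ 2) (b ^ 2)) {x y : K} (h₁ : W.Nonsingular x y) :
    AllVA (a ^ 2) (b ^ 2) (x + a ^ 2) := by
  intro u _
  have c2 : (2 : K) = 0 := CharTwo.two_eq_zero
  have e := h.eq_of h₁
  right
  refine ⟨algebraMap K (Cm u) x, ?_, ?_, ?_⟩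
  · have h3 : x + a ^ 2 + x + a ^ 2 = 0 := by linear_combination (x + a ^ 2) * c2
    rw [← map_add, ← map_add, h3, map_zero]
    exact ⟨0, by ring⟩
  · intro hx
    have hx0 : x ≠ 0 := by
      rintro rfl
      exact hx (map_zero _)
    have h3 : AS (x + a ^ 2 + b ^ 2 / x ^ 2) := ⟨y / x, by
      field_simp
      linear_combination -e⟩
    have h4 := as_map (algebraMap K (Cm u)) h3
    rw [map_add, map_add, map_div₀, map_pow (algebraMap K (Cm u)) x 2] at h4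
    exact h4
  · intro _
    exact ⟨algebraMap K (Cm u) b, by rw [← map_mul, sq]⟩

theorem ph_mem (h : Std W (a ^ 2) (b ^ 2)) {s : Finset (Qc K)}
    (hs : ∀ α : K, AllVA (a ^ 2) (b ^ 2) α → mkq α ∈ s) (P : W.Point) : ph (a ^ 2) P ∈ s := by
  rcases P with _ | ⟨x, y, h₁⟩
  · exact hs 0 allVA_zero
  · exact hs _ (allVA_pt h h₁)

theorem allFA_pt (h2 : Std W2 ((a ^ 2) ^ 2) ((b ^ 2) ^ 2)) (Q : W2.Point) :
    AllFA (a ^ 2) (b ^ 2) (xx (b ^ 2) Q) := by
  intro u _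
  have c2 : (2 : K) = 0 := CharTwo.two_eq_zero
  rcases Q with _ | ⟨X, Y, h₁⟩
  · left
    have e1 : xx (b ^ 2) (Point.zero : W2.Point) = 1 := rfl
    rw [e1, map_one]
    exact ⟨1, by ring⟩
  · have e := h2.eq_of h₁
    by_cases hX : X = 0
    · subst hX
      left
      rw [eq_tt h2 h₁, xx_tt h2]
      exact ⟨algebraMap K (Cm u) b, by rw [← map_mul, sq]⟩
    · right
      right
      rw [xx_some _ hX]
      refine ⟨algebraMap K (Cm u) X, ?_, ⟨algebraMap K (Cm u) X, rfl⟩, ?_⟩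
      · intro h3
        exact hX ((map_eq_zero _).1 h3)
      · have h3 : AS (X + b ^ 2 / X + a ^ 2) := by
          have h4 : AS (X + (a ^ 2) ^ 2 + (b ^ 2) ^ 2 / X ^ 2) := ⟨Y / X, by
            field_simp
            linear_combination -e⟩
          have h5 := AS_add (AS_add h4 (AS_sq (a ^ 2))) (AS_sq (b ^ 2 / X))
          have h6 : X + (a ^ 2) ^ 2 + (b ^ 2) ^ 2 / X ^ 2 + ((a ^ 2) ^ 2 + a ^ 2) +
              ((b ^ 2 / X) ^ 2 + b ^ 2 / X) = X + b ^ 2 / X + a ^ 2 := by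
            rw [div_pow]
            linear_combination ((a ^ 2) ^ 2 + (b ^ 2) ^ 2 / X ^ 2) * c2
          rwa [h6] at h5
        have h4 := as_map (algebraMap K (Cm u)) h3
        rw [map_add, map_add, map_div₀] at h4
        exact h4

end glob

theorem tdi : S_TDI := by
  intro K _ _ a b hb M N ⟨s, hsM, hs⟩ ⟨T, hTN, hT⟩ W h
  obtain ⟨W2, hW2⟩ : ∃ W2 : Affine K, W2 = (cc ((a ^ 2) ^ 2) ((b ^ 2) ^ 2)).toAffine := ⟨_, rfl⟩
  have h2 : Std W2 ((a ^ 2) ^ 2) ((b ^ 2) ^ 2) := by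
    rw [hW2]
    exact std_cc (pow_ne_zero 2 (pow_ne_zero 2 hb))
  -- representatives
  have c1 : ∀ c : Qc K, ∃ P : W.Point, (∃ P' : W.Point, ph (a ^ 2) P' = c) →
      ph (a ^ 2) P = c := by
    intro c
    by_cases hc : ∃ P' : W.Point, ph (a ^ 2) P' = c
    · obtain ⟨P', hP'⟩ := hc
      exact ⟨P', fun _ => hP'⟩
    · exact ⟨0, fun h => absurd h hc⟩
  choose p0 hp0 using c1
  have c3 : ∀ f : K, ∃ Q : W2.Point, (∃ Q' : W2.Point, ∃ y : K, y ≠ 0 ∧
      xx (b ^ 2) Q' = f * y ^ 2) → ∃ y : K, y ≠ 0 ∧ xx (b ^ 2) Q = f * y ^ 2 := by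
    intro f
    by_cases hc : ∃ Q' : W2.Point, ∃ y : K, y ≠ 0 ∧ xx (b ^ 2) Q' = f * y ^ 2
    · obtain ⟨Q', hQ'⟩ := hc
      exact ⟨Q', fun _ => hQ'⟩
    · exact ⟨0, fun h => absurd h hc⟩
  choose q0 hq0 using c3
  have c4 : ∀ f : K, ∃ R : W.Point, (∃ R' : W.Point, fr W W2 R' = q0 f + q0 f) →
      fr W W2 R = q0 f + q0 f := by
    intro f
    by_cases hc : ∃ R' : W.Point, fr W W2 R' = q0 f + q0 f
    · obtain ⟨R', hR'⟩ := hc
      exact ⟨R', fun _ => hR'⟩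
    · exact ⟨0, fun h => absurd h hc⟩
  choose r0 hr0 using c4
  refine ⟨(s ×ˢ T).image fun z => p0 z.1 + r0 z.2, ?_, ?_⟩
  · refine Finset.card_image_le.trans ?_
    rw [Finset.card_product]
    exact Nat.mul_le_mul hsM hTN
  intro P
  have k1 := hp0 (ph (a ^ 2) P) ⟨P, rfl⟩
  have k2 : ph (a ^ 2) (P - p0 (ph (a ^ 2) P)) = 0 := by
    rw [ph_sub h, k1, qc_self]
  obtain ⟨Q, hQ⟩ := halve (b := b) rfl h h2 _ k2
  obtain ⟨f, hf, y, hy, hfy⟩ := hT (xx (b ^ 2) Q) (xx_ne h2 Q) (allFA_pt h2 Q)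
  obtain ⟨y', hy', hfy'⟩ := hq0 f ⟨Q, y, hy, hfy⟩
  have hf0 : f ≠ 0 := by
    rintro rfl
    rw [zero_mul] at hfy
    exact xx_ne h2 Q hfy
  have k3 : IsSquare (xx (b ^ 2) (Q - q0 f)) := by
    obtain ⟨t, ht⟩ := xx_sub h2 Q (q0 f)
    rw [hfy, hfy'] at ht
    refine ⟨t / (f * y * y'), ?_⟩
    field_simp
    linear_combination ht
  obtain ⟨R, hR⟩ := ker_fr h h2 _ k3
  have k4 : fr W W2 (P - p0 (ph (a ^ 2) P) - (R + R)) = q0 f + q0 f := by
    rw [fr_sub h h2, fr_add h h2, ← hQ, hR]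
    abel
  have k5 := hr0 f ⟨_, k4⟩
  have k6 : P - p0 (ph (a ^ 2) P) - (R + R) = r0 f := fr_inj h h2 (k4.trans k5.symm)
  refine ⟨p0 (ph (a ^ 2) P) + r0 f, ?_, R, ?_⟩
  · rw [Finset.mem_image]
    exact ⟨(ph (a ^ 2) P, f), Finset.mem_product.2 ⟨ph_mem h hs P, hf⟩, rfl⟩
  · rw [← k6]
    abel

end Pool.Agent.H467.PU.Tdi
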