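import Pool.Agent.H467.PG.Fin
import Pool.Agent.H467.PU.Asmw
import Pool.Agent.H467.PU.Svmw
import Pool.Agent.H467.PU.Fibkw
import Pool.Agent.H467.PU.Fibw
import Pool.Agent.H467.PU.Lapw
import Pool.Agent.H467.PU.Lingu
import Pool.Agent.H467.PU.Pnu
import Pool.Agent.H467.PU.Nicw
import Pool.Agent.H467.PU.Omdw
import Pool.Agent.H467.PU.Corew
import Pool.Agent.H467.PU.Dstc
import Pool.Agent.H467.PU.Dstw
import Pool.Agent.H467.PU.Ort
import Pool.Agent.H467.PU.Lva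
import Pool.Agent.H467.PU.Lvb
import Pool.Agent.H467.PU.Lbs
import Pool.Agent.H467.PU.Lwx
import Pool.Agent.H467.PU.Fulw
import Pool.Agent.H467.PU.Fulg
import Pool.Agent.H467.PU.Fulc
import Pool.Agent.H467.PU.Tdi
import Pool.Agent.H467.PU.Onew
import Pool.Agent.H467.PU.Mwf
import Pool.Agent.H467.PU.Rone

/-!
# The complete law: all parts together

Project PU (helper467).
-/

set_option autoImplicit false
set_option linter.all false

open Filter WithZero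
open Pool.Agent.H467.PT
open Pool.Agent.H467.GK
open Pool.Agent.H467.PG
open scoped Classical

namespace Pool.Agent.H467.PU.Finw

open Pool.Agent.H467.PG.Fin (hPOQ hSYM hHALG hBAD hDIV hTRF hFAV hNNC hGF hCFX hUBG hLLC hDIR hPKG
  hRKG hHSD hOMU hCHB hFIB)

theorem hOML : S_OML := by
  have hNIC : S_NIC := Nic.nic hNNC hPKG hRKG hCHB hUBG hPOQ
  have hOMN : S_OMN := Omn.omn hFIB Ordg.ordg hDIR hOMU hPOQ
  exact Oml.oml hNIC hOMN hOMU hPKG Bde.bde hDIV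

theorem hSVMW : S_SVMW := Svmw.svmw hCFX hPOQ hSYM

theorem hLWX : S_LWX := Lwx.lwx Lva.lva Lvb.lvb (Lbs.lbs hPOQ) Locv.locv hPOQ

theorem hDSTC : S_DSTC := Dstc.dstc hOML hUBG hPKG hDIV hPOQ hHSD

theorem hDSTW (hJINW : S_JINW) : S_DSTW := by
  have hLAPW : S_LAPW := Lapw.lapw Lingu.lingu hJINW hDIR Ldg.ldg hPOQ hSYM
  have hFIBW : S_FIBW := Fibw.fibw hLAPW (Fibkw.fibkw hPOQ hSYM) Ordg.ordg hSVMW hDIR Ldg.ldg
    hLLC hCFX hUBG hPOQ hSYM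
  have hNICW : S_NICW := Nicw.nicw hNNC hPKG hRKG hCHB hUBG hPOQ
  have hOMDW : S_OMDW := Omdw.omdw hFIBW hOMU hPOQ
  have hCOREW : S_COREW := Corew.corew hOML hNICW hOMDW hOMU Bde.bde hDIV hPKG Pnu.pnu
  exact Dstw.dstw hCOREW hDSTC hOML hUBG hPKG hDIV hPOQ hHSD

theorem hFULW : S_FULW := Fulw.fulw hSVMW Bde.bde hHSD hPOQ hSYM

theorem hFULC : S_FULC := Fulc.fulc Ort.ort hLWX (Fulg.fulg hSVMW Bde.bde hHSD hPOQ hSYM)
  hPOQ hSYM

theorem hONEW : S_ONEW := Onew.onew Ort.ort hLWX hFULW Ffi.ffi Sqma.sqma (Dwna.dwna Fn2a.fn2a)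
  hPOQ hSYM

theorem hRONE (hHTT : S_HTT) (hRKF : S_RKF) : S_RONE :=
  Rone.rone hONEW hFULC Tdi.tdi (Mwf.mwf hHTT) hRKF hPOQ

end Pool.Agent.H467.PU.Finw
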