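import Pool.Agent.H467.PU.Spec

/-!
# The local image of the Verschiebung is a group (helper597 for helper467)
-/

set_option autoImplicit false
set_option linter.all false

open Pool.Agent.H467.CT (AS Bas IsTau Std Ev LV LF cc)
open Pool.Agent.H467.PG
open scoped Classical

namespace Pool.Agent.H467.PU.Lva

section

variable {L : Type} [Field L]

/-- a point of the curve with the local class of `α` -/
def PT (a b α : L) : Prop :=
  ∃ x y : L, y ^ 2 + x * y = x ^ 3 + a * x ^ 2 + b ∧ AS (α + x + a)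

/-- the third point of a line -/
theorem third {a b x1 y1 x2 y2 : L} (h1 : y1 ^ 2 + x1 * y1 = x1 ^ 3 + a * x1 ^ 2 + b)
    (h2 : y2 ^ 2 + x2 * y2 = x2 ^ 3 + a * x2 ^ 2 + b) (h : x1 ≠ x2) :
    ∃ l y : L, y ^ 2 + (l ^ 2 + l - a - x1 - x2) * y =
      (l ^ 2 + l - a - x1 - x2) ^ 3 + a * (l ^ 2 + l - a - x1 - x2) ^ 2 + b := by
  have hD : x1 - x2 ≠ 0 := sub_ne_zero.2 h
  obtain ⟨l, hl⟩ : ∃ l : L, l * (x1 - x2) = y1 - y2 := ⟨(y1 - y2) / (x1 - x2), by field_simp⟩
  obtain ⟨ν, hν⟩ : ∃ ν : L, ν = y1 - l * x1 := ⟨_, rfl⟩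
  have e1 : y1 = l * x1 + ν := by rw [hν]; ring
  have e2 : y2 = l * x2 + ν := by rw [hν]; linear_combination hl
  subst e1
  subst e2
  refine ⟨l, l * (l ^ 2 + l - a - x1 - x2) + ν, ?_⟩
  apply mul_left_cancel₀ hD
  linear_combination ((l ^ 2 + l - a - x1 - x2) - x2) * h1 -
    ((l ^ 2 + l - a - x1 - x2) - x1) * h2

variable [CharP L 2]

theorem c2 : (2 : L) = 0 := CharTwo.two_eq_zero

theorem AS_add {x y : L} (hx : AS x) (hy : AS y) : AS (x + y) := by
  obtain ⟨z, rfl⟩ := hx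
  obtain ⟨w, rfl⟩ := hy
  exact ⟨z + w, by linear_combination (-(z * w)) * (c2 : (2 : L) = 0)⟩

theorem LV_iff (a b α : L) : LV a b α ↔ AS α ∨ PT a b α := by
  unfold LV PT
  refine or_congr_right ?_
  constructor
  · rintro ⟨x, h1, h2, h3⟩
    by_cases hx : x = 0
    · obtain ⟨s, hs⟩ := h3 hx
      refine ⟨x, s, ?_, h1⟩
      rw [hx, hs]
      ring
    · obtain ⟨z, hz⟩ := h2 hx
      refine ⟨x, x * z, ?_, h1⟩
      have h4 : x ^ 2 * (x + a + b / x ^ 2) = x ^ 3 + a * x ^ 2 + b := by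
        field_simp
      rw [← h4, hz]
      ring
  · rintro ⟨x, y, h1, h2⟩
    refine ⟨x, h2, ?_, ?_⟩
    · intro hx
      refine ⟨y / x, ?_⟩
      field_simp
      linear_combination -h1
    · intro hx
      refine ⟨y, ?_⟩
      rw [hx] at h1
      linear_combination -h1

theorem PT_add {a b α β : L} (hα : PT a b α) (hβ : PT a b β) :
    AS (α + β) ∨ PT a b (α + β) := by
  obtain ⟨x1, y1, h1, g1⟩ := hα
  obtain ⟨x2, y2, h2, g2⟩ := hβ
  by_cases h : x1 = x2
  · left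
    have h3 := AS_add g1 g2
    have e : (α + x1 + a) + (β + x2 + a) = α + β := by
      rw [h]
      linear_combination (x2 + a) * (c2 : (2 : L) = 0)
    rwa [e] at h3
  · right
    obtain ⟨l, y, hy⟩ := third h1 h2 h
    refine ⟨_, y, hy, ?_⟩
    have h3 := AS_add (AS_add g1 g2) (⟨l, rfl⟩ : AS (l ^ 2 + l))
    have e : (α + x1 + a) + (β + x2 + a) + (l ^ 2 + l) =
        α + β + (l ^ 2 + l - a - x1 - x2) + a := by
      linear_combination (x1 + x2 + a) * (c2 : (2 : L) = 0)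
    rwa [e] at h3

theorem AS_PT {a b α β : L} (hα : AS α) (hβ : PT a b β) : PT a b (α + β) := by
  obtain ⟨x, y, h1, g1⟩ := hβ
  refine ⟨x, y, h1, ?_⟩
  have h3 := AS_add hα g1
  have e : α + (β + x + a) = α + β + x + a := by ring
  rwa [e] at h3

end

theorem lva : S_LVA := by
  intro L _ _ a b α β _ hα hβ
  rw [LV_iff] at hα hβ ⊢
  rcases hα with hα | hα
  · rcases hβ with hβ | hβ
    · exact Or.inl (AS_add hα hβ)
    · exact Or.inr (AS_PT hα hβ)
  · rcases hβ with hβ | hβ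
    · right
      rw [add_comm]
      exact AS_PT hβ hα
    · exact PT_add hα hβ

end Pool.Agent.H467.PU.Lva
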