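import Pool.Agent.H467.PG.SpecD

/-!
# The complete law: all local images, statements

Project PU (helper467): as PG, but with arbitrary finite local conditions at finitely many places.
-/

set_option autoImplicit false
set_option linter.all false

open Finset Filter WithZero
open Pool.Agent.TH115.GD
open Pool.Agent.H467.PT
open Pool.Agent.H467.GK
open Pool.Agent.H467.CT (AS Bas IsTau Std Ev LV LF cc)
open Pool.Agent.H467.PG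
open scoped Classical

namespace Pool.Agent.H467.PU

/-! ### Abstract part -/

/-- The probability that a random matrix with `n` rows and `m` columns over the field with two
elements has a left kernel with `2 ^ r` elements. -/
noncomputable def pcu (n m r : ℕ) : ℝ :=
  ({T : Fin m → Fin n → ZMod 2 |
    {e : Fin n → ZMod 2 | ∀ j, ∑ i, e i * T j i = 0}.ncard = 2 ^ r}.ncard : ℝ) / 2 ^ (n * m)

/-- Random matrices with independent columns, rectangular version of `S_LING`. -/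
def S_LINGU : Prop := ∀ (A κ ρ : Type) [AddCommGroup A] [Fintype A] [Fintype κ] [Fintype ρ]
  (C₀ C₁ : ℕ), Fintype.card κ + C₁ = Fintype.card ρ + C₀ → ∀ (X Y : A → κ → ρ → ZMod 2),
  (∀ a a' j i, X (a + a') j i = X a j i + Y a' j i) →
  (∀ a a' j i, Y (a + a') j i = Y a j i + Y a' j i) →
  ∀ (J Z : Finset κ) (rk : κ → ℕ) (R : κ → Finset ρ) (σ : ℝ),
  Disjoint J Z → Z.card = C₀ → (∀ i j, i ∉ J → j ∉ J → rk i = rk j → i = j) →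
  (∀ j, j ∉ J → j ∉ Z → ∀ z ∈ Z, rk j < rk z) → (∀ a, ∀ j ∈ J, ∀ i, Y a j i = 0) →
  (∀ ε : κ → ZMod 2, (∀ j, j ∉ J → ε j = 0) → (∀ i, ∑ j, ε j * X 0 j i = 0) → ε = 0) →
  (∀ j, j ∉ J → ∀ y : ρ → ZMod 2, ∃ a, (∀ l, l ≠ j → ∀ i, Y a l i = 0) ∧
    ∀ i ∈ R j, Y a j i = y i) → (∀ z ∈ Z, R z = Finset.univ) →
  ∑ j ∈ Finset.univ.filter (fun j => j ∉ J ∧ j ∉ Z), (1 / 2 : ℝ) ^ (R j).card *
    2 ^ (J.card + (Finset.univ.filter (fun l => l ∉ J ∧ rk l < rk j)).card) ≤ σ →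
  ∀ r : ℕ, |({a : A | {e : ρ → ZMod 2 | ∀ j, ∑ i, e i * X a j i = 0}.ncard = 2 ^ r}.ncard : ℝ) -
    pcu C₁ C₀ r * (Fintype.card A : ℝ)| ≤ σ * (Fintype.card A : ℝ)

/-- The limit of the probabilities: corank `s` for the columns, `r` for the rows. -/
noncomputable def alq (s r : ℕ) : ℝ :=
  (1 / 2) ^ (s * r) * (∏' i : ℕ, (1 - (1 / 2 : ℝ) ^ (i + 1))) /
    ((∏ i ∈ Finset.range s, (1 - (1 / 2 : ℝ) ^ (i + 1))) *
      ∏ i ∈ Finset.range r, (1 - (1 / 2 : ℝ) ^ (i + 1)))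

def S_PNU : Prop :=
  (∀ s r : ℕ, Tendsto (fun n => pcu (n + r) (n + s) r) atTop (nhds (alq s r))) ∧
  (∀ s r : ℕ, alq s r = alq r s) ∧ (∀ s r : ℕ, 0 < alq s r) ∧
  (∀ u : ℕ, HasSum (fun r => alq (r + u) r) 1)

/-! ### Local conditions at `B` -/

section loc

variable {K : Type} [Field K] [CharP K 2]

/-- The classes `w j i` are a basis of the local conditions at the places of `B`, with poles of order
at most `m₀ j`. -/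
structure WD (B : Finset (PV K)) (d : PV K → ℕ) (w : ∀ j : PV K, Fin (d j) → Qc K)
    (m₀ : PV K → ℕ) : Prop where
  ind : ∀ j ∈ B, ∀ T : Finset (Fin (d j)), Spl j (∑ i ∈ T, w j i) → T = ∅
  bnd : ∀ j ∈ B, ∀ i, poq j (w j i) ≤ m₀ j

/-- The local class of `α` is a combination of the classes `w j i`. -/
def InW (d : PV K → ℕ) (w : ∀ j : PV K, Fin (d j) → Qc K) (j : PV K) (α : Qc K) : Prop :=
  ∃ T : Finset (Fin (d j)), Spl j (α + ∑ i ∈ T, w j i)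

/-- The Selmer group with the local conditions `w` at `B`, and those of `SV χ` at the other places. -/
def SVW (B : Finset (PV K)) (d : PV K → ℕ) (w : ∀ j : PV K, Fin (d j) → Qc K) (χ : Qc K) :
    Set (Qc K) :=
  {α | (∀ j ∈ B, InW d w j α) ∧ ∀ j : PV K, j ∉ B →
    (poq j χ = 0 → poq j α = 0) ∧ (poq j χ ≠ 0 → Spl j α ∨ Spl j (α + χ))}

end loc

section ker

variable {k K : Type} [Field k] [Field K] [CharP K 2] [Algebra k K] {F : GF k K}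
  {B : Finset (PV K)}

/-- The left kernel. -/
def LKW (bd : BD F B) (U : Finset (Ob B)) (d : PV K → ℕ) (w : ∀ j : PV K, Fin (d j) → Qc K)
    (χ : Qc K) : Set (Fin bd.n ⊕ U → ZMod 2) :=
  {e | (∀ j ∈ B, ∀ l : Fin (d j), ∑ i, e i * pr F.G j (ro bd U i) (w j l) = 0) ∧
    ∀ j ∈ U, ∑ i, e i * tt F.G j.1 (ro bd U i) χ = 0}

end ker

/-- The Selmer group and the left kernel. -/
def S_SVMW : Prop := ∀ (k K : Type) [Field k] [Finite k] [Field K] [CharP K 2] [Algebra k K]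
  (F : GF k K) (B : Finset (PV K)) (bd : BD F B) (U : Finset (Ob B)) (d : PV K → ℕ)
  (w : ∀ j : PV K, Fin (d j) → Qc K) (m₀ : PV K → ℕ) (χ : Qc K), WD B d w m₀ →
  (∀ j : Ob B, j ∉ U → poq j.1 χ = 0) →
    (SVW B d w χ).Finite ∧
    (SVW B d w χ).ncard * 2 ^ B.card = 2 * (LKW bd U d w χ).ncard * 2 ^ (∑ j ∈ B, d j)

/-- The constant columns are linearly independent. -/
def S_JINW : Prop := ∀ (k K : Type) [Field k] [Finite k] [Field K] [CharP K 2] [Algebra k K]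
  (F : GF k K) (B : Finset (PV K)) (bd : BD F B) (U U₁ : Finset (Ob B)) (d : PV K → ℕ)
  (w : ∀ j : PV K, Fin (d j) → Qc K) (m₀ : PV K → ℕ) (χ : Qc K), WD B d w m₀ → U₁ ⊆ U →
  (∀ α : Qc K, α ≠ 0 → (∀ j ∈ B, poq j α ≤ m₀ j) → (∀ j ∈ U₁, poq j.1 α ≤ poq j.1 χ) →
    (∀ j : Ob B, j ∉ U₁ → poq j.1 α = 0) → ∃ p ∈ U, p ∉ U₁ ∧ ¬ Spl p.1 α) →
  ∀ (ε : ∀ j : PV K, Fin (d j) → ZMod 2) (ε' : Ob B → ZMod 2),
    (∀ i : Fin bd.n ⊕ U, ∑ j ∈ B, ∑ l, ε j l * pr F.G j (ro bd U i) (w j l) +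
      ∑ j ∈ U₁, ε' j * tt F.G j.1 (ro bd U i) χ = 0) →
    (∀ j ∈ B, ∀ l, ε j l = 0) ∧ ∀ j ∈ U₁, ε' j = 0

section kaw

variable {k K : Type} [Field k] [Field K] [CharP K 2] [Algebra k K] {F : GF k K}
  {B : Finset (PV K)}

/-- The left kernel of the matrix of `a`, without the column `v₀`. -/
def KAW (bd : BD F B) (U : Finset (Ob B)) (L : ℕ) (v₀ : Ob B) (d : PV K → ℕ)
    (w : ∀ j : PV K, Fin (d j) → Qc K) (χ₁ a : Qc K) : Set (Fin bd.n ⊕ U → ZMod 2) :=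
  {e | (∀ j ∈ B, ∀ l : Fin (d j), ∑ i, e i * pr F.G j (ro bd U i) (w j l) = 0) ∧
    (∀ j ∈ U, F.R.deg j.1 ≤ L → ∑ i, e i * tt F.G j.1 (ro bd U i) χ₁ = 0) ∧
    ∀ j ∈ U, L < F.R.deg j.1 → j ≠ v₀ →
      ∑ i, e i * pr F.G j.1 (ro bd U i) (χ₁ + a) = 0}

end kaw

/-- The column `v₀` is dependent of the others. -/
def S_FIBKW : Prop := ∀ (k K : Type) [Field k] [Finite k] [Field K] [CharP K 2] [Algebra k K]
  (F : GF k K) (B : Finset (PV K)) (bd : BD F B) (U : Finset (Ob B)) (d : PV K → ℕ)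
  (w : ∀ j : PV K, Fin (d j) → Qc K) (χ : Qc K) (v₀ : Ob B), (∀ j ∈ B, InW d w j χ) →
  v₀ ∈ U → (∀ j : Ob B, j ∉ U → poq j.1 χ = 0) → poq v₀.1 χ ≠ 0 →
  ∀ e : Fin bd.n ⊕ U → ZMod 2,
    (∀ j ∈ B, ∀ l : Fin (d j), ∑ i, e i * pr F.G j (ro bd U i) (w j l) = 0) →
    (∀ j ∈ U, j ≠ v₀ → ∑ i, e i * tt F.G j.1 (ro bd U i) χ = 0) → e ∈ LKW bd U d w χ

/-- Application of `S_LINGU` (compare `PG.Fib.ling_app`). -/
def S_LAPW : Prop := ∀ (k K : Type) [Field k] [Finite k] [Field K] [CharP K 2] [Algebra k K]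
  (F : GF k K) (B : Finset (PV K)) (bd : BD F B) (U : Finset (Ob B)) (d : PV K → ℕ)
  (w : ∀ j : PV K, Fin (d j) → Qc K) (m₀ : PV K → ℕ) (L C₀ C₁ : ℕ) (θ : ℝ) (χ₁ : Qc K),
  WD B d w m₀ → C₁ + ∑ j ∈ B, d j = C₀ + B.card → 24 ≤ L → (AJ F.R B U L).Finite →
  GoodG (sysB F.R B) (Nat.card k) (Rl bd) L θ U →
  (∀ α : Qc K, α ≠ 0 → (∀ j ∈ B, poq j α ≤ m₀ j) →
      (∀ j ∈ U, F.R.deg j.1 ≤ L → poq j.1 α ≤ poq j.1 χ₁) →
      (∀ j : Ob B, ¬ (j ∈ U ∧ F.R.deg j.1 ≤ L) → poq j.1 α = 0) →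
      ∃ p ∈ U, L < F.R.deg p.1 ∧ ¬ Spl p.1 α) →
  ∀ (v₀ : Ob B) (Z : Finset (Ob B)) (rk : Ob B → ℕ), v₀ ∈ U → L < F.R.deg v₀.1 →
    v₀ ∉ Z → Z ⊆ U.filter (fun p => L < F.R.deg p.1) → Z.card = C₀ →
    (∀ z ∈ Z, (sysB F.R B).dg U ≤ Yf (F.R.deg z.1)) →
    (∀ i ∈ U.filter (fun p => L < F.R.deg p.1), ∀ j ∈ U.filter (fun p => L < F.R.deg p.1),
      rk i = rk j → i = j) →
    (∀ p ∈ U, L < F.R.deg p.1 → p ∉ Z → p ≠ v₀ → ∀ z ∈ Z, rk p < rk z) →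
    (∀ p ∈ U, L < F.R.deg p.1 → p ≠ v₀ → rk p < rk v₀) →
    ∑ j ∈ U.filter (fun p => L < F.R.deg p.1 ∧ p ∉ Z ∧ p ≠ v₀),
      (1 / 2 : ℝ) ^ ((U.filter (fun p => L < F.R.deg p.1 ∧
        F.R.deg p.1 ≤ Yf (F.R.deg j.1))).card) *
        2 ^ (1 + (U.filter (fun p => L < F.R.deg p.1 ∧ rk p < rk j)).card) ≤
          θ + (1 / 2) ^ C₀ →
    (∀ V ⊆ U, v₀ ∉ V → ∀ e, (V.Nonempty ∨ e ≠ 0) → ¬ Rl bd v₀ V e) → ∀ r : ℕ,
    |({a ∈ AJ F.R B U L | (KAW bd U L v₀ d w χ₁ a).ncard = 2 ^ r}.ncard : ℝ) -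
      pcu C₁ C₀ r * ((AJ F.R B U L).ncard : ℝ)| ≤
        ((θ + (1 / 2) ^ C₀) * 2 ^ (∑ j ∈ B, d j)) * ((AJ F.R B U L).ncard : ℝ)

/-- The distribution in a fibre. -/
def S_FIBW : Prop := ∀ (k K : Type) [Field k] [Finite k] [Field K] [CharP K 2] [Algebra k K]
  (F : GF k K) (B : Finset (PV K)) (bd : BD F B) (U : Finset (Ob B)) (d : PV K → ℕ)
  (w : ∀ j : PV K, Fin (d j) → Qc K) (m₀ : PV K → ℕ) (L C₀ C₁ : ℕ) (θ : ℝ)
  (χ₁ : Qc K), WD B d w m₀ → (∀ j ∈ B, InW d w j χ₁) → C₁ + ∑ j ∈ B, d j = C₀ + B.card →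
  24 ≤ L → 1 ≤ C₀ → 0 ≤ θ → θ < (1 / 2) ^ (C₀ + 2) →
  GoodG (sysB F.R B) (Nat.card k) (Rl bd) L θ U →
  C₀ + 2 ≤ (U.filter (fun p => L < F.R.deg p.1)).card →
  (∀ j ∈ U, F.R.deg j.1 ≤ L → poq j.1 χ₁ ≠ 0) →
  (∀ j ∈ U, L < F.R.deg j.1 → poq j.1 χ₁ ≤ 1) → (∀ j : Ob B, j ∉ U → poq j.1 χ₁ = 0) →
  (∀ α : Qc K, α ≠ 0 → (∀ j ∈ B, poq j α ≤ m₀ j) →
    (∀ j ∈ U, F.R.deg j.1 ≤ L → poq j.1 α ≤ poq j.1 χ₁) →
    (∀ j : Ob B, ¬ (j ∈ U ∧ F.R.deg j.1 ≤ L) → poq j.1 α = 0) →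
    ∃ p ∈ U, L < F.R.deg p.1 ∧ ¬ Spl p.1 α) →
  (Phi F.R B U L χ₁).Finite ∧
  (Nat.card k : ℝ) ^ ((sysB F.R B).dg (U.filter (fun p => L < F.R.deg p.1))) ≤
    ((Phi F.R B U L χ₁).ncard : ℝ) *
      2 ^ (B.card + (U.filter (fun p => F.R.deg p.1 ≤ L)).card + 1) ∧
  ∀ r s : ℕ, s + C₁ = r + C₀ →
    |({χ ∈ Phi F.R B U L χ₁ | (SVW B d w χ).ncard = 2 ^ (s + 1)}.ncard : ℝ) -
      pcu C₁ C₀ r * ((Phi F.R B U L χ₁).ncard : ℝ)| ≤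
        ((6 * θ + 2 * (1 / 2) ^ C₀) * 2 ^ (∑ j ∈ B, d j)) * ((Phi F.R B U L χ₁).ncard : ℝ)

/-! ### Counting -/

section nice

variable {k K : Type} [Field k] [Field K] [CharP K 2] [Algebra k K] {F : GF k K}
  {B : Finset (PV K)}

/-- Nice divisors. -/
structure NiceW (bd : BD F B) (m₀ : PV K → ℕ) (L M C₀ : ℕ) (θ : ℝ) (D : Ob B →₀ ℕ) : Prop where
  sqf : ∀ p : Ob B, L < F.R.deg p.1 → D p ≤ 1
  sml : ∑ p ∈ D.support.filter (fun p => F.R.deg p.1 ≤ L), D p * F.R.deg p.1 ≤ M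
  good : GoodG (sysB F.R B) (Nat.card k) (Rl bd) L θ D.support
  many : C₀ + 2 ≤ (D.support.filter (fun p => L < F.R.deg p.1)).card
  hit : ∀ α : Qc K, α ≠ 0 → (∀ j ∈ B, poq j α ≤ m₀ j) →
    (∀ j : Ob B, L < F.R.deg j.1 → poq j.1 α = 0) →
    (∀ j : Ob B, F.R.deg j.1 ≤ L → poq j.1 α ≤ 2 * M) →
    ∃ p ∈ D.support, L < F.R.deg p.1 ∧ ¬ Spl p.1 α

end nice

/-- Most divisors are nice. -/
def S_NICW : Prop := ∀ (k K : Type) [Field k] [Finite k] [CharP k 2] [Field K] [CharP K 2]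
  [Algebra k K], IsFF k K → ∀ (F : GF k K) (B : Finset (PV K)) (bd : BD F B) (m₀ : PV K → ℕ)
  (C₀ : ℕ) (θ ε : ℝ), 0 < θ → 0 < ε → ∃ L : ℕ, 24 ≤ L ∧ ∃ M m₁ : ℕ, ∀ m, m₁ ≤ m →
    ({D : Ob B →₀ ℕ | dgf (sysB F.R B) D = m ∧ ¬ NiceW bd m₀ L M C₀ θ D}.ncard : ℝ) ≤
      ε * (Nat.card k : ℝ) ^ m

/-- The distribution for a nice divisor. -/
def S_OMDW : Prop := ∀ (k K : Type) [Field k] [Finite k] [CharP k 2] [Field K] [CharP K 2]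
  [Algebra k K], ∀ (F : GF k K) (B : Finset (PV K)) (bd : BD F B) (c : PV K → K) (d : PV K → ℕ)
  (w : ∀ j : PV K, Fin (d j) → Qc K) (m₀ : PV K → ℕ)
  (L M C₀ C₁ : ℕ) (θ : ℝ) (D : Ob B →₀ ℕ), WD B d w m₀ → (∀ j ∈ B, InW d w j (mkq (c j))) →
  C₁ + ∑ j ∈ B, d j = C₀ + B.card → 24 ≤ L → 1 ≤ C₀ → 0 < θ → θ < (1 / 2) ^ (C₀ + 2) →
  NiceW bd m₀ L M C₀ θ D → ∀ r s : ℕ, s + C₁ = r + C₀ →
    |({χ ∈ OmD B c D | (SVW B d w χ).ncard = 2 ^ (s + 1)}.ncard : ℝ) -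
      pcu C₁ C₀ r * ((OmD B c D).ncard : ℝ)| ≤
        ((6 * θ + 2 * (1 / 2) ^ C₀) * 2 ^ (∑ j ∈ B, d j)) * ((OmD B c D).ncard : ℝ)

/-- The distribution for given local classes at `B`. -/
def S_COREW : Prop := ∀ (k K : Type) [Field k] [Finite k] [CharP k 2] [Field K] [CharP K 2]
  [Algebra k K], IsFF k K → ∀ (F : GF k K) (B : Finset (PV K)), F.B₁ ⊆ B → ∀ (c : PV K → K)
  (d : PV K → ℕ) (w : ∀ j : PV K, Fin (d j) → Qc K) (m₀ : PV K → ℕ), WD B d w m₀ →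
  (∀ j ∈ B, InW d w j (mkq (c j))) → ∀ r s : ℕ, s + B.card = r + ∑ j ∈ B, d j →
    Tendsto (fun m : ℕ => ({χ ∈ Om F.R B c m | (SVW B d w χ).ncard = 2 ^ (s + 1)}.ncard : ℝ) /
      ((Om F.R B c m).ncard : ℝ)) atTop (nhds (alq s r))

section locw

variable {K : Type} [Field K] [CharP K 2]

/-- `W` is a group of local classes at `j` with `2 ^ n` elements. -/
def LW (j : PV K) (W : Set (Qc K)) (n : ℕ) : Prop :=
  ∃ w : Fin n → Qc K, (∀ T : Finset (Fin n), Spl j (∑ i ∈ T, w i) → T = ∅) ∧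
    ∀ α, α ∈ W ↔ ∃ T : Finset (Fin n), Spl j (α + ∑ i ∈ T, w i)

/-- The Selmer group with the local conditions `W j` at the places of `S`, and those of `SV χ` at
the other places. -/
def SVL (S : Finset (PV K)) (W : PV K → Set (Qc K)) (χ : Qc K) : Set (Qc K) :=
  {α | (∀ j ∈ S, α ∈ W j) ∧ ∀ j : PV K, j ∉ S →
    (poq j χ = 0 → poq j α = 0) ∧ (poq j χ ≠ 0 → Spl j α ∨ Spl j (α + χ))}

end locw

/-- The number of the classes which satisfy a local condition `P` at `S`. -/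
def S_DSTC : Prop := ∀ (k K : Type) [Field k] [Finite k] [CharP k 2] [Field K] [CharP K 2]
  [Algebra k K], IsFF k K → ∀ (F : GF k K) (a₀ : K) (S : Finset (PV K)), F.B₁ ⊆ S →
  (∀ j : PV K, j ∉ S → j.1 a₀ ≤ 1) → ∀ P : Qc K → Prop,
  (∀ χ χ', (∀ j ∈ S, Spl j (χ + χ')) → P χ → P χ') → (∃ χ, P χ) →
  (∃ C : ℝ, 0 < C ∧ ∀ m : ℕ, {χ : Qc K | DegLE F.R (χ + mkq a₀) m}.Finite ∧
    ({χ : Qc K | DegLE F.R (χ + mkq a₀) m}.ncard : ℝ) ≤ C * (Nat.card k : ℝ) ^ (2 * m)) ∧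
  (∃ c' : ℝ, 0 < c' ∧ ∃ m₀ : ℕ, ∀ m, m₀ ≤ m → c' * (Nat.card k : ℝ) ^ (2 * m) ≤
    ({χ : Qc K | P χ ∧ DegLE F.R (χ + mkq a₀) m}.ncard : ℝ))

/-- The distribution for all classes which satisfy a local condition `P` at `S`, where the local
conditions `W j χ` of the Selmer group depend on the local class of `χ`. -/
def S_DSTW : Prop := ∀ (k K : Type) [Field k] [Finite k] [CharP k 2] [Field K] [CharP K 2]
  [Algebra k K], IsFF k K → ∀ (F : GF k K) (a₀ : K) (S : Finset (PV K)), F.B₁ ⊆ S →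
  (∀ j : PV K, j ∉ S → j.1 a₀ ≤ 1) → ∀ P : Qc K → Prop,
  (∀ χ χ', (∀ j ∈ S, Spl j (χ + χ')) → P χ → P χ') → (∃ χ, P χ) →
  ∀ (W : PV K → Qc K → Set (Qc K)) (dm : PV K → Qc K → ℕ),
  (∀ j ∈ S, ∀ χ, LW j (W j χ) (dm j χ)) →
  (∀ j ∈ S, ∀ χ χ', Spl j (χ + χ') → W j χ = W j χ') → (∀ j ∈ S, ∀ χ, χ ∈ W j χ) →
  ∀ r s : ℕ, (∀ χ, P χ → s + S.card = r + ∑ j ∈ S, dm j χ) →
  Tendsto (fun m : ℕ =>
    ({χ : Qc K | (P χ ∧ DegLE F.R (χ + mkq a₀) m) ∧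
      (SVL S (fun j => W j χ) χ).ncard = 2 ^ (s + 1)}.ncard : ℝ) /
    ({χ : Qc K | P χ ∧ DegLE F.R (χ + mkq a₀) m}.ncard : ℝ)) atTop (nhds (alq s r))

/-! ### Local theory and descent -/

/-- The local images of the two isogenies are orthogonal. -/
def S_ORT : Prop := ∀ (L : Type) [Field L] [CharP L 2] (a b α d : L), b ≠ 0 → d ≠ 0 →
  LV a b α → LF a b d → IsSquare d ∨ ∃ r : L, AS (α + d * r ^ 2)

/-- The local image of the Verschiebung is a group. -/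
def S_LVA : Prop := ∀ (L : Type) [Field L] [CharP L 2] (a b α β : L), b ≠ 0 →
  LV a b α → LV a b β → LV a b (α + β)

section wl

variable {K : Type} [Field K] [CharP K 2]

/-- The local image at `j` for the Frobenius twist of the curve with the coefficients `a`, `b`,
`χ` the class of `a`. -/
def Wl (b : K) (j : PV K) (χ : Qc K) : Set (Qc K) :=
  {α | ∀ x a : K, mkq x = α → mkq a = χ → LV (algebraMap K (Cm j.1) (a ^ 2))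
    (algebraMap K (Cm j.1) (b ^ 2)) (algebraMap K (Cm j.1) x)}

end wl

/-- The local image consists of classes with bounded poles. -/
def S_LVB : Prop := ∀ (K : Type) [Field K] [CharP K 2] (j : PV K),
  Finite (IsLocalRing.ResidueField j.1.valuationSubring) → ∀ b : K, b ≠ 0 → ∀ χ : Qc K,
    ∃ n : ℕ, ∀ α ∈ Wl b j χ, poq j α ≤ n

/-- Finite groups of local classes have bases. -/
def S_LBS : Prop := ∀ (K : Type) [Field K] [CharP K 2] (j : PV K),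
  Finite (IsLocalRing.ResidueField j.1.valuationSubring) → ∀ W : Set (Qc K),
    (∀ α β, α ∈ W → β ∈ W → α + β ∈ W) → (∀ α, Spl j α → α ∈ W) →
    (∃ n : ℕ, ∀ α ∈ W, poq j α ≤ n) → ∃ n : ℕ, LW j W n

/-- Properties of the local images. -/
def S_LWX : Prop := ∀ (K : Type) [Field K] [CharP K 2] (j : PV K),
  Finite (IsLocalRing.ResidueField j.1.valuationSubring) → ∀ b : K, b ≠ 0 →
  (∀ χ : Qc K, ∃ n : ℕ, LW j (Wl b j χ) n) ∧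
  (∀ χ χ' : Qc K, Spl j (χ + χ') → Wl b j χ = Wl b j χ') ∧ (∀ χ : Qc K, χ ∈ Wl b j χ) ∧
  (∀ a : K, Bal j.1 a b → LW j (Wl b j (mkq a)) 1 ∧ ∀ α : Qc K, α ∈ Wl b j (mkq a) ↔
    (poq j (mkq a) = 0 → poq j α = 0) ∧ (poq j (mkq a) ≠ 0 → Spl j α ∨ Spl j (α + mkq a))) ∧
  (∃ N : ℕ, ∀ χ : Qc K, ∀ n : ℕ, LW j (Wl b j χ) n → n ≤ N) ∧
  (∀ (W : Set (Qc K)) (n n' : ℕ), LW j W n → LW j W n' → n = n')

/-- If the Selmer group has two elements and the numbers of the local conditions are balanced, then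
the classes `x` are trivial. -/
def S_FULW : Prop := ∀ (k K : Type) [Field k] [Finite k] [Field K] [CharP K 2] [Algebra k K]
  (F : GF k K) (S : Finset (PV K)), F.B₁ ⊆ S → ∀ (d : PV K → ℕ)
  (w : ∀ j : PV K, Fin (d j) → Qc K) (m₀ : PV K → ℕ) (χ : Qc K), WD S d w m₀ →
  ∑ j ∈ S, d j = S.card → (SVW S d w χ).ncard = 2 → ∀ x : K, x ≠ 0 →
  (∀ j ∈ S, ∀ l, pr F.G j x (w j l) = 0) →
  (∀ j : PV K, j ∉ S → (poq j χ = 0 → Ev (j.1 x)) ∧ (poq j χ ≠ 0 → pr F.G j x χ = 0)) →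
  IsSquare x

/-- The conclusion for one twist. -/
def S_ONEW : Prop := ∀ (k K : Type) [Field k] [Finite k] [CharP k 2] [Field K] [CharP K 2]
  [Algebra k K], IsFF k K → ∀ (F : GF k K) (a b : K), b ≠ 0 → ∀ S : Finset (PV K), F.B₁ ⊆ S →
  (∀ j : PV K, j ∉ S → j.1 b = 1) →
  (∀ α : K, AllVA (a ^ 2) (b ^ 2) α ↔ mkq α ∈ SVL S (fun j => Wl b j (mkq a)) (mkq a)) ∧
  ∀ dm : PV K → ℕ, (∀ j ∈ S, LW j (Wl b j (mkq a)) (dm j)) → ∑ j ∈ S, dm j = S.card →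
    (SVL S (fun j => Wl b j (mkq a)) (mkq a)).ncard = 2 → ¬ AS a →
    Finite (Pt (cc a b) K) ∧ Sha2A (cc a b)

end Pool.Agent.H467.PU
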