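import Pool.Agent.H467.PU.Spec
import Pool.Agent.H467.CT.Crv2
import Pool.Agent.H467.GK.Fink

/-!
# The complete law: ranks, statements

Project PU (helper467).
-/

set_option autoImplicit false
set_option linter.all false

open Finset Filter WithZero WeierstrassCurve WeierstrassCurve.Affine
open Pool.Agent.TH115.GD
open Pool.Agent.H467.PT
open Pool.Agent.H467.GK
open Pool.Agent.H467.CT (AS Bas IsTau Std Ev LV LF cc fr xx)
open Pool.Agent.H467.PG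
open scoped Classical

namespace Pool.Agent.H467.PU

/-- The group `G / 2 G` has at most `N` elements. -/
def Idx (G : Type) [AddCommGroup G] (N : ℕ) : Prop :=
  ∃ s : Finset G, s.card ≤ N ∧ ∀ P : G, ∃ g ∈ s, ∃ Q : G, P = g + (Q + Q)

/-- Heights and translations. -/
def S_HTT : Prop := ∀ (O K : Type) [CommRing O] [IsDedekindDomain O] [Field K] [CharP K 2]
  [Algebra O K] [IsFractionRing O K] [Finite (ClassGroup O)] (w : Vl K),
  (∀ x : O, x ≠ 0 → 1 ≤ w (algebraMap O K x)) → ∀ (W : Affine K) (A B : K), Std W A B →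
  ∀ Q : W.Point, ∃ c : ℕ, ∀ P : W.Point, Fink.ht O w P ≤ 2 * Fink.ht O w (Q + P) + c

/-- Weak Mordell-Weil implies Mordell-Weil. -/
def S_MWF : Prop := ∀ (k K : Type) [Field k] [Finite k] [CharP k 2] [Field K] [CharP K 2]
  [Algebra k K], IsFF k K → ∀ (W : Affine K) (A B : K), Std W A B →
  (∃ N, Idx W.Point N) → AddGroup.FG W.Point

/-- The rank of a finitely generated group. -/
def S_RKF : Prop := ∀ (G : Type) [AddCommGroup G], AddGroup.FG G → ∀ n : ℕ,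
  Idx G (2 ^ (n + 1)) → (∃ T : G, T ≠ 0 ∧ T + T = 0) → Module.finrank ℤ G ≤ n

/-- The number of the classes `x` in the dual Selmer group. -/
def S_FULG : Prop := ∀ (k K : Type) [Field k] [Finite k] [Field K] [CharP K 2] [Algebra k K]
  (F : GF k K) (S : Finset (PV K)), F.B₁ ⊆ S → ∀ (d : PV K → ℕ)
  (w : ∀ j : PV K, Fin (d j) → Qc K) (m₀ : PV K → ℕ) (χ : Qc K), WD S d w m₀ →
  ∀ r s : ℕ, s + S.card = r + ∑ j ∈ S, d j → (SVW S d w χ).ncard = 2 ^ (s + 1) →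
  ∃ T : Finset K, T.card ≤ 2 ^ r ∧ ∀ x : K, x ≠ 0 →
    (∀ j ∈ S, ∀ l, pr F.G j x (w j l) = 0) →
    (∀ j : PV K, j ∉ S → (poq j χ = 0 → Ev (j.1 x)) ∧ (poq j χ ≠ 0 → pr F.G j x χ = 0)) →
    ∃ f ∈ T, ∃ y : K, y ≠ 0 ∧ x = f * y ^ 2

/-- The same for the curve. -/
def S_FULC : Prop := ∀ (k K : Type) [Field k] [Finite k] [CharP k 2] [Field K] [CharP K 2]
  [Algebra k K], IsFF k K → ∀ (F : GF k K) (a b : K), b ≠ 0 → ∀ S : Finset (PV K), F.B₁ ⊆ S →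
  (∀ j : PV K, j ∉ S → j.1 b = 1) →
  ∀ dm : PV K → ℕ, (∀ j ∈ S, LW j (Wl b j (mkq a)) (dm j)) → ∀ r s : ℕ,
    s + S.card = r + ∑ j ∈ S, dm j →
    (SVL S (fun j => Wl b j (mkq a)) (mkq a)).ncard = 2 ^ (s + 1) →
    ∃ T : Finset K, T.card ≤ 2 ^ r ∧ ∀ x : K, x ≠ 0 → AllFA (a ^ 2) (b ^ 2) x →
      ∃ f ∈ T, ∃ y : K, y ≠ 0 ∧ x = f * y ^ 2

/-- Two-descent: the index of the doubles. -/
def S_TDI : Prop := ∀ (K : Type) [Field K] [CharP K 2] (a b : K), b ≠ 0 → ∀ (M N : ℕ),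
  (∃ s : Finset (Qc K), s.card ≤ M ∧ ∀ α : K, AllVA (a ^ 2) (b ^ 2) α → mkq α ∈ s) →
  (∃ T : Finset K, T.card ≤ N ∧ ∀ x : K, x ≠ 0 → AllFA (a ^ 2) (b ^ 2) x →
      ∃ f ∈ T, ∃ y : K, y ≠ 0 ∧ x = f * y ^ 2) →
  ∀ (W : Affine K), Std W (a ^ 2) (b ^ 2) → Idx W.Point (M * N)

/-- The rank of one twist. -/
def S_RONE : Prop := ∀ (k K : Type) [Field k] [Finite k] [CharP k 2] [Field K] [CharP K 2]
  [Algebra k K], IsFF k K → ∀ (F : GF k K) (a b : K), b ≠ 0 → ∀ S : Finset (PV K), F.B₁ ⊆ S →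
  (∀ j : PV K, j ∉ S → j.1 b = 1) →
  ∀ dm : PV K → ℕ, (∀ j ∈ S, LW j (Wl b j (mkq a)) (dm j)) → ∀ r s : ℕ,
    s + S.card = r + ∑ j ∈ S, dm j →
    (SVL S (fun j => Wl b j (mkq a)) (mkq a)).ncard = 2 ^ (s + 1) →
    AddGroup.FG (Pt (cc a b) K) ∧ Module.finrank ℤ (Pt (cc a b) K) ≤ s + r

end Pool.Agent.H467.PU
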