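import Pool.Agent.H467.PU.Spec2

/-!
# The complete law: tails, and the flat Selmer group, statements

Project PU (helper467).
-/

set_option autoImplicit false
set_option linter.all false

open Finset Filter
open Pool.Agent.TH115.GD
open Pool.Agent.H467.PT
open Pool.Agent.H467.GK
open Pool.Agent.H467.CT (AS Bas IsTau Std Ev LV LF cc)
open Pool.Agent.H467.PG
open scoped Classical

namespace Pool.Agent.H467.PU

/-- Finitely many families with the limiting distributions `alq`: the tail. -/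
def S_TGTT : Prop := ∀ (α : Type) (A : ℕ → Set α) (N : ℕ) (T : ℤ → Set α) (E : ℕ → Set α),
  (∀ X, (A X).Finite) → (∀ X, ∀ x ∈ A X, ∃ u ∈ Finset.Icc (-(N : ℤ)) N, x ∈ T u) →
  (∀ u ∈ Finset.Icc (-(N : ℤ)) N, (∀ X, A X ∩ T u = ∅) ∨
    ((∀ᶠ X in atTop, (A X ∩ T u).Nonempty) ∧ ∀ r s : ℕ, (s : ℤ) = r + u →
      Tendsto (fun X => ((A X ∩ T u ∩ E s).ncard : ℝ) / ((A X ∩ T u).ncard : ℝ)) atTop
        (nhds (alq s r)))) →
  (∀ s s', s ≠ s' → Disjoint (E s) (E s')) → (∀ u u', u ≠ u' → Disjoint (T u) (T u')) →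
  ∃ C : ℝ, ∀ n : ℕ, ∀ᶠ X in atTop,
    (1 - C * (1 / 2) ^ (n ^ 2 / 4)) * ((A X).ncard : ℝ) ≤
      ({x ∈ A X | ∃ u : ℤ, x ∈ T u ∧ ∃ r s : ℕ, (s : ℤ) = r + u ∧ s + r ≤ n ∧ x ∈ E s}.ncard : ℝ)

section sel

variable {K : Type} [Field K]

/-- The pair `(c, R)` gives a class of the 2-Selmer group of `W` (flat cohomology): `c` is a cocycle with
values in `W (Sep K)` which is locally trivial everywhere, and `2 c` is the coboundary of `R`. -/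
def Slp (W : WeierstrassCurve K) (p : ((Sep K ≃ₐ[K] Sep K) → Pt W (Sep K)) × Pt W (Sep K)) : Prop :=
  IsCoc W p.1 ∧ LTA W p.1 ∧ ∀ σ, p.1 σ + p.1 σ = act W (rs K σ) p.2 - p.2

/-- The pairs give the same class. -/
def Eqp (W : WeierstrassCurve K) (p q : ((Sep K ≃ₐ[K] Sep K) → Pt W (Sep K)) × Pt W (Sep K)) :
    Prop :=
  ∃ Q : Pt W (Sep K), Q + Q = p.2 - q.2 ∧ ∀ σ, p.1 σ - q.1 σ = act W (rs K σ) Q - Q

end sel

/-- The number of the classes. -/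
def S_FSL : Prop := ∀ (K : Type) [Field K] [CharP K 2] (A b t : K), b ≠ 0 → Bas t →
  ∀ (s : Finset (Qc K)) (T : Finset K), (∀ α : K, AllVA A (b ^ 2) α → mkq α ∈ s) →
  (∀ x : K, x ≠ 0 → AllFA A (b ^ 2) x → ∃ f ∈ T, ∃ y : K, y ≠ 0 ∧ x = f * y ^ 2) →
  ∃ F : Finset (((Sep K ≃ₐ[K] Sep K) → Pt (cc A (b ^ 2)) (Sep K)) × Pt (cc A (b ^ 2)) (Sep K)),
    F.card ≤ s.card * T.card ∧ ∀ p, Slp (cc A (b ^ 2)) p → ∃ q ∈ F, Eqp (cc A (b ^ 2)) p q

end Pool.Agent.H467.PU
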